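import Mathlib

/-!
# Averages of monomials over finite character groups
-/

set_option autoImplicit false

open Finset

noncomputable section

namespace Pool.Agent.K7.H19.PM2

section

variable {q : ℕ} [Fact q.Prime] {A : Type} [Fintype A] [DecidableEq A]

/-- the standard character -/
def ch (x : ZMod q) : ℂ := ZMod.stdAddChar x

theorem ch_add (x y : ZMod q) : ch (x + y) = ch x * ch y := AddChar.map_add_eq_mul _ _ _

theorem ch_zero : ch (0 : ZMod q) = 1 := AddChar.map_zero_eq_one _

theorem ch_norm (x : ZMod q) : ‖ch x‖ = 1 := AddChar.norm_apply _ _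

theorem ch_neg (x : ZMod q) : ch (-x) = (starRingEnd ℂ) (ch x) := by
  have h1 : ch (-x) * ch x = 1 := by rw [← ch_add, neg_add_cancel, ch_zero]
  have h2 : ch x * (starRingEnd ℂ) (ch x) = 1 := by
    rw [Complex.mul_conj, Complex.normSq_eq_norm_sq, ch_norm]
    simp
  calc ch (-x) = ch (-x) * (ch x * (starRingEnd ℂ) (ch x)) := by rw [h2, mul_one]
    _ = (ch (-x) * ch x) * (starRingEnd ℂ) (ch x) := by ring
    _ = _ := by rw [h1, one_mul]

theorem ch_ne_one {x : ZMod q} (hx : x ≠ 0) : ch x ≠ 1 := by
  intro h
  apply hx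
  apply ZMod.injective_stdAddChar
  rw [AddChar.map_zero_eq_one]
  exact h

/-- the average over all functions to `ZMod q` -/
def av (A : Type) [Fintype A] [DecidableEq A] (f : (A → ZMod q) → ℂ) : ℂ :=
  (∑ y, f y) / (Fintype.card (A → ZMod q) : ℂ)

theorem card_ne : (Fintype.card (A → ZMod q) : ℂ) ≠ 0 := by
  have : 0 < Fintype.card (A → ZMod q) := Fintype.card_pos
  exact_mod_cast this.ne'

theorem av_congr {f g : (A → ZMod q) → ℂ} (h : ∀ y, f y = g y) : av A f = av A g := by
  rw [funext h]

theorem av_sum {ι : Type*} (s : Finset ι) (f : ι → (A → ZMod q) → ℂ) :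
    av A (fun y => ∑ i ∈ s, f i y) = ∑ i ∈ s, av A (f i) := by
  unfold av
  rw [sum_comm, sum_div]

theorem av_add (f g : (A → ZMod q) → ℂ) : av A (fun y => f y + g y) = av A f + av A g := by
  unfold av
  rw [sum_add_distrib, add_div]

theorem av_mul (c : ℂ) (f : (A → ZMod q) → ℂ) : av A (fun y => c * f y) = c * av A f := by
  unfold av
  rw [← mul_sum, mul_div_assoc]

theorem char_av (v : A → ZMod q) :
    av A (fun y => ch (∑ a, y a * v a)) = if ∀ a, v a = 0 then 1 else 0 := by
  unfold av
  split_ifs with h
  · have : ∀ y : A → ZMod q, ch (∑ a, y a * v a) = 1 := by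
      intro y
      simp [h, ch_zero]
    simp only [this, sum_const, card_univ, nsmul_eq_mul, mul_one]
    exact div_self card_ne
  · push Not at h
    obtain ⟨a0, ha0⟩ := h
    rw [div_eq_zero_iff]
    left
    have h1 : ∑ y : A → ZMod q, ch (∑ a, y a * v a) =
        ch (v a0) * ∑ y : A → ZMod q, ch (∑ a, y a * v a) := by
      rw [mul_sum, ← Equiv.sum_comp (Equiv.addRight (Pi.single a0 1))]
      refine sum_congr rfl fun y _ => ?_
      rw [← ch_add]
      congr 1
      simp only [Equiv.coe_addRight, Pi.add_apply, add_mul, sum_add_distrib]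
      rw [add_comm]
      congr 1
      rw [sum_eq_single a0]
      · simp
      · intro b _ hb
        rw [Pi.single_eq_of_ne hb, zero_mul]
      · intro h
        exact absurd (mem_univ _) h
    have h2 : (1 - ch (v a0)) * ∑ y : A → ZMod q, ch (∑ a, y a * v a) = 0 := by
      rw [sub_mul, one_mul, ← h1, sub_self]
    rcases mul_eq_zero.1 h2 with h3 | h3
    · exact absurd (sub_eq_zero.1 h3).symm (ch_ne_one ha0)
    · exact h3

variable {J : Type} [Fintype J] [DecidableEq J]

/-- a point -/
def pt (v : A → J → ZMod q) (y : A → ZMod q) (j : J) : ℂ := ch (∑ a, y a * v a j)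

theorem pt_norm (v : A → J → ZMod q) (y : A → ZMod q) (j : J) : ‖pt v y j‖ = 1 := ch_norm _

theorem mon_eq (v : A → J → ZMod q) (y : A → ZMod q) (L : List J) :
    (L.map (pt v y)).prod = ch (∑ a, y a * (L.map (v a)).sum) := by
  induction L with
  | nil => simp [ch_zero]
  | cons j L ih =>
    rw [List.map_cons, List.prod_cons, ih, pt, ← ch_add]
    congr 1
    rw [← sum_add_distrib]
    refine sum_congr rfl fun a _ => ?_
    rw [List.map_cons, List.sum_cons, mul_add]

theorem mon2_av (v : A → J → ZMod q) (L1 L2 : List J) :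
    av A (fun y => (L1.map (pt v y)).prod * (starRingEnd ℂ) (L2.map (pt v y)).prod) =
      if ∀ a, (L1.map (v a)).sum = (L2.map (v a)).sum then 1 else 0 := by
  have h := char_av (q := q) (fun a => (L1.map (v a)).sum - (L2.map (v a)).sum)
  simp only [sub_eq_zero] at h
  rw [← h]
  refine av_congr fun y => ?_
  rw [mon_eq, mon_eq, ← ch_neg, ← ch_add]
  congr 1
  rw [← sub_eq_add_neg, ← sum_sub_distrib]
  exact sum_congr rfl fun a _ => by ring

theorem list_sum_count (f : J → ZMod q) (L : List J) :
    (L.map f).sum = ∑ j, (L.count j : ZMod q) * f j := by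
  induction L with
  | nil => simp
  | cons i L ih =>
    rw [List.map_cons, List.sum_cons, ih]
    have : ∀ j, ((i :: L).count j : ZMod q) * f j = (if i = j then f j else 0) + (L.count j : ZMod q) * f j := by
      intro j
      rw [List.count_cons]
      by_cases h : i = j
      · subst h
        simp
        ring
      · simp [h]
    rw [sum_congr rfl fun j _ => this j, sum_add_distrib, sum_ite_eq]
    simp

/-- the free case -/
def idv : J → J → ZMod q := fun a j => if a = j then 1 else 0

/-- independence up to length `D` -/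
def Ind (v : A → J → ZMod q) (D : ℕ) : Prop :=
  ∀ L1 L2 : List J, L1.length + L2.length ≤ D → (∀ a, (L1.map (v a)).sum = (L2.map (v a)).sum) →
    ∀ j, (L1.count j : ZMod q) = L2.count j

theorem idv_sum (L : List J) (a : J) : (L.map (idv (q := q) a)).sum = (L.count a : ZMod q) := by
  rw [list_sum_count]
  unfold idv
  simp

theorem transfer {v : A → J → ZMod q} {D : ℕ} (hv : Ind v D) (k l : ℕ) (L1 L2 : List J)
    (h : k + l + L1.length + L2.length ≤ D) :
    av A (fun y => (∑ j, pt v y j) ^ k * (starRingEnd ℂ) (∑ j, pt v y j) ^ l *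
      ((L1.map (pt v y)).prod * (starRingEnd ℂ) (L2.map (pt v y)).prod)) =
    av J (fun y => (∑ j, pt idv y j) ^ k * (starRingEnd ℂ) (∑ j, pt idv y j) ^ l *
      ((L1.map (pt (idv (q := q)) y)).prod * (starRingEnd ℂ) (L2.map (pt idv y)).prod)) := by
  induction k generalizing L1 with
  | zero =>
    induction l generalizing L2 with
    | zero =>
      simp only [pow_zero, one_mul]
      rw [mon2_av, mon2_av]
      have : (∀ a, (L1.map (v a)).sum = (L2.map (v a)).sum) ↔
          (∀ a, (L1.map (idv (q := q) a)).sum = (L2.map (idv (q := q) a)).sum) := by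
        constructor
        · intro h' a
          rw [idv_sum, idv_sum]
          exact hv L1 L2 (by omega) h' a
        · intro h' a
          rw [list_sum_count, list_sum_count]
          refine sum_congr rfl fun j _ => ?_
          have := h' j
          rw [idv_sum, idv_sum] at this
          rw [this]
      simp only [this]
    | succ l ih =>
      have e : ∀ {B : Type} [Fintype B] [DecidableEq B] (w : B → J → ZMod q),
          av B (fun y => (∑ j, pt w y j) ^ 0 * (starRingEnd ℂ) (∑ j, pt w y j) ^ (l + 1) *
            ((L1.map (pt w y)).prod * (starRingEnd ℂ) (L2.map (pt w y)).prod)) =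
          ∑ j, av B (fun y => (∑ j, pt w y j) ^ 0 * (starRingEnd ℂ) (∑ j, pt w y j) ^ l *
            ((L1.map (pt w y)).prod * (starRingEnd ℂ) ((j :: L2).map (pt w y)).prod)) := by
        intro B _ _ w
        rw [← av_sum]
        refine av_congr fun y => ?_
        simp only [List.map_cons, List.prod_cons, map_mul]
        have : ∀ j ∈ (univ : Finset J), (∑ j, pt w y j) ^ 0 * (starRingEnd ℂ) (∑ j, pt w y j) ^ l *
            ((L1.map (pt w y)).prod * ((starRingEnd ℂ) (pt w y j) *
              (starRingEnd ℂ) (L2.map (pt w y)).prod)) =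
            ((∑ j, pt w y j) ^ 0 * (starRingEnd ℂ) (∑ j, pt w y j) ^ l *
            ((L1.map (pt w y)).prod * (starRingEnd ℂ) (L2.map (pt w y)).prod)) *
              (starRingEnd ℂ) (pt w y j) := by
          intro j _
          ring
        rw [sum_congr rfl this, ← mul_sum, ← map_sum, pow_succ]
        ring
      rw [e v, e idv]
      refine sum_congr rfl fun j _ => ih (j :: L2) ?_
      rw [List.length_cons]
      omega
  | succ k ih =>
    have e : ∀ {B : Type} [Fintype B] [DecidableEq B] (w : B → J → ZMod q),
        av B (fun y => (∑ j, pt w y j) ^ (k + 1) * (starRingEnd ℂ) (∑ j, pt w y j) ^ l *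
          ((L1.map (pt w y)).prod * (starRingEnd ℂ) (L2.map (pt w y)).prod)) =
        ∑ j, av B (fun y => (∑ j, pt w y j) ^ k * (starRingEnd ℂ) (∑ j, pt w y j) ^ l *
          (((j :: L1).map (pt w y)).prod * (starRingEnd ℂ) (L2.map (pt w y)).prod)) := by
      intro B _ _ w
      rw [← av_sum]
      refine av_congr fun y => ?_
      simp only [List.map_cons, List.prod_cons]
      have : ∀ j ∈ (univ : Finset J), (∑ j, pt w y j) ^ k * (starRingEnd ℂ) (∑ j, pt w y j) ^ l *
          (pt w y j * (L1.map (pt w y)).prod * (starRingEnd ℂ) (L2.map (pt w y)).prod) =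
          ((∑ j, pt w y j) ^ k * (starRingEnd ℂ) (∑ j, pt w y j) ^ l *
          ((L1.map (pt w y)).prod * (starRingEnd ℂ) (L2.map (pt w y)).prod)) * pt w y j := by
        intro j _
        ring
      rw [sum_congr rfl this, ← mul_sum, pow_succ]
      ring
    rw [e v, e idv]
    refine sum_congr rfl fun j _ => ih (j :: L1) ?_
    rw [List.length_cons]
    omega

end

end Pool.Agent.K7.H19.PM2
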