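import Mathlib

/-!
# A law on `p` unit complex numbers with product one
-/

set_option autoImplicit false

open Finset

noncomputable section

namespace Pool.Agent.K7.H19.PM

theorem zsum {M : Type*} [AddCommMonoid M] (p : ℕ) [NeZero p] (f : ℕ → M) :
    ∑ a : ZMod p, f a.val = ∑ j ∈ Finset.range p, f j := by
  obtain ⟨k, rfl⟩ : ∃ k, p = k + 1 := Nat.exists_eq_succ_of_ne_zero (NeZero.ne p)
  exact Fin.sum_univ_eq_sum_range f (k + 1)

theorem zprod {M : Type*} [CommMonoid M] (p : ℕ) [NeZero p] (f : ℕ → M) :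
    ∏ a : ZMod p, f a.val = ∏ j ∈ Finset.range p, f j := by
  obtain ⟨k, rfl⟩ : ∃ k, p = k + 1 := Nat.exists_eq_succ_of_ne_zero (NeZero.ne p)
  exact Fin.prod_univ_eq_prod_range f (k + 1)

/-- the average over the affine group -/
theorem agl_pair {p : ℕ} [Fact p.Prime] (g : ZMod p → ZMod p → ℝ) {i j : ZMod p} (hij : i ≠ j) :
    ∑ α : ZMod p, ∑ β : ZMod p, (if α = 0 then 0 else g (α * i + β) (α * j + β)) =
      ∑ a, ∑ b, g a b - ∑ a, g a a := by
  have h1 : ∑ α : ZMod p, ∑ β : ZMod p, g (α * i + β) (α * j + β) = ∑ a, ∑ b, g a b := by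
    rw [← Fintype.sum_prod_type' (f := fun α β => g (α * i + β) (α * j + β)),
      ← Fintype.sum_prod_type' (f := fun a b => g a b)]
    have hbij : Function.Bijective (fun x : ZMod p × ZMod p => (x.1 * i + x.2, x.1 * j + x.2)) := by
      rw [← Finite.injective_iff_bijective]
      rintro ⟨α, β⟩ ⟨α', β'⟩ h
      simp only [Prod.mk.injEq] at h
      obtain ⟨h1, h2⟩ := h
      have h3 : (α - α') * (i - j) = 0 := by linear_combination h1 - h2
      have h4 : α = α' := sub_eq_zero.1 ((mul_eq_zero.1 h3).resolve_right (sub_ne_zero.2 hij))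
      subst h4
      simp only [add_right_inj] at h1
      rw [h1]
    exact hbij.sum_comp (fun x : ZMod p × ZMod p => g x.1 x.2)
  have h2 : ∑ α : ZMod p, ∑ β : ZMod p, (if α = 0 then 0 else g (α * i + β) (α * j + β)) =
      ∑ α : ZMod p, ∑ β : ZMod p, g (α * i + β) (α * j + β) -
        ∑ α : ZMod p, (if α = 0 then ∑ β : ZMod p, g (α * i + β) (α * j + β) else 0) := by
    rw [← Finset.sum_sub_distrib]
    refine Finset.sum_congr rfl fun α _ => ?_
    split_ifs <;> simp
  rw [h2, h1, Finset.sum_ite_eq' univ (0 : ZMod p), if_pos (Finset.mem_univ _)]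
  simp

theorem agl_single {p : ℕ} [Fact p.Prime] (g : ZMod p → ℝ) (i : ZMod p) :
    ∑ α : ZMod p, ∑ β : ZMod p, (if α = 0 then 0 else g (α * i + β)) = ((p : ℝ) - 1) * ∑ a, g a := by
  have h1 : ∀ α : ZMod p, ∑ β : ZMod p, (if α = 0 then 0 else g (α * i + β)) =
      (if α = 0 then 0 else 1) * ∑ a, g a := by
    intro α
    split_ifs
    · simp
    · rw [one_mul]
      exact Equiv.sum_comp (Equiv.addLeft (α * i)) g
  simp only [h1, ← Finset.sum_mul]
  congr 1
  have h2 : ∀ α : ZMod p, (if α = 0 then (0 : ℝ) else 1) = 1 - (if α = 0 then 1 else 0) := by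
    intro α; split_ifs <;> norm_num
  simp only [h2, Finset.sum_sub_distrib, Finset.sum_ite_eq' univ (0 : ZMod p)]
  simp [ZMod.card]

section law

variable {p : ℕ} [Fact p.Prime]

/-- sign -/
def sgb (b : Bool) : ℝ := if b then -1 else 1

theorem sgb_sq (b : Bool) : sgb b * sgb b = 1 := by unfold sgb; split_ifs <;> norm_num

theorem sgb_not (b : Bool) : sgb (!b) = - sgb b := by cases b <;> simp [sgb]

/-- the imaginary positions -/
def Im (p R : ℕ) [NeZero p] : Finset (ZMod p) := univ.filter fun a => R ≤ a.val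

/-- the sum of the real parts -/
def rr (R : ℕ) (η : ZMod p → Bool) : ℝ := (-1) ^ ((p - 1) / 2) * ∏ a ∈ Im p R, sgb (η a)

def Xf (R : ℕ) (η : ZMod p → Bool) (a : ZMod p) : ℝ := if a.val < R then rr R η * (-1) ^ a.val else 0

def Yf (R : ℕ) (η : ZMod p → Bool) (a : ZMod p) : ℝ := if a.val < R then 0 else sgb (η a)

def Zf (R : ℕ) (η : ZMod p → Bool) (a : ZMod p) : ℂ := ⟨Xf R η a, Yf R η a⟩

theorem rr_sq (R : ℕ) (η : ZMod p → Bool) : rr R η * rr R η = 1 := by
  unfold rr
  have h1 : (∏ a ∈ Im p R, sgb (η a)) * (∏ a ∈ Im p R, sgb (η a)) = 1 := by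
    rw [← Finset.prod_mul_distrib]
    exact Finset.prod_eq_one fun a _ => sgb_sq _
  have h2 : ((-1 : ℝ) ^ ((p - 1) / 2)) * (-1) ^ ((p - 1) / 2) = 1 := by
    rw [← mul_pow]; norm_num
  calc _ = (((-1 : ℝ) ^ ((p - 1) / 2)) * (-1) ^ ((p - 1) / 2)) *
        ((∏ a ∈ Im p R, sgb (η a)) * (∏ a ∈ Im p R, sgb (η a))) := by ring
    _ = 1 := by rw [h1, h2, one_mul]

theorem Zf_normSq (R : ℕ) (η : ZMod p → Bool) (a : ZMod p) : Complex.normSq (Zf R η a) = 1 := by
  unfold Zf Xf Yf
  rw [Complex.normSq_mk]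
  split_ifs
  · have h1 := rr_sq R η
    have h2 : ((-1 : ℝ) ^ a.val) * (-1) ^ a.val = 1 := by rw [← mul_pow]; norm_num
    calc _ = (rr R η * rr R η) * (((-1 : ℝ) ^ a.val) * (-1) ^ a.val) := by ring
      _ = 1 := by rw [h1, h2, one_mul]
  · rw [sgb_sq]; norm_num

theorem sum_X2 {R : ℕ} (hR : R ≤ p) (η : ZMod p → Bool) : ∑ a, Xf R η a * Xf R η a = R := by
  have h1 : ∀ a : ZMod p, Xf R η a * Xf R η a = (fun j : ℕ => if j < R then (1 : ℝ) else 0) a.val := by
    intro a
    have := Zf_normSq R η a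
    unfold Zf at this
    rw [Complex.normSq_mk] at this
    simp only
    unfold Xf Yf at *
    split_ifs at * <;> linarith
  refine (Finset.sum_congr rfl fun a _ => h1 a).trans
    ((zsum p (fun j : ℕ => if j < R then (1 : ℝ) else 0)).trans ?_)
  rw [Finset.sum_ite, Finset.sum_const_zero, add_zero, Finset.sum_const, nsmul_eq_mul, mul_one]
  congr 1
  have : Finset.filter (fun x => x < R) (Finset.range p) = Finset.range R := by
    ext x
    simp only [Finset.mem_filter, Finset.mem_range]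
    omega
  rw [this, Finset.card_range]

theorem sum_Y2 {R : ℕ} (hR : R ≤ p) (η : ZMod p → Bool) : ∑ a, Yf R η a * Yf R η a = p - R := by
  have h1 : ∀ a : ZMod p, Yf R η a * Yf R η a = 1 - Xf R η a * Xf R η a := by
    intro a
    have := Zf_normSq R η a
    unfold Zf at this
    rw [Complex.normSq_mk] at this
    linarith
  rw [Finset.sum_congr rfl fun a _ => h1 a, Finset.sum_sub_distrib, sum_X2 hR]
  simp [ZMod.card]

theorem sum_X {R : ℕ} (hR : R ≤ p) (hR2 : Odd R) (η : ZMod p → Bool) : ∑ a, Xf R η a = rr R η := by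
  have h1 : ∀ a : ZMod p, Xf R η a = (fun j : ℕ => if j < R then rr R η * (-1 : ℝ) ^ j else 0) a.val := by
    intro a
    rfl
  refine (Finset.sum_congr rfl fun a _ => h1 a).trans
    ((zsum p (fun j : ℕ => if j < R then rr R η * (-1 : ℝ) ^ j else 0)).trans ?_)
  rw [Finset.sum_ite, Finset.sum_const_zero, add_zero]
  have : Finset.filter (fun x => x < R) (Finset.range p) = Finset.range R := by
    ext x
    simp only [Finset.mem_filter, Finset.mem_range]
    omega
  rw [this, ← Finset.mul_sum]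
  have h2 : ∑ j ∈ Finset.range R, (-1 : ℝ) ^ j = 1 := by
    rw [neg_one_geom_sum, if_neg (by rwa [Nat.not_even_iff_odd])]
  rw [h2, mul_one]

/-- flip one coordinate -/
def flip (a : ZMod p) (η : ZMod p → Bool) : ZMod p → Bool := Function.update η a (!η a)

omit [Fact p.Prime] in
theorem flip_flip (a : ZMod p) (η : ZMod p → Bool) : flip a (flip a η) = η := by
  unfold flip
  simp

theorem sum_flip (a : ZMod p) (h : (ZMod p → Bool) → ℝ) (hh : ∀ η, h (flip a η) = - h η) :
    ∑ η, h η = 0 := by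
  have h1 : ∑ η, h (flip a η) = ∑ η, h η :=
    Equiv.sum_comp (Function.Involutive.toPerm (flip a) (flip_flip a)) h
  simp only [hh, Finset.sum_neg_distrib] at h1
  linarith

theorem sum_rr {R : ℕ} (hR : R < p) : ∑ η : ZMod p → Bool, rr R η = 0 := by
  set a0 : ZMod p := ((p - 1 : ℕ) : ZMod p) with ha0
  have hv : a0.val = p - 1 := by
    rw [ha0, ZMod.val_natCast, Nat.mod_eq_of_lt (Nat.sub_lt (Fact.out : p.Prime).pos one_pos)]
  have hm : a0 ∈ Im p R := by
    unfold Im
    rw [Finset.mem_filter]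
    exact ⟨Finset.mem_univ _, by omega⟩
  refine sum_flip a0 _ fun η => ?_
  unfold rr
  rw [← Finset.mul_prod_erase _ _ hm, ← Finset.mul_prod_erase _ (fun a => sgb (η a)) hm]
  have h1 : flip a0 η a0 = !η a0 := by simp [flip]
  have h2 : ∏ a ∈ (Im p R).erase a0, sgb (flip a0 η a) = ∏ a ∈ (Im p R).erase a0, sgb (η a) := by
    refine Finset.prod_congr rfl fun a ha => ?_
    rw [flip, Function.update_of_ne (Finset.ne_of_mem_erase ha)]
  rw [h1, h2, sgb_not]
  ring

theorem sum_YY {R : ℕ} (hR : R ≤ p) :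
    ∑ η : ZMod p → Bool, ∑ a, ∑ b, Yf R η a * Yf R η b = 2 ^ p * ((p : ℝ) - R) := by
  rw [Finset.sum_comm]
  have h1 : ∀ a : ZMod p, ∑ η : ZMod p → Bool, ∑ b, Yf R η a * Yf R η b =
      ∑ η : ZMod p → Bool, Yf R η a * Yf R η a := by
    intro a
    rw [Finset.sum_comm, Finset.sum_eq_single a]
    · intro b _ hb
      refine sum_flip b _ fun η => ?_
      have e1 : Yf R (flip b η) a = Yf R η a := by
        unfold Yf
        rw [flip, Function.update_of_ne (Ne.symm hb)]
      have e2 : Yf R (flip b η) b = - Yf R η b := by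
        unfold Yf
        split_ifs
        · simp
        · rw [flip, Function.update_self, sgb_not]
      rw [e1, e2]
      ring
    · simp
  rw [Finset.sum_congr rfl fun a _ => h1 a, Finset.sum_comm,
    Finset.sum_congr rfl fun η _ => sum_Y2 hR η, Finset.sum_const, nsmul_eq_mul]
  simp [ZMod.card]

theorem prod_Zf {R : ℕ} (hR : R ≤ p) (hp : Odd p) (hR2 : Odd R) (η : ZMod p → Bool) :
    ∏ a, Zf R η a = 1 := by
  obtain ⟨x, hx⟩ := hR2
  obtain ⟨y, hy⟩ := hp
  have hfil : ∀ j, j ∈ Finset.filter (fun x => x < R) (Finset.range p) ↔ j ∈ Finset.range R := by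
    intro j
    simp only [Finset.mem_filter, Finset.mem_range]
    omega
  have h1 : ∀ a : ZMod p, Zf R η a = (fun j : ℕ => if j < R then ((rr R η : ℝ) : ℂ) * (-1) ^ j else
      Complex.I) a.val * (if a ∈ Im p R then ((sgb (η a) : ℝ) : ℂ) else 1) := by
    intro a
    unfold Zf Xf Yf Im
    by_cases h : a.val < R
    · have h' : ¬ R ≤ a.val := by omega
      simp only [h, h', if_true, Finset.mem_filter, and_false, if_false, mul_one]
      apply Complex.ext
      · have : (((rr R η : ℝ) : ℂ) * (-1) ^ a.val) = ((rr R η * (-1) ^ a.val : ℝ) : ℂ) := by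
          push_cast; ring
        rw [this, Complex.ofReal_re]
      · have : (((rr R η : ℝ) : ℂ) * (-1) ^ a.val) = ((rr R η * (-1) ^ a.val : ℝ) : ℂ) := by
          push_cast; ring
        rw [this, Complex.ofReal_im]
    · have h' : R ≤ a.val := by omega
      simp only [h, h', if_false, Finset.mem_filter, Finset.mem_univ, true_and, if_true]
      apply Complex.ext <;> simp
  rw [Finset.prod_congr rfl fun a _ => h1 a, Finset.prod_mul_distrib]
  have h2 : ∏ a : ZMod p, (fun j : ℕ => if j < R then ((rr R η : ℝ) : ℂ) * (-1) ^ j else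
      Complex.I) a.val = ((rr R η : ℝ) : ℂ) ^ R * (∏ j ∈ Finset.range R, (-1) ^ j) * Complex.I ^ (p - R) := by
    refine (zprod (M := ℂ) p (fun j : ℕ => if j < R then ((rr R η : ℝ) : ℂ) * (-1) ^ j else
      Complex.I)).trans ?_
    rw [Finset.prod_ite]
    have e1 : Finset.filter (fun x => x < R) (Finset.range p) = Finset.range R := by
      ext j; exact hfil j
    have e2 : #(Finset.filter (fun x => ¬ x < R) (Finset.range p)) = p - R := by
      have : Finset.filter (fun x => ¬ x < R) (Finset.range p) = Finset.Ico R p := by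
        ext j
        simp only [Finset.mem_filter, Finset.mem_range, Finset.mem_Ico]
        omega
      rw [this, Nat.card_Ico]
    rw [e1, Finset.prod_mul_distrib, Finset.prod_const, Finset.prod_const, e2, Finset.card_range]
  rw [h2, Finset.prod_ite_mem]
  simp only [Finset.univ_inter]
  have h3 : ((rr R η : ℝ) : ℂ) ^ R = ((rr R η : ℝ) : ℂ) := by
    have h4 : ((rr R η : ℝ) : ℂ) * ((rr R η : ℝ) : ℂ) = 1 := by
      rw [← Complex.ofReal_mul, rr_sq, Complex.ofReal_one]
    have h4' : ∀ c : ℂ, c * c = 1 → c ^ R = c := by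
      intro c hc
      rw [hx, pow_succ, pow_mul, sq, hc, one_pow, one_mul]
    exact h4' _ h4
  have h5 : ∏ j ∈ Finset.range R, (-1 : ℂ) ^ j = (-1) ^ x := by
    rw [Finset.prod_pow_eq_pow_sum]
    have h6 := Finset.sum_range_id_mul_two R
    have h7 : ∑ i ∈ Finset.range R, i = x + 2 * (x * x) := by
      rw [hx] at h6 ⊢
      have : 2 * x + 1 - 1 = 2 * x := by omega
      rw [this] at h6
      nlinarith
    rw [h7, pow_add, pow_mul]
    norm_num
  have h8 : Complex.I ^ (p - R) = (-1) ^ (y - x) := by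
    have : p - R = 2 * (y - x) := by omega
    rw [this, pow_mul, Complex.I_sq]
  have h9 : ((rr R η : ℝ) : ℂ) * ∏ a ∈ Im p R, ((sgb (η a) : ℝ) : ℂ) = (-1) ^ y := by
    have h10 : rr R η * ∏ a ∈ Im p R, sgb (η a) = (-1) ^ y := by
      unfold rr
      have h11 : (∏ a ∈ Im p R, sgb (η a)) * (∏ a ∈ Im p R, sgb (η a)) = 1 := by
        rw [← Finset.prod_mul_distrib]
        exact Finset.prod_eq_one fun a _ => sgb_sq _
      have h12 : (p - 1) / 2 = y := by omega
      rw [h12, mul_assoc, h11, mul_one]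
    have := congrArg (fun x : ℝ => (x : ℂ)) h10
    push_cast at this
    exact this
  have hxy : x ≤ y := by omega
  calc ((rr R η : ℝ) : ℂ) ^ R * (∏ j ∈ Finset.range R, (-1) ^ j) * Complex.I ^ (p - R) *
        ∏ a ∈ Im p R, ((sgb (η a) : ℝ) : ℂ)
      = (((rr R η : ℝ) : ℂ) * ∏ a ∈ Im p R, ((sgb (η a) : ℝ) : ℂ)) * ((-1) ^ x * (-1) ^ (y - x)) := by
        rw [h3, h5, h8]; ring
    _ = 1 := by
        rw [h9, ← pow_add, ← pow_add]
        have : y + (x + (y - x)) = 2 * y := by omega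
        rw [this, pow_mul]
        norm_num

/-- averages of the law, two positions -/
theorem avg_pair {R : ℕ} (hR : R < p) (hR2 : Odd R) {i j : ZMod p} (hij : i ≠ j) (τ : ℝ) :
    ∑ η : ZMod p → Bool, ∑ α : ZMod p, ∑ β : ZMod p, (if α = 0 then 0 else
      (Xf R η (α * i + β) * Xf R η (α * j + β) + τ * (Yf R η (α * i + β) * Yf R η (α * j + β)))) =
      2 ^ p * (1 - R) := by
  have h1 : ∀ η : ZMod p → Bool, ∑ α : ZMod p, ∑ β : ZMod p, (if α = 0 then 0 else
      (Xf R η (α * i + β) * Xf R η (α * j + β) + τ * (Yf R η (α * i + β) * Yf R η (α * j + β)))) =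
      (1 - R) + τ * (∑ a, ∑ b, Yf R η a * Yf R η b - (p - R)) := by
    intro η
    rw [agl_pair (fun a b => Xf R η a * Xf R η b + τ * (Yf R η a * Yf R η b)) hij]
    simp only [Finset.sum_add_distrib, ← Finset.mul_sum]
    rw [sum_X2 hR.le, sum_Y2 hR.le, ← Finset.sum_mul, sum_X hR.le hR2, rr_sq]
    ring
  have hYY := sum_YY (p := p) hR.le
  rw [Finset.sum_congr rfl fun η _ => h1 η]
  rw [Finset.sum_add_distrib, ← Finset.mul_sum,
    Finset.sum_sub_distrib (f := fun η : ZMod p → Bool => ∑ a, ∑ b, Yf R η a * Yf R η b), hYY]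
  simp only [Finset.sum_const, nsmul_eq_mul, Finset.card_univ, Fintype.card_pi, Fintype.card_bool,
    Finset.prod_const, ZMod.card, Nat.cast_pow, Nat.cast_ofNat]
  ring

/-- averages of the law, one position twice -/
theorem avg_double {R : ℕ} (hR : R < p) (i : ZMod p) :
    ∑ η : ZMod p → Bool, ∑ α : ZMod p, ∑ β : ZMod p, (if α = 0 then 0 else
      (Xf R η (α * i + β) * Xf R η (α * i + β) + -1 * (Yf R η (α * i + β) * Yf R η (α * i + β)))) =
      2 ^ p * ((p - 1) * (2 * R - p)) := by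
  have h1 : ∀ η : ZMod p → Bool, ∑ α : ZMod p, ∑ β : ZMod p, (if α = 0 then 0 else
      (Xf R η (α * i + β) * Xf R η (α * i + β) + -1 * (Yf R η (α * i + β) * Yf R η (α * i + β)))) =
      ((p : ℝ) - 1) * (2 * R - p) := by
    intro η
    rw [agl_single (fun a => Xf R η a * Xf R η a + -1 * (Yf R η a * Yf R η a)) i]
    simp only [Finset.sum_add_distrib, ← Finset.mul_sum]
    rw [sum_X2 hR.le, sum_Y2 hR.le]
    ring
  rw [Finset.sum_congr rfl fun η _ => h1 η]
  simp only [Finset.sum_const, nsmul_eq_mul, Finset.card_univ, Fintype.card_pi, Fintype.card_bool,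
    Finset.prod_const, ZMod.card, Nat.cast_pow, Nat.cast_ofNat]

/-- averages of the law, one position -/
theorem avg_single {R : ℕ} (hR : R < p) (hR2 : Odd R) (i : ZMod p) :
    ∑ η : ZMod p → Bool, ∑ α : ZMod p, ∑ β : ZMod p, (if α = 0 then 0 else Xf R η (α * i + β)) = 0 := by
  have h1 : ∀ η : ZMod p → Bool, ∑ α : ZMod p, ∑ β : ZMod p, (if α = 0 then 0 else
      Xf R η (α * i + β)) = ((p : ℝ) - 1) * rr R η := by
    intro η
    rw [agl_single (Xf R η) i, sum_X hR.le hR2]
  rw [Finset.sum_congr rfl fun η _ => h1 η, ← Finset.mul_sum, sum_rr hR, mul_zero]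

end law

end Pool.Agent.K7.H19.PM
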