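import Mathlib

/-!
# Simultaneous approximation (Kronecker, Bohr)

If `y i` are complex numbers of modulus one which satisfy all the multiplicative relations that come from
integer relations between the real numbers `β i`, then some real `t` has `exp (i β_i t)` close to `y i` for
all `i`.
-/

set_option autoImplicit false

open Finset Filter Topology

noncomputable section

namespace Pool.Agent.K7.H19.PM

/-- mean value of a function on the half line -/
def Mean (g : ℝ → ℂ) (c : ℂ) : Prop :=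
  Tendsto (fun T : ℝ => ((1 / T : ℝ) : ℂ) * ∫ t in (0 : ℝ)..T, g t) atTop (𝓝 c)

theorem mean_exp (a : ℝ) : Mean (fun t => Complex.exp (((a * t : ℝ) : ℂ) * Complex.I))
    (if a = 0 then 1 else 0) := by
  unfold Mean
  split_ifs with h
  · subst h
    refine tendsto_const_nhds.congr' ?_
    filter_upwards [eventually_gt_atTop 0] with T hT
    have hT' : (T : ℂ) ≠ 0 := by exact_mod_cast hT.ne'
    simp [hT']
  · have hc : ((a : ℂ) * Complex.I) ≠ 0 := by simp [h]
    have h1 : ∀ T : ℝ, ∫ t in (0 : ℝ)..T, Complex.exp (((a * t : ℝ) : ℂ) * Complex.I) =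
        (Complex.exp ((a : ℂ) * Complex.I * T) - 1) / ((a : ℂ) * Complex.I) := by
      intro T
      have h2 := integral_exp_mul_complex (a := 0) (b := T) hc
      rw [Complex.ofReal_zero, mul_zero, Complex.exp_zero] at h2
      rw [← h2]
      congr 1
      ext t
      congr 1
      push_cast
      ring
    simp only [h1]
    have h3 : Tendsto (fun T : ℝ => (2 / |a|) * (1 / T)) atTop (𝓝 0) := by
      have := tendsto_inv_atTop_zero.const_mul (2 / |a|)
      simpa using this
    refine squeeze_zero_norm' ?_ h3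
    filter_upwards [eventually_gt_atTop 0] with T hT
    rw [norm_mul, norm_div, norm_mul, Complex.norm_I, mul_one, Complex.norm_real, Complex.norm_real,
      Real.norm_eq_abs, Real.norm_eq_abs, abs_of_pos (by positivity : (0 : ℝ) < 1 / T), mul_comm]
    have h4 : ‖Complex.exp ((a : ℂ) * Complex.I * T) - 1‖ ≤ 2 := by
      refine (norm_sub_le _ _).trans ?_
      have : (a : ℂ) * Complex.I * T = ((a * T : ℝ) : ℂ) * Complex.I := by push_cast; ring
      rw [this, Complex.norm_exp_ofReal_mul_I]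
      norm_num
    gcongr

theorem Mean.add {g h : ℝ → ℂ} {c d : ℂ} (hg : Continuous g) (hh : Continuous h) (h1 : Mean g c)
    (h2 : Mean h d) : Mean (fun t => g t + h t) (c + d) := by
  unfold Mean at *
  refine (h1.add h2).congr fun T => ?_
  rw [intervalIntegral.integral_add (hg.intervalIntegrable _ _) (hh.intervalIntegrable _ _), mul_add]

theorem Mean.const_mul {g : ℝ → ℂ} {c : ℂ} (d : ℂ) (h1 : Mean g c) : Mean (fun t => d * g t) (d * c) := by
  unfold Mean at *
  refine (h1.const_mul d).congr fun T => ?_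
  rw [intervalIntegral.integral_const_mul]
  ring

theorem Mean.sum {κ : Type*} (s : Finset κ) {g : κ → ℝ → ℂ} {c : κ → ℂ} (hg : ∀ i, Continuous (g i))
    (h : ∀ i ∈ s, Mean (g i) (c i)) : Mean (fun t => ∑ i ∈ s, g i t) (∑ i ∈ s, c i) := by
  classical
  induction s using Finset.induction_on with
  | empty => simp [Mean]
  | insert a s ha ih =>
    simp only [Finset.sum_insert ha]
    exact Mean.add (hg a) (continuous_finsetSum _ fun i _ => hg i) (h a (by simp))
      (ih fun i hi => h i (by simp [hi]))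

theorem Mean.le_of_le {g : ℝ → ℂ} {c : ℂ} {B : ℝ} (hg : Continuous g) (h : Mean g c)
    (hB : ∀ t, (g t).re ≤ B) : c.re ≤ B := by
  have h1 : Tendsto (fun T : ℝ => (((1 / T : ℝ) : ℂ) * ∫ t in (0 : ℝ)..T, g t).re) atTop (𝓝 c.re) :=
    (Complex.continuous_re.tendsto c).comp h
  refine le_of_tendsto h1 ?_
  filter_upwards [eventually_gt_atTop 0] with T hT
  have h2 : (∫ t in (0 : ℝ)..T, g t).re = ∫ t in (0 : ℝ)..T, (g t).re := by
    have := Complex.reCLM.intervalIntegral_comp_comm (hg.intervalIntegrable (0 : ℝ) T)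
      (μ := MeasureTheory.volume)
    simpa using this.symm
  rw [Complex.re_ofReal_mul, h2]
  have h3 : ∫ t in (0 : ℝ)..T, (g t).re ≤ ∫ t in (0 : ℝ)..T, B :=
    intervalIntegral.integral_mono_on hT.le
      ((Complex.continuous_re.comp hg).intervalIntegrable _ _) (by simp) fun t _ => hB t
  rw [intervalIntegral.integral_const, smul_eq_mul, sub_zero] at h3
  calc 1 / T * ∫ t in (0 : ℝ)..T, (g t).re ≤ 1 / T * (T * B) := by gcongr
    _ = B := by field_simp

section aux

variable {ι : Type*} [Fintype ι] [DecidableEq ι]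

theorem prod_count {k : ℕ} (s : Fin k → ι) (y : ι → ℂ) :
    ∏ j, y (s j) = ∏ i, y i ^ #{j | s j = i} := by
  rw [← Finset.prod_fiberwise (s := univ) (g := s)]
  refine Finset.prod_congr rfl fun i _ => ?_
  rw [Finset.prod_congr rfl (g := fun _ => y i)]
  · simp
  · intro j hj
    rw [(Finset.mem_filter.1 hj).2]

theorem sum_count {k : ℕ} (s : Fin k → ι) (β : ι → ℝ) :
    ∑ j, β (s j) = ∑ i, (#{j | s j = i} : ℝ) * β i := by
  rw [← Finset.sum_fiberwise (s := univ) (g := s)]
  refine Finset.sum_congr rfl fun i _ => ?_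
  rw [Finset.sum_congr rfl (g := fun _ => β i)]
  · simp
  · intro j hj
    rw [(Finset.mem_filter.1 hj).2]

theorem count_bound (β : ι → ℝ) (k : ℕ) :
    ((Fintype.card ι : ℝ) ^ k) ^ 2 ≤ ((k : ℝ) + 1) ^ Fintype.card ι *
      (#{p : (Fin k → ι) × (Fin k → ι) | ∑ j, β (p.1 j) = ∑ j, β (p.2 j)} : ℝ) := by
  let c : (Fin k → ι) → (ι → Fin (k + 1)) := fun s i =>
    ⟨#{j | s j = i}, Nat.lt_succ_of_le ((Finset.card_filter_le _ _).trans (by simp))⟩
  have h1 : (Fintype.card ι : ℝ) ^ k = ∑ v : ι → Fin (k + 1), (#{s | c s = v} : ℝ) := by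
    have := Finset.card_eq_sum_card_fiberwise (s := (univ : Finset (Fin k → ι))) (t := univ) (f := c)
      (fun _ _ => mem_univ _)
    rw [← Nat.cast_sum, ← this]
    simp
  have h2 : ((Fintype.card ι : ℝ) ^ k) ^ 2 ≤ ((k : ℝ) + 1) ^ Fintype.card ι *
      ∑ v : ι → Fin (k + 1), (#{s | c s = v} : ℝ) ^ 2 := by
    rw [h1]
    refine sq_sum_le_card_mul_sum_sq.trans (le_of_eq ?_)
    simp
  refine h2.trans ?_
  gcongr
  have h3 : ∑ v : ι → Fin (k + 1), (#{s | c s = v} : ℝ) ^ 2 =
      (#{p : (Fin k → ι) × (Fin k → ι) | c p.1 = c p.2} : ℝ) := by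
    rw [Finset.card_eq_sum_card_fiberwise (t := univ) (f := fun p : (Fin k → ι) × (Fin k → ι) => c p.1)
      (fun _ _ => mem_univ _), Nat.cast_sum]
    refine Finset.sum_congr rfl fun v _ => ?_
    rw [sq, ← Nat.cast_mul, ← Finset.card_product]
    congr 2
    ext p
    simp only [mem_product, mem_filter, mem_univ, true_and]
    constructor
    · rintro ⟨h, h'⟩
      exact ⟨h.trans h'.symm, h⟩
    · rintro ⟨h, h'⟩
      exact ⟨h', h.symm.trans h'⟩
  rw [h3]
  gcongr with p
  intro hp
  rw [sum_count, sum_count]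
  refine Finset.sum_congr rfl fun i _ => ?_
  have := congrArg Fin.val (congrFun hp i)
  simp only [c] at this
  rw [this]

/-- The value of `|∑ w_i(t)|` comes close to the number of terms. -/
theorem exists_large [Nonempty ι] (β : ι → ℝ) (y : ι → ℂ) (hy : ∀ i, ‖y i‖ = 1)
    (hrel : ∀ a b : ι → ℕ, ∑ i, (a i : ℝ) * β i = ∑ i, (b i : ℝ) * β i → ∏ i, y i ^ a i = ∏ i, y i ^ b i)
    {B : ℝ} (hB : B < (Fintype.card ι : ℝ) ^ 2) :
    ∃ t : ℝ, B < Complex.normSq (∑ i, (starRingEnd ℂ) (y i) *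
      Complex.exp (((β i * t : ℝ) : ℂ) * Complex.I)) := by
  by_contra hcon
  push Not at hcon
  set F : ℝ → ℂ := fun t => ∑ i, (starRingEnd ℂ) (y i) * Complex.exp (((β i * t : ℝ) : ℂ) * Complex.I)
    with hF
  have hFc : Continuous F := by fun_prop
  have hB0 : 0 ≤ B := (Complex.normSq_nonneg _).trans (hcon 0)
  set n := Fintype.card ι with hn
  have hnpos : 0 < n := Fintype.card_pos
  -- the mean of the `k`-th power
  have key : ∀ k : ℕ, ((n : ℝ) ^ k) ^ 2 ≤ ((k : ℝ) + 1) ^ n * B ^ k := by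
    intro k
    have hY : ∀ s : Fin k → ι, ‖∏ j, y (s j)‖ = 1 := by
      intro s
      rw [norm_prod]
      exact Finset.prod_eq_one fun j _ => hy _
    have h1 : ∀ t, ((Complex.normSq (F t) : ℝ) : ℂ) ^ k = ∑ s : Fin k → ι, ∑ s' : Fin k → ι,
        ((starRingEnd ℂ) (∏ j, y (s j)) * ∏ j, y (s' j)) *
          Complex.exp ((((∑ j, β (s j) - ∑ j, β (s' j)) * t : ℝ) : ℂ) * Complex.I) := by
      intro t
      rw [← Complex.mul_conj, mul_pow, ← map_pow]
      simp only [hF]
      rw [Fintype.sum_pow]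
      simp only [map_sum, map_prod, map_mul, Complex.conj_conj]
      rw [Finset.sum_mul_sum]
      refine Finset.sum_congr rfl fun s _ => Finset.sum_congr rfl fun s' _ => ?_
      have e1 : ∀ i, (starRingEnd ℂ) (Complex.exp (((β i * t : ℝ) : ℂ) * Complex.I)) =
          Complex.exp (-(((β i * t : ℝ) : ℂ) * Complex.I)) := by
        intro i
        rw [← Complex.exp_conj]
        simp
      simp only [e1, Finset.prod_mul_distrib]
      rw [← Complex.exp_sum, ← Complex.exp_sum]
      have e2 : Complex.exp ((((∑ j, β (s j) - ∑ j, β (s' j)) * t : ℝ) : ℂ) * Complex.I) =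
          Complex.exp (∑ j, ((β (s j) * t : ℝ) : ℂ) * Complex.I) *
            Complex.exp (∑ j, -(((β (s' j) * t : ℝ) : ℂ) * Complex.I)) := by
        rw [← Complex.exp_add]
        congr 1
        rw [Finset.sum_neg_distrib, ← Finset.sum_mul, ← Finset.sum_mul]
        push_cast
        rw [← Finset.sum_mul, ← Finset.sum_mul]
        ring
      rw [e2]
      ring
    have hm : Mean (fun t => ((Complex.normSq (F t) : ℝ) : ℂ) ^ k)
        (#{p : (Fin k → ι) × (Fin k → ι) | ∑ j, β (p.1 j) = ∑ j, β (p.2 j)} : ℂ) := by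
      have h2 : Mean (fun t => ∑ s : Fin k → ι, ∑ s' : Fin k → ι,
        ((starRingEnd ℂ) (∏ j, y (s j)) * ∏ j, y (s' j)) *
          Complex.exp ((((∑ j, β (s j) - ∑ j, β (s' j)) * t : ℝ) : ℂ) * Complex.I))
          (∑ s : Fin k → ι, ∑ s' : Fin k → ι, ((starRingEnd ℂ) (∏ j, y (s j)) * ∏ j, y (s' j)) *
            (if ∑ j, β (s j) - ∑ j, β (s' j) = 0 then 1 else 0)) := by
        refine Mean.sum _ (fun s => by fun_prop) fun s _ => Mean.sum _ (fun s' => by fun_prop)
          fun s' _ => Mean.const_mul _ (mean_exp _)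
      have h3 : (∑ s : Fin k → ι, ∑ s' : Fin k → ι, ((starRingEnd ℂ) (∏ j, y (s j)) * ∏ j, y (s' j)) *
            (if ∑ j, β (s j) - ∑ j, β (s' j) = 0 then (1 : ℂ) else 0)) =
          (#{p : (Fin k → ι) × (Fin k → ι) | ∑ j, β (p.1 j) = ∑ j, β (p.2 j)} : ℂ) := by
        rw [← Finset.sum_product', Finset.card_filter]
        push_cast
        refine Finset.sum_congr rfl fun p _ => ?_
        by_cases h : ∑ j, β (p.1 j) = ∑ j, β (p.2 j)
        · rw [if_pos (sub_eq_zero.2 h), if_pos h, mul_one]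
          have h4 : ∏ j, y (p.1 j) = ∏ j, y (p.2 j) := by
            rw [prod_count, prod_count]
            refine hrel _ _ ?_
            rw [← sum_count, ← sum_count, h]
          rw [h4, ← Complex.normSq_eq_conj_mul_self, Complex.normSq_eq_norm_sq, hY]
          simp
        · rw [if_neg (fun h' => h (sub_eq_zero.1 h')), if_neg h, mul_zero]
      rw [h3] at h2
      convert h2 using 2 with t
      exact h1 t
    have hle := hm.le_of_le (B := B ^ k) (by fun_prop) (fun t => by
      rw [← Complex.ofReal_pow, Complex.ofReal_re]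
      exact pow_le_pow_left₀ (Complex.normSq_nonneg _) (hcon t) k)
    refine (count_bound β k).trans ?_
    rw [Complex.natCast_re] at hle
    gcongr
  -- contradiction
  have hn2 : (0 : ℝ) < (n : ℝ) ^ 2 := by positivity
  obtain ⟨B', hB'1, hB'2, hB'3⟩ : ∃ B' : ℝ, B ≤ B' ∧ 0 < B' ∧ B' < (n : ℝ) ^ 2 :=
    ⟨max B ((n : ℝ) ^ 2 / 2), le_max_left _ _, lt_max_of_lt_right (by positivity),
      max_lt hB (by linarith)⟩
  set r : ℝ := (n : ℝ) ^ 2 / B' with hr
  have hr1 : 1 < r := by rw [hr, lt_div_iff₀ hB'2]; linarith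
  have key2 : ∀ k : ℕ, r ^ k ≤ ((k : ℝ) + 1) ^ n := by
    intro k
    rw [hr, div_pow, div_le_iff₀ (by positivity)]
    calc ((n : ℝ) ^ 2) ^ k = ((n : ℝ) ^ k) ^ 2 := by rw [← pow_mul, ← pow_mul, mul_comm]
      _ ≤ ((k : ℝ) + 1) ^ n * B ^ k := key k
      _ ≤ ((k : ℝ) + 1) ^ n * B' ^ k := by gcongr
  have h5 := (tendsto_pow_const_div_const_pow_of_one_lt n hr1).comp (tendsto_add_atTop_nat 1)
  have h6 : ∀ k : ℕ, 1 / r ≤ (((k + 1 : ℕ) : ℝ)) ^ n / r ^ (k + 1) := by
    intro k
    rw [pow_succ, div_le_div_iff₀ (by positivity) (by positivity)]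
    have := key2 k
    push_cast
    nlinarith [this, (by positivity : 0 < r)]
  have h7 : 1 / r ≤ 0 := ge_of_tendsto' h5 h6
  have : 0 < 1 / r := by positivity
  linarith

theorem exists_close [Nonempty ι] (β : ι → ℝ) (y : ι → ℂ) (hy : ∀ i, ‖y i‖ = 1)
    (hrel : ∀ a b : ι → ℕ, ∑ i, (a i : ℝ) * β i = ∑ i, (b i : ℝ) * β i → ∏ i, y i ^ a i = ∏ i, y i ^ b i)
    {δ : ℝ} (hδ : 0 < δ) :
    ∃ t : ℝ, ∀ i j : ι, i ≠ j → Complex.normSq ((starRingEnd ℂ) (y i) *
      Complex.exp (((β i * t : ℝ) : ℂ) * Complex.I) - (starRingEnd ℂ) (y j) *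
      Complex.exp (((β j * t : ℝ) : ℂ) * Complex.I)) < δ := by
  obtain ⟨t, ht⟩ := exists_large β y hy hrel
    (B := (Fintype.card ι : ℝ) ^ 2 - δ) (by linarith)
  refine ⟨t, fun i j hij => ?_⟩
  set w : ι → ℂ := fun i => (starRingEnd ℂ) (y i) * Complex.exp (((β i * t : ℝ) : ℂ) * Complex.I)
    with hw
  have hw1 : ∀ i, Complex.normSq (w i) = 1 := by
    intro i
    rw [Complex.normSq_eq_norm_sq, hw]
    simp only
    rw [norm_mul, Complex.norm_exp_ofReal_mul_I, Complex.norm_conj, hy]
    norm_num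
  have id1 : (Fintype.card ι : ℝ) ^ 2 - Complex.normSq (∑ i, w i) =
      1 / 2 * ∑ i, ∑ j, Complex.normSq (w i - w j) := by
    have e1 : ∀ i j, Complex.normSq (w i - w j) = 2 - 2 * (w i * (starRingEnd ℂ) (w j)).re := by
      intro i j
      rw [Complex.normSq_sub, hw1, hw1]
      ring
    have e2 : Complex.normSq (∑ i, w i) = ∑ i, ∑ j, (w i * (starRingEnd ℂ) (w j)).re := by
      have : ((Complex.normSq (∑ i, w i) : ℝ) : ℂ) = ∑ i, ∑ j, w i * (starRingEnd ℂ) (w j) := by
        rw [← Complex.mul_conj, map_sum, Finset.sum_mul_sum]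
      have h := congrArg Complex.re this
      rw [Complex.ofReal_re] at h
      rw [h, Complex.re_sum]
      exact Finset.sum_congr rfl fun i _ => Complex.re_sum _ _
    simp only [e1, e2, Finset.sum_sub_distrib, ← Finset.mul_sum]
    simp
    ring
  have h2 : Complex.normSq (w i - w j) ≤ 1 / 2 * ∑ i, ∑ j, Complex.normSq (w i - w j) := by
    have h3 : Complex.normSq (w i - w j) + Complex.normSq (w j - w i) ≤
        ∑ i, ∑ j, Complex.normSq (w i - w j) := by
      rw [← Finset.sum_product']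
      have : ({(i, j), (j, i)} : Finset (ι × ι)) ⊆ univ ×ˢ univ := by intro x _; simp
      refine le_trans (le_of_eq ?_) (Finset.sum_le_sum_of_subset_of_nonneg this
        fun p _ _ => Complex.normSq_nonneg _)
      rw [Finset.sum_pair]
      intro h
      exact hij (Prod.ext_iff.1 h).1
    have h4 : Complex.normSq (w j - w i) = Complex.normSq (w i - w j) := by
      rw [← Complex.normSq_neg, neg_sub]
    linarith
  linarith

end aux

/-- Simultaneous approximation. -/
theorem bohr {ι : Type*} [Fintype ι] (β : ι → ℝ) (y : ι → ℂ) (hy : ∀ i, ‖y i‖ = 1)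
    (hrel : ∀ m : ι → ℤ, ∑ i, (m i : ℝ) * β i = 0 → ∏ i, y i ^ m i = 1) {ε : ℝ} (hε : 0 < ε) :
    ∃ t : ℝ, ∀ i, ‖Complex.exp (((β i * t : ℝ) : ℂ) * Complex.I) - y i‖ < ε := by
  classical
  have hy0 : ∀ i, y i ≠ 0 := fun i h => by
    have := hy i
    rw [h, norm_zero] at this
    norm_num at this
  obtain ⟨t, ht⟩ := exists_close (ι := Option ι) (fun o => o.elim 0 β) (fun o => o.elim 1 y)
    (by rintro (_ | i) <;> simp [hy]) (by
      intro a b hab
      simp only [Fintype.sum_option, Fintype.prod_option, Option.elim_none, Option.elim_some, mul_zero,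
        zero_add, one_pow, one_mul] at hab ⊢
      have h := hrel (fun i => (a (some i) : ℤ) - b (some i)) (by
        push_cast
        simp only [sub_mul, Finset.sum_sub_distrib, hab, sub_self])
      simp only [zpow_sub₀ (hy0 _), zpow_natCast, Finset.prod_div_distrib] at h
      rwa [div_eq_one_iff_eq] at h
      exact Finset.prod_ne_zero_iff.2 fun i _ => pow_ne_zero _ (hy0 i)) (δ := ε ^ 2) (by positivity)
  refine ⟨t, fun i => ?_⟩
  have h := ht (some i) none (by simp)
  simp only [Option.elim_some, Option.elim_none, map_one, one_mul, zero_mul, Complex.ofReal_zero,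
    Complex.exp_zero] at h
  rw [Complex.normSq_eq_norm_sq] at h
  have h1 : ‖(starRingEnd ℂ) (y i) * Complex.exp (((β i * t : ℝ) : ℂ) * Complex.I) - 1‖ < ε :=
    lt_of_pow_lt_pow_left₀ 2 hε.le h
  have h2 : y i * (starRingEnd ℂ) (y i) = 1 := by
    rw [Complex.mul_conj, Complex.normSq_eq_norm_sq, hy]
    simp
  calc ‖Complex.exp (((β i * t : ℝ) : ℂ) * Complex.I) - y i‖
      = ‖y i * ((starRingEnd ℂ) (y i) * Complex.exp (((β i * t : ℝ) : ℂ) * Complex.I) - 1)‖ := by
        rw [mul_sub, ← mul_assoc, h2, one_mul, mul_one]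
    _ = ‖(starRingEnd ℂ) (y i) * Complex.exp (((β i * t : ℝ) : ℂ) * Complex.I) - 1‖ := by
        rw [norm_mul, hy, one_mul]
    _ < ε := h1

end Pool.Agent.K7.H19.PM
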