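import Pool.Agent.K7.H19.PM.Sym

/-!
# A law with prescribed small correlations
-/

set_option autoImplicit false

open Finset

noncomputable section

namespace Pool.Agent.K7.H19.PM2

section

variable {q : ℕ} [Fact q.Prime] {M : ℕ} {A : Type} [Fintype A] [DecidableEq A]

/-- value of a word -/
def wv (v : A → Fin M → ZMod q) (L1 L2 : List (Fin M)) : ℂ :=
  av A (fun y => (L1.map (pt v y)).prod * (starRingEnd ℂ) (L2.map (pt v y)).prod)

theorem wv_self (v : A → Fin M → ZMod q) (L : List (Fin M)) : wv v L L = 1 := by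
  unfold wv
  rw [mon2_av]
  simp

theorem wv_ne {v : A → Fin M → ZMod q} (hv : Ind v 10) (hq : 10 < q) {L1 L2 : List (Fin M)}
    (hl : L1.length + L2.length ≤ 10) (x : Fin M) (hx : L1.count x ≠ L2.count x) :
    wv v L1 L2 = 0 := by
  unfold wv
  rw [mon2_av, if_neg]
  intro h
  apply hx
  have h0 := hv L1 L2 hl h x
  have h1 := List.count_le_length (a := x) (l := L1)
  have h2 := List.count_le_length (a := x) (l := L2)
  have h3 := congrArg ZMod.val h0
  rwa [ZMod.val_natCast, ZMod.val_natCast, Nat.mod_eq_of_lt (by omega),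
    Nat.mod_eq_of_lt (by omega)] at h3

theorem wv_len {v : A → Fin M → ZMod q} (hv : Ind v 10) (hq : 10 < q) {L1 L2 : List (Fin M)}
    (hl : L1.length + L2.length ≤ 10) (hne : L1.length ≠ L2.length) : wv v L1 L2 = 0 := by
  by_cases h : ∀ x, L1.count x = L2.count x
  · exact absurd (List.perm_iff_count.2 h).length_eq hne
  · push Not at h
    obtain ⟨x, hx⟩ := h
    exact wv_ne hv hq hl x hx

theorem charge {v : A → Fin M → ZMod q} (hv : Ind v 10) (hq : 10 < q) (k l : ℕ)
    (L1 L2 : List (Fin M)) (h : k + l + L1.length + L2.length ≤ 10)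
    (hne : k + L1.length ≠ l + L2.length) :
    av A (fun y => (∑ j, pt v y j) ^ k * (starRingEnd ℂ) (∑ j, pt v y j) ^ l *
      ((L1.map (pt v y)).prod * (starRingEnd ℂ) (L2.map (pt v y)).prod)) = 0 := by
  induction k generalizing L1 with
  | zero =>
    induction l generalizing L2 with
    | zero =>
      simp only [pow_zero, one_mul]
      exact wv_len hv hq (by omega) (by omega)
    | succ l ih =>
      have e : av A (fun y => (∑ j, pt v y j) ^ 0 * (starRingEnd ℂ) (∑ j, pt v y j) ^ (l + 1) *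
            ((L1.map (pt v y)).prod * (starRingEnd ℂ) (L2.map (pt v y)).prod)) =
          ∑ j, av A (fun y => (∑ j, pt v y j) ^ 0 * (starRingEnd ℂ) (∑ j, pt v y j) ^ l *
            ((L1.map (pt v y)).prod * (starRingEnd ℂ) ((j :: L2).map (pt v y)).prod)) := by
        rw [← av_sum]
        refine av_congr fun y => ?_
        simp only [List.map_cons, List.prod_cons, map_mul]
        have : ∀ j ∈ (univ : Finset (Fin M)), (∑ j, pt v y j) ^ 0 * (starRingEnd ℂ) (∑ j, pt v y j) ^ l *
            ((L1.map (pt v y)).prod * ((starRingEnd ℂ) (pt v y j) *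
              (starRingEnd ℂ) (L2.map (pt v y)).prod)) =
            ((∑ j, pt v y j) ^ 0 * (starRingEnd ℂ) (∑ j, pt v y j) ^ l *
            ((L1.map (pt v y)).prod * (starRingEnd ℂ) (L2.map (pt v y)).prod)) *
              (starRingEnd ℂ) (pt v y j) := by
          intro j _
          ring
        rw [sum_congr rfl this, ← mul_sum, ← map_sum, pow_succ]
        ring
      rw [e]
      exact sum_eq_zero fun j _ => ih (j :: L2) (by rw [List.length_cons]; omega)
        (by rw [List.length_cons]; omega)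
  | succ k ih =>
    have e : av A (fun y => (∑ j, pt v y j) ^ (k + 1) * (starRingEnd ℂ) (∑ j, pt v y j) ^ l *
          ((L1.map (pt v y)).prod * (starRingEnd ℂ) (L2.map (pt v y)).prod)) =
        ∑ j, av A (fun y => (∑ j, pt v y j) ^ k * (starRingEnd ℂ) (∑ j, pt v y j) ^ l *
          (((j :: L1).map (pt v y)).prod * (starRingEnd ℂ) (L2.map (pt v y)).prod)) := by
      rw [← av_sum]
      refine av_congr fun y => ?_
      simp only [List.map_cons, List.prod_cons]
      have : ∀ j ∈ (univ : Finset (Fin M)), (∑ j, pt v y j) ^ k * (starRingEnd ℂ) (∑ j, pt v y j) ^ l *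
          (pt v y j * (L1.map (pt v y)).prod * (starRingEnd ℂ) (L2.map (pt v y)).prod) =
          ((∑ j, pt v y j) ^ k * (starRingEnd ℂ) (∑ j, pt v y j) ^ l *
          ((L1.map (pt v y)).prod * (starRingEnd ℂ) (L2.map (pt v y)).prod)) * pt v y j := by
        intro j _
        ring
      rw [sum_congr rfl this, ← mul_sum, pow_succ]
      ring
    rw [e]
    exact sum_eq_zero fun j _ => ih (j :: L1) (by rw [List.length_cons]; omega)
      (by rw [List.length_cons]; omega)

/-- average of `Z̄ z_j` -/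
theorem single_av {v : A → Fin M → ZMod q} (hv : Ind v 10) (hq : 10 < q) (j : Fin M) :
    av A (fun y => (starRingEnd ℂ) (∑ i, pt v y i) * pt v y j) = 1 := by
  have h1 : av A (fun y => (starRingEnd ℂ) (∑ i, pt v y i) * pt v y j) = ∑ i, wv v [j] [i] := by
    unfold wv
    rw [← av_sum]
    refine av_congr fun y => ?_
    simp only [List.map_cons, List.map_nil, List.prod_cons, List.prod_nil, mul_one]
    rw [← mul_sum, map_sum]
    ring
  rw [h1, sum_eq_single j]
  · exact wv_self v [j]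
  · intro i _ hi
    refine wv_ne hv hq (by simp) j ?_
    simp [hi]
  · intro h
    exact absurd (mem_univ _) h

/-- the first correction -/
def R2 (v : A → Fin M → ZMod q) (y : A → ZMod q) : ℝ := Complex.normSq (1 - (∑ i, pt v y i) / 10)

theorem R2_av (v : A → Fin M → ZMod q) (X : (A → ZMod q) → ℂ) :
    av A (fun y => (R2 v y : ℂ) * X y) = av A X
      + (-1 / 10) * av A (fun y => (∑ i, pt v y i) * X y)
      + (-1 / 10) * av A (fun y => (starRingEnd ℂ) (∑ i, pt v y i) * X y)
      + (1 / 100) * av A (fun y => (∑ i, pt v y i) * (starRingEnd ℂ) (∑ i, pt v y i) * X y) := by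
  simp only [← av_mul, ← av_add]
  refine av_congr fun y => ?_
  unfold R2
  rw [Complex.normSq_eq_conj_mul_self]
  simp only [map_sub, map_div₀, map_one, Complex.conj_ofNat]
  ring

/-- the second correction -/
def R3 (v : A → Fin M → ZMod q) (y : A → ZMod q) : ℝ := Complex.normSq (1 - (∑ i, pt v y i ^ 2) / 10)

theorem R3_av (v : A → Fin M → ZMod q) (L1 L2 : List (Fin M)) :
    av A (fun y => (R3 v y : ℂ) * ((L1.map (pt v y)).prod * (starRingEnd ℂ) (L2.map (pt v y)).prod)) =
      wv v L1 L2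
      + (-1 / 10) * ∑ i, wv v (i :: i :: L1) L2
      + (-1 / 10) * ∑ m, wv v L1 (m :: m :: L2)
      + (1 / 100) * ∑ i, ∑ m, wv v (i :: i :: L1) (m :: m :: L2) := by
  unfold wv
  simp only [← av_sum, ← av_mul, ← av_add]
  refine av_congr fun y => ?_
  unfold R3
  rw [Complex.normSq_eq_conj_mul_self]
  simp only [map_sub, map_div₀, map_one, Complex.conj_ofNat, List.map_cons, List.prod_cons, map_mul,
    map_sum, map_pow]
  set P := (L1.map (pt v y)).prod
  set Q := (starRingEnd ℂ) (L2.map (pt v y)).prod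
  have e1 : ∑ i, pt v y i * (pt v y i * P) * Q = (∑ i, pt v y i ^ 2) * (P * Q) := by
    rw [sum_mul]
    exact sum_congr rfl fun i _ => by ring
  have e2 : ∑ m, P * ((starRingEnd ℂ) (pt v y m) * ((starRingEnd ℂ) (pt v y m) * Q)) =
      (∑ m, (starRingEnd ℂ) (pt v y m) ^ 2) * (P * Q) := by
    rw [sum_mul]
    exact sum_congr rfl fun i _ => by ring
  have e3 : ∑ i, ∑ m, pt v y i * (pt v y i * P) *
      ((starRingEnd ℂ) (pt v y m) * ((starRingEnd ℂ) (pt v y m) * Q)) =
      (∑ i, pt v y i ^ 2) * (∑ m, (starRingEnd ℂ) (pt v y m) ^ 2) * (P * Q) := by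
    rw [sum_mul_sum, sum_mul]
    refine sum_congr rfl fun i _ => ?_
    rw [sum_mul]
    exact sum_congr rfl fun m _ => by ring
  rw [e1, e2, e3]
  ring

/-- the main correlation -/
def kap (M : ℕ) : ℝ := (188 * (M : ℝ) ^ 3 + 272 * M ^ 2 - 700 * M + 1824) / EG M

theorem EG_pos (hM : 3 ≤ M) : 0 < EG M := by
  have hM' : (3 : ℝ) ≤ M := by exact_mod_cast hM
  unfold EG
  have h1 : (0 : ℝ) < M := by linarith
  have : 0 < (M : ℝ) * (322 * M ^ 3 - 77 * M ^ 2 + 56 * M - 132) := by
    apply mul_pos h1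
    nlinarith [mul_nonneg (sub_nonneg.2 hM') (sq_nonneg (M : ℝ)), mul_self_nonneg ((M : ℝ) - 3)]
  linarith [this, (by ring : (M : ℝ) * (322 * M ^ 3 - 77 * M ^ 2 + 56 * M - 132) =
    322 * M ^ 4 - 77 * M ^ 3 + 56 * M ^ 2 - 132 * M)]

theorem kap_bound (hM : 3 ≤ M) : 0 < kap M ∧ 1 / kap M ≤ 12 * M / 7 := by
  have hM' : (3 : ℝ) ≤ M := by exact_mod_cast hM
  have h1 : (0 : ℝ) < M := by linarith
  have hE := EG_pos hM
  have h2 : 0 < 188 * (M : ℝ) ^ 3 + 272 * M ^ 2 - 700 * M + 1824 := by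
    nlinarith [mul_pos h1 h1, mul_nonneg (sub_nonneg.2 hM') (sq_nonneg (M : ℝ))]
  refine ⟨div_pos h2 hE, ?_⟩
  unfold kap
  rw [one_div_div, div_le_iff₀ h2]
  unfold EG
  have h3 : (0 : ℝ) ≤ M * ((M : ℝ) ^ 3 + 1 * (M : ℝ) ^ 2) := by positivity
  have h4 : 0 ≤ ((M : ℝ) - 3) := by linarith
  have h5 : 0 ≤ (M : ℝ) * (2 * (M : ℝ) ^ 3 + 3803 * M ^ 2 - 8792 * M + 22812) := by
    apply mul_nonneg h1.le
    nlinarith [mul_nonneg h4 (sq_nonneg (M : ℝ)), pow_pos h1 3, mul_nonneg h4 h1.le]
  nlinarith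

theorem G_mass {v : A → Fin M → ZMod q} (hv : Ind v 10) (hq : 10 < q) :
    av A (fun y => (Gw M (Complex.normSq (∑ j, pt v y j)) : ℂ) * 1) = (EG M : ℂ) := by
  have h2 : ∀ k, k ≤ 4 → av A (fun y => (∑ j, pt v y j) ^ k * (starRingEnd ℂ) (∑ j, pt v y j) ^ k * 1) =
      FM q k M := by
    intro k hk
    have := transfer hv k k [] [] (by simp; omega)
    simp only [List.map_nil, List.prod_nil, map_one, mul_one, pt_idv] at this
    simp only [mul_one]
    exact this
  rw [G_av v (fun _ => 1), h2 4 (by norm_num), h2 3 (by norm_num), h2 2 (by norm_num),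
    h2 1 (by norm_num), h2 0 (by norm_num), FM0 (by omega), FM1 (by omega), FM2 (by omega),
    FM3 (by omega), FM4 (by omega)]
  unfold EG
  push_cast
  ring

theorem G_pair {v : A → Fin M → ZMod q} (hv : Ind v 10) (hq : 10 < q) (hM : 3 ≤ M) {j l : Fin M}
    (hjl : j ≠ l) :
    av A (fun y => (Gw M (Complex.normSq (∑ j, pt v y j)) : ℂ) *
      (pt v y j * (starRingEnd ℂ) (pt v y l))) = ((-(kap M) * EG M : ℝ) : ℂ) := by
  have hM' : (3 : ℝ) ≤ M := by exact_mod_cast hM
  have hM0 : (M : ℂ) ≠ 0 := by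
    have : M ≠ 0 := by omega
    exact_mod_cast this
  have hM1 : (M : ℂ) - 1 ≠ 0 := by
    intro h
    have h1 : (M : ℂ) = ((1 : ℕ) : ℂ) := by rw [Nat.cast_one]; exact sub_eq_zero.1 h
    have : M = 1 := by exact_mod_cast h1
    omega
  have h2 : ∀ k, k ≤ 4 → av A (fun y => (∑ j, pt v y j) ^ k * (starRingEnd ℂ) (∑ j, pt v y j) ^ k *
      (pt v y j * (starRingEnd ℂ) (pt v y l))) = E2 q M k j l := by
    intro k hk
    have := transfer hv k k [j] [l] (by simp; omega)
    simp only [List.map_cons, List.map_nil, List.prod_cons, List.prod_nil, mul_one, pt_idv] at this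
    exact this
  rw [G_av v (fun y => pt v y j * (starRingEnd ℂ) (pt v y l)), h2 4 (by norm_num), h2 3 (by norm_num),
    h2 2 (by norm_num), h2 1 (by norm_num), h2 0 (by norm_num)]
  have hq5 : 5 < q := by omega
  have hv4 := E2_val (q := q) 4 hjl
  have hv3 := E2_val (q := q) 3 hjl
  have hv2 := E2_val (q := q) 2 hjl
  have hv1 := E2_val (q := q) 1 hjl
  have hv0 := E2_val (q := q) 0 hjl
  rw [FM5 hq5, FM4 hq5] at hv4
  rw [FM4 hq5, FM3 hq5] at hv3
  rw [FM3 hq5, FM2 hq5] at hv2
  rw [FM2 hq5, FM1 hq5] at hv1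
  rw [zero_add, FM1 hq5, FM0 hq5] at hv0
  have hk : -(kap M) * EG M = -(188 * (M : ℝ) ^ 3 + 272 * M ^ 2 - 700 * M + 1824) := by
    unfold kap
    have := (EG_pos hM).ne'
    field_simp
  rw [hk]
  apply mul_left_cancel₀ (mul_ne_zero hM0 hM1)
  push_cast
  linear_combination 4 * hv4 - 68 * M * hv3 + 401 * M ^ 2 * hv2 - 952 * M ^ 3 * hv1 +
    784 * M ^ 4 * hv0

theorem G_charge {v : A → Fin M → ZMod q} (hv : Ind v 10) (hq : 10 < q) (L1 L2 : List (Fin M))
    (h : L1.length + L2.length ≤ 2) (hne : L1.length ≠ L2.length) :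
    av A (fun y => (Gw M (Complex.normSq (∑ j, pt v y j)) : ℂ) *
      ((L1.map (pt v y)).prod * (starRingEnd ℂ) (L2.map (pt v y)).prod)) = 0 := by
  rw [G_av v (fun y => (L1.map (pt v y)).prod * (starRingEnd ℂ) (L2.map (pt v y)).prod),
    charge hv hq 4 4 L1 L2 (by omega) (by omega), charge hv hq 3 3 L1 L2 (by omega) (by omega),
    charge hv hq 2 2 L1 L2 (by omega) (by omega), charge hv hq 1 1 L1 L2 (by omega) (by omega),
    charge hv hq 0 0 L1 L2 (by omega) (by omega)]
  simp

end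

end Pool.Agent.K7.H19.PM2
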