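import Pool.Agent.K7.H19.PM.CType

/-!
# A law with prescribed small correlations, continued
-/

set_option autoImplicit false

open Finset

noncomputable section

namespace Pool.Agent.K7.H19.PM2

section

variable {q : ℕ} [Fact q.Prime] {M : ℕ} {A : Type} [Fintype A] [DecidableEq A]

/-- a word -/
def mw (v : A → Fin M → ZMod q) (L1 L2 : List (Fin M)) (y : A → ZMod q) : ℂ :=
  (L1.map (pt v y)).prod * (starRingEnd ℂ) (L2.map (pt v y)).prod

theorem R2_word (v : A → Fin M → ZMod q) (L1 L2 : List (Fin M)) :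
    av A (fun y => (R2 v y : ℂ) * mw v L1 L2 y) = wv v L1 L2
      + (-1 / 10) * av A (fun y => (∑ j, pt v y j) ^ 1 * (starRingEnd ℂ) (∑ j, pt v y j) ^ 0 *
        ((L1.map (pt v y)).prod * (starRingEnd ℂ) (L2.map (pt v y)).prod))
      + (-1 / 10) * av A (fun y => (∑ j, pt v y j) ^ 0 * (starRingEnd ℂ) (∑ j, pt v y j) ^ 1 *
        ((L1.map (pt v y)).prod * (starRingEnd ℂ) (L2.map (pt v y)).prod))
      + (1 / 100) * av A (fun y => (∑ j, pt v y j) ^ 1 * (starRingEnd ℂ) (∑ j, pt v y j) ^ 1 *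
        ((L1.map (pt v y)).prod * (starRingEnd ℂ) (L2.map (pt v y)).prod)) := by
  rw [R2_av]
  simp only [pow_zero, pow_one, one_mul, mul_one]
  rfl

theorem R2_zero {v : A → Fin M → ZMod q} (hv : Ind v 10) (hq : 10 < q) (j l : Fin M) :
    av A (fun y => (R2 v y : ℂ) * mw v [j, l] [] y) = 0 := by
  rw [R2_word, wv_len hv hq (by simp) (by simp), charge hv hq 1 0 _ _ (by simp) (by simp),
    charge hv hq 0 1 _ _ (by simp) (by simp), charge hv hq 1 1 _ _ (by simp) (by simp)]
  simp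

theorem R2_single {v : A → Fin M → ZMod q} (hv : Ind v 10) (hq : 10 < q) (j : Fin M) :
    av A (fun y => (R2 v y : ℂ) * mw v [j] [] y) = -1 / 10 := by
  have h1 := single_av hv hq j
  rw [R2_word, wv_len hv hq (by simp) (by simp), charge hv hq 1 0 _ _ (by simp) (by simp),
    charge hv hq 1 1 _ _ (by simp) (by simp)]
  simp only [pow_zero, pow_one, one_mul, List.map_cons, List.map_nil, List.prod_cons, List.prod_nil,
    mul_one, map_one, h1]
  simp

theorem R2_pair {v : A → Fin M → ZMod q} (hv : Ind v 10) (hq : 10 < q) (hM : 3 ≤ M) {j l : Fin M}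
    (hjl : j ≠ l) : av A (fun y => (R2 v y : ℂ) * mw v [j] [l] y) = 1 / 100 := by
  have hM0 : (M : ℂ) ≠ 0 := by
    have : M ≠ 0 := by omega
    exact_mod_cast this
  have hM1 : (M : ℂ) - 1 ≠ 0 := by
    intro h
    have h1 : (M : ℂ) = ((1 : ℕ) : ℂ) := by rw [Nat.cast_one]; exact sub_eq_zero.1 h
    have : M = 1 := by exact_mod_cast h1
    omega
  have h1 : E2 q M 1 j l = 1 := by
    have h2 := E2_val (q := q) 1 hjl
    rw [FM2 (by omega), FM1 (by omega)] at h2
    apply mul_left_cancel₀ (mul_ne_zero hM0 hM1)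
    rw [h2]
    ring
  have h3 := transfer hv 1 1 [j] [l] (by simp)
  rw [R2_word, wv_ne hv hq (by simp) j (by simp [hjl.symm]), charge hv hq 1 0 _ _ (by simp) (by simp),
    charge hv hq 0 1 _ _ (by simp) (by simp), h3]
  simp only [List.map_cons, List.map_nil, List.prod_cons, List.prod_nil, mul_one, pt_idv]
  have h4 : av (q := q) (Fin M) (fun y => (∑ i, ch (y i)) ^ 1 * (starRingEnd ℂ) (∑ i, ch (y i)) ^ 1 *
    (ch (y j) * (starRingEnd ℂ) (ch (y l)))) = 1 := h1
  rw [h4]
  simp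

theorem R2_mass {v : A → Fin M → ZMod q} (hv : Ind v 10) (hq : 10 < q) :
    av A (fun y => (R2 v y : ℂ) * mw v [] [] y) = 1 + M / 100 := by
  have h1 : FM q 1 M = M := FM1 (by omega) M
  have h3 := transfer hv 1 1 [] [] (by simp)
  rw [R2_word, wv_self, charge hv hq 1 0 _ _ (by simp) (by simp),
    charge hv hq 0 1 _ _ (by simp) (by simp), h3]
  simp only [List.map_nil, List.prod_nil, mul_one, pt_idv, map_one]
  have h4 : av (q := q) (Fin M) (fun y => (∑ i, ch (y i)) ^ 1 * (starRingEnd ℂ) (∑ i, ch (y i)) ^ 1) =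
    M := h1
  rw [h4]
  ring

theorem R3_word (v : A → Fin M → ZMod q) (L1 L2 : List (Fin M)) :
    av A (fun y => (R3 v y : ℂ) * mw v L1 L2 y) =
      wv v L1 L2
      + (-1 / 10) * ∑ i, wv v (i :: i :: L1) L2
      + (-1 / 10) * ∑ m, wv v L1 (m :: m :: L2)
      + (1 / 100) * ∑ i, ∑ m, wv v (i :: i :: L1) (m :: m :: L2) := R3_av v L1 L2

theorem R3_single {v : A → Fin M → ZMod q} (hv : Ind v 10) (hq : 10 < q) (j : Fin M) :
    av A (fun y => (R3 v y : ℂ) * mw v [j] [] y) = 0 := by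
  rw [R3_word, wv_len hv hq (by simp) (by simp)]
  rw [sum_eq_zero (f := fun i => wv v (i :: i :: [j]) []) fun i _ => wv_len hv hq (by simp) (by simp),
    sum_eq_zero (f := fun m => wv v [j] (m :: m :: [])) fun m _ => wv_len hv hq (by simp) (by simp),
    sum_eq_zero (f := fun i => ∑ m, wv v (i :: i :: [j]) (m :: m :: [])) fun i _ =>
      sum_eq_zero fun m _ => wv_len hv hq (by simp) (by simp)]
  simp

theorem R3_pair {v : A → Fin M → ZMod q} (hv : Ind v 10) (hq : 10 < q) {j l : Fin M}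
    (hjl : j ≠ l) : av A (fun y => (R3 v y : ℂ) * mw v [j] [l] y) = 0 := by
  rw [R3_word, wv_ne hv hq (by simp) j (by simp [hjl.symm])]
  rw [sum_eq_zero (f := fun i => wv v (i :: i :: [j]) [l]) fun i _ => wv_len hv hq (by simp) (by simp),
    sum_eq_zero (f := fun m => wv v [j] (m :: m :: [l])) fun m _ => wv_len hv hq (by simp) (by simp),
    sum_eq_zero (f := fun i => ∑ m, wv v (i :: i :: [j]) (m :: m :: [l])) fun i _ =>
      sum_eq_zero fun m _ => wv_ne hv hq (by simp) j (by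
        simp only [List.count_cons, List.count_nil]
        by_cases h1 : i = j <;> by_cases h2 : m = j <;> simp [h1, h2, hjl.symm])]
  simp

theorem R3_zero {v : A → Fin M → ZMod q} (hv : Ind v 10) (hq : 10 < q) {j l : Fin M}
    (hjl : j ≠ l) : av A (fun y => (R3 v y : ℂ) * mw v [j, l] [] y) = 0 := by
  rw [R3_word, wv_len hv hq (by simp) (by simp)]
  rw [sum_eq_zero (f := fun i => wv v (i :: i :: [j, l]) []) fun i _ => wv_len hv hq (by simp) (by simp),
    sum_eq_zero (f := fun m => wv v [j, l] (m :: m :: [])) fun m _ => wv_ne hv hq (by simp) j (by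
        simp only [List.count_cons, List.count_nil]
        by_cases h2 : m = j <;> simp [h2, hjl.symm]),
    sum_eq_zero (f := fun i => ∑ m, wv v (i :: i :: [j, l]) (m :: m :: [])) fun i _ =>
      sum_eq_zero fun m _ => wv_len hv hq (by simp) (by simp)]
  simp

theorem R3_sq {v : A → Fin M → ZMod q} (hv : Ind v 10) (hq : 10 < q) (j : Fin M) :
    av A (fun y => (R3 v y : ℂ) * mw v [j, j] [] y) = -1 / 10 := by
  rw [R3_word, wv_len hv hq (by simp) (by simp)]
  rw [sum_eq_zero (f := fun i => wv v (i :: i :: [j, j]) []) fun i _ => wv_len hv hq (by simp) (by simp),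
    sum_eq_zero (f := fun i => ∑ m, wv v (i :: i :: [j, j]) (m :: m :: [])) fun i _ =>
      sum_eq_zero fun m _ => wv_len hv hq (by simp) (by simp),
    sum_eq_single (f := fun m => wv v [j, j] (m :: m :: [])) j (fun m _ hm => wv_ne hv hq (by simp) j (by
        simp [hm])) (fun h => absurd (mem_univ _) h), wv_self]
  simp

theorem R3_mass {v : A → Fin M → ZMod q} (hv : Ind v 10) (hq : 10 < q) :
    av A (fun y => (R3 v y : ℂ) * mw v [] [] y) = 1 + M / 100 := by
  rw [R3_word, wv_self]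
  rw [sum_eq_zero (f := fun i => wv v (i :: i :: []) []) fun i _ => wv_len hv hq (by simp) (by simp),
    sum_eq_zero (f := fun m => wv v [] (m :: m :: [])) fun m _ => wv_len hv hq (by simp) (by simp)]
  have : ∀ i ∈ (univ : Finset (Fin M)), ∑ m, wv v (i :: i :: []) (m :: m :: []) = 1 := by
    intro i _
    rw [sum_eq_single i (fun m _ hm => wv_ne hv hq (by simp) i (by simp [hm]))
      (fun h => absurd (mem_univ _) h), wv_self]
  rw [sum_congr rfl this]
  simp
  ring

theorem ctype {v : A → Fin M → ZMod q} (hv : Ind v 10) (hq : 10 < q) (hM : 3 ≤ M) {c δ : ℝ}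
    (hc : 0 ≤ c) (hδ : 0 ≤ δ)
    (hsum : c * ((2 + δ / 10) * (12 * M / 7) + (1 + δ) * (10 + M / 10)) ≤ 1) :
    ∃ w : (A → ZMod q) → ℝ, (∀ y, 0 ≤ w y) ∧ ∑ y, w y = 1 ∧
      (∀ j l, j ≠ l → ∑ y, w y * (pt v y j * (starRingEnd ℂ) (pt v y l)).re = -(2 * c)) ∧
      (∀ j l, j ≠ l → ∑ y, w y * (pt v y j * pt v y l).re = 0) ∧
      (∀ j, ∑ y, w y * (pt v y j * pt v y j).re = -c) ∧
      (∀ j, ∑ y, w y * (pt v y j).re = -(δ * c)) ∧
      (∀ j, ∑ y, w y * (pt v y j).im = 0) := by
  have hM' : (3 : ℝ) ≤ M := by exact_mod_cast hM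
  have hEG := EG_pos hM
  obtain ⟨hk0, hk1⟩ := kap_bound hM
  have hcard : (0 : ℝ) < (Fintype.card (A → ZMod q) : ℝ) := by
    have : 0 < Fintype.card (A → ZMod q) := Fintype.card_pos
    exact_mod_cast this
  have hm : (0 : ℝ) < 1 + M / 100 := by positivity
  set s1 : ℝ := (2 * c + δ * c / 10) / kap M with hs1
  set s2 : ℝ := δ * c * (10 + M / 10) with hs2
  set s3 : ℝ := c * (10 + M / 10) with hs3
  set s4 : ℝ := 1 - s1 - s2 - s3 with hs4
  have h1 : 0 ≤ s1 := by positivity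
  have h2 : 0 ≤ s2 := by positivity
  have h3 : 0 ≤ s3 := by positivity
  have h4 : 0 ≤ s4 := by
    have h5 : s1 ≤ (2 * c + δ * c / 10) * (12 * M / 7) := by
      rw [hs1, div_eq_mul_one_div]
      exact mul_le_mul_of_nonneg_left hk1 (by positivity)
    rw [hs4, hs2, hs3]
    nlinarith
  let ρ : (A → ZMod q) → ℝ := fun y =>
    s1 / EG M * Gw M (Complex.normSq (∑ j, pt v y j)) + s2 / (1 + M / 100) * R2 v y +
      s3 / (1 + M / 100) * R3 v y + s4
  have hρ : ∀ y, 0 ≤ ρ y := by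
    intro y
    have e1 : 0 ≤ Gw M (Complex.normSq (∑ j, pt v y j)) := by unfold Gw; positivity
    have e2 : 0 ≤ R2 v y := Complex.normSq_nonneg _
    have e3 : 0 ≤ R3 v y := Complex.normSq_nonneg _
    simp only [ρ]
    positivity
  have hcomb : ∀ X : (A → ZMod q) → ℂ, av A (fun y => (ρ y : ℂ) * X y) =
      ((s1 / EG M : ℝ) : ℂ) * av A (fun y => (Gw M (Complex.normSq (∑ j, pt v y j)) : ℂ) * X y) +
      ((s2 / (1 + M / 100) : ℝ) : ℂ) * av A (fun y => (R2 v y : ℂ) * X y) +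
      ((s3 / (1 + M / 100) : ℝ) : ℂ) * av A (fun y => (R3 v y : ℂ) * X y) + (s4 : ℂ) * av A X := by
    intro X
    simp only [← av_mul, ← av_add]
    refine av_congr fun y => ?_
    simp only [ρ]
    push_cast
    ring
  have hre : ∀ X : (A → ZMod q) → ℂ, ∑ y, ρ y / (Fintype.card (A → ZMod q) : ℝ) * (X y).re =
      (av A (fun y => (ρ y : ℂ) * X y)).re := by
    intro X
    unfold av
    rw [show ((Fintype.card (A → ZMod q) : ℂ)) = (((Fintype.card (A → ZMod q) : ℝ)) : ℂ) by simp,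
      Complex.div_ofReal_re, Complex.re_sum, sum_div]
    refine sum_congr rfl fun y _ => ?_
    rw [Complex.re_ofReal_mul]
    ring
  have him : ∀ X : (A → ZMod q) → ℂ, ∑ y, ρ y / (Fintype.card (A → ZMod q) : ℝ) * (X y).im =
      (av A (fun y => (ρ y : ℂ) * X y)).im := by
    intro X
    unfold av
    rw [show ((Fintype.card (A → ZMod q) : ℂ)) = (((Fintype.card (A → ZMod q) : ℝ)) : ℂ) by simp,
      Complex.div_ofReal_im, Complex.im_sum, sum_div]
    refine sum_congr rfl fun y _ => ?_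
    rw [Complex.im_ofReal_mul]
    ring
  have hX0 : mw v [] [] = fun _ => 1 := by funext y; simp [mw]
  have hX1 : ∀ j, mw v [j] [] = fun y => pt v y j := by intro j; funext y; simp [mw]
  have hX2 : ∀ j l, mw v [j, l] [] = fun y => pt v y j * pt v y l := by
    intro j l; funext y; simp [mw]
  have hX3 : ∀ j l, mw v [j] [l] = fun y => pt v y j * (starRingEnd ℂ) (pt v y l) := by
    intro j l; funext y; simp [mw]
  have hw : ∀ L1 L2, av A (mw v L1 L2) = wv v L1 L2 := fun _ _ => rfl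
  have hG : ∀ L1 L2 : List (Fin M), L1.length + L2.length ≤ 2 → L1.length ≠ L2.length →
      av A (fun y => (Gw M (Complex.normSq (∑ j, pt v y j)) : ℂ) * mw v L1 L2 y) = 0 :=
    fun L1 L2 => G_charge hv hq L1 L2
  refine ⟨fun y => ρ y / (Fintype.card (A → ZMod q) : ℝ), fun y => div_nonneg (hρ y) hcard.le,
    ?_, ?_, ?_, ?_, ?_, ?_⟩
  · have e := hre (mw v [] [])
    rw [hcomb, R2_mass hv hq, R3_mass hv hq, hw, wv_self, hX0, G_mass hv hq] at e
    simp only [Complex.one_re, mul_one] at e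
    rw [e]
    have e2 : ((s1 / EG M : ℝ) : ℂ) * (EG M : ℂ) + ((s2 / (1 + M / 100) : ℝ) : ℂ) * (1 + M / 100) +
        ((s3 / (1 + M / 100) : ℝ) : ℂ) * (1 + M / 100) + (s4 : ℂ) = ((s1 + s2 + s3 + s4 : ℝ) : ℂ) := by
      have e3 : ((1 : ℂ) + M / 100) = ((1 + M / 100 : ℝ) : ℂ) := by push_cast; ring
      rw [e3, ← Complex.ofReal_mul, ← Complex.ofReal_mul, ← Complex.ofReal_mul,
        div_mul_cancel₀ _ hEG.ne', div_mul_cancel₀ _ hm.ne', div_mul_cancel₀ _ hm.ne']
      push_cast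
      ring
    rw [e2, Complex.ofReal_re, hs4]
    ring
  · intro j l hjl
    have e := hre (mw v [j] [l])
    rw [hcomb, R2_pair hv hq hM hjl, R3_pair hv hq hjl, hw,
      wv_ne hv hq (by simp) j (by simp [hjl.symm]), hX3, G_pair hv hq hM hjl] at e
    rw [e]
    have e2 : ((s1 / EG M : ℝ) : ℂ) * ((-(kap M) * EG M : ℝ) : ℂ) +
        ((s2 / (1 + M / 100) : ℝ) : ℂ) * (1 / 100) +
        ((s3 / (1 + M / 100) : ℝ) : ℂ) * 0 + (s4 : ℂ) * 0 =
        ((s1 / EG M * (-(kap M) * EG M) + s2 / (1 + M / 100) * (1 / 100) : ℝ) : ℂ) := by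
      push_cast
      ring
    rw [e2, Complex.ofReal_re]
    have e4 : s1 / EG M * (-(kap M) * EG M) = -(2 * c + δ * c / 10) := by
      rw [hs1]
      have := hEG.ne'
      have := hk0.ne'
      field_simp
    have e5 : s2 / (1 + M / 100) * (1 / 100) = δ * c / 10 := by
      rw [hs2]
      field_simp
      ring
    rw [e4, e5]
    ring
  · intro j l hjl
    have e := hre (mw v [j, l] [])
    rw [hcomb, R2_zero hv hq, R3_zero hv hq hjl, hw, wv_len hv hq (by simp) (by simp),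
      hG _ _ (by simp) (by simp), hX2] at e
    rw [e]
    simp
  · intro j
    have e := hre (mw v [j, j] [])
    rw [hcomb, R2_zero hv hq, R3_sq hv hq, hw, wv_len hv hq (by simp) (by simp),
      hG _ _ (by simp) (by simp), hX2] at e
    rw [e]
    have e2 : ((s1 / EG M : ℝ) : ℂ) * 0 + ((s2 / (1 + M / 100) : ℝ) : ℂ) * 0 +
        ((s3 / (1 + M / 100) : ℝ) : ℂ) * (-1 / 10) + (s4 : ℂ) * 0 =
        ((s3 / (1 + M / 100) * (-1 / 10) : ℝ) : ℂ) := by
      push_cast
      ring
    rw [e2, Complex.ofReal_re, hs3]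
    field_simp
    ring
  · intro j
    have e := hre (mw v [j] [])
    rw [hcomb, R2_single hv hq, R3_single hv hq, hw, wv_len hv hq (by simp) (by simp),
      hG _ _ (by simp) (by simp), hX1] at e
    rw [e]
    have e2 : ((s1 / EG M : ℝ) : ℂ) * 0 + ((s2 / (1 + M / 100) : ℝ) : ℂ) * (-1 / 10) +
        ((s3 / (1 + M / 100) : ℝ) : ℂ) * 0 + (s4 : ℂ) * 0 =
        ((s2 / (1 + M / 100) * (-1 / 10) : ℝ) : ℂ) := by
      push_cast
      ring
    rw [e2, Complex.ofReal_re, hs2]
    field_simp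
    ring
  · intro j
    have e := him (mw v [j] [])
    rw [hcomb, R2_single hv hq, R3_single hv hq, hw, wv_len hv hq (by simp) (by simp),
      hG _ _ (by simp) (by simp), hX1] at e
    rw [e]
    have e2 : ((s1 / EG M : ℝ) : ℂ) * 0 + ((s2 / (1 + M / 100) : ℝ) : ℂ) * (-1 / 10) +
        ((s3 / (1 + M / 100) : ℝ) : ℂ) * 0 + (s4 : ℂ) * 0 =
        ((s2 / (1 + M / 100) * (-1 / 10) : ℝ) : ℂ) := by
      push_cast
      ring
    rw [e2, Complex.ofReal_im]

end

end Pool.Agent.K7.H19.PM2
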