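import Pool.Agent.K7.H19.PM.Bohr

/-!
# Densities with prescribed values of the characteristic function at finitely many points
-/

set_option autoImplicit false

open Finset Filter Topology MeasureTheory

noncomputable section

namespace Pool.Agent.K7.H19.PM

/-- probability densities -/
def Dens (f : ℝ → ℝ) : Prop := (∀ s, 0 ≤ f s) ∧ Integrable f ∧ ∫ s, f s = 1

/-- the moment vector -/
def mom (Ω : Finset ℝ) (f : ℝ → ℝ) : Ω → ℝ := fun ω => ∫ s, f s * Real.cos (ω * s)

/-- the set of moment vectors of densities -/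
def MomSet (Ω : Finset ℝ) : Set (Ω → ℝ) := {x | ∃ f, Dens f ∧ mom Ω f = x}

theorem integrable_mul_cos {f : ℝ → ℝ} (hf : Integrable f) (a : ℝ) :
    Integrable fun s => f s * Real.cos (a * s) := by
  refine hf.mul_bdd (c := 1) (by fun_prop) (Filter.Eventually.of_forall fun s => ?_)
  rw [Real.norm_eq_abs]
  exact Real.abs_cos_le_one _

theorem convex_MomSet (Ω : Finset ℝ) : Convex ℝ (MomSet Ω) := by
  rintro x ⟨f, ⟨hf0, hfi, hf1⟩, rfl⟩ y ⟨g, ⟨hg0, hgi, hg1⟩, rfl⟩ a b ha hb hab
  refine ⟨fun s => a * f s + b * g s, ⟨fun s => ?_, ?_, ?_⟩, ?_⟩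
  · have := hf0 s
    have := hg0 s
    positivity
  · exact (hfi.const_mul a).add (hgi.const_mul b)
  · rw [integral_add (hfi.const_mul a) (hgi.const_mul b), integral_const_mul, integral_const_mul, hf1,
      hg1, mul_one, mul_one, hab]
  · ext ω
    simp only [mom, Pi.add_apply, Pi.smul_apply, smul_eq_mul]
    rw [← integral_const_mul, ← integral_const_mul, ← integral_add]
    · congr 1
      ext s
      ring
    · exact (integrable_mul_cos hfi _).const_mul a
    · exact (integrable_mul_cos hgi _).const_mul b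

/-- a density from a nonnegative continuous function on an interval -/
theorem dens_of_interval {P : ℝ → ℝ} (hP : Continuous P) (hP0 : ∀ s, 0 ≤ P s) {a b : ℝ} (hab : a ≤ b)
    (hI : 0 < ∫ s in a..b, P s) (Ω : Finset ℝ) :
    (fun ω : Ω => (∫ s in a..b, P s * Real.cos (ω * s)) / ∫ s in a..b, P s) ∈ MomSet Ω := by
  set Z := ∫ s in a..b, P s with hZ
  refine ⟨fun s => (Set.Ioc a b).indicator (fun s => P s / Z) s, ⟨fun s => ?_, ?_, ?_⟩, ?_⟩
  · refine Set.indicator_nonneg (fun s _ => ?_) s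
    have := hP0 s
    positivity
  · rw [integrable_indicator_iff measurableSet_Ioc]
    exact ((hP.div_const Z).integrableOn_Icc).mono_set Set.Ioc_subset_Icc_self
  · rw [integral_indicator measurableSet_Ioc, ← intervalIntegral.integral_of_le hab,
      intervalIntegral.integral_div, ← hZ, div_self hI.ne']
  · ext ω
    simp only [mom]
    have h1 : ∀ s, (Set.Ioc a b).indicator (fun s => P s / Z) s * Real.cos (ω * s) =
        (Set.Ioc a b).indicator (fun s => P s * Real.cos (ω * s) / Z) s := by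
      intro s
      by_cases hs : s ∈ Set.Ioc a b
      · rw [Set.indicator_of_mem hs, Set.indicator_of_mem hs]
        ring
      · rw [Set.indicator_of_notMem hs, Set.indicator_of_notMem hs, zero_mul]
    simp only [h1]
    rw [integral_indicator measurableSet_Ioc, ← intervalIntegral.integral_of_le hab,
      intervalIntegral.integral_div]

theorem point_mem_closure (Ω : Finset ℝ) (t : ℝ) :
    (fun ω : Ω => Real.cos (ω * t)) ∈ closure (MomSet Ω) := by
  rw [Metric.mem_closure_iff]
  intro ε hε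
  set M : ℝ := ∑ ω ∈ Ω, |ω| with hM
  have hM0 : 0 ≤ M := Finset.sum_nonneg fun _ _ => abs_nonneg _
  set h : ℝ := ε / (2 * (M + 1)) with hh
  have hh0 : 0 < h := by positivity
  have h1 : ∫ s in t..(t + h), (1 : ℝ) = h := by simp
  refine ⟨_, dens_of_interval (P := fun _ => 1) continuous_const (fun _ => zero_le_one)
    (a := t) (b := t + h) (by linarith) (by rw [h1]; exact hh0) Ω, ?_⟩
  rw [h1]
  refine lt_of_le_of_lt ?_ (show ε / 2 < ε by linarith)
  rw [dist_pi_le_iff (by positivity)]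
  intro ω
  rw [Real.dist_eq]
  have h2 : Real.cos (ω * t) - (∫ s in t..(t + h), 1 * Real.cos (ω * s)) / h =
      (∫ s in t..(t + h), (Real.cos (ω * t) - Real.cos (ω * s))) / h := by
    rw [intervalIntegral.integral_sub (by simp) (Continuous.intervalIntegrable (by fun_prop) _ _)]
    simp only [intervalIntegral.integral_const, smul_eq_mul, one_mul, add_sub_cancel_left]
    field_simp
  rw [h2, abs_div, abs_of_pos hh0, div_le_iff₀ hh0, ← Real.norm_eq_abs]
  have hω : |(ω : ℝ)| ≤ M := Finset.single_le_sum (f := fun ω : ℝ => |ω|) (fun _ _ => abs_nonneg _) ω.2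
  have h3 : ∀ s ∈ Set.uIoc t (t + h), ‖Real.cos (ω * t) - Real.cos (ω * s)‖ ≤ M * h := by
    intro s hs
    rw [Set.uIoc_of_le (by linarith)] at hs
    rw [Real.norm_eq_abs]
    have h4 : |Real.cos (ω * t) - Real.cos (ω * s)| ≤ |ω * t - ω * s| := by
      have := Real.abs_cos_sub_cos_le (ω * t) (ω * s)
      exact this
    refine h4.trans ?_
    rw [← mul_sub, abs_mul]
    have h5 : |t - s| ≤ h := by
      rw [abs_le]
      constructor <;> linarith [hs.1, hs.2]
    gcongr
  refine (intervalIntegral.norm_integral_le_of_norm_le_const h3).trans ?_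
  rw [add_sub_cancel_left, abs_of_pos hh0]
  have h6 : M * h ≤ ε / 2 := by
    rw [hh]
    rw [← mul_div_assoc, div_le_div_iff₀ (by positivity) (by positivity)]
    nlinarith
  gcongr

theorem mean_cos (a : ℝ) : Tendsto (fun T : ℝ => (1 / T) * ∫ s in (0 : ℝ)..T, Real.cos (a * s)) atTop
    (𝓝 (if a = 0 then 1 else 0)) := by
  have h := (Complex.continuous_re.tendsto _).comp (mean_exp a)
  have e : (if a = 0 then (1 : ℂ) else 0).re = if a = 0 then 1 else 0 := by split_ifs <;> simp
  rw [e] at h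
  refine h.congr fun T => ?_
  simp only [Function.comp_apply]
  rw [Complex.re_ofReal_mul]
  congr 1
  have hc : Continuous fun t : ℝ => Complex.exp (((a * t : ℝ) : ℂ) * Complex.I) := by fun_prop
  have := Complex.reCLM.intervalIntegral_comp_comm (hc.intervalIntegrable (0 : ℝ) T)
      (μ := MeasureTheory.volume)
  simp only [Complex.reCLM_apply] at this
  rw [← this]
  congr 1
  ext s
  rw [Complex.exp_ofReal_mul_I_re]

/-- real mean values -/
def MeanR (g : ℝ → ℝ) (c : ℝ) : Prop :=
  Tendsto (fun T : ℝ => (1 / T) * ∫ s in (0 : ℝ)..T, g s) atTop (𝓝 c)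

theorem MeanR.add {g h : ℝ → ℝ} {c d : ℝ} (hg : Continuous g) (hh : Continuous h) (h1 : MeanR g c)
    (h2 : MeanR h d) : MeanR (fun t => g t + h t) (c + d) := by
  unfold MeanR at *
  refine (h1.add h2).congr fun T => ?_
  rw [intervalIntegral.integral_add (hg.intervalIntegrable _ _) (hh.intervalIntegrable _ _), mul_add]

theorem MeanR.const_mul {g : ℝ → ℝ} {c : ℝ} (d : ℝ) (h1 : MeanR g c) :
    MeanR (fun t => d * g t) (d * c) := by
  unfold MeanR at *
  refine (Tendsto.const_mul d h1).congr fun T => ?_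
  rw [intervalIntegral.integral_const_mul]
  ring

theorem MeanR.sum {κ : Type*} (s : Finset κ) {g : κ → ℝ → ℝ} {c : κ → ℝ} (hg : ∀ i, Continuous (g i))
    (h : ∀ i ∈ s, MeanR (g i) (c i)) : MeanR (fun t => ∑ i ∈ s, g i t) (∑ i ∈ s, c i) := by
  classical
  induction s using Finset.induction_on with
  | empty => simp [MeanR]
  | insert a s ha ih =>
    simp only [Finset.sum_insert ha]
    exact MeanR.add (hg a) (continuous_finsetSum _ fun i _ => hg i) (h a (by simp))
      (ih fun i hi => h i (by simp [hi]))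

/-- Small vectors are limits of moment vectors. -/
theorem small_mem_closure (Ω : Finset ℝ) (hΩ : ∀ ω ∈ Ω, 0 < ω) (x : Ω → ℝ) (hx : ∑ ω, 2 * |x ω| ≤ 1) :
    x ∈ closure (MomSet Ω) := by
  set P : ℝ → ℝ := fun s => 1 + ∑ ω : Ω, 2 * x ω * Real.cos (ω * s) with hP
  have hPc : Continuous P := by fun_prop
  have hP0 : ∀ s, 0 ≤ P s := by
    intro s
    have h1 : |∑ ω : Ω, 2 * x ω * Real.cos (ω * s)| ≤ ∑ ω, 2 * |x ω| := by
      refine (Finset.abs_sum_le_sum_abs _ _).trans (Finset.sum_le_sum fun ω _ => ?_)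
      rw [abs_mul, abs_mul, abs_two]
      have := Real.abs_cos_le_one (ω * s)
      have := abs_nonneg (x ω)
      nlinarith
    have := abs_le.1 (h1.trans hx)
    simp only [hP]
    linarith [this.1]
  have hA : MeanR P 1 := by
    have h1 : MeanR (fun s => Real.cos (0 * s) + ∑ ω : Ω, 2 * x ω * Real.cos (ω * s))
        ((if (0 : ℝ) = 0 then 1 else 0) + ∑ ω : Ω, 2 * x ω * (if (ω : ℝ) = 0 then 1 else 0)) :=
      MeanR.add (by fun_prop) (by fun_prop) (mean_cos 0)
        (MeanR.sum _ (fun ω => by fun_prop) fun ω _ => MeanR.const_mul _ (mean_cos ω))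
    have h2 : ∀ ω : Ω, (if (ω : ℝ) = 0 then (1 : ℝ) else 0) = 0 := fun ω => if_neg (hΩ ω ω.2).ne'
    simp only [h2, mul_zero, Finset.sum_const_zero, add_zero, if_true, zero_mul, Real.cos_zero] at h1
    exact h1
  have hB : ∀ ω' : Ω, MeanR (fun s => P s * Real.cos (ω' * s)) (x ω') := by
    intro ω'
    have h1 : MeanR (fun s => Real.cos (ω' * s) + ∑ ω : Ω, x ω * (Real.cos ((ω - ω') * s) +
        Real.cos ((ω + ω') * s))) ((if (ω' : ℝ) = 0 then 1 else 0) + ∑ ω : Ω, x ω *
          ((if (ω : ℝ) - ω' = 0 then 1 else 0) + (if (ω : ℝ) + ω' = 0 then 1 else 0))) :=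
      MeanR.add (by fun_prop) (by fun_prop) (mean_cos _)
        (MeanR.sum _ (fun ω => by fun_prop) fun ω _ => MeanR.const_mul _
          (MeanR.add (by fun_prop) (by fun_prop) (mean_cos _) (mean_cos _)))
    have e1 : ∀ s, P s * Real.cos (ω' * s) = Real.cos (ω' * s) + ∑ ω : Ω, x ω *
        (Real.cos ((ω - ω') * s) + Real.cos ((ω + ω') * s)) := by
      intro s
      simp only [hP]
      rw [add_mul, one_mul, Finset.sum_mul]
      congr 1
      refine Finset.sum_congr rfl fun ω _ => ?_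
      rw [sub_mul, add_mul, Real.cos_sub, Real.cos_add]
      ring
    have e2 : ∀ ω : Ω, x ω * ((if (ω : ℝ) - ω' = 0 then (1 : ℝ) else 0) +
        (if (ω : ℝ) + ω' = 0 then 1 else 0)) = if ω = ω' then x ω else 0 := by
      intro ω
      have h3 := hΩ ω ω.2
      have h4 := hΩ ω' ω'.2
      rw [if_neg (by linarith : ¬ ((ω : ℝ) + ω' = 0)), add_zero]
      by_cases h : ω = ω'
      · rw [if_pos (by rw [h, sub_self]), if_pos h, mul_one]
      · rw [if_neg (fun h' => h (Subtype.ext (sub_eq_zero.1 h'))), if_neg h, mul_zero]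
    simp only [e2, if_neg (hΩ ω' ω'.2).ne', zero_add, Finset.sum_ite_eq', Finset.mem_univ, if_true] at h1
    simpa only [e1] using h1
  have hpos : ∀ᶠ T : ℝ in atTop, 0 < ∫ s in (0 : ℝ)..T, P s := by
    have h1 := hA.eventually (lt_mem_nhds (show (1 / 2 : ℝ) < 1 by norm_num))
    filter_upwards [h1, eventually_gt_atTop 0] with T hT hT0
    by_contra hcon
    have : 1 / T * ∫ s in (0 : ℝ)..T, P s ≤ 0 :=
      mul_nonpos_of_nonneg_of_nonpos (by positivity) (not_lt.1 hcon)
    linarith
  refine mem_closure_of_tendsto (f := fun T : ℝ => fun ω : Ω =>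
    (∫ s in (0 : ℝ)..T, P s * Real.cos (ω * s)) / ∫ s in (0 : ℝ)..T, P s) (b := atTop) ?_ ?_
  · rw [tendsto_pi_nhds]
    intro ω
    have h1 := (hB ω).div hA one_ne_zero
    rw [div_one] at h1
    refine h1.congr' ?_
    filter_upwards [eventually_gt_atTop 0] with T hT
    simp only [Pi.div_apply]
    rw [mul_div_mul_left _ _ (by positivity)]
  · filter_upwards [hpos, eventually_gt_atTop 0] with T hT hT0
    exact dens_of_interval hPc hP0 hT0.le hT Ω

theorem zero_mem_interior (Ω : Finset ℝ) (hΩ : ∀ ω ∈ Ω, 0 < ω) : (0 : Ω → ℝ) ∈ interior (MomSet Ω) := by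
  have h1 : (0 : Ω → ℝ) ∈ interior (closure (MomSet Ω)) := by
    rw [mem_interior_iff_mem_nhds, Metric.mem_nhds_iff]
    refine ⟨1 / (2 * (Fintype.card Ω + 1)), by positivity, fun x hx => small_mem_closure Ω hΩ x ?_⟩
    rw [mem_ball_zero_iff] at hx
    have h2 : ∀ ω, |x ω| ≤ 1 / (2 * (Fintype.card Ω + 1)) := fun ω => by
      rw [← Real.norm_eq_abs]
      exact (norm_le_pi_norm x ω).trans hx.le
    calc ∑ ω, 2 * |x ω| ≤ ∑ _ω : Ω, 2 * (1 / (2 * ((Fintype.card Ω : ℝ) + 1))) := by
          refine Finset.sum_le_sum fun ω _ => ?_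
          have := h2 ω
          gcongr
      _ ≤ 1 := by
          rw [Finset.sum_const, Finset.card_univ, nsmul_eq_mul]
          have : (0 : ℝ) ≤ Fintype.card Ω := by positivity
          rw [← mul_div_assoc, mul_one, ← mul_div_assoc, div_le_one (by positivity)]
          linarith
  have hne : (interior (MomSet Ω)).Nonempty := by
    rw [(convex_MomSet Ω).interior_nonempty_iff_affineSpan_eq_top]
    have h2 : affineSpan ℝ (closure (MomSet Ω)) = ⊤ :=
      ((convex_MomSet Ω).closure.interior_nonempty_iff_affineSpan_eq_top).1 ⟨0, h1⟩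
    rw [eq_top_iff, ← h2, affineSpan_le]
    exact closure_minimal (subset_affineSpan ℝ _) (AffineSubspace.closed_of_finiteDimensional _)
  rwa [(convex_MomSet Ω).interior_closure_eq_interior_of_nonempty_interior hne] at h1

section law

variable {ι κ : Type*} [Fintype ι] [Fintype κ]

/-- the positive differences -/
def diffs (θ : ι → ℝ) : Finset ℝ :=
  (univ.image fun p : ι × ι => |θ p.1 - θ p.2|).filter (fun ω => 0 < ω)

theorem mem_diffs {θ : ι → ℝ} {p q : ι} (h : θ p ≠ θ q) : |θ p - θ q| ∈ diffs θ := by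
  unfold diffs
  rw [Finset.mem_filter, Finset.mem_image]
  exact ⟨⟨(p, q), Finset.mem_univ _, rfl⟩, abs_pos.2 (sub_ne_zero.2 h)⟩

theorem exists_rep {θ : ι → ℝ} (ω : diffs θ) : ∃ p q : ι, |θ p - θ q| = ω := by
  have := ω.2
  unfold diffs at this
  rw [Finset.mem_filter, Finset.mem_image] at this
  obtain ⟨⟨⟨p, q⟩, _, h⟩, _⟩ := this
  exact ⟨p, q, h⟩

theorem torus_point (θ : ι → ℝ) (z : ι → ℂ) (hz : ∀ i, ‖z i‖ = 1)
    (hrel : ∀ m : ι → ℤ, ∑ i, (m i : ℝ) * θ i = 0 → ∏ i, z i ^ m i = 1) :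
    ∃ v ∈ closure (MomSet (diffs θ)), ∀ p q (h : θ p ≠ θ q),
      v ⟨|θ p - θ q|, mem_diffs h⟩ = (z p * (starRingEnd ℂ) (z q)).re := by
  choose t ht using fun j : ℕ => bohr θ z hz hrel (ε := 1 / ((j : ℝ) + 1)) (by positivity)
  have hlim : ∀ i, Tendsto (fun j => Complex.exp (((θ i * t j : ℝ) : ℂ) * Complex.I)) atTop (𝓝 (z i)) := by
    intro i
    rw [tendsto_iff_norm_sub_tendsto_zero]
    exact squeeze_zero (fun _ => norm_nonneg _) (fun j => (ht j i).le)
      tendsto_one_div_add_atTop_nhds_zero_nat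
  have hcos : ∀ p q, Tendsto (fun j => Real.cos (|θ p - θ q| * t j)) atTop
      (𝓝 (z p * (starRingEnd ℂ) (z q)).re) := by
    intro p q
    have h1 := (Complex.continuous_re.tendsto _).comp
      ((hlim p).mul ((Complex.continuous_conj.tendsto _).comp (hlim q)))
    refine h1.congr fun j => ?_
    simp only [Function.comp_apply]
    rw [← Complex.exp_conj, map_mul, Complex.conj_I, Complex.conj_ofReal, ← Complex.exp_add]
    have e : ((θ p * t j : ℝ) : ℂ) * Complex.I + ((θ q * t j : ℝ) : ℂ) * -Complex.I =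
        (((θ p - θ q) * t j : ℝ) : ℂ) * Complex.I := by push_cast; ring
    rw [e, Complex.exp_ofReal_mul_I_re]
    rcases abs_choice (θ p - θ q) with h | h
    · rw [h]
    · rw [h, neg_mul, Real.cos_neg]
  choose P Q hPQ using fun ω : diffs θ => exists_rep ω
  refine ⟨fun ω => (z (P ω) * (starRingEnd ℂ) (z (Q ω))).re, ?_, ?_⟩
  · have h1 : Tendsto (fun j : ℕ => fun ω : diffs θ => Real.cos (ω * t j)) atTop
        (𝓝 fun ω => (z (P ω) * (starRingEnd ℂ) (z (Q ω))).re) := by
      rw [tendsto_pi_nhds]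
      intro ω
      have := hcos (P ω) (Q ω)
      rwa [hPQ] at this
    exact isClosed_closure.mem_of_tendsto h1 (Filter.Eventually.of_forall fun j =>
      point_mem_closure _ (t j))
  · intro p q h
    have h1 := hcos (P ⟨_, mem_diffs h⟩) (Q ⟨_, mem_diffs h⟩)
    rw [hPQ] at h1
    exact tendsto_nhds_unique h1 (hcos p q)

/-- Existence of a density whose characteristic function has prescribed values, a multiple `s < 1` of
the weighted average of `z_p conj(z_q)` for finitely many points `z` of the closure of the one-parameter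
group. -/
theorem exists_density (θ : ι → ℝ) (w : κ → ℝ) (hw : ∀ k, 0 ≤ w k) (hw1 : ∑ k, w k = 1)
    (z : κ → ι → ℂ) (hz : ∀ k i, ‖z k i‖ = 1)
    (hrel : ∀ k, ∀ m : ι → ℤ, ∑ i, (m i : ℝ) * θ i = 0 → ∏ i, z k i ^ m i = 1) {s : ℝ} (hs0 : 0 ≤ s)
    (hs1 : s < 1) :
    ∃ f : ℝ → ℝ, (∀ t, 0 ≤ f t) ∧ Integrable f ∧ ∫ t, f t = 1 ∧ ∀ p q, θ p ≠ θ q →
      ∫ t, f t * Real.cos ((θ p - θ q) * t) = s * ∑ k, w k * (z k p * (starRingEnd ℂ) (z k q)).re := by
  choose v hv1 hv2 using fun k => torus_point θ (z k) (hz k) (hrel k)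
  have hconv := (convex_MomSet (diffs θ)).closure
  have h1 : ∑ k, w k • v k ∈ closure (MomSet (diffs θ)) :=
    hconv.sum_mem (fun k _ => hw k) hw1 fun k _ => hv1 k
  have h0 : (0 : diffs θ → ℝ) ∈ interior (MomSet (diffs θ)) :=
    zero_mem_interior _ fun ω hω => (Finset.mem_filter.1 hω).2
  have h2 := (convex_MomSet (diffs θ)).combo_interior_closure_mem_interior h0 h1
    (a := 1 - s) (b := s) (by linarith) hs0 (by ring)
  obtain ⟨f, ⟨hf0, hfi, hf1⟩, hf⟩ := interior_subset h2
  refine ⟨f, hf0, hfi, hf1, fun p q hpq => ?_⟩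
  have h3 := congrFun hf ⟨|θ p - θ q|, mem_diffs hpq⟩
  simp only [mom, smul_zero, zero_add, Pi.smul_apply, Finset.sum_apply, smul_eq_mul] at h3
  have h4 : ∀ t, Real.cos ((θ p - θ q) * t) = Real.cos (|θ p - θ q| * t) := by
    intro t
    rcases abs_choice (θ p - θ q) with h | h
    · rw [h]
    · rw [h, neg_mul, Real.cos_neg]
  simp only [h4]
  rw [h3, Finset.sum_congr rfl fun k _ => congrArg (w k * ·) (hv2 k p q hpq)]

end law

end Pool.Agent.K7.H19.PM
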