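import Pool.Agent.K7.H19.PM.Flat
import Pool.Agent.K7.H19.PM.Moments

/-!
# Rank one from finitely many points of the closure of the one-parameter group
-/

set_option autoImplicit false

open Finset Real MeasureTheory Pool.Agent.R667.MM

noncomputable section

namespace Pool.Agent.K7.H19.PM

theorem th_inj (n : ℕ) {p q : Fin n} (h : p ≠ q) : th n p ≠ th n q := by
  intro h'
  apply h
  have hn : (0 : ℝ) < (n : ℝ) + 1 := by positivity
  have hp := p.2
  have hq := q.2
  unfold th at h'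
  have key : ∀ k : Fin n, π * ((k : ℝ) + 1) / (n + 1) ∈ Set.Icc 0 π := by
    intro k
    have hk := k.2
    have hk' : ((k : ℕ) : ℝ) + 1 ≤ n := by exact_mod_cast hk
    refine ⟨by positivity, ?_⟩
    rw [div_le_iff₀ hn]
    have := pi_pos
    nlinarith
  have h2 := Real.injOn_cos (key p) (key q) (mul_left_cancel₀ two_ne_zero h')
  have h3 : ((p : ℕ) : ℝ) = (q : ℕ) := by
    field_simp at h2
    linarith
  exact Fin.ext (by exact_mod_cast h3)

theorem rank_one {n : ℕ} (hn : 0 < n) {M : Matrix (Fin n) (Fin n) ℝ} (h : ∀ a b, M a b = 1 / n) :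
    M.rank = 1 := by
  have e : M = Matrix.vecMulVec (fun _ => (1 : ℝ)) (fun _ => 1 / (n : ℝ)) := by
    ext a b
    rw [h, Matrix.vecMulVec_apply, one_mul]
  refine le_antisymm (by rw [e]; exact Matrix.rank_vecMulVec_le _ _) ?_
  by_contra hcon
  have h0 : M.rank = 0 := by omega
  have h2 := h ⟨0, hn⟩ ⟨0, hn⟩
  have h1 : M ⟨0, hn⟩ ⟨0, hn⟩ = 0 := by
    rw [Matrix.rank, Submodule.finrank_eq_zero, LinearMap.range_eq_bot] at h0
    have h3 := congrFun (LinearMap.congr_fun h0 (Pi.single ⟨0, hn⟩ 1)) ⟨0, hn⟩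
    simpa using h3
  rw [h1] at h2
  have : (0 : ℝ) < 1 / n := by positivity
  linarith

/-- existence of a density for which the averaged mixing matrix of the path has rank one -/
def HasRankOne (n : ℕ) : Prop :=
  ∃ f : ℝ → ℝ, (∀ s, 0 ≤ f s) ∧ Integrable f ∧ ∫ s, f s = 1 ∧ (avgMixing n f).rank = 1

theorem criterion {n : ℕ} (hn : 0 < n) {κ : Type*} [Fintype κ] (w : κ → ℝ) (hw : ∀ k, 0 ≤ w k)
    (hw1 : ∑ k, w k = 1) (z : κ → Fin n → ℂ) (hz : ∀ k i, ‖z k i‖ = 1)
    (hrel : ∀ k, ∀ m : Fin n → ℤ, ∑ i, (m i : ℝ) * th n i = 0 → ∏ i, z k i ^ m i = 1)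
    {c : ℝ} (hc : 1 / (n : ℝ) < c)
    (havg : ∀ p q : Fin n, p ≠ q → ∑ k, w k * (z k p * (starRingEnd ℂ) (z k q)).re =
      -c * E ((p : ℤ) - q)) : HasRankOne n := by
  have hn' : (0 : ℝ) < n := by exact_mod_cast hn
  have hc0 : 0 < c := lt_trans (by positivity) hc
  obtain ⟨f, hf0, hfi, hf1, hf⟩ := exists_density (th n) w hw hw1 z hz hrel (s := 1 / (n * c))
    (by positivity)
    (by
      rw [div_lt_one (by positivity)]
      rw [div_lt_iff₀ hn'] at hc
      linarith)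
  refine ⟨f, hf0, hfi, hf1, rank_one hn fun a b => flat hfi hf1 (fun p q hpq => ?_) a b⟩
  rw [hf p q (th_inj n hpq), havg p q hpq]
  field_simp

end Pool.Agent.K7.H19.PM
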