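import Pool.Agent.K7.H19.PM.CType2

/-!
# Symmetrisation under coordinatewise conjugation
-/

set_option autoImplicit false

open Finset

noncomputable section

namespace Pool.Agent.K7.H19.PM2

section

variable {q : ℕ} [Fact q.Prime] {M : ℕ} {A : Type} [Fintype A] [DecidableEq A]

/-- independence in terms of coefficients -/
def SInd (v : A → Fin M → ZMod q) (D : ℕ) : Prop :=
  ∀ c : Fin M → ZMod q, (univ.filter (fun j => c j ≠ 0)).card ≤ D → (∀ a, ∑ j, c j * v a j = 0) →
    ∀ j, c j = 0

theorem SInd.ind {v : A → Fin M → ZMod q} (hv : SInd v 10) : Ind v 10 := by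
  intro L1 L2 hL h j
  have := hv (fun j => (L1.count j : ZMod q) - L2.count j) ?_ ?_ j
  · exact sub_eq_zero.1 this
  · refine le_trans (card_le_card (t := (L1 ++ L2).toFinset) ?_) (le_trans (List.toFinset_card_le _)
      (by rw [List.length_append]; exact hL))
    intro i hi
    rw [mem_filter] at hi
    rw [List.mem_toFinset, List.mem_append]
    by_contra hcon
    push Not at hcon
    apply hi.2
    rw [List.count_eq_zero_of_not_mem hcon.1, List.count_eq_zero_of_not_mem hcon.2]
    simp
  · intro a
    have h1 := h a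
    rw [list_sum_count, list_sum_count] at h1
    simp only [sub_mul, sum_sub_distrib]
    rw [h1, sub_self]

/-- conjugate some coordinates -/
def fl (ε : Fin M → Bool) (v : A → Fin M → ZMod q) (a : A) (j : Fin M) : ZMod q :=
  if ε j then v a j else - v a j

theorem SInd.flip {v : A → Fin M → ZMod q} {D : ℕ} (hv : SInd v D) (ε : Fin M → Bool) :
    SInd (fl ε v) D := by
  intro c hc h j
  have h1 := hv (fun j => if ε j then c j else - c j) ?_ ?_ j
  · split_ifs at h1
    · exact h1
    · exact neg_eq_zero.1 h1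
  · refine le_trans (le_of_eq ?_) hc
    congr 1
    refine filter_congr fun i _ => ?_
    split_ifs <;> simp
  · intro a
    rw [← h a]
    refine sum_congr rfl fun i _ => ?_
    unfold fl
    split_ifs <;> ring

theorem pt_fl (ε : Fin M → Bool) (v : A → Fin M → ZMod q) (y : A → ZMod q) (j : Fin M) :
    pt (fl ε v) y j = if ε j then pt v y j else (starRingEnd ℂ) (pt v y j) := by
  unfold pt fl
  split_ifs with h
  · rfl
  · rw [← ch_neg]
    congr 1
    simp [h]

/-- flip one coordinate -/
def fp (j : Fin M) : (Fin M → Bool) ≃ (Fin M → Bool) where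
  toFun ε := Function.update ε j (!ε j)
  invFun ε := Function.update ε j (!ε j)
  left_inv ε := by
    funext i
    by_cases h : i = j
    · subst h; simp
    · simp [h]
  right_inv ε := by
    funext i
    by_cases h : i = j
    · subst h; simp
    · simp [h]

theorem half_eq {j l : Fin M} (hjl : j ≠ l) (κ : ℝ) :
    ∑ ε : Fin M → Bool, (if ε j = ε l then κ else 0) = κ * 2 ^ M / 2 := by
  have h1 : ∑ ε : Fin M → Bool, (if ε j = ε l then κ else 0) =
      ∑ ε : Fin M → Bool, (if ε j = ε l then 0 else κ) := by
    rw [← Equiv.sum_comp (fp j)]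
    refine sum_congr rfl fun ε _ => ?_
    simp only [fp, Equiv.coe_fn_mk, Function.update_self, Function.update_of_ne hjl.symm]
    cases ε j <;> cases ε l <;> simp
  have h2 : ∑ ε : Fin M → Bool, (if ε j = ε l then κ else 0) +
      ∑ ε : Fin M → Bool, (if ε j = ε l then 0 else κ) = κ * 2 ^ M := by
    rw [← sum_add_distrib]
    have : ∀ ε ∈ (univ : Finset (Fin M → Bool)), (if ε j = ε l then κ else 0) +
        (if ε j = ε l then 0 else κ) = κ := by
      intro ε _
      split_ifs <;> simp
    rw [sum_congr rfl this, sum_const, card_univ, Fintype.card_pi]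
    simp
    ring
  linarith

theorem half_ne {j l : Fin M} (hjl : j ≠ l) (κ : ℝ) :
    ∑ ε : Fin M → Bool, (if ε j = ε l then 0 else κ) = κ * 2 ^ M / 2 := by
  rw [← half_eq hjl κ]
  rw [← Equiv.sum_comp (fp j)]
  refine sum_congr rfl fun ε _ => ?_
  simp only [fp, Equiv.coe_fn_mk, Function.update_self, Function.update_of_ne hjl.symm]
  cases ε j <;> cases ε l <;> simp

theorem rtype {v : A → Fin M → ZMod q} (hv : SInd v 10) (hq : 10 < q) (hM : 3 ≤ M) {c δ : ℝ}
    (hc : 0 ≤ c) (hδ : 0 ≤ δ)
    (hsum : c * ((2 + δ / 10) * (12 * M / 7) + (1 + δ) * (10 + M / 10)) ≤ 1) :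
    ∃ w : (A → ZMod q) → ℝ, (∀ y, 0 ≤ w y) ∧ ∑ y, w y = 1 ∧
      (∀ j l, j ≠ l → ∑ y, w y * (pt v y j * (starRingEnd ℂ) (pt v y l)).re = -c) ∧
      (∀ j l, j ≠ l → ∑ y, w y * (pt v y j * pt v y l).re = -c) ∧
      (∀ j, ∑ y, w y * (pt v y j * pt v y j).re = -c) ∧
      (∀ j, ∑ y, w y * (pt v y j).re = -(δ * c)) ∧
      (∀ j, ∑ y, w y * (pt v y j).im = 0) := by
  have hex := fun ε : Fin M → Bool => ctype (hv.flip ε).ind hq hM hc hδ hsum
  choose w hw0 hw1 hA hB hC hF hI using hex
  have h2M : (0 : ℝ) < 2 ^ M := by positivity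
  have hswap : ∀ X : (A → ZMod q) → ℝ, ∑ y, (∑ ε, w ε y) / 2 ^ M * X y =
      (∑ ε, ∑ y, w ε y * X y) / 2 ^ M := by
    intro X
    rw [sum_comm, sum_div]
    refine sum_congr rfl fun y _ => ?_
    rw [div_mul_eq_mul_div, sum_mul]
  have hcard : ∑ _ε : Fin M → Bool, (1 : ℝ) = 2 ^ M := by
    rw [sum_const, card_univ, Fintype.card_pi]
    simp
  refine ⟨fun y => (∑ ε, w ε y) / 2 ^ M, fun y => div_nonneg (sum_nonneg fun ε _ => hw0 ε y) h2M.le,
    ?_, ?_, ?_, ?_, ?_, ?_⟩
  · rw [← sum_div, sum_comm, sum_congr rfl fun ε _ => hw1 ε, hcard, div_self h2M.ne']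
  · intro j l hjl
    rw [hswap]
    have h1 : ∀ ε ∈ (univ : Finset (Fin M → Bool)),
        ∑ y, w ε y * (pt v y j * (starRingEnd ℂ) (pt v y l)).re = if ε j = ε l then -(2 * c) else 0 := by
      intro ε _
      have a1 := hA ε j l hjl
      have a2 := hB ε j l hjl
      simp only [pt_fl] at a1 a2
      cases hj : ε j <;> cases hl : ε l <;> simp only [hj, hl, if_true, Bool.false_eq_true,
        Bool.true_eq_false, if_false] at a1 a2 ⊢
      · rw [← a1]
        refine sum_congr rfl fun y _ => ?_
        simp only [Complex.mul_re, Complex.conj_re, Complex.conj_im]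
        ring
      · rw [← a2]
        refine sum_congr rfl fun y _ => ?_
        simp only [Complex.mul_re, Complex.conj_re, Complex.conj_im]
        ring
      · rw [← a2]
      · rw [← a1]
    rw [sum_congr rfl h1, half_eq hjl]
    field_simp
  · intro j l hjl
    rw [hswap]
    have h1 : ∀ ε ∈ (univ : Finset (Fin M → Bool)),
        ∑ y, w ε y * (pt v y j * pt v y l).re = if ε j = ε l then 0 else -(2 * c) := by
      intro ε _
      have a1 := hA ε j l hjl
      have a2 := hB ε j l hjl
      simp only [pt_fl] at a1 a2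
      cases hj : ε j <;> cases hl : ε l <;> simp only [hj, hl, if_true, Bool.false_eq_true,
        Bool.true_eq_false, if_false] at a1 a2 ⊢
      · rw [← a2]
        refine sum_congr rfl fun y _ => ?_
        simp only [Complex.mul_re, Complex.conj_re, Complex.conj_im]
        ring
      · rw [← a1]
        refine sum_congr rfl fun y _ => ?_
        simp only [Complex.mul_re, Complex.conj_re, Complex.conj_im]
        ring
      · rw [← a1]
        refine sum_congr rfl fun y _ => ?_
        simp only [Complex.mul_re, Complex.conj_re, Complex.conj_im]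
        ring
      · rw [← a2]
    rw [sum_congr rfl h1, half_ne hjl]
    field_simp
  · intro j
    rw [hswap]
    have h1 : ∀ ε ∈ (univ : Finset (Fin M → Bool)),
        ∑ y, w ε y * (pt v y j * pt v y j).re = -c * 1 := by
      intro ε _
      have a1 := hC ε j
      simp only [pt_fl] at a1
      rw [mul_one, ← a1]
      refine sum_congr rfl fun y _ => ?_
      split_ifs <;> simp only [Complex.mul_re, Complex.conj_re, Complex.conj_im] <;> ring
    rw [sum_congr rfl h1, ← mul_sum, hcard]
    field_simp
  · intro j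
    rw [hswap]
    have h1 : ∀ ε ∈ (univ : Finset (Fin M → Bool)),
        ∑ y, w ε y * (pt v y j).re = -(δ * c) * 1 := by
      intro ε _
      have a1 := hF ε j
      simp only [pt_fl] at a1
      rw [mul_one, ← a1]
      refine sum_congr rfl fun y _ => ?_
      split_ifs <;> simp only [Complex.conj_re]
    rw [sum_congr rfl h1, ← mul_sum, hcard]
    field_simp
  · intro j
    rw [hswap]
    have h1 : ∀ ε ∈ (univ : Finset (Fin M → Bool)),
        ∑ y, w ε y * (pt v y j).im = 0 := by
      intro ε _
      have a1 := hI ε j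
      simp only [pt_fl] at a1
      cases hj : ε j <;> simp only [hj, if_true, Bool.false_eq_true, if_false, Complex.conj_im,
        mul_neg, sum_neg_distrib, neg_eq_zero] at a1 ⊢ <;> exact a1
    rw [sum_congr rfl h1]
    simp

end

end Pool.Agent.K7.H19.PM2
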