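import Pool.Agent.K7.H19.PM.Short3

/-!
# Antisymmetric relations between roots of unity of even order are longer
-/

set_option autoImplicit false

open Finset

namespace Pool.Agent.K7.H19.PM2

section

variable {F : Type*} [Field F]

theorem even_slice (e m' : ℕ) (hm' : Odd m') (hF : ((2 ^ e * m' : ℕ) : F) ≠ 0) {h : F}
    (hh : IsPrimitiveRoot h (2 * (2 ^ e * m'))) (μ : ℕ → F)
    (hμ : ∀ a : ℕ, a.Coprime (2 * (2 ^ e * m')) → ∑ x ∈ range (2 ^ e * m'), μ x * h ^ (a * x) = 0)
    (a : ℕ) (ha : a.Coprime (2 * (2 ^ e * m'))) (i : ℕ) (hi : i < 2 ^ e) :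
    ∑ l ∈ range m', μ (i + 2 ^ e * l) * (h ^ (2 ^ e)) ^ (a * l) = 0 := by
  set K := 2 ^ e with hK
  have hK0 : 0 < K := by positivity
  have hm0 : 0 < m' := hm'.pos
  have hN : 0 < 2 * (K * m') := by positivity
  have hKF : (K : F) ≠ 0 := by
    intro h0
    apply hF
    rw [Nat.cast_mul, h0, zero_mul]
  have hh0 : h ≠ 0 := hh.ne_zero (by omega)
  set ω := h ^ (a * (2 * m')) with hω
  have haK : a.Coprime K := by
    have h1 : a.Coprime (K * m') := Nat.Coprime.coprime_mul_left_right ha
    exact Nat.Coprime.coprime_mul_right_right h1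
  have hωp : IsPrimitiveRoot ω K := by
    have e1 : IsPrimitiveRoot (h ^ (2 * m')) K := hh.pow hN (by ring)
    have e2 := e1.pow_of_coprime a haK
    rwa [← pow_mul, mul_comm] at e2
  let C : ℕ → F := fun i => ∑ l ∈ range m', μ (i + K * l) * h ^ (a * (i + K * l))
  have hC : ∀ t : ℕ, ∑ i ∈ range K, C i * ω ^ (t * i) = 0 := by
    intro t
    have hc : (a * (1 + t * (2 * m'))).Coprime (2 * (K * m')) := by
      refine Nat.Coprime.mul_left ha ?_
      have h2 : (1 + t * (2 * m')).Coprime 2 := by
        have : 1 + t * (2 * m') = 1 + (t * m') * 2 := by ring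
        rw [this]
        exact (Nat.coprime_add_mul_right_left 1 2 (t * m')).2 (Nat.coprime_one_left 2)
      have h3 : (1 + t * (2 * m')).Coprime m' := by
        have : 1 + t * (2 * m') = 1 + (t * 2) * m' := by ring
        rw [this]
        exact (Nat.coprime_add_mul_right_left 1 m' (t * 2)).2 (Nat.coprime_one_left m')
      refine Nat.Coprime.mul_right h2 (Nat.Coprime.mul_right ?_ h3)
      rw [hK]
      exact Nat.Coprime.pow_right e h2
    have h2 := hμ _ hc
    rw [sum_range_mul' hK0] at h2
    rw [← h2]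
    refine sum_congr rfl fun i _ => ?_
    simp only [C]
    rw [sum_mul]
    refine sum_congr rfl fun l _ => ?_
    have e1 : ω ^ (t * i) = h ^ (a * (t * (2 * m')) * (i + K * l)) := by
      have e2 : a * (t * (2 * m')) * (i + K * l) =
          a * (2 * m') * (t * i) + (2 * (K * m')) * (a * t * l) := by ring
      rw [e2, pow_add, pow_mul h (2 * (K * m')), hh.pow_eq_one, one_pow, mul_one, hω, ← pow_mul]
    rw [e1, mul_assoc, ← pow_add]
    congr 2
    ring
  have h2 := fourier_inv hωp C hi hK0 (fun t _ _ => hC t)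
  rw [hC 0, mul_zero] at h2
  have h3 : C i = 0 := (mul_eq_zero.1 h2).resolve_left hKF
  have h4 : C i = h ^ (a * i) * ∑ l ∈ range m', μ (i + K * l) * (h ^ K) ^ (a * l) := by
    simp only [C]
    rw [mul_sum]
    refine sum_congr rfl fun l _ => ?_
    rw [← pow_mul, mul_left_comm, ← pow_add]
    congr 2
    ring
  rw [h4] at h3
  exact (mul_eq_zero.1 h3).resolve_left (pow_ne_zero _ hh0)

theorem sum_rot {M : Type*} [AddCommMonoid M] {N l0 : ℕ} (hl0 : l0 < N) (f : ℕ → M) :
    ∑ t ∈ range N, f ((t + l0) % N) = ∑ l ∈ range N, f l := by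
  have hN : 0 < N := by omega
  refine sum_nbij' (fun t => (t + l0) % N) (fun l => (l + (N - l0)) % N) ?_ ?_ ?_ ?_ ?_
  · intro t _
    exact mem_range.2 (Nat.mod_lt _ hN)
  · intro t _
    exact mem_range.2 (Nat.mod_lt _ hN)
  · intro t ht
    have ht' := mem_range.1 ht
    rw [Nat.mod_add_mod, show t + l0 + (N - l0) = t + N by omega, Nat.add_mod_right,
      Nat.mod_eq_of_lt ht']
  · intro t ht
    have ht' := mem_range.1 ht
    rw [Nat.mod_add_mod, show t + (N - l0) + l0 = t + N by omega, Nat.add_mod_right,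
      Nat.mod_eq_of_lt ht']
  · intro t _
    rfl

theorem short_even_sym [DecidableEq F] (e m' : ℕ) (he : 1 ≤ e) (hm' : Odd m')
    (hP : ∀ p, p.Prime → p ∣ m' → 11 ≤ p)
    (hF : ((2 ^ e * m' : ℕ) : F) ≠ 0) {h : F} (hh : IsPrimitiveRoot h (2 * (2 ^ e * m'))) (μ : ℕ → F)
    (hμ0 : μ 0 = 0) (hanti : ∀ x, 0 < x → x < 2 ^ e * m' → μ (2 ^ e * m' - x) = - μ x)
    (hμ : ∀ a : ℕ, a.Coprime (2 * (2 ^ e * m')) → ∑ x ∈ range (2 ^ e * m'), μ x * h ^ (a * x) = 0)
    (hA : ∑ x ∈ range (2 ^ e * m'), (if μ x ≠ 0 then 1 else 0) ≤ 20) :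
    ∀ j < 2 ^ e * m', μ j = 0 := by
  intro j hj
  have hslice := even_slice e m' hm' hF hh μ hμ
  obtain ⟨K', hK'⟩ : ∃ K', 2 ^ e = 2 * K' := by
    obtain ⟨k, rfl⟩ : ∃ k, e = k + 1 := ⟨e - 1, by omega⟩
    exact ⟨2 ^ k, by rw [pow_succ]; ring⟩
  set K := 2 ^ e with hK
  have hK0 : 0 < K := by positivity
  have hm0 : 0 < m' := hm'.pos
  have hN : 0 < 2 * (K * m') := by positivity
  have hmF : (m' : F) ≠ 0 := by
    intro h0
    apply hF
    rw [Nat.cast_mul, h0, mul_zero]
  have h2F : (2 : F) ≠ 0 := by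
    intro h0
    apply hF
    rw [Nat.cast_mul, hK', Nat.cast_mul, Nat.cast_ofNat, h0, zero_mul, zero_mul]
  have hh0 : h ≠ 0 := hh.ne_zero (by omega)
  set u := h ^ K with hu
  have hup : IsPrimitiveRoot u (2 * m') := hh.pow hN (by ring)
  have humid : u ^ m' = -1 := by
    have e1 : (u ^ m' - 1) * (u ^ m' + 1) = 0 := by
      have : (u ^ m' - 1) * (u ^ m' + 1) = u ^ (2 * m') - 1 := by rw [two_mul, pow_add]; ring
      rw [this, hup.pow_eq_one, sub_self]
    rcases mul_eq_zero.1 e1 with e2 | e2
    · exfalso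
      have e3 := (hup.pow_eq_one_iff_dvd m').1 (sub_eq_zero.1 e2)
      have := Nat.le_of_dvd hm0 e3
      omega
    · exact eq_neg_of_add_eq_zero_left e2
  have hg : IsPrimitiveRoot (-u) m' := by
    refine ⟨by rw [hm'.neg_pow, humid, neg_neg], fun k hk => ?_⟩
    have e1 : u ^ (2 * k) = 1 := by
      have : (-u) ^ (2 * k) = 1 := by rw [mul_comm, pow_mul, hk, one_pow]
      rwa [(even_two_mul k).neg_pow] at this
    have e2 := (hup.pow_eq_one_iff_dvd (2 * k)).1 e1
    exact Nat.dvd_of_mul_dvd_mul_left (by norm_num) e2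
  have hg0 : (-u) ≠ 0 := hg.ne_zero (by omega)
  -- twisted slices are relations of odd order
  have htw : ∀ i < K, ∀ a' : ℕ, a'.Coprime m' →
      ∑ l ∈ range m', ((-1) ^ l * μ (i + K * l)) * (-u) ^ (a' * l) = 0 := by
    intro i hi a' ha'
    obtain ⟨a, ha, hodd, haa⟩ : ∃ a : ℕ, a.Coprime (2 * (K * m')) ∧ Odd a ∧ (-u) ^ a = (-u) ^ a' := by
      obtain ⟨a, ham, hodd, haa⟩ : ∃ a : ℕ, a.Coprime m' ∧ Odd a ∧ (-u) ^ a = (-u) ^ a' := by
        rcases Nat.even_or_odd a' with he | ho
        · refine ⟨a' + m', by simpa using ha', he.add_odd hm', ?_⟩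
          rw [pow_add, hg.pow_eq_one, mul_one]
        · exact ⟨a', ha', ho, rfl⟩
      refine ⟨a, ?_, hodd, haa⟩
      have h2 : a.Coprime 2 := hodd.coprime_two_right
      refine Nat.Coprime.mul_right h2 (Nat.Coprime.mul_right ?_ ham)
      rw [hK]
      exact Nat.Coprime.pow_right e h2
    rw [← hslice a ha i hi]
    refine sum_congr rfl fun l _ => ?_
    have e1 : (-u) ^ (a' * l) = (-1) ^ l * u ^ (a * l) := by
      rw [pow_mul, ← haa, hodd.neg_pow, neg_pow, ← pow_mul]
    rw [e1]
    have e2 : ((-1 : F) ^ l) * (-1) ^ l = 1 := by rw [← mul_pow]; simp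
    calc (-1) ^ l * μ (i + K * l) * ((-1) ^ l * u ^ (a * l))
        = ((-1) ^ l * (-1) ^ l) * (μ (i + K * l) * u ^ (a * l)) := by ring
      _ = _ := by rw [e2, one_mul]
  let S : ℕ → ℕ := fun i => ∑ l ∈ range m', (if μ (i + K * l) ≠ 0 then 1 else 0)
  have hS : ∑ i ∈ range K, S i ≤ 20 := by
    rw [sum_range_mul' hK0] at hA
    exact hA
  have hSle : ∀ i < K, S i ≤ 20 := fun i hi =>
    le_trans (single_le_sum (f := S) (fun i _ => Nat.zero_le _) (mem_range.2 hi)) hS
  have hx : ∀ i l, i < K → l < m' → i + K * l < K * m' := by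
    intro i l hi hl
    calc i + K * l < K + K * l := by omega
      _ = K * (l + 1) := by ring
      _ ≤ K * m' := Nat.mul_le_mul_left _ hl
  have hneg : ∀ l : ℕ, ((-1 : F) ^ l) ≠ 0 := fun l => pow_ne_zero _ (by norm_num)
  have hsupp : ∀ i l, (if ((-1 : F) ^ l * μ (i + K * l)) ≠ 0 then 1 else 0 : ℕ) =
      (if μ (i + K * l) ≠ 0 then 1 else 0) := by
    intro i l
    by_cases h0 : μ (i + K * l) = 0
    · rw [if_neg (by rw [h0]; simp), if_neg (by rw [h0]; simp)]
    · rw [if_pos (mul_ne_zero (hneg l) h0), if_pos h0]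
  have hrefl : ∀ i l, 0 < i → i < K → l < m' → K - i + K * (m' - 1 - l) = K * m' - (i + K * l) := by
    intro i l hi0 hi hl
    have h2 := hx i l hi hl
    have h3 : K * (m' - 1 - l) + K * (l + 1) = K * m' := by
      rw [← mul_add]
      congr 1
      omega
    have h4 : K * (l + 1) = K * l + K := by ring
    omega
  have hjK : j % K < K := Nat.mod_lt _ hK0
  have hjl : j / K < m' := Nat.div_lt_of_lt_mul hj
  have hfin : ((-1 : F) ^ (j / K) * μ (j % K + K * (j / K))) = 0 → μ j = 0 := by
    intro h0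
    rw [Nat.mod_add_div] at h0
    exact (mul_eq_zero.1 h0).resolve_left (hneg _)
  apply hfin
  rcases Nat.eq_zero_or_pos (j % K) with hj0 | hj0
  · -- the symmetric slice
    have key := short_sym m' hm' hP hmF h2F (-u) hg 1 (Or.inl rfl)
      (fun l => (-1) ^ l * μ (j % K + K * l)) (by rw [hj0]; simp [hμ0]) (fun x hx0 hxN => by
        show (-1) ^ (m' - x) * μ (j % K + K * (m' - x)) = 1 * ((-1) ^ x * μ (j % K + K * x))
        rw [hj0]
        have e1 : 0 + K * (m' - x) = K * m' - (0 + K * x) := by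
          rw [zero_add, zero_add, Nat.mul_sub]
        rw [e1, hanti _ (by rw [zero_add]; positivity) (hx 0 x hK0 hxN)]
        have e2 : ((-1 : F) ^ (m' - x)) * (-1) ^ x = -1 := by
          rw [← pow_add, Nat.sub_add_cancel hxN.le, hm'.neg_one_pow]
        have e3 : ((-1 : F) ^ x) * (-1) ^ x = 1 := by rw [← mul_pow]; simp
        calc (-1) ^ (m' - x) * -μ (0 + K * x)
            = -((-1) ^ (m' - x) * ((-1) ^ x * (-1) ^ x)) * μ (0 + K * x) := by rw [e3]; ring
          _ = -(((-1) ^ (m' - x) * (-1) ^ x) * (-1) ^ x) * μ (0 + K * x) := by ring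
          _ = 1 * ((-1) ^ x * μ (0 + K * x)) := by rw [e2]; ring)
      (htw (j % K) hjK) (by
        rw [sum_congr rfl fun l _ => hsupp (j % K) l]
        exact hSle _ hjK) (j / K) hjl
    exact key
  · by_cases hmid : j % K = K'
    · -- the antisymmetric slice
      obtain ⟨l0, hl0⟩ := hm'
      have hm'' : Odd m' := ⟨l0, hl0⟩
      have hl0m : l0 < m' := by omega
      set i := j % K with hi
      let ν : ℕ → F := fun l => (-1) ^ l * μ (i + K * l)
      have hν : ∀ l < m', ν (m' - 1 - l) = - ν l := by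
        intro l hl
        simp only [ν]
        have e1 : i + K * (m' - 1 - l) = K * m' - (i + K * l) := by
          have := hrefl i l hj0 hjK hl
          have h5 : K - i = i := by omega
          rwa [h5] at this
        rw [e1, hanti _ (by omega) (hx i l hjK hl)]
        have e2 : ((-1 : F) ^ (m' - 1 - l)) * (-1) ^ l = 1 := by
          rw [← pow_add, show m' - 1 - l + l = 2 * l0 by omega, pow_mul]
          simp
        have e3 : ((-1 : F) ^ l) * (-1) ^ l = 1 := by rw [← mul_pow]; simp
        calc (-1) ^ (m' - 1 - l) * -μ (i + K * l)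
            = -(((-1) ^ (m' - 1 - l) * (-1) ^ l) * (-1) ^ l) * μ (i + K * l) := by
              rw [mul_assoc, e3]; ring
          _ = -((-1) ^ l * μ (i + K * l)) := by rw [e2]; ring
      have key := short_sym m' hm'' hP hmF h2F (-u) hg (-1) (Or.inr rfl)
        (fun t => ν ((t + l0) % m')) (by
          show ν ((0 + l0) % m') = 0
          rw [zero_add, Nat.mod_eq_of_lt hl0m]
          have h5 := hν l0 hl0m
          rw [show m' - 1 - l0 = l0 by omega] at h5
          have h6 : 2 * ν l0 = 0 := by
            have : ν l0 + ν l0 = 0 := by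
              nth_rewrite 1 [h5]
              ring
            rw [two_mul]
            exact this
          exact (mul_eq_zero.1 h6).resolve_left h2F)
        (fun x hx0 hxN => by
          show ν ((m' - x + l0) % m') = -1 * ν ((x + l0) % m')
          have h7 : (m' - x + l0) % m' = m' - 1 - (x + l0) % m' := by
            by_cases h8 : x + l0 < m'
            · rw [Nat.mod_eq_of_lt h8, Nat.mod_eq_sub_mod (by omega), Nat.mod_eq_of_lt (by omega)]
              omega
            · rw [Nat.mod_eq_of_lt (show m' - x + l0 < m' by omega), Nat.mod_eq_sub_mod (a := x + l0) (by omega),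
                Nat.mod_eq_of_lt (show x + l0 - m' < m' by omega)]
              omega
          rw [h7, hν _ (Nat.mod_lt _ hm0)]
          ring)
        (fun a ha => by
          have h8 := htw i hjK a ha
          have h9 : (-u) ^ (a * l0) * ∑ t ∈ range m', ν ((t + l0) % m') * (-u) ^ (a * t) = 0 := by
            rw [← h8, ← sum_rot hl0m (fun l => ((-1) ^ l * μ (i + K * l)) * (-u) ^ (a * l)), mul_sum]
            refine sum_congr rfl fun t _ => ?_
            have h10 : (-u) ^ (a * ((t + l0) % m')) = (-u) ^ (a * l0) * (-u) ^ (a * t) := by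
              rw [← pow_add, ← mul_add]
              conv_rhs => rw [add_comm l0 t, ← Nat.mod_add_div (t + l0) m', mul_add, pow_add,
                mul_left_comm, pow_mul (-u) m', hg.pow_eq_one, one_pow, mul_one]
            rw [h10]
            simp only [ν]
            ring
          exact (mul_eq_zero.1 h9).resolve_left (pow_ne_zero _ hg0))
        (by
          rw [sum_rot hl0m (fun l => if ν l ≠ 0 then 1 else 0)]
          simp only [ν]
          rw [sum_congr rfl fun l _ => hsupp i l]
          exact hSle _ hjK)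
        ((j / K + (m' - l0)) % m') (Nat.mod_lt _ hm0)
      rw [Nat.mod_add_mod, show j / K + (m' - l0) + l0 = j / K + m' by omega, Nat.add_mod_right,
        Nat.mod_eq_of_lt hjl] at key
      exact key
    · -- a slice which is exchanged with another one
      have hSj : S (j % K) ≤ 10 := by
        have hne : j % K ≠ K - j % K := by omega
        have h2 : S (j % K) + S (K - j % K) ≤ ∑ i ∈ range K, S i := by
          rw [← sum_pair hne]
          refine sum_le_sum_of_subset fun i hi => ?_
          rw [mem_insert, mem_singleton] at hi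
          rw [mem_range]
          omega
        have h3 : S (K - j % K) = S (j % K) := by
          simp only [S]
          rw [← sum_range_reflect]
          refine sum_congr rfl fun l hl => ?_
          have hl' := mem_range.1 hl
          rw [hrefl _ l hj0 hjK hl', hanti _ (by omega) (hx _ l hjK hl')]
          simp
        omega
      exact short 11 m' hm0 hP hmF (-u) hg (fun l => (-1) ^ l * μ (j % K + K * l))
        (htw (j % K) hjK) ⟨(range m').filter (fun l => μ (j % K + K * l) ≠ 0), by
          rw [card_filter]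
          simp only [S] at hSj
          omega, fun l hl hne => mem_filter.2 ⟨mem_range.2 hl, right_ne_zero_of_mul hne⟩⟩ (j / K) hjl

end

end Pool.Agent.K7.H19.PM2
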