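import Pool.Agent.K7.H19.PM.Gen
import Pool.Agent.K7.H19.PM.Short4
import Pool.Agent.K7.H19.PM.Flip

/-!
# Rank one when `n + 1` is even with large odd prime factors
-/

set_option autoImplicit false

open Finset Pool.Agent.R667.MM Pool.Agent.K7.H19.PM

noncomputable section

namespace Pool.Agent.K7.H19.PM2

section

variable {q : ℕ} [Fact q.Prime] {n : ℕ}

theorem sind_class {M : ℕ} (ι : Fin M → Fin n) (hι : Function.Injective ι)
    (hlt : ∀ j, 2 * ((ι j : ℕ) + 1) < n + 1) {h : ZMod q} (hh : IsPrimitiveRoot h (2 * (n + 1)))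
    {e m' : ℕ} (he : 1 ≤ e) (hN : n + 1 = 2 ^ e * m') (hm' : Odd m') (hP : ∀ p, p.Prime → p ∣ m' → 11 ≤ p)
    (hq : ¬ q ∣ n + 1) : SInd (fun (a : Fin (2 * (n + 1))) (j : Fin M) => Vv n h a (ι j)) 10 := by
  intro c hc hsum j
  let μ : ℕ → ZMod q := fun x => ∑ i, (if (ι i : ℕ) + 1 = x then c i else 0) -
    ∑ i, (if n - (ι i : ℕ) = x then c i else 0)
  have hμ : ∀ a : ℕ, a.Coprime (2 * (2 ^ e * m')) →
      ∑ x ∈ range (2 ^ e * m'), μ x * h ^ (a * x) = 0 := by
    intro a ha
    rw [← hN] at ha ⊢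
    set a' : Fin (2 * (n + 1)) := ⟨a % (2 * (n + 1)), Nat.mod_lt _ (by omega)⟩ with ha'
    have h1 := hsum a'
    have e1 : h ^ (a' : ℕ) = h ^ a := by
      rw [ha']
      simp only
      conv_rhs => rw [← Nat.mod_add_div a (2 * (n + 1)), pow_add, pow_mul h (2 * (n + 1)),
        hh.pow_eq_one, one_pow, mul_one]
    have e2 : (a' : ℕ).Coprime (2 * (n + 1)) := by
      rw [ha']
      simp only
      rw [Nat.coprime_iff_gcd_eq_one] at ha ⊢
      exact (Nat.mod_modEq a (2 * (n + 1))).gcd_eq.trans ha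
    rw [← h1]
    simp only [μ, sub_mul, sum_sub_distrib, sum_mul]
    rw [sum_comm, sum_comm (s := range (n + 1)) (t := univ) (f := fun x i =>
      (if n - (ι i : ℕ) = x then c i else 0) * h ^ (a * x)), ← sum_sub_distrib]
    refine sum_congr rfl fun i _ => ?_
    have hi := (ι i).2
    unfold Vv
    rw [if_pos e2, e1, Fin.val_rev]
    simp only [ite_mul, zero_mul]
    rw [sum_ite_eq, sum_ite_eq, if_pos (mem_range.2 (by omega)), if_pos (mem_range.2 (by omega)),
      mul_sub, ← pow_mul, ← pow_mul, show n - ((ι i : ℕ) + 1) + 1 = n - (ι i : ℕ) by omega]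
  have key := short_even_sym e m' he hm' hP (by
    rw [← hN]
    intro h0
    apply hq
    rw [← ZMod.natCast_eq_zero_iff]
    exact h0) (by rw [← hN]; exact hh) μ ?_ ?_ hμ ?_ ((ι j : ℕ) + 1) (by rw [← hN]; have := (ι j).2; omega)
  · simp only [μ] at key
    rw [sum_eq_single j (fun i _ hi => if_neg fun h' => hi (hι (Fin.ext (by omega))))
      (fun h' => absurd (mem_univ _) h'), if_pos rfl, sum_eq_zero (fun i _ => if_neg (by
        have h1 := hlt i
        have h2 := hlt j
        have h3 := (ι i).2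
        omega)), sub_zero] at key
    exact key
  · simp only [μ]
    rw [sum_eq_zero fun i _ => if_neg (by omega), sum_eq_zero fun i _ => if_neg (by
      have := (ι i).2
      omega), sub_zero]
  · intro x hx0 hxN
    rw [← hN] at hxN ⊢
    simp only [μ, neg_sub]
    congr 1
    · refine sum_congr rfl fun i _ => ?_
      have := (ι i).2
      congr 1
      rw [eq_iff_iff]
      constructor <;> intro h' <;> omega
    · refine sum_congr rfl fun i _ => ?_
      have := (ι i).2
      congr 1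
      rw [eq_iff_iff]
      constructor <;> intro h' <;> omega
  rw [← card_filter]
  refine le_trans (card_le_card (t := ((univ.filter (fun j => c j ≠ 0)).image (fun i => (ι i : ℕ) + 1)) ∪
      ((univ.filter (fun j => c j ≠ 0)).image (fun i => n - (ι i : ℕ)))) ?_) ?_
  swap
  · have h2 := card_union_le ((univ.filter (fun j => c j ≠ 0)).image (fun i => (ι i : ℕ) + 1))
      ((univ.filter (fun j => c j ≠ 0)).image (fun i => n - (ι i : ℕ)))
    have h3 := card_image_le (s := univ.filter (fun j => c j ≠ 0)) (f := fun i => (ι i : ℕ) + 1)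
    have h4 := card_image_le (s := univ.filter (fun j => c j ≠ 0)) (f := fun i => n - (ι i : ℕ))
    omega
  · intro x hxx
    obtain ⟨_, hne⟩ := mem_filter.1 hxx
    rw [mem_union, mem_image, mem_image]
    by_contra hcon
    push Not at hcon
    obtain ⟨h1, h2⟩ := hcon
    apply hne
    simp only [μ]
    rw [sum_eq_zero fun i _ => ?_, sum_eq_zero fun i _ => ?_, sub_zero]
    · by_contra h3
      split_ifs at h3 with h4
      · exact h2 i (mem_filter.2 ⟨mem_univ _, h3⟩) h4
      · exact h3 rfl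
    · by_contra h3
      split_ifs at h3 with h4
      · exact h1 i (mem_filter.2 ⟨mem_univ _, h3⟩) h4
      · exact h3 rfl

theorem pt_rev (h : ZMod q) (y : Fin (2 * (n + 1)) → ZMod q) (r : Fin n) :
    pt (Vv n h) y (Fin.rev r) = (starRingEnd ℂ) (pt (Vv n h) y r) := by
  unfold pt
  rw [← ch_neg]
  congr 1
  simp only [Vv_rev, mul_neg, sum_neg_distrib]

theorem Vv_rel' {h : ZMod q} (m : Fin n → ℤ)
    (hm : ∀ a, ∑ r, (m r : ZMod q) * Vv n h a r = 0) (y : Fin (2 * (n + 1)) → ZMod q) :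
    ∏ r, pt (Vv n h) y r ^ m r = 1 := by
  unfold pt
  simp only [ch_zpow]
  rw [← ch_sum, ← ch_zero (q := q)]
  congr 1
  simp only [mul_sum]
  rw [sum_comm]
  refine sum_eq_zero fun a _ => ?_
  calc ∑ r, (m r : ZMod q) * (y a * Vv n h a r) = y a * ∑ r, (m r : ZMod q) * Vv n h a r := by
        rw [mul_sum]
        exact sum_congr rfl fun r _ => by ring
    _ = 0 := by rw [hm a, mul_zero]

theorem split_rel {H : ℕ} (hH : n + 1 = 2 * H) (hq2 : 2 < q) {h : ZMod q}
    (hh : IsPrimitiveRoot h (2 * (n + 1))) (m : Fin n → ℤ) (hm : ∑ i, (m i : ℝ) * th n i = 0)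
    (i : ℕ) (a : Fin (2 * (n + 1))) :
    ∑ r : Fin n, ((if ((r : ℕ) + 1) % 2 = i % 2 then m r else 0 : ℤ) : ZMod q) * Vv n h a r = 0 := by
  unfold Vv
  split_ifs with hc
  swap
  · simp
  have hp := hh.pow_of_coprime _ hc
  set g := h ^ (a : ℕ) with hg
  have hhalf : g ^ (n + 1) = -1 := by
    have e1 : (g ^ (n + 1) - 1) * (g ^ (n + 1) + 1) = 0 := by
      have : (g ^ (n + 1) - 1) * (g ^ (n + 1) + 1) = g ^ (2 * (n + 1)) - 1 := by
        rw [two_mul, pow_add]; ring
      rw [this, hp.pow_eq_one, sub_self]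
    rcases mul_eq_zero.1 e1 with e2 | e2
    · exfalso
      have e3 := (hp.pow_eq_one_iff_dvd (n + 1)).1 (sub_eq_zero.1 e2)
      have := Nat.le_of_dvd (by omega) e3
      omega
    · exact eq_neg_of_add_eq_zero_left e2
  have hp' : IsPrimitiveRoot (-g) (2 * (n + 1)) := by
    have e1 : (-g) = g ^ (n + 1 + 1) := by rw [pow_succ, hhalf]; ring
    rw [e1]
    refine hp.pow_of_coprime _ ?_
    refine Nat.Coprime.mul_right ?_ ?_
    · rw [Nat.coprime_comm, Nat.Prime.coprime_iff_not_dvd Nat.prime_two]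
      omega
    · rw [add_comm]
      simp
  have h1 := rel_modq hp m hm
  have h2 := rel_modq hp' m hm
  have h3 : ∑ r : Fin n, (m r : ZMod q) * ((-1) ^ ((r : ℕ) + 1) * (g ^ ((r : ℕ) + 1) -
      g ^ (((Fin.rev r : Fin n) : ℕ) + 1))) = 0 := by
    rw [← h2]
    refine sum_congr rfl fun r _ => ?_
    have hr := r.2
    have e1 : ((-1 : ZMod q)) ^ ((r : ℕ) + 1) = (-1) ^ (((Fin.rev r : Fin n) : ℕ) + 1) := by
      rcases Nat.even_or_odd ((r : ℕ) + 1) with he | ho
      · have : Even (((Fin.rev r : Fin n) : ℕ) + 1) := by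
          rw [Fin.val_rev, Nat.even_iff]
          rw [Nat.even_iff] at he
          omega
        rw [he.neg_one_pow, this.neg_one_pow]
      · have : Odd (((Fin.rev r : Fin n) : ℕ) + 1) := by
          rw [Fin.val_rev, Nat.odd_iff]
          rw [Nat.odd_iff] at ho
          omega
        rw [ho.neg_one_pow, this.neg_one_pow]
    rw [mul_sub ((-1) ^ ((r : ℕ) + 1)), neg_pow g ((r : ℕ) + 1), neg_pow g (_ + 1), ← e1]
  have h2ne : (2 : ZMod q) ≠ 0 := by
    intro h0
    have h5 : ((2 : ℕ) : ZMod q) = 0 := by exact_mod_cast h0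
    rw [ZMod.natCast_eq_zero_iff] at h5
    have := Nat.le_of_dvd (by norm_num) h5
    omega
  apply mul_left_cancel₀ h2ne
  rw [mul_zero, mul_sum]
  calc ∑ r : Fin n, 2 * (((if ((r : ℕ) + 1) % 2 = i % 2 then m r else 0 : ℤ) : ZMod q) *
        (g ^ ((r : ℕ) + 1) - g ^ (((Fin.rev r : Fin n) : ℕ) + 1)))
      = ∑ r : Fin n, ((m r : ZMod q) * (g ^ ((r : ℕ) + 1) - g ^ (((Fin.rev r : Fin n) : ℕ) + 1)) +
        (-1) ^ i * ((m r : ZMod q) * ((-1) ^ ((r : ℕ) + 1) * (g ^ ((r : ℕ) + 1) -
      g ^ (((Fin.rev r : Fin n) : ℕ) + 1))))) := by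
        refine sum_congr rfl fun r _ => ?_
        rcases Nat.even_or_odd i with he | ho <;>
          rcases Nat.even_or_odd ((r : ℕ) + 1) with he' | ho'
        · rw [he.neg_one_pow, he'.neg_one_pow, if_pos (by
            rw [Nat.even_iff] at he he'; omega)]
          ring
        · rw [he.neg_one_pow, ho'.neg_one_pow, if_neg (by
            rw [Nat.even_iff] at he; rw [Nat.odd_iff] at ho'; omega)]
          push_cast
          ring
        · rw [ho.neg_one_pow, he'.neg_one_pow, if_neg (by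
            rw [Nat.odd_iff] at ho; rw [Nat.even_iff] at he'; omega)]
          push_cast
          ring
        · rw [ho.neg_one_pow, ho'.neg_one_pow, if_pos (by
            rw [Nat.odd_iff] at ho ho'; omega)]
          ring
    _ = 0 := by rw [sum_add_distrib, ← mul_sum, h1, h3]; simp

theorem pair_gen {M : ℕ} (ι : Fin M → Fin n) {h : ZMod q}
    (w : (Fin (2 * (n + 1)) → ZMod q) → ℝ) (c : ℝ)
    (hA : ∀ j l, j ≠ l → ∑ y, w y * (pt (Vv n h) y (ι j) * (starRingEnd ℂ) (pt (Vv n h) y (ι l))).re = -c)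
    (hB : ∀ j l, j ≠ l → ∑ y, w y * (pt (Vv n h) y (ι j) * pt (Vv n h) y (ι l)).re = -c)
    (hC : ∀ j, ∑ y, w y * (pt (Vv n h) y (ι j) * pt (Vv n h) y (ι j)).re = -c)
    {r s : Fin n} (hr : ∃ j, r = ι j ∨ r = Fin.rev (ι j)) (hs : ∃ j, s = ι j ∨ s = Fin.rev (ι j))
    (hrs : r ≠ s) :
    ∑ y, w y * (pt (Vv n h) y r * (starRingEnd ℂ) (pt (Vv n h) y s)).re = -c := by
  obtain ⟨j, hj⟩ := hr
  obtain ⟨l, hl⟩ := hs
  rcases hj with rfl | rfl <;> rcases hl with rfl | rfl
  · exact hA j l fun h' => hrs (by rw [h'])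
  · by_cases hjl : j = l
    · subst hjl
      rw [← hC j]
      refine sum_congr rfl fun y _ => ?_
      rw [pt_rev, Complex.conj_conj]
    · rw [← hB j l hjl]
      refine sum_congr rfl fun y _ => ?_
      rw [pt_rev, Complex.conj_conj]
  · by_cases hjl : j = l
    · subst hjl
      rw [← hC j]
      refine sum_congr rfl fun y _ => ?_
      rw [pt_rev]
      simp only [Complex.mul_re, Complex.conj_re, Complex.conj_im]
      ring
    · rw [← hB j l hjl]
      refine sum_congr rfl fun y _ => ?_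
      rw [pt_rev]
      simp only [Complex.mul_re, Complex.conj_re, Complex.conj_im]
      ring
  · rw [← hA j l fun h' => hrs (by rw [h'])]
    refine sum_congr rfl fun y _ => ?_
    rw [pt_rev, pt_rev]
    simp only [Complex.mul_re, Complex.conj_re, Complex.conj_im]
    ring

end

end Pool.Agent.K7.H19.PM2
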