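import Pool.Agent.K7.H19.PM.Even

/-!
# Rank one when `n + 1` is even with large odd prime factors, assembly
-/

set_option autoImplicit false

open Finset Pool.Agent.R667.MM Pool.Agent.K7.H19.PM

noncomputable section

namespace Pool.Agent.K7.H19.PM2

theorem even_gen {n e m' : ℕ} (hn : 500 ≤ n) (he : 1 ≤ e) (hN : n + 1 = 2 ^ e * m') (hm' : Odd m')
    (hP : ∀ p, p.Prime → p ∣ m' → 11 ≤ p) : HasRankOne n := by
  obtain ⟨H, hH⟩ : ∃ H, n + 1 = 2 * H := by
    obtain ⟨k, rfl⟩ : ∃ k, e = k + 1 := ⟨e - 1, by omega⟩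
    exact ⟨2 ^ k * m', by rw [hN, pow_succ]; ring⟩
  obtain ⟨q, hqp, hq1, hq2⟩ := Nat.exists_prime_gt_modEq_one (k := 2 * (n + 1)) (2 * (n + 1) + 10) (by omega)
  have : Fact q.Prime := ⟨hqp⟩
  obtain ⟨h, hh⟩ : ∃ h : ZMod q, IsPrimitiveRoot h (2 * (n + 1)) := by
    obtain ⟨γ, hγ⟩ := IsCyclic.exists_generator (α := (ZMod q)ˣ)
    have h1 : orderOf γ = q - 1 := by
      rw [orderOf_eq_card_of_forall_mem_zpowers hγ, Nat.card_eq_fintype_card, ZMod.card_units]
    have h2 : 2 * (n + 1) ∣ q - 1 := (Nat.modEq_iff_dvd' hqp.one_lt.le).1 hq2.symm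
    obtain ⟨d, hd⟩ := h2
    have h3 : IsPrimitiveRoot γ (q - 1) := by rw [← h1]; exact IsPrimitiveRoot.orderOf γ
    have h4 : IsPrimitiveRoot (γ ^ d) (2 * (n + 1)) :=
      h3.pow (by have := hqp.two_le; omega) (by rw [hd]; ring)
    exact ⟨((γ ^ d : (ZMod q)ˣ) : ZMod q), IsPrimitiveRoot.coe_units_iff.2 h4⟩
  have hqn : ¬ q ∣ n + 1 := fun hd => by
    have := Nat.le_of_dvd (by omega) hd
    omega
  -- the two classes
  let ι0 : Fin ((H - 1) / 2) → Fin n := fun j => ⟨H - 2 * ((j : ℕ) + 1) - 1, by have := j.2; omega⟩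
  let ι1 : Fin (H / 2) → Fin n := fun j => ⟨H - (2 * (j : ℕ) + 1) - 1, by have := j.2; omega⟩
  have hι0 : Function.Injective ι0 := by
    intro j l hjl
    have h1 := congrArg Fin.val hjl
    simp only [ι0] at h1
    have h2 := j.2
    have h3 := l.2
    exact Fin.ext (by omega)
  have hι1 : Function.Injective ι1 := by
    intro j l hjl
    have h1 := congrArg Fin.val hjl
    simp only [ι1] at h1
    have h2 := j.2
    have h3 := l.2
    exact Fin.ext (by omega)
  have hlt0 : ∀ j, 2 * ((ι0 j : ℕ) + 1) < n + 1 := by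
    intro j
    have h2 := j.2
    simp only [ι0]
    omega
  have hlt1 : ∀ j, 2 * ((ι1 j : ℕ) + 1) < n + 1 := by
    intro j
    have h2 := j.2
    simp only [ι1]
    omega
  have hs0 := sind_class ι0 hι0 hlt0 hh he hN hm' hP hqn
  have hs1 := sind_class ι1 hι1 hlt1 hh he hN hm' hP hqn
  have hn' : (500 : ℝ) ≤ n := by exact_mod_cast hn
  set c : ℝ := 1 / ((n : ℝ) - 1) with hc
  have hn1 : (0 : ℝ) < (n : ℝ) - 1 := by linarith
  have hc0 : 0 ≤ c := by positivity
  have hM0 : (((H - 1) / 2 : ℕ) : ℝ) ≤ ((n : ℝ) - 1) / 4 := by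
    rw [le_div_iff₀ (by norm_num)]
    have : (H - 1) / 2 * 4 + 1 ≤ n := by omega
    have h2 : (((H - 1) / 2 * 4 + 1 : ℕ) : ℝ) ≤ n := by exact_mod_cast this
    push_cast at h2 ⊢
    linarith
  have hM1 : ((H / 2 : ℕ) : ℝ) ≤ ((n : ℝ) + 1) / 4 := by
    rw [le_div_iff₀ (by norm_num)]
    have : H / 2 * 4 ≤ n + 1 := by omega
    have h2 : ((H / 2 * 4 : ℕ) : ℝ) ≤ ((n + 1 : ℕ) : ℝ) := by exact_mod_cast this
    push_cast at h2 ⊢
    linarith
  obtain ⟨w0, hw00, hw01, hA0, hB0, hC0, hF0, hI0⟩ := rtype hs0 (by omega) (by omega) (c := c) (δ := 1)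
    hc0 zero_le_one (by
      rw [hc, div_mul_eq_mul_div, one_mul, div_le_one hn1]
      linarith)
  obtain ⟨w1, hw10, hw11, hA1, hB1, hC1, hF1, hI1⟩ := rtype hs1 (by omega) (by omega) (c := c) (δ := 0)
    hc0 le_rfl (by
      rw [hc, div_mul_eq_mul_div, one_mul, div_le_one hn1]
      linarith)
  have hpt0 : ∀ y j, pt (fun (a : Fin (2 * (n + 1))) j => Vv n h a (ι0 j)) y j =
      pt (Vv n h) y (ι0 j) := fun y j => rfl
  have hpt1 : ∀ y j, pt (fun (a : Fin (2 * (n + 1))) j => Vv n h a (ι1 j)) y j =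
      pt (Vv n h) y (ι1 j) := fun y j => rfl
  simp only [hpt0] at hA0 hB0 hC0 hF0 hI0
  simp only [hpt1] at hA1 hB1 hC1 hF1 hI1
  simp only [one_mul] at hF0
  simp only [zero_mul, neg_zero] at hF1
  -- representatives
  have hrep0 : ∀ r : Fin n, ((r : ℕ) + 1) % 2 = H % 2 → (r : ℕ) + 1 ≠ H →
      ∃ j, r = ι0 j ∨ r = Fin.rev (ι0 j) := by
    intro r hr hrH
    have := r.2
    rcases lt_or_gt_of_ne hrH with h1 | h1
    · refine ⟨⟨(H - ((r : ℕ) + 1)) / 2 - 1, by omega⟩, Or.inl (Fin.ext ?_)⟩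
      simp only [ι0]
      omega
    · refine ⟨⟨((r : ℕ) + 1 - H) / 2 - 1, by omega⟩, Or.inr (Fin.ext ?_)⟩
      rw [Fin.val_rev]
      simp only [ι0]
      omega
  have hrep1 : ∀ r : Fin n, ((r : ℕ) + 1) % 2 ≠ H % 2 → ∃ j, r = ι1 j ∨ r = Fin.rev (ι1 j) := by
    intro r hr
    have := r.2
    rcases lt_or_gt_of_ne (show (r : ℕ) + 1 ≠ H from fun h' => hr (by rw [h'])) with h1 | h1
    · refine ⟨⟨(H - ((r : ℕ) + 1)) / 2, by omega⟩, Or.inl (Fin.ext ?_)⟩
      simp only [ι1]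
      omega
    · refine ⟨⟨((r : ℕ) + 1 - H) / 2, by omega⟩, Or.inr (Fin.ext ?_)⟩
      rw [Fin.val_rev]
      simp only [ι1]
      omega
  have hcen : ∀ (y : Fin (2 * (n + 1)) → ZMod q) (r : Fin n), (r : ℕ) + 1 = H → pt (Vv n h) y r = 1 := by
    intro y r hr
    unfold pt
    rw [← ch_zero (q := q)]
    congr 1
    refine sum_eq_zero fun a _ => ?_
    have hrl := r.2
    have : (((Fin.rev r : Fin n) : ℕ) + 1) = (r : ℕ) + 1 := by
      rw [Fin.val_rev]
      omega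
    unfold Vv
    rw [this, sub_self]
    simp
  have hmean1 : ∀ r : Fin n, ((r : ℕ) + 1) % 2 ≠ H % 2 →
      ∑ y, w1 y * (pt (Vv n h) y r).re = 0 ∧ ∑ y, w1 y * (pt (Vv n h) y r).im = 0 := by
    intro r hr
    obtain ⟨j, rfl | rfl⟩ := hrep1 r hr
    · exact ⟨hF1 j, hI1 j⟩
    · constructor
      · rw [← hF1 j]
        refine sum_congr rfl fun y _ => ?_
        rw [pt_rev, Complex.conj_re]
      · rw [← neg_eq_zero, ← sum_neg_distrib, ← hI1 j]
        refine sum_congr rfl fun y _ => ?_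
        rw [pt_rev, Complex.conj_im]
        ring
  have hmean0 : ∀ r : Fin n, ((r : ℕ) + 1) % 2 = H % 2 → (r : ℕ) + 1 ≠ H →
      ∑ y, w0 y * (pt (Vv n h) y r).re = -c := by
    intro r hr hrH
    obtain ⟨j, rfl | rfl⟩ := hrep0 r hr hrH
    · exact hF0 j
    · rw [← hF0 j]
      refine sum_congr rfl fun y _ => ?_
      rw [pt_rev, Complex.conj_re]
  have hpair1 : ∀ r s : Fin n, ((r : ℕ) + 1) % 2 ≠ H % 2 → ((s : ℕ) + 1) % 2 ≠ H % 2 → r ≠ s →
      ∑ y, w1 y * (pt (Vv n h) y r * (starRingEnd ℂ) (pt (Vv n h) y s)).re = -c :=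
    fun r s hr hs hrs => pair_gen ι1 w1 c hA1 hB1 hC1 (hrep1 r hr) (hrep1 s hs) hrs
  have hpair0 : ∀ r s : Fin n, ((r : ℕ) + 1) % 2 = H % 2 → ((s : ℕ) + 1) % 2 = H % 2 → r ≠ s →
      ∑ y, w0 y * (pt (Vv n h) y r * (starRingEnd ℂ) (pt (Vv n h) y s)).re = -c := by
    intro r s hr hs hrs
    by_cases hrH : (r : ℕ) + 1 = H
    · have hsH : (s : ℕ) + 1 ≠ H := fun h' => hrs (Fin.ext (by omega))
      rw [← hmean0 s hs hsH]
      refine sum_congr rfl fun y _ => ?_
      rw [hcen y r hrH, one_mul, Complex.conj_re]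
    · by_cases hsH : (s : ℕ) + 1 = H
      · rw [← hmean0 r hr hrH]
        refine sum_congr rfl fun y _ => ?_
        rw [hcen y s hsH, map_one, mul_one]
      · exact pair_gen ι0 w0 c hA0 hB0 hC0 (hrep0 r hr hrH) (hrep0 s hs hsH) hrs
  have hcross : ∀ r s : Fin n, ((r : ℕ) + 1) % 2 ≠ H % 2 →
      ∑ y0, ∑ y1, w1 y1 * w0 y0 * ((pt (Vv n h) y1 r).re * (pt (Vv n h) y0 s).re +
        (pt (Vv n h) y1 r).im * (pt (Vv n h) y0 s).im) = 0 := by
    intro r s hr
    refine sum_eq_zero fun y0 _ => ?_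
    have e1 : ∀ y1 ∈ (univ : Finset (Fin (2 * (n + 1)) → ZMod q)),
        w1 y1 * w0 y0 * ((pt (Vv n h) y1 r).re * (pt (Vv n h) y0 s).re +
        (pt (Vv n h) y1 r).im * (pt (Vv n h) y0 s).im) =
        (w1 y1 * (pt (Vv n h) y1 r).re) * (w0 y0 * (pt (Vv n h) y0 s).re) +
        (w1 y1 * (pt (Vv n h) y1 r).im) * (w0 y0 * (pt (Vv n h) y0 s).im) := by
      intro y1 _
      ring
    rw [sum_congr rfl e1, sum_add_distrib, ← sum_mul, ← sum_mul, (hmean1 r hr).1, (hmean1 r hr).2]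
    ring
  refine criterion (c := c) (by omega)
    (κ := (Fin (2 * (n + 1)) → ZMod q) × (Fin (2 * (n + 1)) → ZMod q))
    (fun k => w1 k.2 * w0 k.1) (fun k => mul_nonneg (hw10 _) (hw00 _)) ?_
    (fun k r => if ((r : ℕ) + 1) % 2 = H % 2 then pt (Vv n h) k.1 r else pt (Vv n h) k.2 r)
    ?_ ?_ ?_ ?_
  · rw [Fintype.sum_prod_type]
    simp only [← sum_mul]
    rw [hw11]
    simp only [one_mul]
    exact hw01
  · intro k r
    split_ifs <;> exact pt_norm _ _ _
  · intro k m hm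
    have e0 := Vv_rel' (h := h) (fun r => if ((r : ℕ) + 1) % 2 = H % 2 then m r else 0)
      (split_rel hH (by omega) hh m hm H) k.1
    have e1 := Vv_rel' (h := h) (fun r => if ((r : ℕ) + 1) % 2 = (H + 1) % 2 then m r else 0)
      (split_rel hH (by omega) hh m hm (H + 1)) k.2
    have e2 := congrArg₂ (· * ·) e0 e1
    simp only [mul_one] at e2
    rw [← prod_mul_distrib] at e2
    rw [← e2]
    refine prod_congr rfl fun r _ => ?_
    by_cases hr : ((r : ℕ) + 1) % 2 = H % 2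
    · rw [if_pos hr, if_pos hr, if_neg (by omega), zpow_zero, mul_one]
    · rw [if_neg hr, if_neg hr, if_pos (by omega), zpow_zero, one_mul]
  · rw [hc]
    exact one_div_lt_one_div_of_lt hn1 (by linarith)
  · intro r s hrs
    rw [Fintype.sum_prod_type]
    by_cases hr : ((r : ℕ) + 1) % 2 = H % 2 <;> by_cases hs : ((s : ℕ) + 1) % 2 = H % 2
    · have hEv : E ((r : ℤ) - s) = 1 := by
        unfold E
        rw [if_pos]
        rw [Int.even_iff]
        omega
      simp only [if_pos hr, if_pos hs]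
      rw [hEv, mul_one, ← hpair0 r s hr hs hrs]
      refine sum_congr rfl fun y0 _ => ?_
      simp only [mul_assoc]
      rw [← sum_mul, hw11, one_mul]
    · have hEv : E ((r : ℤ) - s) = 0 := by
        unfold E
        rw [if_neg]
        rw [Int.even_iff]
        omega
      simp only [if_pos hr, if_neg hs]
      rw [hEv, mul_zero, ← hcross s r hs]
      refine sum_congr rfl fun y0 _ => sum_congr rfl fun y1 _ => ?_
      simp only [Complex.mul_re, Complex.conj_re, Complex.conj_im]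
      ring
    · have hEv : E ((r : ℤ) - s) = 0 := by
        unfold E
        rw [if_neg]
        rw [Int.even_iff]
        omega
      simp only [if_neg hr, if_pos hs]
      rw [hEv, mul_zero, ← hcross r s hr]
      refine sum_congr rfl fun y0 _ => sum_congr rfl fun y1 _ => ?_
      simp only [Complex.mul_re, Complex.conj_re, Complex.conj_im]
      ring
    · have hEv : E ((r : ℤ) - s) = 1 := by
        unfold E
        rw [if_pos]
        rw [Int.even_iff]
        omega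
      simp only [if_neg hr, if_neg hs]
      rw [hEv, mul_one, ← hpair1 r s hr hs hrs]
      rw [sum_comm]
      refine sum_congr rfl fun y1 _ => ?_
      have e1 : ∀ y0 ∈ (univ : Finset (Fin (2 * (n + 1)) → ZMod q)), w1 y1 * w0 y0 *
          (pt (Vv n h) y1 r * (starRingEnd ℂ) (pt (Vv n h) y1 s)).re =
          w0 y0 * (w1 y1 * (pt (Vv n h) y1 r * (starRingEnd ℂ) (pt (Vv n h) y1 s)).re) := by
        intro y0 _
        ring
      rw [sum_congr rfl e1, ← sum_mul, hw01, one_mul]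

end Pool.Agent.K7.H19.PM2
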