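import Pool.Agent.R667.MM.Main
import Pool.Agent.R667.MM.Final

/-!
# A sufficient condition for a flat averaged mixing matrix
-/

set_option autoImplicit false

open Finset Real MeasureTheory Pool.Agent.R667.MM

noncomputable section

namespace Pool.Agent.K7.H19.PM

theorem S_rev (n : ℕ) (a p : Fin n) : S n (Fin.rev a) p = (-1) ^ (p : ℕ) * S n a p := by
  have hn : (n : ℝ) + 1 ≠ 0 := by positivity
  have ha := a.2
  unfold S
  have e : π * (((Fin.rev a : Fin n) : ℕ) + 1 : ℝ) * ((p : ℝ) + 1) / (n + 1) =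
      ((p + 1 : ℕ) : ℝ) * π - π * ((a : ℝ) + 1) * ((p : ℝ) + 1) / (n + 1) := by
    rw [Fin.val_rev, Nat.cast_sub (by omega)]
    push_cast
    field_simp
    ring
  rw [e, Real.sin_nat_mul_pi_sub, pow_succ]
  ring

theorem E_eq (p q : ℕ) : E ((p : ℤ) - q) = (1 + (-1) ^ p * (-1) ^ q) / 2 := by
  unfold E
  rcases Nat.even_or_odd p with hp | hp <;> rcases Nat.even_or_odd q with hq | hq
  · rw [if_pos (by rw [Int.even_sub]; simp [hp, hq]), hp.neg_one_pow, hq.neg_one_pow]; norm_num
  · rw [if_neg (by rw [Int.even_sub]; simp [hp, Nat.not_even_iff_odd.2 hq]), hp.neg_one_pow,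
      hq.neg_one_pow]; norm_num
  · rw [if_neg (by rw [Int.even_sub]; simp [hq, Nat.not_even_iff_odd.2 hp]), hp.neg_one_pow,
      hq.neg_one_pow]; norm_num
  · rw [if_pos (by rw [Int.even_sub]; simp [Nat.not_even_iff_odd.2 hp, Nat.not_even_iff_odd.2 hq]),
      hp.neg_one_pow, hq.neg_one_pow]; norm_num

theorem S_orth' (n : ℕ) (a b : Fin n) : ∑ p : Fin n, S n a p * S n b p = if a = b then 1 else 0 := by
  rw [← S_orth n a b]
  exact Finset.sum_congr rfl fun p _ => by rw [S_symm n a p, S_symm n b p]

theorem S_four (n : ℕ) (a b : Fin n) :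
    ∑ p : Fin n, (S n a p * S n a p) * (S n b p * S n b p) =
      1 / (n + 1) * (1 + ((if a = b then 1 else 0) + (if Fin.rev a = b then 1 else 0)) / 2) := by
  have ha := a.2
  have hb := b.2
  have h1 : ∀ p : Fin n, (S n a p * S n a p) * (S n b p * S n b p) =
      1 / (n + 1) * (S n p b * S n p b) - 1 / (n + 1) *
        (cos (π * ((p : ℝ) + 1) * (((a : ℤ) + a + 2 : ℤ) : ℝ) / (n + 1)) * (S n p b * S n p b)) := by
    intro p
    rw [S_symm n a p, S_symm n b p, S_mul n p a a, sub_self]
    simp only [Int.cast_zero, mul_zero, zero_div, cos_zero]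
    ring
  simp only [h1, Finset.sum_sub_distrib, ← Finset.mul_sum]
  rw [S_orth, if_pos rfl, D_formula, sub_self, add_zero, sub_zero,
    dl_zero (n := n) (s := (a : ℤ) + a + 2) (by omega) (by omega), if_neg (by omega),
    dl_pos (n := n) (s := (a : ℤ) + a + 2 + (b + b + 2)) (by omega) (by omega),
    dl_zero (n := n) (s := (a : ℤ) + a + 2 - (b + b + 2)) (by omega) (by omega)]
  have e1 : ((a : ℤ) + a + 2 + (b + b + 2) = 2 * (n + 1)) ↔ Fin.rev a = b := by
    rw [Fin.ext_iff, Fin.val_rev]
    omega
  have e2 : ((a : ℤ) + a + 2 - (b + b + 2) = 0) ↔ a = b := by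
    rw [Fin.ext_iff]
    omega
  simp only [e1, e2]
  ring

/-- Sufficient condition for a flat average. -/
theorem flat {n : ℕ} {f : ℝ → ℝ} (hf : Integrable f) (h1 : ∫ s, f s = 1)
    (h : ∀ p q : Fin n, p ≠ q → ∫ s, f s * cos ((th n p - th n q) * s) = -(1 / n) * E ((p : ℤ) - q))
    (a b : Fin n) : avgMixing n f a b = 1 / n := by
  have hn : (0 : ℝ) < n := by exact_mod_cast (Nat.zero_le _).trans_lt a.2
  have hint : ∀ p q : Fin n, Integrable fun s => f s * cos ((th n p - th n q) * s) := by
    intro p q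
    refine hf.mul_bdd (c := 1) (by fun_prop) (Filter.Eventually.of_forall fun s => ?_)
    rw [Real.norm_eq_abs]
    exact Real.abs_cos_le_one _
  have hc : ∀ p q : Fin n, ∫ s, f s * cos ((th n p - th n q) * s) =
      (1 + 1 / n) * (if p = q then 1 else 0) - (1 / n) * ((1 + (-1) ^ (p : ℕ) * (-1) ^ (q : ℕ)) / 2) := by
    intro p q
    by_cases hpq : p = q
    · subst hpq
      simp only [sub_self, zero_mul, cos_zero, mul_one, h1, if_true]
      rw [← pow_add, ← two_mul, pow_mul]
      norm_num
    · rw [h p q hpq, E_eq, if_neg hpq]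
      ring
  have h2 : avgMixing n f a b = ∑ p, ∑ q, (S n a p * S n a q) * (S n b p * S n b q) *
      ∫ s, f s * cos ((th n p - th n q) * s) := by
    unfold avgMixing
    simp only [mixing_eq, Finset.mul_sum]
    rw [integral_finsetSum]
    · refine Finset.sum_congr rfl fun p _ => ?_
      rw [integral_finsetSum]
      · refine Finset.sum_congr rfl fun q _ => ?_
        rw [← integral_const_mul]
        congr 1
        ext s
        ring
      · intro q _
        refine ((hint p q).const_mul ((S n a p * S n a q) * (S n b p * S n b q))).congr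
          (Filter.Eventually.of_forall fun s => ?_)
        simp only
        ring
    · intro p _
      refine integrable_finsetSum _ fun q _ => ?_
      refine ((hint p q).const_mul ((S n a p * S n a q) * (S n b p * S n b q))).congr
          (Filter.Eventually.of_forall fun s => ?_)
      simp only
      ring
  rw [h2]
  have e1 : ∑ p, ∑ q, (S n a p * S n a q) * (S n b p * S n b q) *
      ∫ s, f s * cos ((th n p - th n q) * s) =
      (1 + 1 / n) * ∑ p, (S n a p * S n a p) * (S n b p * S n b p) -
        1 / (2 * n) * ((∑ p, S n a p * S n b p) * (∑ p, S n a p * S n b p)) -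
        1 / (2 * n) * ((∑ p, S n (Fin.rev a) p * S n b p) * (∑ p, S n (Fin.rev a) p * S n b p)) := by
    rw [Finset.sum_mul_sum, Finset.sum_mul_sum]
    simp only [hc, S_rev, Finset.mul_sum, ← Finset.sum_sub_distrib]
    have e2 : ∀ p : Fin n, (1 + 1 / (n : ℝ)) * ((S n a p * S n a p) * (S n b p * S n b p)) =
        ∑ q, (1 + 1 / (n : ℝ)) * (if p = q then (S n a p * S n a q) * (S n b p * S n b q) else 0) := by
      intro p
      rw [← Finset.mul_sum, Finset.sum_ite_eq, if_pos (Finset.mem_univ _)]
    simp only [e2, ← Finset.sum_sub_distrib]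
    refine Finset.sum_congr rfl fun p _ => Finset.sum_congr rfl fun q _ => ?_
    split_ifs <;> ring
  rw [e1, S_four, S_orth', S_orth']
  have hn1 : (n : ℝ) + 1 ≠ 0 := by positivity
  split_ifs <;> field_simp <;> ring

end Pool.Agent.K7.H19.PM
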