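import Pool.Agent.K7.H19.PM.Free

/-!
# The case that `n + 1` is four times a prime: relations
-/

set_option autoImplicit false

open Finset Real Pool.Agent.R667.MM

noncomputable section

namespace Pool.Agent.K7.H19.PM

theorem cyc8p {p : ℕ} (hp : p.Prime) (hp2 : Odd p) :
    Polynomial.cyclotomic (8 * p) ℤ * (1 + Polynomial.X ^ 4) = 1 + Polynomial.X ^ (4 * p) := by
  have h8 : Polynomial.cyclotomic 8 ℤ = 1 + Polynomial.X ^ 4 := by
    have := Polynomial.cyclotomic_prime_pow_eq_geom_sum (R := ℤ) (p := 2) (n := 2) Nat.prime_two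
    norm_num [Finset.sum_range_succ] at this
    rw [this]
  have h1 : ¬ p ∣ 8 := by
    intro h
    have h2 : p ∣ 2 ^ 3 := by simpa using h
    have h3 := hp.dvd_of_dvd_pow h2
    have := (Nat.prime_dvd_prime_iff_eq hp Nat.prime_two).1 h3
    subst this
    revert hp2; decide
  have h2 := Polynomial.cyclotomic_expand_eq_cyclotomic_mul hp h1 ℤ
  rw [h8] at h2
  rw [← h2, map_add, map_one, map_pow, Polynomial.expand_X, ← pow_mul, mul_comm p 4]

theorem relation_4p {n p : ℕ} (hp : p.Prime) (hp2 : Odd p) (hN : n + 1 = 4 * p) (m : Fin n → ℤ)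
    (hm : ∑ i, (m i : ℝ) * th n i = 0) :
    ∃ g : ℤ, (∀ r : Fin n, (r : ℕ) % 2 = 1 → m r - m (Fin.rev r) = 0) ∧
      ∀ r : Fin n, (r : ℕ) % 4 = 0 → m r - m (Fin.rev r) = (-1) ^ ((r : ℕ) / 4) * g := by
  have hp3 : 3 ≤ p := by
    have := hp.two_le
    obtain ⟨k, hk⟩ := hp2
    omega
  set F : Polynomial ℤ := ∑ p : Fin n, Polynomial.C (m p - m (Fin.rev p)) * Polynomial.X ^ (p : ℕ)
    with hF
  have hco : ∀ q : Fin n, F.coeff q = m q - m (Fin.rev q) := by
    intro q
    rw [hF, Polynomial.finsetSum_coeff]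
    simp only [Polynomial.coeff_C_mul_X_pow]
    rw [Finset.sum_eq_single q]
    · simp
    · intro b _ hb
      rw [if_neg]
      intro h
      exact hb (Fin.ext h.symm)
    · simp
  have hdeg : F.degree < n := Polynomial.degree_sum_fin_lt _
  have hdvd := relation_poly m hm
  rw [← hF, hN, show 2 * (4 * p) = 8 * p by ring] at hdvd
  obtain ⟨G, hG⟩ := hdvd
  have hkey : F * (1 + Polynomial.X ^ 4) = G * (1 + Polynomial.X ^ (4 * p)) := by
    rw [hG, mul_right_comm, cyc8p hp hp2, mul_comm]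
  -- degree of `G`
  have hGdeg : ∀ j, 3 ≤ j → G.coeff j = 0 := by
    intro j hj
    by_cases hG0 : G = 0
    · simp [hG0]
    apply Polynomial.coeff_eq_zero_of_natDegree_lt
    have hc0 : Polynomial.cyclotomic (8 * p) ℤ ≠ 0 := Polynomial.cyclotomic_ne_zero _ _
    have hF0 : F ≠ 0 := by rw [hG]; exact mul_ne_zero hc0 hG0
    have hd : F.natDegree = Nat.totient (8 * p) + G.natDegree := by
      rw [hG, Polynomial.natDegree_mul hc0 hG0, Polynomial.natDegree_cyclotomic]
    have hlt : F.natDegree < n := by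
      rwa [Polynomial.natDegree_lt_iff_degree_lt hF0]
    have ht : Nat.totient (8 * p) = 4 * (p - 1) := by
      rw [show (8 : ℕ) = 2 ^ 3 by norm_num, Nat.totient_mul (Nat.Coprime.pow_left 3
        (Nat.coprime_two_left.2 hp2)), Nat.totient_prime hp, Nat.totient_prime_pow_succ Nat.prime_two]
      norm_num
    omega
  have hcoef : ∀ j, j < 4 * p → F.coeff j + (if 4 ≤ j then F.coeff (j - 4) else 0) = G.coeff j := by
    intro j hj
    have h1 := congrArg (fun Q : Polynomial ℤ => Q.coeff j) hkey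
    simp only [mul_add, mul_one, Polynomial.coeff_add, Polynomial.coeff_mul_X_pow'] at h1
    rw [if_neg (by omega : ¬ 4 * p ≤ j), add_zero] at h1
    exact h1
  have hstep : ∀ j, j + 4 < 4 * p → F.coeff (j + 4) = - F.coeff j := by
    intro j hj
    have h1 := hcoef (j + 4) hj
    rw [if_pos (by omega), hGdeg _ (by omega), Nat.add_sub_cancel] at h1
    linarith
  have hind : ∀ i j, j + 4 * i < 4 * p → F.coeff (j + 4 * i) = (-1) ^ i * F.coeff j := by
    intro i
    induction i with
    | zero => intro j _; simp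
    | succ i ih =>
      intro j hj
      rw [show j + 4 * (i + 1) = j + 4 * i + 4 by ring, hstep _ (by omega), ih j (by omega), pow_succ]
      ring
  have h3 : F.coeff 3 = 0 := by
    have := hcoef 3 (by omega)
    rw [if_neg (by norm_num), add_zero, hGdeg 3 le_rfl] at this
    exact this
  have h1 : F.coeff 1 = 0 := by
    -- antisymmetry
    have e1 := hco ⟨1, by omega⟩
    have e2 := hco ⟨1 + 4 * (p - 1), by omega⟩
    have r1 : Fin.rev (⟨1, by omega⟩ : Fin n) = ⟨1 + 4 * (p - 1), by omega⟩ := by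
      ext; simp only [Fin.val_rev]; omega
    have r2 : Fin.rev (⟨1 + 4 * (p - 1), by omega⟩ : Fin n) = ⟨1, by omega⟩ := by
      ext; simp only [Fin.val_rev]; omega
    rw [r1] at e1
    rw [r2] at e2
    simp only at e1 e2
    rw [hind _ _ (by omega)] at e2
    have heven : Even (p - 1) := by
      obtain ⟨k, hk⟩ := hp2
      exact ⟨k, by omega⟩
    rw [heven.neg_one_pow, one_mul, e1] at e2
    rw [e1]
    linarith
  refine ⟨F.coeff 0, fun r hr => ?_, fun r hr => ?_⟩
  · rw [← hco]
    have hrlt := r.2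
    obtain ⟨i, hi⟩ : ∃ i, (r : ℕ) = 1 + 4 * i ∨ (r : ℕ) = 3 + 4 * i := ⟨(r : ℕ) / 4, by omega⟩
    rcases hi with hi | hi
    · rw [hi, hind _ _ (by omega), h1, mul_zero]
    · rw [hi, hind _ _ (by omega), h3, mul_zero]
  · rw [← hco]
    have hrlt := r.2
    have hi : (r : ℕ) = 0 + 4 * ((r : ℕ) / 4) := by omega
    rw [hi, hind _ _ (by omega)]
    congr 2
    omega

/-- Points of the closure of the one-parameter group for `n + 1 = 4 p`. -/
theorem rel_4p {n p : ℕ} (hp : p.Prime) (hp2 : Odd p) (hN : n + 1 = 4 * p) (z : Fin n → ℂ)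
    (hz : ∀ r, z r * z (Fin.rev r) = 1) (hfix : ∀ r, Fin.rev r = r → z r = 1)
    (hblock : ∏ r : Fin n, (if (r : ℕ) % 4 = 0 then z r ^ ((-1 : ℤ) ^ ((r : ℕ) / 4)) else 1) = 1)
    (m : Fin n → ℤ) (hm : ∑ i, (m i : ℝ) * th n i = 0) : ∏ i, z i ^ m i = 1 := by
  have hz0 : ∀ r, z r ≠ 0 := by
    intro r h
    have := hz r
    rw [h, zero_mul] at this
    exact zero_ne_one this
  obtain ⟨g, hg1, hg2⟩ := relation_4p hp hp2 hN m hm
  let m2 : Fin n → ℤ := fun r => if (r : ℕ) % 4 = 0 then (-1) ^ ((r : ℕ) / 4) * g else 0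
  let m1 : Fin n → ℤ := fun r => m r - m2 r
  have hm1 : ∀ r, m1 r = m1 (Fin.rev r) := by
    intro r
    have hr := r.2
    simp only [m1, m2, Fin.val_rev]
    rcases Nat.even_or_odd (r : ℕ) with h | h
    · obtain ⟨j, hj⟩ := h
      rcases Nat.even_or_odd j with h' | h'
      · have e0 : (r : ℕ) % 4 = 0 := by obtain ⟨i, hi⟩ := h'; omega
        have e1 : ¬ (n - ((r : ℕ) + 1)) % 4 = 0 := by omega
        rw [if_pos e0, if_neg e1]
        have := hg2 r e0
        linarith
      · have e0 : (r : ℕ) % 4 = 2 := by obtain ⟨i, hi⟩ := h'; omega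
        have e1 : (n - ((r : ℕ) + 1)) % 4 = 0 := by omega
        rw [if_neg (by omega), if_pos e1]
        have := hg2 (Fin.rev r) (by rw [Fin.val_rev]; exact e1)
        rw [Fin.rev_rev, Fin.val_rev] at this
        linarith
    · have e0 : (r : ℕ) % 2 = 1 := Nat.odd_iff.1 h
      rw [if_neg (by omega), if_neg (by omega)]
      have := hg1 r e0
      linarith
  have h1 := prod_symm z hz hfix m1 hm1
  have h2 : ∏ r, z r ^ m2 r = 1 := by
    have e : ∀ r, z r ^ m2 r = (if (r : ℕ) % 4 = 0 then z r ^ ((-1 : ℤ) ^ ((r : ℕ) / 4)) else 1) ^ g := by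
      intro r
      simp only [m2]
      split_ifs
      · rw [zpow_mul]
      · simp
    simp only [e]
    rw [Finset.prod_zpow, hblock, one_zpow]
  calc ∏ i, z i ^ m i = ∏ i, (z i ^ m1 i * z i ^ m2 i) := by
        refine Finset.prod_congr rfl fun i _ => ?_
        rw [← zpow_add₀ (hz0 i)]
        congr 1
        simp only [m1]
        ring
    _ = 1 := by rw [Finset.prod_mul_distrib, h1, h2, one_mul]

end Pool.Agent.K7.H19.PM
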