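import Pool.Agent.K7.H19.PM.FourP
import Pool.Agent.K7.H19.PM.Block

/-!
# The case that `n + 1` is four times a prime
-/

set_option autoImplicit false

open Finset Real Pool.Agent.R667.MM

noncomputable section

namespace Pool.Agent.K7.H19.PM

/-- the position of an even index -/
def bi (p n : ℕ) (r : Fin n) : ZMod p :=
  if (r : ℕ) % 4 = 0 then (((r : ℕ) / 4 : ℕ) : ZMod p) else (((n - 1 - r) / 4 : ℕ) : ZMod p)

/-- the sign of an even index -/
def cs (n : ℕ) (r : Fin n) : ℝ :=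
  if (r : ℕ) % 4 = 0 then (if ((r : ℕ) / 4) % 2 = 1 then -1 else 1)
  else (if ((n - 1 - r) / 4) % 2 = 0 then -1 else 1)

/-- the label of an odd index -/
def Wl (p : ℕ) {n : ℕ} (r : Fin n) : ℤ := (2 * (p : ℤ) - 1 - r) / 2

section

variable {p : ℕ} [Fact p.Prime]

/-- a nonzero element -/
def nz (α : ZMod p) : ZMod p := if α = 0 then 1 else α

theorem nz_ne (α : ZMod p) : nz α ≠ 0 := by
  unfold nz
  split_ifs with h
  · exact one_ne_zero
  · exact h

/-- the points -/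
def zz (n : ℕ) (ω : ℂ) (R : ℕ) (b : ℕ) (η : ZMod p → Bool) (α β : ZMod p) (r : Fin n) : ℂ :=
  if (r : ℕ) % 2 = 1 then ω ^ ((b : ℤ) * Wl p r) else
    ⟨Xf R η (nz α * bi p n r + β), cs n r * Yf R η (nz α * bi p n r + β)⟩

theorem cs_sq (n : ℕ) (r : Fin n) : cs n r * cs n r = 1 := by
  unfold cs; split_ifs <;> norm_num

theorem bi_rev {n : ℕ} (hN : n + 1 = 4 * p) (r : Fin n) (hr : (r : ℕ) % 2 = 0) :
    bi p n (Fin.rev r) = bi p n r := by
  have := r.2
  unfold bi
  rw [Fin.val_rev]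
  by_cases h : (r : ℕ) % 4 = 0
  · rw [if_pos h, if_neg (by omega)]
    congr 2
    omega
  · rw [if_neg h, if_pos (by omega)]
    congr 2
    omega

theorem cs_rev {n : ℕ} (hN : n + 1 = 4 * p) (r : Fin n) (hr : (r : ℕ) % 2 = 0) :
    cs n (Fin.rev r) = - cs n r := by
  have := r.2
  unfold cs
  rw [Fin.val_rev]
  by_cases h : (r : ℕ) % 4 = 0
  · rw [if_pos h, if_neg (by omega)]
    have e : (n - 1 - (n - ((r : ℕ) + 1))) / 4 = (r : ℕ) / 4 := by omega
    rw [e]
    split_ifs <;> first | omega | norm_num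
  · rw [if_neg h, if_pos (by omega)]
    have e : (n - ((r : ℕ) + 1)) / 4 = (n - 1 - r) / 4 := by omega
    rw [e]
    split_ifs <;> first | omega | norm_num

/-- different even indices with the same position have different signs -/
theorem cs_of_bi {n : ℕ} (hN : n + 1 = 4 * p) {r s : Fin n} (hr : (r : ℕ) % 2 = 0)
    (hs : (s : ℕ) % 2 = 0) (hrs : r ≠ s) (h : bi p n r = bi p n s) : cs n r * cs n s = -1 := by
  have hrl := r.2
  have hsl := s.2
  have hne : (r : ℕ) ≠ s := fun h' => hrs (Fin.ext h')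
  have hcast : ∀ a b : ℕ, a < p → b < p → ((a : ℕ) : ZMod p) = (b : ZMod p) → a = b := by
    intro a b ha hb hab
    have := congrArg ZMod.val hab
    rwa [ZMod.val_natCast, ZMod.val_natCast, Nat.mod_eq_of_lt ha, Nat.mod_eq_of_lt hb] at this
  have hneg : cs n r = - cs n s → cs n r * cs n s = -1 := by
    intro h
    rw [h, neg_mul, cs_sq]
  apply hneg
  unfold bi at h
  by_cases h1 : (r : ℕ) % 4 = 0
  · by_cases h2 : (s : ℕ) % 4 = 0
    · exfalso
      rw [if_pos h1, if_pos h2] at h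
      have := hcast _ _ (by omega) (by omega) h
      omega
    · rw [if_pos h1, if_neg h2] at h
      have h3 := hcast _ _ (by omega) (by omega) h
      have : r = Fin.rev s := by
        apply Fin.ext
        rw [Fin.val_rev]
        omega
      rw [this, cs_rev hN s hs]
  · by_cases h2 : (s : ℕ) % 4 = 0
    · rw [if_neg h1, if_pos h2] at h
      have h3 := hcast _ _ (by omega) (by omega) h
      have : r = Fin.rev s := by
        apply Fin.ext
        rw [Fin.val_rev]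
        omega
      rw [this, cs_rev hN s hs]
    · exfalso
      rw [if_neg h1, if_neg h2] at h
      have := hcast _ _ (by omega) (by omega) h
      omega

theorem Wl_rev {n : ℕ} (hN : n + 1 = 4 * p) (r : Fin n) (hr : (r : ℕ) % 2 = 1) :
    Wl p (Fin.rev r) = - Wl p r := by
  have := r.2
  unfold Wl
  rw [Fin.val_rev]
  omega

theorem prod_block {n : ℕ} (hN : n + 1 = 4 * p) (G : ZMod p → ℂ) :
    ∏ r : Fin n, (if (r : ℕ) % 4 = 0 then G (((r : ℕ) / 4 : ℕ) : ZMod p) else 1) = ∏ a, G a := by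
  have hp : 0 < p := (Fact.out : p.Prime).pos
  rw [← Finset.prod_filter]
  refine Finset.prod_nbij' (fun r => (((r : ℕ) / 4 : ℕ) : ZMod p))
    (fun a => (⟨4 * a.val, by have := ZMod.val_lt a; omega⟩ : Fin n)) ?_ ?_ ?_ ?_ ?_
  · intro r _; exact Finset.mem_univ _
  · intro a _
    rw [Finset.mem_filter]
    exact ⟨Finset.mem_univ _, by simp⟩
  · intro r hr
    have h := (Finset.mem_filter.1 hr).2
    have hrl := r.2
    apply Fin.ext
    simp only
    rw [ZMod.val_natCast, Nat.mod_eq_of_lt (by omega)]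
    omega
  · intro a _
    simp only
    rw [Nat.mul_div_cancel_left _ (by norm_num), ZMod.natCast_zmod_val]
  · intro r _; rfl

theorem zz_mul_rev {n : ℕ} (hN : n + 1 = 4 * p) {ω : ℂ} (hω : ω ≠ 0) (R b : ℕ) (η : ZMod p → Bool)
    (α β : ZMod p) (r : Fin n) : zz n ω R b η α β r * zz n ω R b η α β (Fin.rev r) = 1 := by
  have hr := r.2
  unfold zz
  by_cases h : (r : ℕ) % 2 = 1
  · have h' : ((Fin.rev r : Fin n) : ℕ) % 2 = 1 := by rw [Fin.val_rev]; omega
    rw [if_pos h, if_pos h', Wl_rev hN r h, ← zpow_add₀ hω,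
      show (b : ℤ) * Wl p r + (b : ℤ) * -Wl p r = 0 by ring, zpow_zero]
  · have h0 : (r : ℕ) % 2 = 0 := by omega
    have h' : ¬ ((Fin.rev r : Fin n) : ℕ) % 2 = 1 := by rw [Fin.val_rev]; omega
    rw [if_neg h, if_neg h', bi_rev hN r h0, cs_rev hN r h0]
    have h1 := Zf_normSq R η (nz α * bi p n r + β)
    unfold Zf at h1
    rw [Complex.normSq_mk] at h1
    have h2 := cs_sq n r
    apply Complex.ext
    · simp only [Complex.mul_re, Complex.one_re]
      linear_combination h1 + (Yf R η (nz α * bi p n r + β)) ^ 2 * h2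
    · simp only [Complex.mul_im, Complex.one_im]
      ring

theorem zz_block {n : ℕ} (hN : n + 1 = 4 * p) (hp2 : Odd p) {R : ℕ} (hR : R ≤ p) (hR2 : Odd R) (ω : ℂ)
    (b : ℕ) (η : ZMod p → Bool) (α β : ZMod p) :
    ∏ r : Fin n, (if (r : ℕ) % 4 = 0 then zz n ω R b η α β r ^ ((-1 : ℤ) ^ ((r : ℕ) / 4)) else 1) = 1 := by
  have h1 : ∀ r : Fin n, (if (r : ℕ) % 4 = 0 then zz n ω R b η α β r ^ ((-1 : ℤ) ^ ((r : ℕ) / 4)) else 1) =
      (if (r : ℕ) % 4 = 0 then (fun x : ZMod p => Zf R η (nz α * x + β)) (((r : ℕ) / 4 : ℕ) : ZMod p)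
        else 1) := by
    intro r
    split_ifs with h
    · unfold zz bi cs
      rw [if_neg (by omega), if_pos h, if_pos h]
      set x := nz α * (((r : ℕ) / 4 : ℕ) : ZMod p) + β with hx
      have hns := Zf_normSq R η x
      rcases Nat.even_or_odd ((r : ℕ) / 4) with he | ho
      · rw [he.neg_one_pow, zpow_one, if_neg (by rw [Nat.even_iff] at he; omega), one_mul]
        rfl
      · rw [ho.neg_one_pow, zpow_neg, zpow_one, if_pos (Nat.odd_iff.1 ho)]
        have hconj : (⟨Xf R η x, -1 * Yf R η x⟩ : ℂ) = (starRingEnd ℂ) (Zf R η x) := by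
          apply Complex.ext <;> simp [Zf]
        rw [hconj]
        apply inv_eq_of_mul_eq_one_right
        rw [← Complex.normSq_eq_conj_mul_self, hns, Complex.ofReal_one]
    · rfl
  rw [Finset.prod_congr rfl fun r _ => h1 r, prod_block hN (fun x : ZMod p => Zf R η (nz α * x + β))]
  have hbij : Function.Bijective (fun x : ZMod p => nz α * x + β) := by
    rw [← Finite.injective_iff_bijective]
    intro x y h
    simp only [add_left_inj] at h
    exact mul_left_cancel₀ (nz_ne α) h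
  rw [hbij.prod_comp (fun x => Zf R η x)]
  exact prod_Zf hR hp2 hR2 η

/-- the common correlation -/
def cc (p : ℕ) : ℝ := ((p : ℝ) - 2) / (p * (2 * p - 1))

/-- the weight of the second radius -/
def aw (p : ℕ) : ℝ := ((p : ℝ) - 1) * (p - 2) / ((2 * p - 1) * (p - 3))

def wR (p : ℕ) (ρ : Fin 2) : ℝ := if ρ = 0 then 1 - aw p else aw p

def Rf (p : ℕ) (ρ : Fin 2) : ℕ := if ρ = 0 then 1 else p - 2

def w1 (p : ℕ) (b : Fin (2 * p - 1)) : ℝ :=
  (1 + cc p) / (2 * p - 1) - (if (b : ℕ) = 0 then cc p else 0)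

def w2 (ρ : Fin 2) (α : ZMod p) : ℝ :=
  wR p ρ * ((1 / 2 ^ p) * (if α = 0 then 0 else 1 / ((p : ℝ) * ((p : ℝ) - 1))))

theorem w2_sum (hp5 : 5 ≤ p) : ∑ ρ : Fin 2, ∑ _η : ZMod p → Bool, ∑ α : ZMod p, ∑ _β : ZMod p, w2 ρ α = 1 := by
  have hp : (5 : ℝ) ≤ p := by exact_mod_cast hp5
  have h1 : ∀ ρ : Fin 2, ∑ _η : ZMod p → Bool, ∑ α : ZMod p, ∑ _β : ZMod p, w2 ρ α = wR p ρ := by
    intro ρ
    have h2 := agl_single (p := p) (fun _ => (1 : ℝ)) 0
    have h3 : ∑ α : ZMod p, ∑ _β : ZMod p, w2 ρ α = wR p ρ * (1 / 2 ^ p) * (1 / (p * (p - 1))) *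
        ∑ α : ZMod p, ∑ β : ZMod p, (if α = 0 then 0 else (1 : ℝ)) := by
      rw [Finset.mul_sum]
      refine Finset.sum_congr rfl fun α _ => ?_
      rw [Finset.mul_sum]
      refine Finset.sum_congr rfl fun β _ => ?_
      unfold w2
      split_ifs <;> ring
    rw [Finset.sum_congr rfl fun η _ => h3, h2]
    simp only [Finset.sum_const, nsmul_eq_mul, Finset.card_univ, Fintype.card_pi, Fintype.card_bool,
      Finset.prod_const, ZMod.card, Nat.cast_pow, Nat.cast_ofNat, mul_one]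
    have h4 : (p : ℝ) - 1 ≠ 0 := by linarith
    have h5 : (p : ℝ) ≠ 0 := by linarith
    field_simp
  rw [Finset.sum_congr rfl fun ρ _ => h1 ρ, Fin.sum_univ_two]
  unfold wR
  simp

/-- average of a function of the second component -/
theorem w2_avg (g : Fin 2 → (ZMod p → Bool) → ZMod p → ZMod p → ℝ) (G : Fin 2 → ℝ)
    (hG : ∀ ρ, ∑ η : ZMod p → Bool, ∑ α : ZMod p, ∑ β : ZMod p, (if α = 0 then 0 else g ρ η α β) = G ρ) :
    ∑ ρ : Fin 2, ∑ η : ZMod p → Bool, ∑ α : ZMod p, ∑ β : ZMod p, w2 ρ α * g ρ η α β =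
      ∑ ρ : Fin 2, wR p ρ * ((1 / 2 ^ p) * (1 / (p * (p - 1)))) * G ρ := by
  refine Finset.sum_congr rfl fun ρ _ => ?_
  rw [← hG ρ, Finset.mul_sum]
  refine Finset.sum_congr rfl fun η _ => ?_
  rw [Finset.mul_sum]
  refine Finset.sum_congr rfl fun α _ => ?_
  rw [Finset.mul_sum]
  refine Finset.sum_congr rfl fun β _ => ?_
  unfold w2
  split_ifs <;> ring

theorem Rf_lt (hp5 : 5 ≤ p) (ρ : Fin 2) : Rf p ρ < p := by
  unfold Rf
  split_ifs <;> omega

theorem Rf_odd (hp5 : 5 ≤ p) (hp2 : Odd p) (ρ : Fin 2) : Odd (Rf p ρ) := by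
  unfold Rf
  split_ifs
  · exact odd_one
  · obtain ⟨k, hk⟩ := hp2
    exact ⟨k - 1, by omega⟩

theorem alg_same (p a T : ℝ) (h0 : p ≠ 0) (h1 : p - 1 ≠ 0) (h2 : 2 * p - 1 ≠ 0)
    (hT : T ≠ 0) (ha : a * ((2 * p - 1) * (p - 3)) = (p - 1) * (p - 2)) :
    (1 - a) * (1 / T * (1 / (p * (p - 1)))) * (T * ((p - 1) * (2 * 1 - p))) +
      a * (1 / T * (1 / (p * (p - 1)))) * (T * ((p - 1) * (2 * (p - 2) - p))) =
      - ((p - 2) / (p * (2 * p - 1))) := by
  have e1 : (1 - a) * (1 / T * (1 / (p * (p - 1)))) * (T * ((p - 1) * (2 * 1 - p))) +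
      a * (1 / T * (1 / (p * (p - 1)))) * (T * ((p - 1) * (2 * (p - 2) - p))) =
      ((2 - p) + 2 * (a * (p - 3))) / p := by
    field_simp
    ring
  have e2 : a * (p - 3) = (p - 1) * (p - 2) / (2 * p - 1) := by
    rw [eq_div_iff h2, ← ha]
    ring
  rw [e1, e2]
  generalize hd : 2 * p - 1 = d at h2 ⊢
  have hp : p = (d + 1) / 2 := by linarith
  have h3 : (d + 1) ≠ 0 := fun h => h0 (by rw [hp, h]; simp)
  rw [hp]
  field_simp
  ring

theorem alg_diff (p a T : ℝ) (h0 : p ≠ 0) (h1 : p - 1 ≠ 0) (h2 : 2 * p - 1 ≠ 0)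
    (hT : T ≠ 0) (ha : a * ((2 * p - 1) * (p - 3)) = (p - 1) * (p - 2)) :
    (1 - a) * (1 / T * (1 / (p * (p - 1)))) * (T * (1 - 1)) +
      a * (1 / T * (1 / (p * (p - 1)))) * (T * (1 - (p - 2))) =
      - ((p - 2) / (p * (2 * p - 1))) := by
  have e1 : (1 - a) * (1 / T * (1 / (p * (p - 1)))) * (T * (1 - 1)) +
      a * (1 / T * (1 / (p * (p - 1)))) * (T * (1 - (p - 2))) =
      - (a * (p - 3)) / (p * (p - 1)) := by
    field_simp
    ring
  have e2 : a * (p - 3) = (p - 1) * (p - 2) / (2 * p - 1) := by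
    rw [eq_div_iff h2, ← ha]
    ring
  rw [e1, e2]
  field_simp

theorem aw_mul (hp5 : 5 ≤ p) : aw p * ((2 * (p : ℝ) - 1) * (p - 3)) = (p - 1) * (p - 2) := by
  have hp : (5 : ℝ) ≤ p := by exact_mod_cast hp5
  have h2p : (2 : ℝ) * p - 1 ≠ 0 := by linarith
  have hp3 : (p : ℝ) - 3 ≠ 0 := by linarith
  unfold aw
  exact div_mul_cancel₀ _ (mul_ne_zero h2p hp3)

theorem even_even {n : ℕ} (hp5 : 5 ≤ p) (hp2 : Odd p) (hN : n + 1 = 4 * p) {r s : Fin n}
    (hr : (r : ℕ) % 2 = 0) (hs : (s : ℕ) % 2 = 0) (hrs : r ≠ s) (ω : ℂ) (b : ℕ) :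
    ∑ ρ : Fin 2, ∑ η : ZMod p → Bool, ∑ α : ZMod p, ∑ β : ZMod p, w2 ρ α *
      (zz n ω (Rf p ρ) b η α β r * (starRingEnd ℂ) (zz n ω (Rf p ρ) b η α β s)).re = - cc p := by
  have hp : (5 : ℝ) ≤ p := by exact_mod_cast hp5
  have h2p : (2 : ℝ) * p - 1 ≠ 0 := by linarith
  have hp0 : (p : ℝ) ≠ 0 := by linarith
  have hp1 : (p : ℝ) - 1 ≠ 0 := by linarith
  have hp3 : (p : ℝ) - 3 ≠ 0 := by linarith
  have hcast : ((p - 2 : ℕ) : ℝ) = p - 2 := by
    rw [Nat.cast_sub (by omega)]; norm_num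
  have e1 : ∀ (R : ℕ) (η : ZMod p → Bool) (α β : ZMod p), α ≠ 0 →
      (zz n ω R b η α β r * (starRingEnd ℂ) (zz n ω R b η α β s)).re =
      Xf R η (α * bi p n r + β) * Xf R η (α * bi p n s + β) + (cs n r * cs n s) *
        (Yf R η (α * bi p n r + β) * Yf R η (α * bi p n s + β)) := by
    intro R η α β hα
    unfold zz
    rw [if_neg (by omega), if_neg (by omega)]
    have : nz α = α := by unfold nz; rw [if_neg hα]
    rw [this]
    simp only [Complex.mul_re, Complex.conj_re, Complex.conj_im]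
    ring
  by_cases hij : bi p n r = bi p n s
  · have hτ := cs_of_bi hN hr hs hrs hij
    rw [w2_avg _ (fun ρ => 2 ^ p * ((p - 1) * (2 * (Rf p ρ : ℝ) - p))) (fun ρ => by
      rw [← avg_double (Rf_lt hp5 ρ) (bi p n r)]
      refine Finset.sum_congr rfl fun η _ => Finset.sum_congr rfl fun α _ =>
        Finset.sum_congr rfl fun β _ => ?_
      split_ifs with hα
      · rfl
      · rw [e1 _ η α β hα, hτ, hij])]
    rw [Fin.sum_univ_two]
    have := alg_same p (aw p) (2 ^ p) hp0 hp1 h2p (by positivity) (aw_mul hp5)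
    unfold wR Rf cc
    simp only [if_true, Fin.isValue, one_ne_zero, if_false, hcast, Nat.cast_one]
    exact this
  · rw [w2_avg _ (fun ρ => 2 ^ p * (1 - (Rf p ρ : ℝ))) (fun ρ => by
      rw [← avg_pair (Rf_lt hp5 ρ) (Rf_odd hp5 hp2 ρ) hij (cs n r * cs n s)]
      refine Finset.sum_congr rfl fun η _ => Finset.sum_congr rfl fun α _ =>
        Finset.sum_congr rfl fun β _ => ?_
      split_ifs with hα
      · rfl
      · rw [e1 _ η α β hα])]
    rw [Fin.sum_univ_two]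
    have := alg_diff p (aw p) (2 ^ p) hp0 hp1 h2p (by positivity) (aw_mul hp5)
    unfold wR Rf cc
    simp only [if_true, Fin.isValue, one_ne_zero, if_false, hcast, Nat.cast_one]
    exact this

theorem even_single {n : ℕ} (hp5 : 5 ≤ p) (hp2 : Odd p) {s : Fin n} (hs : (s : ℕ) % 2 = 0) (ω : ℂ)
    (b : ℕ) :
    ∑ ρ : Fin 2, ∑ η : ZMod p → Bool, ∑ α : ZMod p, ∑ β : ZMod p, w2 ρ α *
      (zz n ω (Rf p ρ) b η α β s).re = 0 := by
  rw [w2_avg _ (fun ρ => 0) (fun ρ => by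
    refine Eq.trans ?_ (avg_single (Rf_lt hp5 ρ) (Rf_odd hp5 hp2 ρ) (bi p n s))
    refine Finset.sum_congr rfl fun η _ => Finset.sum_congr rfl fun α _ =>
      Finset.sum_congr rfl fun β _ => ?_
    split_ifs with hα
    · rfl
    · unfold zz
      rw [if_neg (by omega)]
      have : nz α = α := by unfold nz; rw [if_neg hα]
      rw [this])]
  simp

end

end Pool.Agent.K7.H19.PM
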