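import Pool.Agent.K7.H19.PM.Indep

/-!
# The free case: `n + 1` is a prime, twice a prime or a power of two
-/

set_option autoImplicit false

open Finset Real Pool.Agent.R667.MM

noncomputable section

namespace Pool.Agent.K7.H19.PM

theorem prod_symm {n : ℕ} (z : Fin n → ℂ) (hz : ∀ p, z p * z (Fin.rev p) = 1)
    (hfix : ∀ p, Fin.rev p = p → z p = 1) (m : Fin n → ℤ) (hm : ∀ p, m p = m (Fin.rev p)) :
    ∏ i, z i ^ m i = 1 := by
  refine Finset.prod_involution (fun p _ => Fin.rev p) (fun p _ => ?_) (fun p _ hp => ?_)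
    (fun p _ => Finset.mem_univ _) (fun p _ => Fin.rev_rev p)
  · rw [← hm p, ← mul_zpow, hz, one_zpow]
  · intro h
    exact hp (by rw [hfix p h, one_zpow])

/-- powers of a root of unity sum to zero -/
theorem sum_zpow_eq_zero {N : ℕ} {ω : ℂ} (hω : IsPrimitiveRoot ω N) {k : ℤ} (hk : ¬ (N : ℤ) ∣ k) :
    ∑ b : Fin N, ω ^ ((b : ℤ) * k) = 0 := by
  have hx : ω ^ k ≠ 1 := by
    intro h
    exact hk ((hω.zpow_eq_one_iff_dvd k).1 h)
  have h1 : (ω ^ k) ^ N = 1 := by
    rw [← zpow_natCast, ← zpow_mul, mul_comm, zpow_mul, zpow_natCast, hω.pow_eq_one, one_zpow]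
  have h2 := geom_sum_eq hx N
  rw [h1, sub_self, zero_div] at h2
  rw [← h2, Finset.sum_range]
  refine Finset.sum_congr rfl fun b _ => ?_
  rw [mul_comm, zpow_mul, zpow_natCast]

theorem norm_root {N : ℕ} (hN : N ≠ 0) {ω : ℂ} (hω : IsPrimitiveRoot ω N) (k : ℤ) : ‖ω ^ k‖ = 1 := by
  rw [norm_zpow, hω.norm'_eq_one hN, one_zpow]

theorem conj_root {N : ℕ} (hN : N ≠ 0) {ω : ℂ} (hω : IsPrimitiveRoot ω N) (k : ℤ) :
    (starRingEnd ℂ) (ω ^ k) = ω ^ (-k) := by
  have h1 : ω ^ k * (starRingEnd ℂ) (ω ^ k) = 1 := by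
    rw [Complex.mul_conj, Complex.normSq_eq_norm_sq, norm_root hN hω]
    simp
  rw [zpow_neg]
  exact eq_inv_of_mul_eq_one_right h1

theorem even_case {n : ℕ} (hn : 3 ≤ n) (hodd : Odd n)
    (hfree : ∀ m : Fin n → ℤ, ∑ i, (m i : ℝ) * th n i = 0 → ∀ p, m p = m (Fin.rev p)) :
    HasRankOne n := by
  obtain ⟨h', hh'⟩ := hodd
  set h := h' + 1 with hh
  have hN : n + 1 = 2 * h := by omega
  set ω : ℂ := Complex.exp (2 * π * Complex.I / ((2 * h : ℕ) : ℂ)) with hω
  have hprim : IsPrimitiveRoot ω (2 * h) := Complex.isPrimitiveRoot_exp _ (by omega)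
  have hne : (2 * h) ≠ 0 := by omega
  let k : Fin n → ℤ := fun p => (h : ℤ) - 1 - p
  have hk : ∀ p, k (Fin.rev p) = -k p := by
    intro p
    have := p.2
    simp only [k, Fin.val_rev]
    omega
  let z : Fin (2 * h) → Fin n → ℂ := fun b p => ω ^ ((b : ℤ) * k p)
  let b0 : Fin (2 * h) := ⟨0, by omega⟩
  let b1 : Fin (2 * h) := ⟨h, by omega⟩
  have hb : b0 ≠ b1 := by
    intro h
    have := congrArg Fin.val h
    simp only [b0, b1] at this
    omega
  have hcard : (0 : ℝ) < 2 * h - 2 := by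
    have : (2 : ℝ) ≤ h := by exact_mod_cast (by omega : 2 ≤ h)
    linarith
  let w : Fin (2 * h) → ℝ := fun b =>
    (1 - (if b = b0 then 1 else 0) - (if b = b1 then 1 else 0)) / (2 * h - 2)
  have hsum : ∀ g : Fin (2 * h) → ℝ, ∑ b, w b * g b = (∑ b, g b - g b0 - g b1) / (2 * h - 2) := by
    intro g
    simp only [w, div_mul_eq_mul_div, ← Finset.sum_div, sub_mul, one_mul, ite_mul, zero_mul,
      Finset.sum_sub_distrib, Finset.sum_ite_eq', Finset.mem_univ, if_true]
  refine criterion (by omega) w (fun b => ?_) ?_ z (fun b p => norm_root hne hprim _)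
    (fun b m hm => prod_symm _ (fun p => ?_) (fun p hp => ?_) m (hfree m hm))
    (c := 2 / (2 * h - 2)) ?_ (fun p q hpq => ?_)
  · simp only [w]
    refine div_nonneg ?_ hcard.le
    by_cases h1 : b = b0
    · subst h1
      rw [if_pos rfl, if_neg hb]
      norm_num
    · rw [if_neg h1]
      split_ifs <;> norm_num
  · have := hsum (fun _ => 1)
    simp only [mul_one] at this
    rw [this]
    simp only [Finset.sum_const, Finset.card_univ, Fintype.card_fin, nsmul_eq_mul, mul_one]
    push_cast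
    rw [div_eq_one_iff_eq hcard.ne']
    ring
  · simp only [z]
    rw [hk, ← zpow_add₀ (hprim.ne_zero hne)]
    rw [show (b : ℤ) * k p + (b : ℤ) * -k p = 0 by ring, zpow_zero]
  · simp only [z]
    have : k p = 0 := by
      have := hk p
      rw [hp] at this
      omega
    rw [this, mul_zero, zpow_zero]
  · have hn' : (n : ℝ) = 2 * h - 1 := by
      have : ((n + 1 : ℕ) : ℝ) = ((2 * h : ℕ) : ℝ) := by rw [hN]
      push_cast at this
      linarith
    rw [hn', div_lt_div_iff₀ (by linarith) hcard]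
    linarith
  · rw [hsum]
    have hk2 : k p - k q = (q : ℤ) - p := by simp only [k]; ring
    have e1 : ∀ b : Fin (2 * h), z b p * (starRingEnd ℂ) (z b q) = ω ^ ((b : ℤ) * ((q : ℤ) - p)) := by
      intro b
      simp only [z]
      rw [conj_root hne hprim, ← zpow_add₀ (hprim.ne_zero hne), ← hk2]
      congr 1
      ring
    have hp := p.2
    have hq := q.2
    have hdvd : ¬ (((2 * h : ℕ)) : ℤ) ∣ (q : ℤ) - p := by
      intro hd
      have h1 := Int.eq_zero_of_abs_lt_dvd hd (by
        rw [abs_lt]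
        constructor <;> push_cast <;> omega)
      exact hpq (Fin.ext (by omega))
    have e2 : ∑ b : Fin (2 * h), (z b p * (starRingEnd ℂ) (z b q)).re = 0 := by
      rw [← Complex.re_sum]
      simp only [e1]
      rw [sum_zpow_eq_zero hprim hdvd, Complex.zero_re]
    have e3 : ω ^ h = -1 := by
      rw [hω, ← Complex.exp_nat_mul, ← Complex.exp_pi_mul_I]
      congr 1
      push_cast
      have : (h : ℂ) ≠ 0 := by exact_mod_cast (by omega : h ≠ 0)
      field_simp
    have e4 : (z b1 p * (starRingEnd ℂ) (z b1 q)).re = (-1) ^ (p : ℕ) * (-1) ^ (q : ℕ) := by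
      rw [e1]
      simp only [b1]
      rw [zpow_mul, zpow_natCast, e3, zpow_sub₀ (by norm_num), zpow_natCast, zpow_natCast]
      rcases Nat.even_or_odd p with h1 | h1 <;> rcases Nat.even_or_odd q with h2 | h2 <;>
        simp [h1.neg_one_pow, h2.neg_one_pow]
    have e5 : (z b0 p * (starRingEnd ℂ) (z b0 q)).re = 1 := by
      rw [e1]
      simp [b0]
    rw [e2, e4, e5, E_eq]
    field_simp
    ring

theorem prim_I : IsPrimitiveRoot Complex.I 4 := by
  refine IsPrimitiveRoot.mk_of_lt _ (by norm_num) Complex.I_pow_four fun l hl hl4 => ?_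
  interval_cases l
  · simp [Complex.ext_iff]
  · rw [Complex.I_sq]; norm_num
  · rw [Complex.I_pow_three]; simp [Complex.ext_iff]

theorem odd_case {n : ℕ} (hn : 4 ≤ n) (heven : Even n)
    (hfree : ∀ m : Fin n → ℤ, ∑ i, (m i : ℝ) * th n i = 0 → ∀ p, m p = m (Fin.rev p)) :
    HasRankOne n := by
  obtain ⟨M, hM⟩ := heven
  have hM2 : 2 ≤ M := by omega
  have hne : M ≠ 0 := by omega
  set ω : ℂ := Complex.exp (2 * π * Complex.I / (M : ℂ)) with hω
  have hprim : IsPrimitiveRoot ω M := Complex.isPrimitiveRoot_exp _ hne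
  have hω0 := hprim.ne_zero hne
  have hI : IsPrimitiveRoot Complex.I 4 := prim_I
  have hI0 := hI.ne_zero (by norm_num)
  let s : Fin n → ℤ := fun p => if (p : ℕ) % 2 = 1 then 1 else -1
  let j : Fin n → ℤ := fun p => if (p : ℕ) % 2 = 1 then ((p : ℤ) + 1) / 2 else -(((n : ℤ) - p) / 2)
  have hs : ∀ p, s (Fin.rev p) = - s p := by
    intro p
    have := p.2
    simp only [s, Fin.val_rev]
    split_ifs <;> omega
  have hj : ∀ p, j (Fin.rev p) = - j p := by
    intro p
    have := p.2
    simp only [j, Fin.val_rev]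
    split_ifs <;> omega
  let z : Fin M × Fin 2 → Fin n → ℂ := fun b p => Complex.I ^ ((b.2 : ℤ) * s p) * ω ^ ((b.1 : ℤ) * j p)
  let b0 : Fin M := ⟨0, by omega⟩
  have hcard : (0 : ℝ) < M - 1 := by
    have : (2 : ℝ) ≤ M := by exact_mod_cast hM2
    linarith
  let w : Fin M × Fin 2 → ℝ := fun b => (1 - (if b.1 = b0 then 1 else 0)) / (2 * (M - 1))
  have hsum : ∀ g : Fin M × Fin 2 → ℝ, ∑ b, w b * g b =
      (∑ a, (g (a, 0) + g (a, 1)) - (g (b0, 0) + g (b0, 1))) / (2 * (M - 1)) := by
    intro g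
    simp only [Fintype.sum_prod_type, Fin.sum_univ_two, w, div_mul_eq_mul_div, ← add_div,
      ← Finset.sum_div, sub_mul, one_mul, ite_mul, zero_mul]
    congr 1
    have : ∀ x : Fin M, (g (x, 0) - (if x = b0 then g (x, 0) else 0)) +
        (g (x, 1) - (if x = b0 then g (x, 1) else 0)) =
        (g (x, 0) + g (x, 1)) - (if x = b0 then g (x, 0) + g (x, 1) else 0) := by
      intro x
      split_ifs <;> ring
    simp only [this, Finset.sum_sub_distrib, Finset.sum_ite_eq', Finset.mem_univ, if_true]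
  refine criterion (by omega) w (fun b => ?_) ?_ z (fun b p => ?_)
    (fun b m hm => prod_symm _ (fun p => ?_) (fun p hp => ?_) m (hfree m hm))
    (c := 1 / (M - 1)) ?_ (fun p q hpq => ?_)
  · simp only [w]
    refine div_nonneg ?_ (by linarith)
    split_ifs <;> norm_num
  · have := hsum (fun _ => 1)
    simp only [mul_one] at this
    rw [this]
    simp only [Finset.sum_const, Finset.card_univ, Fintype.card_fin, nsmul_eq_mul]
    rw [div_eq_one_iff_eq (by linarith)]
    ring
  · simp only [z]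
    rw [norm_mul, norm_root (by norm_num) hI, norm_root hne hprim, one_mul]
  · simp only [z]
    rw [hj, hs, mul_mul_mul_comm, ← zpow_add₀ hI0, ← zpow_add₀ hω0]
    rw [show (b.2 : ℤ) * s p + (b.2 : ℤ) * -s p = 0 by ring,
      show (b.1 : ℤ) * j p + (b.1 : ℤ) * -j p = 0 by ring, zpow_zero, zpow_zero, one_mul]
  · exfalso
    have := p.2
    have h1 := congrArg Fin.val hp
    rw [Fin.val_rev] at h1
    omega
  · have hn' : (n : ℝ) = 2 * M := by
      rw [hM]; push_cast; ring
    rw [hn', div_lt_div_iff₀ (by linarith) hcard]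
    linarith
  · rw [hsum]
    have e1 : ∀ b : Fin M × Fin 2, z b p * (starRingEnd ℂ) (z b q) =
        Complex.I ^ ((b.2 : ℤ) * (s p - s q)) * ω ^ ((b.1 : ℤ) * (j p - j q)) := by
      intro b
      simp only [z]
      rw [map_mul, conj_root hne hprim, conj_root (by norm_num) hI, mul_mul_mul_comm,
        ← zpow_add₀ hI0, ← zpow_add₀ hω0]
      congr 2 <;> ring
    have hp := p.2
    have hq := q.2
    by_cases hpar : (p : ℕ) % 2 = (q : ℕ) % 2
    · have hs' : s p - s q = 0 := by
        simp only [s, hpar, sub_self]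
      have hE : E ((p : ℤ) - q) = 1 := by
        unfold E
        rw [if_pos]
        rw [Int.even_iff]
        omega
      have hj' : 2 * (j p - j q) = (p : ℤ) - q := by
        simp only [j]
        split_ifs <;> omega
      have hdvd : ¬ (M : ℤ) ∣ j p - j q := by
        intro hd
        have h1 := Int.eq_zero_of_abs_lt_dvd hd (by
          rw [abs_lt]
          constructor <;> omega)
        exact hpq (Fin.ext (by omega))
      have e2 : ∑ a : Fin M, ((z (a, 0) p * (starRingEnd ℂ) (z (a, 0) q)).re +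
          (z (a, 1) p * (starRingEnd ℂ) (z (a, 1) q)).re) = 0 := by
        simp only [e1, hs', mul_zero, zpow_zero, one_mul]
        rw [Finset.sum_add_distrib, ← Complex.re_sum, sum_zpow_eq_zero hprim hdvd, Complex.zero_re,
          add_zero]
      rw [e2, hE]
      simp only [e1, hs', mul_zero, zpow_zero, one_mul, b0, Nat.cast_zero, zero_mul, Complex.one_re]
      field_simp
      ring
    · have hE : E ((p : ℤ) - q) = 0 := by
        unfold E
        rw [if_neg]
        rw [Int.even_iff]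
        omega
      have hs' : s p - s q = 2 ∨ s p - s q = -2 := by
        simp only [s]
        split_ifs <;> omega
      have hIs : Complex.I ^ (s p - s q) = -1 := by
        rcases hs' with h | h <;> rw [h]
        · rw [show (2 : ℤ) = ((2 : ℕ) : ℤ) by rfl, zpow_natCast, Complex.I_sq]
        · rw [zpow_neg, show (2 : ℤ) = ((2 : ℕ) : ℤ) by rfl, zpow_natCast, Complex.I_sq]
          norm_num
      have e2 : ∀ a : Fin M, (z (a, 0) p * (starRingEnd ℂ) (z (a, 0) q)).re +
          (z (a, 1) p * (starRingEnd ℂ) (z (a, 1) q)).re = 0 := by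
        intro a
        rw [e1, e1]
        simp only [Fin.val_zero, Fin.val_one, Nat.cast_zero, Nat.cast_one, zero_mul, zpow_zero, one_mul,
          hIs]
        simp
      simp only [e2, Finset.sum_const_zero, sub_zero, zero_div, hE, mul_zero]

/-- The free case. -/
theorem free_case {n : ℕ} (hn : 3 ≤ n) (hφ : n ≤ Nat.totient (2 * (n + 1)) + 1) : HasRankOne n := by
  have hfree : ∀ m : Fin n → ℤ, ∑ i, (m i : ℝ) * th n i = 0 → ∀ p, m p = m (Fin.rev p) :=
    fun m hm p => relation_free (by omega) hφ m hm p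
  rcases Nat.even_or_odd n with h | h
  · exact odd_case (by obtain ⟨k, hk⟩ := h; omega) h hfree
  · exact even_case hn h hfree

theorem totient_prime {n : ℕ} (h : (n + 1).Prime) (hn : 2 ≤ n) :
    n ≤ Nat.totient (2 * (n + 1)) + 1 := by
  have h2 : Nat.Coprime 2 (n + 1) := by
    rw [Nat.coprime_primes Nat.prime_two h]
    omega
  rw [Nat.totient_mul h2, Nat.totient_two, one_mul, Nat.totient_prime h]
  omega

theorem totient_two_pow {n k : ℕ} (h : n + 1 = 2 ^ k) : n ≤ Nat.totient (2 * (n + 1)) + 1 := by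
  rw [h, ← pow_succ', Nat.totient_prime_pow_succ Nat.prime_two]
  omega

theorem totient_twice {n q : ℕ} (hq : q.Prime) (h : n + 1 = 2 * q) :
    n ≤ Nat.totient (2 * (n + 1)) + 1 := by
  rcases hq.eq_two_or_odd' with h2 | h2
  · subst h2
    exact totient_two_pow (k := 2) (by omega)
  · rw [h, ← mul_assoc, show 2 * 2 = 2 ^ 2 by norm_num, Nat.totient_mul
      (Nat.Coprime.pow_left 2 (Nat.coprime_two_left.2 h2)), Nat.totient_prime hq,
      Nat.totient_prime_pow_succ Nat.prime_two]
    have := hq.two_le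
    omega

end Pool.Agent.K7.H19.PM
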