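import Pool.Agent.K7.H19.PM.FourP2
import Pool.Agent.K7.H19.PM.Crit
import Pool.Agent.K7.H19.PM.Free

/-!
# Rank one when `n + 1` is four times a prime
-/

set_option autoImplicit false

open Finset Real Pool.Agent.R667.MM

noncomputable section

namespace Pool.Agent.K7.H19.PM

section

variable {p : ℕ} [Fact p.Prime]

/-- the random data of the even indices -/
abbrev K2 (p : ℕ) := Fin 2 × (ZMod p → Bool) × ZMod p × ZMod p

theorem sum_K2 (f : Fin 2 → (ZMod p → Bool) → ZMod p → ZMod p → ℝ) :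
    ∑ k : K2 p, f k.1 k.2.1 k.2.2.1 k.2.2.2 =
      ∑ ρ : Fin 2, ∑ η : ZMod p → Bool, ∑ α : ZMod p, ∑ β : ZMod p, f ρ η α β := by
  simp only [Fintype.sum_prod_type]

omit [Fact p.Prime] in
theorem cast_q (hp5 : 5 ≤ p) : ((2 * p - 1 : ℕ) : ℝ) = 2 * p - 1 := by
  rw [Nat.cast_sub (by omega)]
  push_cast
  ring

omit [Fact p.Prime] in
theorem cc_bound (hp5 : 5 ≤ p) : 0 < cc p ∧ cc p ≤ (1 + cc p) / (2 * p - 1) := by
  have hp : (5 : ℝ) ≤ p := by exact_mod_cast hp5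
  have h0 : (0 : ℝ) < p := by linarith
  have h1 : (0 : ℝ) < 2 * p - 1 := by linarith
  have hc : 0 < cc p := by
    unfold cc
    exact div_pos (by linarith) (by positivity)
  refine ⟨hc, ?_⟩
  have h2 : cc p * (p * (2 * p - 1)) = p - 2 := by
    unfold cc
    exact div_mul_cancel₀ _ (by positivity)
  rw [le_div_iff₀ h1]
  have h3 : p * (cc p * (2 * p - 1)) ≤ p * (1 + cc p) := by nlinarith
  exact le_of_mul_le_mul_left h3 h0

omit [Fact p.Prime] in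
theorem w1_nonneg (hp5 : 5 ≤ p) (b : Fin (2 * p - 1)) : 0 ≤ w1 p b := by
  obtain ⟨h1, h2⟩ := cc_bound hp5
  have : 0 < (1 + cc p) / (2 * p - 1) := lt_of_lt_of_le h1 h2
  unfold w1
  split_ifs <;> linarith

omit [Fact p.Prime] in
theorem w1_sum (hp5 : 5 ≤ p) : ∑ b : Fin (2 * p - 1), w1 p b = 1 := by
  have hp : (5 : ℝ) ≤ p := by exact_mod_cast hp5
  have h1 : (2 : ℝ) * p - 1 ≠ 0 := by linarith
  unfold w1
  rw [Finset.sum_sub_distrib, Finset.sum_const, Finset.card_univ, Fintype.card_fin, nsmul_eq_mul,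
    cast_q hp5, mul_div_cancel₀ _ h1, Finset.sum_eq_single (⟨0, by omega⟩ : Fin (2 * p - 1))]
  · simp
  · intro b _ hb
    rw [if_neg]
    intro h
    exact hb (Fin.ext h)
  · intro h
    exact absurd (Finset.mem_univ _) h

omit [Fact p.Prime] in
theorem w1_avg (hp5 : 5 ≤ p) {ω : ℂ} (hω : IsPrimitiveRoot ω (2 * p - 1)) {k : ℤ}
    (hk : ¬ ((2 * p - 1 : ℕ) : ℤ) ∣ k) :
    ∑ b : Fin (2 * p - 1), (w1 p b : ℂ) * ω ^ ((b : ℤ) * k) = - (cc p : ℂ) := by
  have h1 : ∀ b : Fin (2 * p - 1), (w1 p b : ℂ) * ω ^ ((b : ℤ) * k) =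
      (((1 + cc p) / (2 * p - 1) : ℝ) : ℂ) * ω ^ ((b : ℤ) * k) -
        (if (b : ℕ) = 0 then (cc p : ℂ) else 0) := by
    intro b
    unfold w1
    split_ifs with h
    · rw [h]
      push_cast
      simp
    · push_cast
      ring
  rw [Finset.sum_congr rfl fun b _ => h1 b, Finset.sum_sub_distrib, ← Finset.mul_sum,
    sum_zpow_eq_zero hω hk, mul_zero, zero_sub, Finset.sum_eq_single (⟨0, by omega⟩ : Fin (2 * p - 1))]
  · simp
  · intro b _ hb
    rw [if_neg]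
    intro h
    exact hb (Fin.ext h)
  · intro h
    exact absurd (Finset.mem_univ _) h

omit [Fact p.Prime] in
theorem w1_im (hp5 : 5 ≤ p) {ω : ℂ} (hω : IsPrimitiveRoot ω (2 * p - 1)) (k : ℤ) :
    ∑ b : Fin (2 * p - 1), w1 p b * (ω ^ ((b : ℤ) * k)).im = 0 := by
  have h1 : (∑ b : Fin (2 * p - 1), (w1 p b : ℂ) * ω ^ ((b : ℤ) * k)).im =
      ∑ b : Fin (2 * p - 1), w1 p b * (ω ^ ((b : ℤ) * k)).im := by
    rw [Complex.im_sum]
    refine Finset.sum_congr rfl fun b _ => ?_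
    rw [Complex.im_ofReal_mul]
  rw [← h1]
  by_cases hk : ((2 * p - 1 : ℕ) : ℤ) ∣ k
  · have h2 : ∀ b : Fin (2 * p - 1), (w1 p b : ℂ) * ω ^ ((b : ℤ) * k) = ((w1 p b : ℝ) : ℂ) := by
      intro b
      rw [(hω.zpow_eq_one_iff_dvd _).2 (Dvd.dvd.mul_left hk _), mul_one]
    rw [Finset.sum_congr rfl fun b _ => h2 b, ← Complex.ofReal_sum, Complex.ofReal_im]
  · rw [w1_avg hp5 hω hk, ← Complex.ofReal_neg, Complex.ofReal_im]

omit [Fact p.Prime] in
theorem w1_re (hp5 : 5 ≤ p) {ω : ℂ} (hω : IsPrimitiveRoot ω (2 * p - 1)) {k : ℤ}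
    (hk : ¬ ((2 * p - 1 : ℕ) : ℤ) ∣ k) :
    ∑ b : Fin (2 * p - 1), w1 p b * (ω ^ ((b : ℤ) * k)).re = - cc p := by
  have h1 : (∑ b : Fin (2 * p - 1), (w1 p b : ℂ) * ω ^ ((b : ℤ) * k)).re =
      ∑ b : Fin (2 * p - 1), w1 p b * (ω ^ ((b : ℤ) * k)).re := by
    rw [Complex.re_sum]
    refine Finset.sum_congr rfl fun b _ => ?_
    rw [Complex.re_ofReal_mul]
  rw [← h1, w1_avg hp5 hω hk, ← Complex.ofReal_neg, Complex.ofReal_re]

omit [Fact p.Prime] in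
theorem aw_bound (hp5 : 5 ≤ p) : 0 ≤ aw p ∧ aw p ≤ 1 := by
  have hp : (5 : ℝ) ≤ p := by exact_mod_cast hp5
  have h1 : (0 : ℝ) < 2 * p - 1 := by linarith
  have h3 : (0 : ℝ) < p - 3 := by linarith
  unfold aw
  constructor
  · refine div_nonneg (mul_nonneg (by linarith) (by linarith)) (by positivity)
  · rw [div_le_one (by positivity)]
    nlinarith

theorem w2_nonneg (hp5 : 5 ≤ p) (ρ : Fin 2) (α : ZMod p) : 0 ≤ w2 ρ α := by
  have hp : (5 : ℝ) ≤ p := by exact_mod_cast hp5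
  obtain ⟨h1, h2⟩ := aw_bound hp5
  have h3 : 0 ≤ wR p ρ := by
    unfold wR
    split_ifs <;> linarith
  unfold w2
  refine mul_nonneg h3 (mul_nonneg (by positivity) ?_)
  split_ifs
  · exact le_rfl
  · exact div_nonneg zero_le_one (mul_nonneg (by linarith) (by linarith))

theorem W2_sum (hp5 : 5 ≤ p) : ∑ k : K2 p, w2 k.1 k.2.2.1 = 1 := by
  rw [← w2_sum hp5, ← sum_K2 (fun ρ _ α _ => w2 ρ α)]

theorem mixed {n : ℕ} (hp5 : 5 ≤ p) (hp2 : Odd p) {ω : ℂ}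
    (hω : IsPrimitiveRoot ω (2 * p - 1)) {r s : Fin n} (hr : (r : ℕ) % 2 = 1) (hs : (s : ℕ) % 2 = 0) :
    ∑ b : Fin (2 * p - 1), ∑ k : K2 p, w1 p b * w2 k.1 k.2.2.1 *
      (zz n ω (Rf p k.1) b k.2.1 k.2.2.1 k.2.2.2 r *
        (starRingEnd ℂ) (zz n ω (Rf p k.1) b k.2.1 k.2.2.1 k.2.2.2 s)).re = 0 := by
  have e1 : ∀ (b : Fin (2 * p - 1)) (k : K2 p), w1 p b * w2 k.1 k.2.2.1 *
      (zz n ω (Rf p k.1) b k.2.1 k.2.2.1 k.2.2.2 r *
        (starRingEnd ℂ) (zz n ω (Rf p k.1) b k.2.1 k.2.2.1 k.2.2.2 s)).re =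
      (w1 p b * (ω ^ ((b : ℤ) * Wl p r)).re) *
        (w2 k.1 k.2.2.1 * (zz n ω (Rf p k.1) 0 k.2.1 k.2.2.1 k.2.2.2 s).re) +
      (w1 p b * (ω ^ ((b : ℤ) * Wl p r)).im) *
        (w2 k.1 k.2.2.1 * (zz n ω (Rf p k.1) 0 k.2.1 k.2.2.1 k.2.2.2 s).im) := by
    intro b k
    have e2 : zz n ω (Rf p k.1) b k.2.1 k.2.2.1 k.2.2.2 s =
        zz n ω (Rf p k.1) 0 k.2.1 k.2.2.1 k.2.2.2 s := by
      unfold zz
      rw [if_neg (by omega), if_neg (by omega)]
    have e3 : zz n ω (Rf p k.1) b k.2.1 k.2.2.1 k.2.2.2 r = ω ^ ((b : ℤ) * Wl p r) := by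
      unfold zz
      rw [if_pos hr]
    rw [e2, e3, Complex.mul_re, Complex.conj_re, Complex.conj_im]
    ring
  rw [Finset.sum_congr rfl fun b _ => Finset.sum_congr rfl fun k _ => e1 b k]
  simp only [Finset.sum_add_distrib, ← Finset.mul_sum, ← Finset.sum_mul]
  rw [w1_im hp5 hω, zero_mul, add_zero]
  have h2 := even_single hp5 hp2 hs ω 0
  rw [← sum_K2 (fun ρ η α β => w2 ρ α * (zz n ω (Rf p ρ) 0 η α β s).re)] at h2
  rw [h2, mul_zero]

theorem fourp_avg {n : ℕ} (hp5 : 5 ≤ p) (hp2 : Odd p) (hN : n + 1 = 4 * p) {ω : ℂ}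
    (hω : IsPrimitiveRoot ω (2 * p - 1)) {r s : Fin n} (hrs : r ≠ s) :
    ∑ b : Fin (2 * p - 1), ∑ k : K2 p, w1 p b * w2 k.1 k.2.2.1 *
      (zz n ω (Rf p k.1) b k.2.1 k.2.2.1 k.2.2.2 r *
        (starRingEnd ℂ) (zz n ω (Rf p k.1) b k.2.1 k.2.2.1 k.2.2.2 s)).re =
      - cc p * E ((r : ℤ) - s) := by
  have hq0 : 2 * p - 1 ≠ 0 := by omega
  have hvne : (r : ℕ) ≠ s := fun h => hrs (Fin.ext h)
  have hrl := r.2
  have hsl := s.2
  rcases Nat.mod_two_eq_zero_or_one (r : ℕ) with hr | hr <;>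
    rcases Nat.mod_two_eq_zero_or_one (s : ℕ) with hs | hs
  · -- both even
    have hE : E ((r : ℤ) - s) = 1 := by
      unfold E
      rw [if_pos]
      rw [Int.even_iff]
      omega
    have h1 : ∀ b : Fin (2 * p - 1), ∑ k : K2 p, w1 p b * w2 k.1 k.2.2.1 *
      (zz n ω (Rf p k.1) b k.2.1 k.2.2.1 k.2.2.2 r *
        (starRingEnd ℂ) (zz n ω (Rf p k.1) b k.2.1 k.2.2.1 k.2.2.2 s)).re = w1 p b * (- cc p) := by
      intro b
      have h2 := even_even hp5 hp2 hN hr hs hrs ω b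
      rw [← sum_K2 (fun ρ η α β => w2 ρ α * (zz n ω (Rf p ρ) b η α β r *
        (starRingEnd ℂ) (zz n ω (Rf p ρ) b η α β s)).re)] at h2
      rw [← h2, Finset.mul_sum]
      exact Finset.sum_congr rfl fun k _ => by ring
    rw [Finset.sum_congr rfl fun b _ => h1 b, ← Finset.sum_mul, w1_sum hp5, hE]
    ring
  · have hE : E ((r : ℤ) - s) = 0 := by
      unfold E
      rw [if_neg]
      rw [Int.even_iff]
      omega
    rw [hE, mul_zero, ← mixed hp5 hp2 hω hs hr]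
    refine Finset.sum_congr rfl fun b _ => Finset.sum_congr rfl fun k _ => ?_
    rw [Complex.mul_re, Complex.mul_re, Complex.conj_re, Complex.conj_im, Complex.conj_re,
      Complex.conj_im]
    ring
  · have hE : E ((r : ℤ) - s) = 0 := by
      unfold E
      rw [if_neg]
      rw [Int.even_iff]
      omega
    rw [hE, mul_zero, mixed hp5 hp2 hω hr hs]
  · have hE : E ((r : ℤ) - s) = 1 := by
      unfold E
      rw [if_pos]
      rw [Int.even_iff]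
      omega
    have hk : ¬ ((2 * p - 1 : ℕ) : ℤ) ∣ (Wl p r - Wl p s) := by
      intro h
      have h1 : Wl p r - Wl p s ≠ 0 := by
        unfold Wl
        omega
      have h2 := Int.le_of_dvd (abs_pos.2 h1) ((dvd_abs _ _).2 h)
      have h3 : |Wl p r - Wl p s| < ((2 * p - 1 : ℕ) : ℤ) := by
        rw [abs_lt]
        unfold Wl
        constructor <;> omega
      omega
    have h1 : ∀ (b : Fin (2 * p - 1)) (k : K2 p), w1 p b * w2 k.1 k.2.2.1 *
      (zz n ω (Rf p k.1) b k.2.1 k.2.2.1 k.2.2.2 r *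
        (starRingEnd ℂ) (zz n ω (Rf p k.1) b k.2.1 k.2.2.1 k.2.2.2 s)).re =
      (w1 p b * (ω ^ ((b : ℤ) * (Wl p r - Wl p s))).re) * w2 k.1 k.2.2.1 := by
      intro b k
      have e3 : zz n ω (Rf p k.1) b k.2.1 k.2.2.1 k.2.2.2 r = ω ^ ((b : ℤ) * Wl p r) := by
        unfold zz
        rw [if_pos hr]
      have e4 : zz n ω (Rf p k.1) b k.2.1 k.2.2.1 k.2.2.2 s = ω ^ ((b : ℤ) * Wl p s) := by
        unfold zz
        rw [if_pos hs]
      rw [e3, e4, conj_root hq0 hω, ← zpow_add₀ (hω.ne_zero hq0),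
        show (b : ℤ) * Wl p r + -((b : ℤ) * Wl p s) = (b : ℤ) * (Wl p r - Wl p s) by ring]
      ring
    rw [Finset.sum_congr rfl fun b _ => Finset.sum_congr rfl fun k _ => h1 b k]
    simp only [← Finset.mul_sum]
    rw [W2_sum hp5, hE, mul_one]
    simp only [mul_one]
    exact w1_re hp5 hω hk

theorem fourp_fact {n : ℕ} (hp5 : 5 ≤ p) (hN : n + 1 = 4 * p) : HasRankOne n := by
  have hp : p.Prime := Fact.out
  have hp2 : Odd p := hp.odd_of_ne_two (by omega)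
  have hq0 : 2 * p - 1 ≠ 0 := by omega
  have hp5' : (5 : ℝ) ≤ p := by exact_mod_cast hp5
  set ω : ℂ := Complex.exp (2 * π * Complex.I / ((2 * p - 1 : ℕ) : ℂ)) with hωd
  have hω : IsPrimitiveRoot ω (2 * p - 1) := Complex.isPrimitiveRoot_exp _ hq0
  have hω0 : ω ≠ 0 := hω.ne_zero hq0
  have hn : 0 < n := by omega
  have hnc : (n : ℝ) = 4 * p - 1 := by
    have : ((n + 1 : ℕ) : ℝ) = ((4 * p : ℕ) : ℝ) := by rw [hN]
    push_cast at this
    linarith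
  refine criterion (c := cc p) hn (κ := Fin (2 * p - 1) × K2 p)
    (fun k => w1 p k.1 * w2 k.2.1 k.2.2.2.1)
    (fun k => mul_nonneg (w1_nonneg hp5 k.1) (w2_nonneg hp5 _ _)) ?_
    (fun k r => zz n ω (Rf p k.2.1) k.1 k.2.2.1 k.2.2.2.1 k.2.2.2.2 r) ?_ ?_ ?_ ?_
  · rw [Fintype.sum_prod_type]
    simp only [← Finset.mul_sum]
    rw [W2_sum hp5]
    simp only [mul_one]
    exact w1_sum hp5
  · intro k r
    unfold zz
    split_ifs with h
    · exact norm_root hq0 hω _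
    · have h1 := Zf_normSq (Rf p k.2.1) k.2.2.1 (nz k.2.2.2.1 * bi p n r + k.2.2.2.2)
      unfold Zf at h1
      rw [Complex.normSq_mk] at h1
      have h2 := cs_sq n r
      rw [Complex.norm_def, Complex.normSq_mk, Real.sqrt_eq_one]
      linear_combination h1 +
        (Yf (Rf p k.2.1) k.2.2.1 (nz k.2.2.2.1 * bi p n r + k.2.2.2.2)) ^ 2 * h2
  · intro k m hm
    refine rel_4p hp hp2 hN _ (fun r => zz_mul_rev hN hω0 _ _ _ _ _ r) ?_
      (zz_block hN hp2 (le_of_lt (Rf_lt hp5 _)) (Rf_odd hp5 hp2 _) ω _ _ _ _) m hm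
    intro r hr
    have hv := congrArg Fin.val hr
    rw [Fin.val_rev] at hv
    have hrl := r.2
    have hodd : (r : ℕ) % 2 = 1 := by omega
    have hW : Wl p r = 0 := by
      unfold Wl
      omega
    unfold zz
    rw [if_pos hodd, hW, mul_zero, zpow_zero]
  · rw [hnc]
    unfold cc
    rw [div_lt_div_iff₀ (by linarith) (mul_pos (by linarith) (by linarith))]
    nlinarith
  · intro r s hrs
    rw [Fintype.sum_prod_type]
    exact fourp_avg hp5 hp2 hN hω hrs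

end

/-- Four times a prime. -/
theorem fourp_case {n p : ℕ} (hp : p.Prime) (hp5 : 5 ≤ p) (hN : n + 1 = 4 * p) : HasRankOne n := by
  have : Fact p.Prime := ⟨hp⟩
  exact fourp_fact hp5 hN

end Pool.Agent.K7.H19.PM
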