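import Pool.Agent.K7.H19.PM.Avg

/-!
# Moments of a sum of independent unit numbers
-/

set_option autoImplicit false

open Finset

noncomputable section

namespace Pool.Agent.K7.H19.PM2

section

variable {q : ℕ} [Fact q.Prime]

theorem pt_idv {J : Type} [Fintype J] [DecidableEq J] (y : J → ZMod q) (j : J) :
    pt (idv (q := q)) y j = ch (y j) := by
  unfold pt idv
  congr 1
  simp

theorem ch_pow (x : ZMod q) (k : ℕ) : ch x ^ k = ch ((k : ZMod q) * x) := by
  induction k with
  | zero => simp [ch_zero]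
  | succ k ih =>
    rw [pow_succ, ih, ← ch_add]
    congr 1
    push_cast
    ring

/-- average of a monomial in one variable -/
theorem one_av {i j : ℕ} (hi : i < q) (hj : j < q) :
    (∑ x : ZMod q, ch x ^ i * (starRingEnd ℂ) (ch x) ^ j) / q = if i = j then 1 else 0 := by
  have hq : (q : ℂ) ≠ 0 := by exact_mod_cast (Fact.out : q.Prime).ne_zero
  have h1 : ∀ x : ZMod q, ch x ^ i * (starRingEnd ℂ) (ch x) ^ j = ch (x * ((i : ZMod q) - (j : ZMod q))) := by
    intro x
    rw [← map_pow, ch_pow, ch_pow, ← ch_neg, ← ch_add]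
    congr 1
    ring
  rw [sum_congr rfl fun x _ => h1 x]
  split_ifs with h
  · subst h
    simp only [sub_self, mul_zero, ch_zero, sum_const, card_univ, ZMod.card, nsmul_eq_mul, mul_one]
    exact div_self hq
  · have hne : ((i : ZMod q) - (j : ZMod q)) ≠ 0 := by
      intro h'
      apply h
      have h2 : (i : ZMod q) = j := sub_eq_zero.1 h'
      have h3 := congrArg ZMod.val h2
      rwa [ZMod.val_natCast, ZMod.val_natCast, Nat.mod_eq_of_lt hi, Nat.mod_eq_of_lt hj] at h3
    rw [div_eq_zero_iff]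
    left
    have h4 : ∑ x : ZMod q, ch (x * ((i : ZMod q) - (j : ZMod q))) =
        ch ((i : ZMod q) - (j : ZMod q)) * ∑ x : ZMod q, ch (x * ((i : ZMod q) - (j : ZMod q))) := by
      rw [mul_sum, ← Equiv.sum_comp (Equiv.addRight (1 : ZMod q))]
      refine sum_congr rfl fun x _ => ?_
      rw [← ch_add]
      congr 1
      simp only [Equiv.coe_addRight]
      ring
    have h5 : (1 - ch ((i : ZMod q) - (j : ZMod q))) * ∑ x : ZMod q, ch (x * ((i : ZMod q) - (j : ZMod q))) = 0 := by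
      rw [sub_mul, one_mul, ← h4, sub_self]
    rcases mul_eq_zero.1 h5 with h6 | h6
    · exact absurd (sub_eq_zero.1 h6).symm (ch_ne_one hne)
    · exact h6

/-- moments -/
def FM (q : ℕ) [Fact q.Prime] (k M : ℕ) : ℂ :=
  av (q := q) (Fin M) (fun y => (∑ j, ch (y j)) ^ k * (starRingEnd ℂ) (∑ j, ch (y j)) ^ k)

theorem av_succ (M : ℕ) (f : (Fin (M + 1) → ZMod q) → ℂ) :
    av (Fin (M + 1)) f = av (Fin M) (fun y => (∑ x : ZMod q, f (Fin.cons x y)) / q) := by
  have hq : (q : ℂ) ≠ 0 := by exact_mod_cast (Fact.out : q.Prime).ne_zero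
  unfold av
  rw [← Equiv.sum_comp (Fin.consEquiv (fun _ : Fin (M + 1) => ZMod q)), Fintype.sum_prod_type_right]
  rw [← sum_div, div_div]
  congr 1
  simp only [Fintype.card_pi, ZMod.card, prod_const, card_univ, Fintype.card_fin]
  push_cast
  ring

theorem FM_succ {k : ℕ} (hk : k < q) (M : ℕ) :
    FM q k (M + 1) = ∑ i ∈ range (k + 1), (k.choose i : ℂ) ^ 2 * FM q (k - i) M := by
  unfold FM
  rw [av_succ]
  simp only [← av_mul]
  rw [← av_sum]
  refine av_congr fun y => ?_
  set W := ∑ j, ch (y j) with hW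
  have h1 : ∀ x : ZMod q, (∑ j : Fin (M + 1), ch ((Fin.cons x y : Fin (M + 1) → ZMod q) j)) = ch x + W := by
    intro x
    rw [Fin.sum_univ_succ]
    simp [hW]
  have h2 : ∀ x : ZMod q, (∑ j : Fin (M + 1), ch ((Fin.cons x y : Fin (M + 1) → ZMod q) j)) ^ k *
      (starRingEnd ℂ) (∑ j : Fin (M + 1), ch ((Fin.cons x y : Fin (M + 1) → ZMod q) j)) ^ k =
      ∑ i ∈ range (k + 1), ∑ j ∈ range (k + 1), (W ^ (k - i) * (k.choose i : ℂ) *
        ((starRingEnd ℂ) W ^ (k - j) * (k.choose j : ℂ))) *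
        (ch x ^ i * (starRingEnd ℂ) (ch x) ^ j) := by
    intro x
    rw [h1, map_add, add_pow, add_pow, sum_mul_sum]
    refine sum_congr rfl fun i _ => sum_congr rfl fun j _ => ?_
    ring
  rw [sum_congr rfl fun x _ => h2 x, sum_comm, sum_div]
  refine sum_congr rfl fun i hi => ?_
  rw [sum_comm, sum_div]
  have h3 : ∀ j ∈ range (k + 1), (∑ x : ZMod q, (W ^ (k - i) * (k.choose i : ℂ) *
        ((starRingEnd ℂ) W ^ (k - j) * (k.choose j : ℂ))) *
        (ch x ^ i * (starRingEnd ℂ) (ch x) ^ j)) / q =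
      if i = j then (W ^ (k - i) * (k.choose i : ℂ) *
        ((starRingEnd ℂ) W ^ (k - j) * (k.choose j : ℂ))) else 0 := by
    intro j hj
    have hi' := mem_range.1 hi
    have hj' := mem_range.1 hj
    rw [← mul_sum, mul_div_assoc, one_av (by omega) (by omega)]
    split_ifs <;> ring
  rw [sum_congr rfl h3, sum_ite_eq, if_pos hi]
  ring

theorem FM_zero (k : ℕ) : FM q k 0 = if k = 0 then 1 else 0 := by
  unfold FM av
  rcases k with _ | k <;> simp

theorem FM0 (hq : 5 < q) (M : ℕ) : FM q 0 M = 1 := by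
  induction M with
  | zero => rw [FM_zero]; simp
  | succ M ih =>
    rw [FM_succ (by omega)]
    simp [sum_range_succ, ih]

theorem FM1 (hq : 5 < q) (M : ℕ) : FM q 1 M = M := by
  induction M with
  | zero => rw [FM_zero]; simp
  | succ M ih =>
    rw [FM_succ (by omega)]
    simp [sum_range_succ, ih, FM0 hq]

theorem FM2 (hq : 5 < q) (M : ℕ) : FM q 2 M = 2 * M ^ 2 - M := by
  induction M with
  | zero => rw [FM_zero]; simp
  | succ M ih =>
    rw [FM_succ (by omega)]
    simp [sum_range_succ, ih, FM0 hq, FM1 hq]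
    ring

theorem FM3 (hq : 5 < q) (M : ℕ) : FM q 3 M = 6 * M ^ 3 - 9 * M ^ 2 + 4 * M := by
  induction M with
  | zero => rw [FM_zero]; simp
  | succ M ih =>
    rw [FM_succ (by omega)]
    simp [sum_range_succ, ih, FM0 hq, FM1 hq, FM2 hq, Nat.choose]
    ring

theorem FM4 (hq : 5 < q) (M : ℕ) : FM q 4 M = 24 * M ^ 4 - 72 * M ^ 3 + 82 * M ^ 2 - 33 * M := by
  induction M with
  | zero => rw [FM_zero]; simp
  | succ M ih =>
    rw [FM_succ (by omega)]
    simp [sum_range_succ, ih, FM0 hq, FM1 hq, FM2 hq, FM3 hq, Nat.choose]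
    ring

theorem FM5 (hq : 5 < q) (M : ℕ) :
    FM q 5 M = 120 * M ^ 5 - 600 * M ^ 4 + 1250 * M ^ 3 - 1225 * M ^ 2 + 456 * M := by
  induction M with
  | zero => rw [FM_zero]; simp
  | succ M ih =>
    rw [FM_succ (by omega)]
    simp [sum_range_succ, ih, FM0 hq, FM1 hq, FM2 hq, FM3 hq, FM4 hq, Nat.choose]
    ring

end

end Pool.Agent.K7.H19.PM2
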