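import Pool.Agent.K7.H19.PM.Crit

/-!
# Relations between the eigenvalues of a path
-/

set_option autoImplicit false

open Finset Real Pool.Agent.R667.MM

noncomputable section

namespace Pool.Agent.K7.H19.PM

/-- the primitive root of unity `exp (π i / (n + 1))` -/
def zt (n : ℕ) : ℂ := Complex.exp (2 * π * Complex.I / ((2 * (n + 1) : ℕ) : ℂ))

theorem zt_prim (n : ℕ) : IsPrimitiveRoot (zt n) (2 * (n + 1)) :=
  Complex.isPrimitiveRoot_exp _ (by omega)

theorem zt_half (n : ℕ) : zt n ^ (n + 1) = -1 := by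
  unfold zt
  rw [← Complex.exp_nat_mul, ← Complex.exp_pi_mul_I]
  congr 1
  push_cast
  have : (n : ℂ) + 1 ≠ 0 := by exact_mod_cast Nat.succ_ne_zero n
  field_simp

theorem th_eq (n : ℕ) (p : Fin n) :
    ((th n p : ℝ) : ℂ) = zt n ^ ((p : ℕ) + 1) - zt n ^ (((Fin.rev p : Fin n) : ℕ) + 1) := by
  have hp := p.2
  have h0 : zt n ≠ 0 := (zt_prim n).ne_zero (by omega)
  have h1 : zt n ^ (((Fin.rev p : Fin n) : ℕ) + 1) * zt n ^ ((p : ℕ) + 1) = -1 := by
    rw [← pow_add, Fin.val_rev, ← zt_half n]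
    congr 1
    omega
  have h2 : zt n ^ (((Fin.rev p : Fin n) : ℕ) + 1) = -(zt n ^ ((p : ℕ) + 1))⁻¹ := by
    have h3 : zt n ^ ((p : ℕ) + 1) ≠ 0 := pow_ne_zero _ h0
    field_simp
    exact h1
  rw [h2, sub_neg_eq_add]
  have hn : (n : ℂ) + 1 ≠ 0 := by exact_mod_cast Nat.succ_ne_zero n
  have e : zt n ^ ((p : ℕ) + 1) = Complex.exp (((π * ((p : ℝ) + 1) / (n + 1) : ℝ) : ℂ) * Complex.I) := by
    unfold zt
    rw [← Complex.exp_nat_mul]
    congr 1
    push_cast
    field_simp
  rw [e, ← Complex.exp_neg]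
  unfold th
  push_cast
  rw [Complex.two_cos]
  congr 2
  ring

theorem relation_poly {n : ℕ} (m : Fin n → ℤ) (hm : ∑ i, (m i : ℝ) * th n i = 0) :
    Polynomial.cyclotomic (2 * (n + 1)) ℤ ∣
      ∑ p : Fin n, Polynomial.C (m p - m (Fin.rev p)) * Polynomial.X ^ (p : ℕ) := by
  have h0 : zt n ≠ 0 := (zt_prim n).ne_zero (by omega)
  have h1 : ∑ p : Fin n, (m p : ℂ) * (zt n ^ ((p : ℕ) + 1) - zt n ^ (((Fin.rev p : Fin n) : ℕ) + 1)) = 0 := by
    have := congrArg (fun x : ℝ => (x : ℂ)) hm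
    push_cast at this
    simp only [th_eq] at this
    exact this
  have h2 : ∑ p : Fin n, (m p : ℂ) * zt n ^ (((Fin.rev p : Fin n) : ℕ) + 1) =
      ∑ p : Fin n, (m (Fin.rev p) : ℂ) * zt n ^ ((p : ℕ) + 1) := by
    rw [← Equiv.sum_comp Fin.revPerm]
    refine Finset.sum_congr rfl fun p _ => ?_
    simp
  have h3 : zt n * ∑ p : Fin n, ((m p - m (Fin.rev p) : ℤ) : ℂ) * zt n ^ (p : ℕ) = 0 := by
    rw [← h1]
    simp only [mul_sub, Finset.sum_sub_distrib]
    rw [h2, ← Finset.sum_sub_distrib, Finset.mul_sum]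
    refine Finset.sum_congr rfl fun p _ => ?_
    push_cast
    ring
  have h4 := (mul_eq_zero.1 h3).resolve_left h0
  rw [Polynomial.cyclotomic_eq_minpoly (zt_prim n) (by omega)]
  refine minpoly.isIntegrallyClosed_dvd ((zt_prim n).isIntegral (by omega)) ?_
  simpa [map_sum] using h4

/-- In the free case all relations come from the symmetry. -/
theorem relation_free {n : ℕ} (hn : 2 ≤ n) (hφ : n ≤ Nat.totient (2 * (n + 1)) + 1) (m : Fin n → ℤ)
    (hm : ∑ i, (m i : ℝ) * th n i = 0) (p : Fin n) : m p = m (Fin.rev p) := by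
  set F : Polynomial ℤ := ∑ p : Fin n, Polynomial.C (m p - m (Fin.rev p)) * Polynomial.X ^ (p : ℕ)
    with hF
  have hco : ∀ q : Fin n, F.coeff q = m q - m (Fin.rev q) := by
    intro q
    rw [hF, Polynomial.finsetSum_coeff]
    simp only [Polynomial.coeff_C_mul_X_pow]
    rw [Finset.sum_eq_single q]
    · simp
    · intro b _ hb
      rw [if_neg]
      intro h
      exact hb (Fin.ext h.symm)
    · simp
  have hdeg : F.degree < n := Polynomial.degree_sum_fin_lt _
  have hdvd := relation_poly m hm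
  rw [← hF] at hdvd
  have hF0 : F = 0 := by
    by_contra hne
    obtain ⟨G, hG⟩ := hdvd
    have hG0 : G ≠ 0 := by
      rintro rfl
      exact hne (by rw [hG, mul_zero])
    have hc0 : Polynomial.cyclotomic (2 * (n + 1)) ℤ ≠ 0 := Polynomial.cyclotomic_ne_zero _ _
    have hd : F.natDegree = Nat.totient (2 * (n + 1)) + G.natDegree := by
      rw [hG, Polynomial.natDegree_mul hc0 hG0, Polynomial.natDegree_cyclotomic]
    have hlt : F.natDegree < n := by
      rwa [Polynomial.natDegree_lt_iff_degree_lt hne]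
    have hGd : G.natDegree = 0 := by omega
    have hT : Nat.totient (2 * (n + 1)) = n - 1 := by omega
    obtain ⟨g, hg⟩ : ∃ g, G = Polynomial.C g := ⟨_, Polynomial.eq_C_of_natDegree_eq_zero hGd⟩
    have hc1 : F.coeff 0 = g := by
      rw [hG, hg, Polynomial.coeff_mul_C, Polynomial.cyclotomic_coeff_zero _ (by omega), one_mul]
    have hc2 : F.coeff (n - 1) = g := by
      rw [hG, hg, Polynomial.coeff_mul_C]
      have h5 : (Polynomial.cyclotomic (2 * (n + 1)) ℤ).coeff (n - 1) = 1 := by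
        have := Polynomial.cyclotomic.monic (2 * (n + 1)) ℤ
        rw [Polynomial.Monic, Polynomial.leadingCoeff, Polynomial.natDegree_cyclotomic, hT] at this
        exact this
      rw [h5, one_mul]
    have h6 := hco ⟨0, by omega⟩
    have h7 := hco ⟨n - 1, by omega⟩
    have e1 : Fin.rev (⟨0, by omega⟩ : Fin n) = ⟨n - 1, by omega⟩ := by
      ext; simp [Fin.val_rev]
    have e2 : Fin.rev (⟨n - 1, by omega⟩ : Fin n) = ⟨0, by omega⟩ := by
      ext; simp only [Fin.val_rev]; omega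
    rw [e1] at h6
    rw [e2] at h7
    simp only at h6 h7
    have hg0 : g = 0 := by
      rw [hc1] at h6
      rw [hc2] at h7
      omega
    exact hG0 (by rw [hg, hg0, Polynomial.C_0])
  have h8 := hco p
  rw [hF0, Polynomial.coeff_zero] at h8
  omega

end Pool.Agent.K7.H19.PM
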