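import Pool.Agent.K7.H19.PM.Short

/-!
# Symmetric relations between roots of unity of odd order are longer
-/

set_option autoImplicit false

open Finset

namespace Pool.Agent.K7.H19.PM2

section

variable {F : Type*} [Field F]

theorem slice_facts {N p N' : ℕ} (hp : p.Prime) (hN' : N = p * N') (hN : 0 < N) {g : F}
    (hg : IsPrimitiveRoot g N) {m : ℕ → F}
    (hm : ∀ a : ℕ, a.Coprime N → ∑ j ∈ range N, m j * g ^ (a * j) = 0) {a : ℕ} (ha : a.Coprime N) :
    IsPrimitiveRoot (g ^ (a * N')) p ∧ ∀ t, ¬ p ∣ 1 + t * N' →
      ∑ i ∈ range p, (∑ l ∈ range N', m (i + p * l) * g ^ (a * (i + p * l))) *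
        (g ^ (a * N')) ^ (t * i) = 0 := by
  have haN : a.Coprime (p * N') := by rwa [← hN']
  have hωp : IsPrimitiveRoot (g ^ (a * N')) p := by
    have e1 : IsPrimitiveRoot (g ^ N') p := hg.pow hN (by rw [hN', mul_comm])
    have e2 := e1.pow_of_coprime a (Nat.Coprime.coprime_mul_right_right haN)
    rwa [← pow_mul, mul_comm] at e2
  refine ⟨hωp, fun t ht => ?_⟩
  have hc : (a * (1 + t * N')).Coprime N := by
    refine Nat.Coprime.mul_left ha ?_
    rw [hN']
    refine Nat.Coprime.mul_right ?_ ?_
    · exact ((Nat.Prime.coprime_iff_not_dvd hp).2 ht).symm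
    · exact (Nat.coprime_add_mul_right_left 1 N' t).2 (Nat.coprime_one_left N')
  have h2 := hm _ hc
  rw [hN', sum_range_mul' hp.pos] at h2
  rw [← h2]
  refine sum_congr rfl fun i _ => ?_
  rw [sum_mul]
  refine sum_congr rfl fun l _ => ?_
  have e1 : (g ^ (a * N')) ^ (t * i) = g ^ (a * (t * N') * (i + p * l)) := by
    have e2 : a * (t * N') * (i + p * l) = a * N' * (t * i) + (p * N') * (a * t * l) := by ring
    rw [e2, pow_add, pow_mul g (p * N'), ← hN', hg.pow_eq_one, one_pow, mul_one, ← pow_mul]
  rw [e1, mul_assoc, ← pow_add]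
  congr 2
  ring

/-- lift of a residue -/
theorem lift_coprime {N p N' : ℕ} (hp : p.Prime) (hN' : N = p * N') {u : F}
    (hu : IsPrimitiveRoot u N') {a' : ℕ} (ha' : a'.Coprime N') :
    ∃ a : ℕ, a.Coprime N ∧ u ^ a = u ^ a' := by
  by_cases hd : p ∣ a'
  · have hnd : ¬ p ∣ N' := by
      intro h
      have := Nat.dvd_gcd hd h
      rw [ha'] at this
      exact hp.one_lt.ne' (Nat.dvd_one.1 this)
    refine ⟨a' + N', ?_, ?_⟩
    · rw [hN']
      refine Nat.Coprime.mul_right ?_ ?_
      · refine ((Nat.Prime.coprime_iff_not_dvd hp).2 fun h => hnd ?_).symm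
        exact (Nat.dvd_add_right hd).1 h
      · simpa using ha'
    · rw [pow_add, hu.pow_eq_one, mul_one]
  · refine ⟨a', ?_, rfl⟩
    rw [hN']
    exact Nat.Coprime.mul_right ((Nat.Prime.coprime_iff_not_dvd hp).2 hd).symm ha'

theorem short_sym [DecidableEq F] : ∀ N : ℕ, Odd N → (∀ p, p.Prime → p ∣ N → 11 ≤ p) → ((N : F) ≠ 0) →
    ((2 : F) ≠ 0) → ∀ g : F, IsPrimitiveRoot g N → ∀ s : F, (s = 1 ∨ s = -1) → ∀ m : ℕ → F,
    m 0 = 0 → (∀ x, 0 < x → x < N → m (N - x) = s * m x) →
    (∀ a : ℕ, a.Coprime N → ∑ j ∈ range N, m j * g ^ (a * j) = 0) →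
    (∑ j ∈ range N, (if m j ≠ 0 then 1 else 0)) ≤ 20 → ∀ j < N, m j = 0 := by
  intro N
  induction N using Nat.strong_induction_on with
  | _ N IH =>
  intro hodd hP hNF h2F g hg s hs m hm0 hsym hm hA j hj
  by_cases h1 : N = 1
  · subst h1
    have hj0 : j = 0 := by omega
    rw [hj0]
    exact hm0
  have hN : 0 < N := hodd.pos
  set p := N.minFac with hpdef
  have hp : p.Prime := Nat.minFac_prime h1
  obtain ⟨N', hN'⟩ : p ∣ N := Nat.minFac_dvd N
  have hp0 : 0 < p := hp.pos
  have hN'0 : 0 < N' := by
    rcases Nat.eq_zero_or_pos N' with h | h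
    · rw [h, mul_zero] at hN'; omega
    · exact h
  have hlt : N' < N := by
    rw [hN']
    have := hp.two_le
    nlinarith
  have hpF : (p : F) ≠ 0 := by
    intro h
    apply hNF
    rw [hN', Nat.cast_mul, h, zero_mul]
  have hN'F : (N' : F) ≠ 0 := by
    intro h
    apply hNF
    rw [hN', Nat.cast_mul, h, mul_zero]
  have hg0 : g ≠ 0 := hg.ne_zero (by omega)
  have hPp : 11 ≤ p := hP p hp ⟨N', hN'⟩
  have hodd2 : Odd p ∧ Odd N' := by rw [hN'] at hodd; exact Nat.odd_mul.1 hodd
  have hs0 : s ≠ 0 := by rcases hs with rfl | rfl <;> norm_num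
  let S : ℕ → ℕ := fun i => ∑ l ∈ range N', (if m (i + p * l) ≠ 0 then 1 else 0)
  have hS : ∑ i ∈ range p, S i ≤ 20 := by
    rw [hN', sum_range_mul' hp0] at hA
    exact hA
  have hx : ∀ i l, i < p → l < N' → i + p * l < N := by
    intro i l hi hl
    calc i + p * l < p + p * l := by omega
      _ = p * (l + 1) := by ring
      _ ≤ p * N' := Nat.mul_le_mul_left _ hl
      _ = N := hN'.symm
  have hSsym : ∀ i, 0 < i → i < p → S (p - i) = S i := by
    intro i hi0 hi
    simp only [S]
    rw [← sum_range_reflect]
    refine sum_congr rfl fun l hl => ?_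
    have hl' := mem_range.1 hl
    have e1 : p - i + p * (N' - 1 - l) = N - (i + p * l) := by
      have h2 := hx i l hi hl'
      have h3 : p * (N' - 1 - l) + p * (l + 1) = N := by
        rw [← mul_add, hN']
        congr 1
        omega
      have h4 : p * (l + 1) = p * l + p := by ring
      omega
    rw [e1, hsym _ (by omega) (hx i l hi hl')]
    simp [hs0]
  have hgp : IsPrimitiveRoot (g ^ p) N' := hg.pow hN hN'
  -- value of a slice sum
  let C : ℕ → ℕ → F := fun a i => ∑ l ∈ range N', m (i + p * l) * g ^ (a * (i + p * l))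
  have hCval : ∀ a i, C a i = g ^ (a * i) * ∑ l ∈ range N', m (i + p * l) * (g ^ p) ^ (a * l) := by
    intro a i
    simp only [C]
    rw [mul_sum]
    refine sum_congr rfl fun l _ => ?_
    rw [← pow_mul, mul_left_comm, ← pow_add]
    congr 2
    ring
  have hlarge : ∀ p', p'.Prime → p' ∣ N' → 11 ≤ p' := fun p' hp' hd =>
    hP p' hp' (by rw [hN']; exact Dvd.dvd.mul_left hd p)
  by_cases hall : ∀ a : ℕ, a.Coprime N → ∀ i < p, C a i = 0
  · -- all slices are relations
    have hslice : ∀ i < p, ∀ a' : ℕ, a'.Coprime N' →
        ∑ l ∈ range N', m (i + p * l) * (g ^ p) ^ (a' * l) = 0 := by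
      intro i hi a' ha'
      obtain ⟨a, ha, haa⟩ := lift_coprime hp hN' hgp ha'
      have h2 := hall a ha i hi
      rw [hCval] at h2
      rw [← (mul_eq_zero.1 h2).resolve_left (pow_ne_zero _ hg0)]
      refine sum_congr rfl fun l _ => ?_
      rw [pow_mul, pow_mul, haa]
    have hjp : j % p < p := Nat.mod_lt _ hp0
    have hjl : j / p < N' := Nat.div_lt_of_lt_mul (by rwa [← hN'])
    rcases Nat.eq_zero_or_pos (j % p) with hj0 | hj0
    · have key := IH N' hlt hodd2.2 hlarge hN'F h2F (g ^ p) hgp s hs (fun l => m (0 + p * l))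
        (by simpa using hm0) (fun x hx0 hxN => by
          have e1 : 0 + p * (N' - x) = N - (0 + p * x) := by
            rw [zero_add, zero_add, Nat.mul_sub, ← hN']
          show m (0 + p * (N' - x)) = s * m (0 + p * x)
          rw [e1]
          exact hsym _ (by rw [zero_add]; positivity) (hx 0 x hp0 hxN))
        (hslice 0 hp0) (le_trans (single_le_sum (f := S) (fun i _ => Nat.zero_le _)
          (mem_range.2 hp0)) hS) (j / p) hjl
      have e1 : 0 + p * (j / p) = j := by
        have := Nat.mod_add_div j p
        omega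
      rwa [e1] at key
    · have hSj : S (j % p) ≤ 10 := by
        have hne : j % p ≠ p - j % p := by
          obtain ⟨k, hk⟩ := hodd2.1
          omega
        have h2 : S (j % p) + S (p - j % p) ≤ ∑ i ∈ range p, S i := by
          rw [← sum_pair hne]
          refine sum_le_sum_of_subset fun i hi => ?_
          rw [mem_insert, mem_singleton] at hi
          rw [mem_range]
          omega
        have h3 := hSsym (j % p) hj0 hjp
        omega
      have key := short 11 N' hN'0 hlarge hN'F (g ^ p) hgp (fun l => m (j % p + p * l))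
        (hslice (j % p) hjp) ⟨(range N').filter (fun l => m (j % p + p * l) ≠ 0), by
          rw [card_filter]
          simp only [S] at hSj
          omega, fun l hl hne => mem_filter.2 ⟨mem_range.2 hl, hne⟩⟩ (j / p) hjl
      rwa [Nat.mod_add_div] at key
  · -- some slice sum is nonzero
    exfalso
    -- every slice has support
    have hne : ∀ i < p, 1 ≤ S i := by
      intro i0 hi0
      by_contra hcon
      apply hall
      intro a ha i hi
      have hz : ∀ l < N', m (i0 + p * l) = 0 := by
        intro l hl
        by_contra h3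
        have h4 : (1 : ℕ) ≤ S i0 := by
          have := single_le_sum (f := fun l => if m (i0 + p * l) ≠ 0 then 1 else 0)
            (fun i _ => Nat.zero_le _) (mem_range.2 hl)
          simp only [if_pos h3] at this
          exact this
        exact hcon h4
      obtain ⟨hω, hf⟩ := slice_facts hp hN' hN hg hm ha
      obtain ⟨t0, ht0, ht0'⟩ : ∃ t0 < p, ∀ t < p, t ≠ t0 → ¬ p ∣ 1 + t * N' := by
        by_cases hex : ∃ t < p, p ∣ 1 + t * N'
        · obtain ⟨t0, ht0, hd⟩ := hex
          refine ⟨t0, ht0, fun t ht hne hd' => ?_⟩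
          have h2 : (p : ℤ) ∣ ((t : ℤ) - t0) * N' := by
            have e1 : (p : ℤ) ∣ 1 + t * N' := by exact_mod_cast hd'
            have e2 : (p : ℤ) ∣ 1 + t0 * N' := by exact_mod_cast hd
            have := dvd_sub e1 e2
            have e3 : ((t : ℤ) - t0) * N' = 1 + t * N' - (1 + t0 * N') := by ring
            rwa [e3]
          rcases (Nat.prime_iff_prime_int.1 hp).dvd_or_dvd h2 with h3 | h3
          · have h4 := Int.eq_zero_of_abs_lt_dvd h3 (by rw [abs_lt]; constructor <;> omega)
            omega
          · have h4 : p ∣ N' := by exact_mod_cast h3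
            have h5 : p ∣ 1 := (Nat.dvd_add_left (Dvd.dvd.mul_left h4 t)).1 hd'
            exact hp.one_lt.ne' (Nat.dvd_one.1 h5)
        · push Not at hex
          exact ⟨0, hp0, fun t ht _ => hex t ht⟩
      have hC0 : C a i0 = 0 := by
        simp only [C]
        exact sum_eq_zero fun l hl => by rw [hz l (mem_range.1 hl), zero_mul]
      have h2 := fourier_inv hω (C a) hi0 ht0 (fun t ht htne => hf t (ht0' t ht htne))
      rw [hC0, mul_zero] at h2
      have hf0 := (mul_eq_zero.1 h2.symm).resolve_left (pow_ne_zero _ (pow_ne_zero _ hg0))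
      have h3 := fourier_inv hω (C a) hi ht0 (fun t ht htne => hf t (ht0' t ht htne))
      rw [hf0, mul_zero] at h3
      exact (mul_eq_zero.1 h3).resolve_left hpF
    by_cases hB : ∀ i, 0 < i → i < p → 2 ≤ S i
    · have hS0 : 2 ≤ S 0 := by
        have h3 := hne 0 hp0
        have h4 : ∃ l < N', m (0 + p * l) ≠ 0 := by
          by_contra hcon
          push Not at hcon
          have : S 0 = 0 := sum_eq_zero fun l hl => by rw [hcon l (mem_range.1 hl)]; simp
          omega
        obtain ⟨l, hl, hml⟩ := h4
        have hl0 : 0 < l := by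
          rcases Nat.eq_zero_or_pos l with h | h
          · exfalso
            rw [h] at hml
            simp [hm0] at hml
          · exact h
        have e1 : 0 + p * (N' - l) = N - (0 + p * l) := by
          rw [zero_add, zero_add, Nat.mul_sub, ← hN']
        have hml' : m (0 + p * (N' - l)) ≠ 0 := by
          rw [e1, hsym _ (by rw [zero_add]; positivity) (hx 0 l hp0 hl)]
          exact mul_ne_zero hs0 hml
        have hne' : l ≠ N' - l := by
          obtain ⟨k, hk⟩ := hodd2.2
          omega
        have h5 : ∑ x ∈ ({l, N' - l} : Finset ℕ), (if m (0 + p * x) ≠ 0 then 1 else 0) ≤ S 0 := by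
          refine sum_le_sum_of_subset fun i hi => ?_
          rw [mem_insert, mem_singleton] at hi
          rw [mem_range]
          omega
        rw [sum_pair hne', if_pos hml, if_pos hml'] at h5
        exact h5
      have h3 : ∑ i ∈ range p, 2 ≤ ∑ i ∈ range p, S i := by
        refine sum_le_sum fun i hi => ?_
        rcases Nat.eq_zero_or_pos i with h | h
        · rw [h]; exact hS0
        · exact hB i h (mem_range.1 hi)
      rw [sum_const, card_range, smul_eq_mul] at h3
      omega
    · push Not at hB
      obtain ⟨i1, hi10, hi1, hSi1⟩ := hB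
      have hSi1' : S i1 = 1 := by
        have := hne i1 hi1
        omega
      -- the only element of the slice
      obtain ⟨l1, hl1, hml1⟩ : ∃ l < N', m (i1 + p * l) ≠ 0 := by
        by_contra hcon
        push Not at hcon
        have : S i1 = 0 := sum_eq_zero fun l hl => by rw [hcon l (mem_range.1 hl)]; simp
        omega
      have huniq : ∀ l < N', l ≠ l1 → m (i1 + p * l) = 0 := by
        intro l hl hll
        by_contra h3
        have h5 : ∑ x ∈ ({l, l1} : Finset ℕ), (if m (i1 + p * x) ≠ 0 then 1 else 0) ≤ S i1 := by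
          refine sum_le_sum_of_subset fun i hi => ?_
          rw [mem_insert, mem_singleton] at hi
          rw [mem_range]
          omega
        rw [sum_pair hll, if_pos h3, if_pos hml1] at h5
        omega
      set x1 := i1 + p * l1 with hx1
      have hx1N : x1 < N := hx i1 l1 hi1 hl1
      have hCi1 : ∀ a, C a i1 = m x1 * g ^ (a * x1) := by
        intro a
        simp only [C]
        rw [sum_eq_single l1 (fun l hl hne => by rw [huniq l (mem_range.1 hl) hne, zero_mul])
          (fun h => absurd (mem_range.2 hl1) h)]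
      have hNx : p - i1 + p * (N' - 1 - l1) = N - x1 := by
        have h3 : p * (N' - 1 - l1) + p * (l1 + 1) = N := by
          rw [← mul_add, hN']
          congr 1
          omega
        have h4 : p * (l1 + 1) = p * l1 + p := by ring
        omega
      have hCi2 : ∀ a, C a (p - i1) = s * m x1 * g ^ (a * (N - x1)) := by
        intro a
        simp only [C]
        rw [sum_eq_single (N' - 1 - l1) (fun l hl hne => ?_)
          (fun h => absurd (mem_range.2 (by omega)) h), hNx, hsym x1 (by omega) hx1N]
        have hl' := mem_range.1 hl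
        have e1 : p - i1 + p * l = N - (i1 + p * (N' - 1 - l)) := by
          have h3 : p * (N' - 1 - l) + p * (l + 1) = N := by
            rw [← mul_add, hN']
            congr 1
            omega
          have h4 : p * (l + 1) = p * l + p := by ring
          omega
        rw [e1, hsym _ (by omega) (hx i1 _ hi1 (by omega)), huniq _ (by omega) (by omega)]
        ring
      -- the exceptional shift exists
      obtain ⟨t0, ht0, hd0⟩ : ∃ t < p, p ∣ 1 + t * N' := by
        by_contra hcon
        push Not at hcon
        obtain ⟨hω, hf⟩ := slice_facts hp hN' hN hg hm (Nat.coprime_one_left N)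
        have h3 := fourier_inv hω (C 1) hi1 hp0 (fun t ht _ => hf t (hcon t ht))
        have h4 := hf 0 (hcon 0 hp0)
        have h5 : ∑ i ∈ range p, C 1 i * (g ^ (1 * N')) ^ (0 * i) = 0 := h4
        rw [h5, mul_zero, hCi1] at h3
        exact (mul_ne_zero hpF (mul_ne_zero hml1 (pow_ne_zero _ hg0))) h3
      have hpN' : ¬ p ∣ N' := by
        intro h4
        have h5 : p ∣ 1 := (Nat.dvd_add_left (Dvd.dvd.mul_left h4 t0)).1 hd0
        exact hp.one_lt.ne' (Nat.dvd_one.1 h5)
      have ht0' : ∀ t < p, t ≠ t0 → ¬ p ∣ 1 + t * N' := by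
        intro t ht hne hd'
        have h2 : (p : ℤ) ∣ ((t : ℤ) - t0) * N' := by
          have e1 : (p : ℤ) ∣ 1 + t * N' := by exact_mod_cast hd'
          have e2 : (p : ℤ) ∣ 1 + t0 * N' := by exact_mod_cast hd0
          have := dvd_sub e1 e2
          have e3 : ((t : ℤ) - t0) * N' = 1 + t * N' - (1 + t0 * N') := by ring
          rwa [e3]
        rcases (Nat.prime_iff_prime_int.1 hp).dvd_or_dvd h2 with h3 | h3
        · have h4 := Int.eq_zero_of_abs_lt_dvd h3 (by rw [abs_lt]; constructor <;> omega)
          omega
        · exact hpN' (by exact_mod_cast h3)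
      have hC0 : ∀ a : ℕ, a.Coprime N → s = 1 ∧ C a 0 = m x1 := by
        intro a ha
        obtain ⟨hω, hf⟩ := slice_facts hp hN' hN hg hm ha
        set ω := g ^ (a * N') with hωd
        have h0 := fourier_inv hω (C a) hp0 ht0 (fun t ht htne => hf t (ht0' t ht htne))
        have h1' := fourier_inv hω (C a) hi1 ht0 (fun t ht htne => hf t (ht0' t ht htne))
        have h2' := fourier_inv hω (C a) (show p - i1 < p by omega) ht0
          (fun t ht htne => hf t (ht0' t ht htne))
        set f := ∑ i ∈ range p, C a i * ω ^ (t0 * i) with hfd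
        have e0 : (p : F) * C a 0 = f := by
          rw [h0, Nat.sub_zero, mul_comm t0 p, pow_mul, hω.pow_eq_one, one_pow, one_mul]
        have e1 : C a i1 * ω ^ (t0 * i1) = C a 0 := by
          apply mul_left_cancel₀ hpF
          rw [← mul_assoc, h1', e0, mul_assoc, mul_comm f, ← mul_assoc, ← pow_add, ← mul_add,
            Nat.sub_add_cancel hi1.le, mul_comm t0 p, pow_mul, hω.pow_eq_one, one_pow, one_mul]
        have e2 : C a (p - i1) * ω ^ (t0 * (p - i1)) = C a 0 := by
          apply mul_left_cancel₀ hpF
          rw [← mul_assoc, h2', e0, mul_assoc, mul_comm f, ← mul_assoc, ← pow_add, ← mul_add,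
            Nat.sub_add_cancel (by omega), mul_comm t0 p, pow_mul, hω.pow_eq_one, one_pow, one_mul]
        set G := g ^ (a * x1) * ω ^ (t0 * i1) with hG
        set G' := g ^ (a * (N - x1)) * ω ^ (t0 * (p - i1)) with hG'
        have e3 : C a 0 = m x1 * G := by rw [← e1, hCi1, hG]; ring
        have e4 : C a 0 = m x1 * (s * G') := by rw [← e2, hCi2, hG']; ring
        have e5 : G = s * G' := mul_left_cancel₀ hml1 (by rw [← e3, e4])
        have e6 : G * G' = 1 := by
          have e7 : G * G' = g ^ (a * x1 + a * (N - x1)) * ω ^ (t0 * i1 + t0 * (p - i1)) := by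
            rw [hG, hG', pow_add, pow_add]; ring
          rw [e7, ← mul_add, ← mul_add, Nat.add_sub_cancel' hx1N.le, Nat.add_sub_cancel' hi1.le,
            mul_comm a N, pow_mul, hg.pow_eq_one, one_pow, mul_comm t0 p, pow_mul, hω.pow_eq_one,
            one_pow, mul_one]
        have e8 : G ^ 2 = s := by
          calc G ^ 2 = G * (s * G') := by rw [← e5]; ring
            _ = s * (G * G') := by ring
            _ = s := by rw [e6, mul_one]
        have e9 : G ^ N = 1 := by
          rw [hG, mul_pow, hωd, ← pow_mul, ← pow_mul, ← pow_mul, mul_comm (a * x1) N,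
            show a * N' * (t0 * i1 * N) = N * (a * N' * (t0 * i1)) by ring, pow_mul g N, pow_mul g N,
            hg.pow_eq_one]
          simp
        obtain ⟨k, hk⟩ := hodd
        have e10 : s ^ k * G = 1 := by
          rw [← e8, ← pow_mul, ← pow_succ, ← hk, e9]
        have hs1 : s = 1 := by
          rcases hs with h | h
          · exact h
          · exfalso
            have e11 : G ^ 2 = 1 := by
              have : (s ^ k * G) ^ 2 = 1 := by rw [e10]; ring
              rw [mul_pow, ← pow_mul, mul_comm k 2, pow_mul, h] at this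
              simpa using this
            rw [e8, h] at e11
            apply h2F
            have : (2 : F) = 1 - (-1) := by ring
            rw [this, e11, sub_self]
        refine ⟨hs1, ?_⟩
        rw [hs1, one_pow, one_mul] at e10
        rw [e3, e10, mul_one]
      -- a long relation in the zero slice
      let m'' : ℕ → F := fun l => if l = 0 then - m x1 else m (0 + p * l)
      have hm'' : ∀ a' : ℕ, a'.Coprime N' → ∑ l ∈ range N', m'' l * (g ^ p) ^ (a' * l) = 0 := by
        intro a' ha'
        obtain ⟨a, ha, haa⟩ := lift_coprime hp hN' hgp ha'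
        have h2 := (hC0 a ha).2
        rw [hCval, mul_zero, pow_zero, one_mul] at h2
        have h3 : ∀ l, m'' l * (g ^ p) ^ (a' * l) = m (0 + p * l) * (g ^ p) ^ (a * l) -
            (if l = 0 then m x1 else 0) := by
          intro l
          simp only [m'']
          rw [pow_mul (g ^ p) a', ← haa, ← pow_mul]
          split_ifs with h4
          · subst h4
            simp [hm0]
          · simp
        rw [sum_congr rfl fun l _ => h3 l, sum_sub_distrib, h2, sum_ite_eq' (range N') 0,
          if_pos (mem_range.2 hN'0), sub_self]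
      have hcard : 12 ≤ ((range N').filter (fun l => m'' l ≠ 0)).card := by
        by_contra hcon
        have key := short 12 N' hN'0 (fun p' hp' hd => by
          have h3 : p ≤ p' := Nat.minFac_le_of_dvd hp'.two_le (by rw [hN']; exact Dvd.dvd.mul_left hd p)
          have h4 : p' ≠ p := fun h => hpN' (by rwa [← h])
          omega) hN'F (g ^ p) hgp m'' hm''
          ⟨(range N').filter (fun l => m'' l ≠ 0), by omega,
            fun l hl hne => mem_filter.2 ⟨mem_range.2 hl, hne⟩⟩ 0 hN'0
        simp only [m'', if_true] at key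
        exact hml1 (neg_eq_zero.1 key)
      have hS0 : 11 ≤ S 0 := by
        have h3 : ((range N').filter (fun l => m'' l ≠ 0)).card ≤ 1 + S 0 := by
          rw [card_filter]
          have h4 : ∀ l ∈ range N', (if m'' l ≠ 0 then 1 else 0) ≤
              (if l = 0 then 1 else 0) + (if m (0 + p * l) ≠ 0 then 1 else 0) := by
            intro l _
            simp only [m'']
            by_cases hl0 : l = 0
            · simp only [hl0, if_true]
              split_ifs <;> omega
            · simp only [if_neg hl0, zero_add]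
              exact le_rfl
          refine le_trans (sum_le_sum h4) ?_
          rw [sum_add_distrib, sum_ite_eq' (range N') 0, if_pos (mem_range.2 hN'0)]
        omega
      have hrest : ∑ i ∈ (range p).erase 0, 1 ≤ ∑ i ∈ (range p).erase 0, S i :=
        sum_le_sum fun i hi => hne i (mem_range.1 (mem_of_mem_erase hi))
      rw [sum_const, card_erase_of_mem (mem_range.2 hp0), card_range, smul_eq_mul, mul_one] at hrest
      have hsplit := add_sum_erase (range p) S (mem_range.2 hp0)
      omega

end

end Pool.Agent.K7.H19.PM2
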