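import Pool.Agent.K7.H19.PM.Sym
import Pool.Agent.K7.H19.PM.Short3
import Pool.Agent.K7.H19.PM.Crit
import Pool.Agent.K7.H19.PM.Indep

/-!
# Rank one when all prime factors of the odd number `n + 1` are large
-/

set_option autoImplicit false

open Finset Pool.Agent.R667.MM Pool.Agent.K7.H19.PM

noncomputable section

namespace Pool.Agent.K7.H19.PM2

theorem zmod2_cases : ∀ x : ZMod 2, x = 0 ∨ x = 1 := by decide

section

variable {q : ℕ} [Fact q.Prime] {n : ℕ}

theorem ch_zpow (x : ZMod q) (k : ℤ) : ch x ^ k = ch ((k : ZMod q) * x) := by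
  have h0 : ch x ≠ 0 := by
    intro h
    have := ch_norm x
    rw [h, norm_zero] at this
    exact zero_ne_one this
  have hneg : ∀ y : ZMod q, ch (-y) = (ch y)⁻¹ := by
    intro y
    have h1 : ch (-y) * ch y = 1 := by rw [← ch_add, neg_add_cancel, ch_zero]
    exact eq_inv_of_mul_eq_one_left h1
  obtain ⟨k', rfl | rfl⟩ := Int.eq_nat_or_neg k
  · rw [zpow_natCast, ch_pow]
    simp
  · rw [zpow_neg, zpow_natCast, ch_pow, ← hneg]
    congr 1
    push_cast
    ring

theorem ch_sum {ι : Type*} (s : Finset ι) (f : ι → ZMod q) : ch (∑ i ∈ s, f i) = ∏ i ∈ s, ch (f i) := by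
  classical
  induction s using Finset.induction_on with
  | empty => simp [ch_zero]
  | insert a s ha ih => rw [sum_insert ha, prod_insert ha, ch_add, ih]

theorem rel_modq {h : ZMod q} (hh : IsPrimitiveRoot h (2 * (n + 1))) (m : Fin n → ℤ)
    (hm : ∑ i, (m i : ℝ) * th n i = 0) :
    ∑ r : Fin n, (m r : ZMod q) * (h ^ ((r : ℕ) + 1) - h ^ (((Fin.rev r : Fin n) : ℕ) + 1)) = 0 := by
  obtain ⟨Q, hQ⟩ := relation_poly m hm
  have e1 := congrArg (Polynomial.eval₂ (Int.castRingHom (ZMod q)) h) hQ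
  rw [Polynomial.eval₂_mul, Polynomial.eval₂_eq_eval_map (p := Polynomial.cyclotomic _ ℤ),
    Polynomial.map_cyclotomic_int, (hh.isRoot_cyclotomic (by omega)).eq_zero, zero_mul,
    Polynomial.eval₂_finsetSum] at e1
  simp only [Polynomial.eval₂_mul, Polynomial.eval₂_C, Polynomial.eval₂_X_pow] at e1
  have e2 : ∑ r : Fin n, (m r : ZMod q) * h ^ (((Fin.rev r : Fin n) : ℕ) + 1) =
      ∑ r : Fin n, (m (Fin.rev r) : ZMod q) * h ^ ((r : ℕ) + 1) := by
    rw [← Equiv.sum_comp Fin.revPerm]
    refine sum_congr rfl fun r _ => ?_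
    simp
  simp only [mul_sub, sum_sub_distrib]
  rw [e2, ← sum_sub_distrib]
  calc ∑ r : Fin n, ((m r : ZMod q) * h ^ ((r : ℕ) + 1) - (m (Fin.rev r) : ZMod q) * h ^ ((r : ℕ) + 1))
      = h * ∑ r : Fin n, (Int.castRingHom (ZMod q)) (m r - m (Fin.rev r)) * h ^ (r : ℕ) := by
        rw [mul_sum]
        refine sum_congr rfl fun r _ => ?_
        simp only [eq_intCast, Int.cast_sub]
        ring
    _ = 0 := by rw [e1, mul_zero]

/-- the vectors -/
def Vv (n : ℕ) (h : ZMod q) (a : Fin (2 * (n + 1))) (r : Fin n) : ZMod q :=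
  if (a : ℕ).Coprime (2 * (n + 1)) then
    (h ^ (a : ℕ)) ^ ((r : ℕ) + 1) - (h ^ (a : ℕ)) ^ (((Fin.rev r : Fin n) : ℕ) + 1) else 0

theorem Vv_rev (h : ZMod q) (a : Fin (2 * (n + 1))) (r : Fin n) :
    Vv n h a (Fin.rev r) = - Vv n h a r := by
  unfold Vv
  rw [Fin.rev_rev]
  split_ifs <;> ring

theorem Vv_rel {h : ZMod q} (hh : IsPrimitiveRoot h (2 * (n + 1))) (m : Fin n → ℤ)
    (hm : ∑ i, (m i : ℝ) * th n i = 0) (y : Fin (2 * (n + 1)) → ZMod q) :
    ∏ r, pt (Vv n h) y r ^ m r = 1 := by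
  unfold pt
  simp only [ch_zpow]
  rw [← ch_sum, ← ch_zero (q := q)]
  congr 1
  simp only [mul_sum]
  rw [sum_comm]
  refine sum_eq_zero fun a _ => ?_
  have h1 : ∑ r, (m r : ZMod q) * Vv n h a r = 0 := by
    unfold Vv
    split_ifs with hc
    · exact rel_modq (hh.pow_of_coprime _ hc) m hm
    · simp
  calc ∑ r, (m r : ZMod q) * (y a * Vv n h a r) = y a * ∑ r, (m r : ZMod q) * Vv n h a r := by
        rw [mul_sum]
        exact sum_congr rfl fun r _ => by ring
    _ = 0 := by rw [h1, mul_zero]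

/-- the index of the class -/
def ix {M : ℕ} (hM : n = 2 * M) (j : Fin M) : Fin n := ⟨2 * j + 1, by omega⟩

theorem half_sum {M : ℕ} {R : Type*} [AddCommMonoid R] (f : ℕ → R) :
    ∑ x ∈ range (2 * M + 1), f x = f 0 + ∑ j ∈ range M, (f (j + 1) + f (2 * M - j)) := by
  rw [sum_range_succ', two_mul, sum_range_add, add_comm, sum_add_distrib]
  congr 2
  rw [← sum_range_reflect]
  refine sum_congr rfl fun j hj => ?_
  have := mem_range.1 hj
  congr 1
  omega

theorem ind_Vv {M : ℕ} (hM : n = 2 * M) {h : ZMod q} (hh : IsPrimitiveRoot h (2 * (n + 1)))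
    (hq : ¬ q ∣ n + 1) (hP : ∀ p, p.Prime → p ∣ n + 1 → 11 ≤ p) :
    Ind (fun (a : Fin (2 * (n + 1))) (j : Fin M) => Vv n h a (ix hM j)) 10 := by
  intro L1 L2 hL hsum
  set g := h ^ 2 with hg
  have hgp : IsPrimitiveRoot g (n + 1) := hh.pow (by omega) rfl
  set L1' := L1.map Fin.val with hL1
  set L2' := L2.map Fin.val with hL2
  let c : ℕ → ZMod q := fun i => (L1'.count i : ZMod q) - L2'.count i
  have hc : ∀ j : Fin M, c j = (L1.count j : ZMod q) - L2.count j := by
    intro j
    simp only [c, hL1, hL2]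
    rw [List.count_map_of_injective _ _ Fin.val_injective,
      List.count_map_of_injective _ _ Fin.val_injective]
  let m : ℕ → ZMod q := fun x => if x = 0 then 0 else if x ≤ M then c (x - 1) else c (2 * M - x)
  have hrel : ∀ a : ℕ, a.Coprime (2 * (n + 1)) → ∑ j : Fin M, c j *
      ((h ^ a) ^ (2 * (j : ℕ) + 1 + 1) - (h ^ a) ^ (n - (2 * (j : ℕ) + 1 + 1) + 1)) = 0 := by
    intro a ha
    set a' : Fin (2 * (n + 1)) := ⟨a % (2 * (n + 1)), Nat.mod_lt _ (by omega)⟩ with ha'
    have h1 := hsum a'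
    rw [list_sum_count, list_sum_count] at h1
    have h2 : ∀ j : Fin M, Vv n h a' (ix hM j) =
        (h ^ a) ^ (2 * (j : ℕ) + 1 + 1) - (h ^ a) ^ (n - (2 * (j : ℕ) + 1 + 1) + 1) := by
      intro j
      have e1 : h ^ (a' : ℕ) = h ^ a := by
        rw [ha']
        simp only
        conv_rhs => rw [← Nat.mod_add_div a (2 * (n + 1)), pow_add, pow_mul h (2 * (n + 1)),
          hh.pow_eq_one, one_pow, mul_one]
      have e2 : (a' : ℕ).Coprime (2 * (n + 1)) := by
        rw [ha']
        simp only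
        rw [Nat.coprime_iff_gcd_eq_one] at ha ⊢
        exact (Nat.mod_modEq a (2 * (n + 1))).gcd_eq.trans ha
      unfold Vv
      rw [if_pos e2, e1, Fin.val_rev]
      simp only [ix]
    simp only [h2] at h1
    rw [← sub_eq_zero.2 h1, ← sum_sub_distrib]
    refine sum_congr rfl fun j _ => ?_
    rw [hc]
    ring
  have hm : ∀ a : ℕ, a.Coprime (n + 1) → ∑ x ∈ range (n + 1), m x * g ^ (a * x) = 0 := by
    intro a ha
    obtain ⟨a', ha', hodd, hga⟩ : ∃ a' : ℕ, a'.Coprime (2 * (n + 1)) ∧ Odd a' ∧ g ^ a' = g ^ a := by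
      rcases Nat.even_or_odd a with he | ho
      · refine ⟨a + (n + 1), ?_, ?_, ?_⟩
        · refine Nat.Coprime.mul_right ?_ (by simpa using ha)
          rw [Nat.coprime_comm, Nat.Prime.coprime_iff_not_dvd Nat.prime_two]
          obtain ⟨k, hk⟩ := he
          omega
        · obtain ⟨k, hk⟩ := he
          exact ⟨k + M, by omega⟩
        · rw [pow_add, hgp.pow_eq_one, mul_one]
      · refine ⟨a, ?_, ho, rfl⟩
        refine Nat.Coprime.mul_right ?_ ha
        rw [Nat.coprime_comm, Nat.Prime.coprime_iff_not_dvd Nat.prime_two]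
        obtain ⟨k, hk⟩ := ho
        omega
    have hN : n + 1 = 2 * M + 1 := by omega
    have hhalf : h ^ (n + 1) = -1 := by
      have e1 : (h ^ (n + 1) - 1) * (h ^ (n + 1) + 1) = 0 := by
        have : (h ^ (n + 1) - 1) * (h ^ (n + 1) + 1) = h ^ (2 * (n + 1)) - 1 := by
          rw [two_mul, pow_add]; ring
        rw [this, hh.pow_eq_one, sub_self]
      rcases mul_eq_zero.1 e1 with e2 | e2
      · exfalso
        have e3 := (hh.pow_eq_one_iff_dvd (n + 1)).1 (sub_eq_zero.1 e2)
        have := Nat.le_of_dvd (by omega) e3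
        omega
      · exact eq_neg_of_add_eq_zero_left e2
    rw [← hrel a' ha', hN, half_sum]
    simp only [m, if_true, zero_mul, zero_add]
    rw [Finset.sum_range]
    refine sum_congr rfl fun j _ => ?_
    have hj := j.2
    rw [if_neg (by omega), if_pos (by omega), Nat.add_sub_cancel, if_neg (by omega), if_neg (by omega),
      show 2 * M - (2 * M - (j : ℕ)) = j by omega, pow_mul g a, ← hga, mul_sub, sub_eq_add_neg]
    congr 1
    · rw [hg, ← pow_mul, ← pow_mul, ← pow_mul]
      congr 2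
      ring
    · rw [pow_mul g a, ← hga, ← mul_neg, hg]
      congr 1
      have e3 : a' * (2 * (2 * M - (j : ℕ))) = (n + 1) * a' + a' * (n - (2 * (j : ℕ) + 1 + 1) + 1) := by
        have e4 : 2 * (2 * M - (j : ℕ)) = (n + 1) + (n - (2 * (j : ℕ) + 1 + 1) + 1) := by omega
        rw [e4]
        ring
      calc ((h ^ 2) ^ a') ^ (2 * M - (j : ℕ)) = h ^ (a' * (2 * (2 * M - (j : ℕ)))) := by
            rw [← pow_mul, ← pow_mul]
            congr 1
            ring
        _ = -(h ^ a') ^ (n - (2 * (j : ℕ) + 1 + 1) + 1) := by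
            rw [e3, pow_add, pow_mul h (n + 1), hhalf, hodd.neg_one_pow, ← pow_mul]
            ring
  have h2F : (2 : ZMod q) ≠ 0 := by
    intro h0
    have h5 : ((2 : ℕ) : ZMod q) = 0 := by exact_mod_cast h0
    rw [ZMod.natCast_eq_zero_iff] at h5
    have h6 := Nat.le_of_dvd (by norm_num) h5
    have h7 : 2 ≤ q := (Fact.out : q.Prime).two_le
    have h8 : q = 2 := by omega
    subst h8
    rcases zmod2_cases h with h9 | h9
    · exact hh.ne_zero (by omega) h9
    · rw [h9] at hh
      have := hh.unique IsPrimitiveRoot.one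
      omega
  have key := short_sym (n + 1) ⟨M, by omega⟩ hP (by
    intro h0
    apply hq
    rw [← ZMod.natCast_eq_zero_iff]
    exact h0) h2F g hgp 1 (Or.inl rfl) m rfl (fun x hx0 hxN => by
      rw [one_mul]
      by_cases hxM : x ≤ M
      · simp only [m]
        rw [if_neg (by omega), if_neg (by omega), if_neg (by omega), if_pos hxM]
        congr 1
        omega
      · simp only [m]
        rw [if_neg (by omega), if_pos (by omega), if_neg (by omega), if_neg hxM]
        congr 1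
        omega) hm ?_
  · intro j
    have h1 := key (j + 1) (by have := j.2; omega)
    simp only [m] at h1
    rw [if_neg (by omega), if_pos (by have := j.2; omega), Nat.add_sub_cancel, hc] at h1
    exact sub_eq_zero.1 h1
  · have h1 : (L1' ++ L2').toFinset.card ≤ 10 := by
      refine le_trans (List.toFinset_card_le _) ?_
      rw [List.length_append, hL1, hL2, List.length_map, List.length_map]
      exact hL
    have h2 := card_union_le ((L1' ++ L2').toFinset.image (fun i => i + 1))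
      ((L1' ++ L2').toFinset.image (fun i => 2 * M - i))
    have h3 := card_image_le (s := (L1' ++ L2').toFinset) (f := fun i => i + 1)
    have h4 := card_image_le (s := (L1' ++ L2').toFinset) (f := fun i => 2 * M - i)
    rw [← card_filter]
    refine le_trans (card_le_card (t := ((L1' ++ L2').toFinset.image (fun i => i + 1)) ∪
      ((L1' ++ L2').toFinset.image (fun i => 2 * M - i))) ?_) (by omega)
    have hcm : ∀ i, c i ≠ 0 → i ∈ (L1' ++ L2').toFinset := by
      intro i hi
      rw [List.mem_toFinset, List.mem_append]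
      by_contra hcon
      push Not at hcon
      apply hi
      simp only [c]
      rw [List.count_eq_zero_of_not_mem hcon.1, List.count_eq_zero_of_not_mem hcon.2]
      simp
    intro x hxx
    obtain ⟨hx, hne⟩ := mem_filter.1 hxx
    have hx := mem_range.1 hx
    simp only [m] at hne
    rw [mem_union, mem_image, mem_image]
    split_ifs at hne with h1 h2
    · exact absurd rfl hne
    · exact Or.inl ⟨x - 1, hcm _ hne, by omega⟩
    · exact Or.inr ⟨2 * M - x, hcm _ hne, by omega⟩

theorem gen_case {n : ℕ} (hodd : Odd (n + 1)) (hn : 6 ≤ n)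
    (hP : ∀ p, p.Prime → p ∣ n + 1 → 11 ≤ p) : HasRankOne n := by
  obtain ⟨M, hM'⟩ := hodd
  have hM : n = 2 * M := by omega
  obtain ⟨q, hqp, hq1, hq2⟩ := Nat.exists_prime_gt_modEq_one (k := 2 * (n + 1)) (2 * (n + 1) + 10) (by omega)
  have : Fact q.Prime := ⟨hqp⟩
  -- a primitive root
  obtain ⟨h, hh⟩ : ∃ h : ZMod q, IsPrimitiveRoot h (2 * (n + 1)) := by
    obtain ⟨γ, hγ⟩ := IsCyclic.exists_generator (α := (ZMod q)ˣ)
    have h1 : orderOf γ = q - 1 := by
      rw [orderOf_eq_card_of_forall_mem_zpowers hγ, Nat.card_eq_fintype_card, ZMod.card_units]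
    have h2 : 2 * (n + 1) ∣ q - 1 := (Nat.modEq_iff_dvd' hqp.one_lt.le).1 hq2.symm
    obtain ⟨d, hd⟩ := h2
    have h3 : IsPrimitiveRoot γ (q - 1) := by rw [← h1]; exact IsPrimitiveRoot.orderOf γ
    have h4 : IsPrimitiveRoot (γ ^ d) (2 * (n + 1)) :=
      h3.pow (by have := hqp.two_le; omega) (by rw [hd]; ring)
    exact ⟨((γ ^ d : (ZMod q)ˣ) : ZMod q), IsPrimitiveRoot.coe_units_iff.2 h4⟩
  have hqn : ¬ q ∣ n + 1 := fun hd => by
    have := Nat.le_of_dvd (by omega) hd
    omega
  obtain ⟨w, c, hw0, hw1, hc, hE, hE0⟩ := law (A := Fin (2 * (n + 1))) (M := M)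
    (fun a j => Vv n h a (ix hM j)) (ind_Vv hM hh hqn hP) (by omega) (by omega)
  have hpt : ∀ y j, pt (fun (a : Fin (2 * (n + 1))) (j : Fin M) => Vv n h a (ix hM j)) y j =
      pt (Vv n h) y (ix hM j) := fun y j => rfl
  simp only [hpt] at hE hE0
  have hrev : ∀ (y : Fin (2 * (n + 1)) → ZMod q) (r : Fin n),
      pt (Vv n h) y (Fin.rev r) = (starRingEnd ℂ) (pt (Vv n h) y r) := by
    intro y r
    unfold pt
    rw [← ch_neg]
    congr 1
    simp only [Vv_rev, mul_neg, sum_neg_distrib]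
  have hix : ∀ r : Fin n, (r : ℕ) % 2 = 1 → ∃ j : Fin M, ix hM j = r := by
    intro r hr
    have := r.2
    exact ⟨⟨(r : ℕ) / 2, by omega⟩, Fin.ext (by simp only [ix]; omega)⟩
  have hix' : ∀ r : Fin n, (r : ℕ) % 2 = 0 → ∃ j : Fin M, r = Fin.rev (ix hM j) := by
    intro r hr
    have := r.2
    obtain ⟨j, hj⟩ := hix (Fin.rev r) (by rw [Fin.val_rev]; omega)
    exact ⟨j, by rw [hj, Fin.rev_rev]⟩
  refine criterion (c := c) (by omega) w hw0 hw1 (fun y => pt (Vv n h) y)
    (fun y r => pt_norm _ _ _) (fun y m hm => Vv_rel hh m hm y)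
    (by rw [hM]; push_cast; exact hc) ?_
  intro r s hrs
  rcases Nat.mod_two_eq_zero_or_one (r : ℕ) with hr | hr <;>
    rcases Nat.mod_two_eq_zero_or_one (s : ℕ) with hs | hs
  · have hEv : E ((r : ℤ) - s) = 1 := by
      unfold E
      rw [if_pos]
      rw [Int.even_iff]
      omega
    obtain ⟨j, rfl⟩ := hix' r hr
    obtain ⟨l, rfl⟩ := hix' s hs
    have hjl : j ≠ l := fun h' => hrs (by rw [h'])
    rw [hEv, mul_one, ← hE j l hjl]
    refine sum_congr rfl fun y _ => ?_
    rw [hrev, hrev, Complex.mul_re, Complex.mul_re, Complex.conj_re, Complex.conj_im, Complex.conj_conj,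
      Complex.conj_re, Complex.conj_im]
    ring
  · have hEv : E ((r : ℤ) - s) = 0 := by
      unfold E
      rw [if_neg]
      rw [Int.even_iff]
      omega
    obtain ⟨j, rfl⟩ := hix' r hr
    obtain ⟨l, rfl⟩ := hix s hs
    rw [hEv, mul_zero, ← hE0 j l]
    refine sum_congr rfl fun y _ => ?_
    rw [hrev, Complex.mul_re, Complex.mul_re, Complex.conj_re, Complex.conj_im,
      Complex.conj_re, Complex.conj_im]
    ring
  · have hEv : E ((r : ℤ) - s) = 0 := by
      unfold E
      rw [if_neg]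
      rw [Int.even_iff]
      omega
    obtain ⟨j, rfl⟩ := hix r hr
    obtain ⟨l, rfl⟩ := hix' s hs
    rw [hEv, mul_zero, ← hE0 j l]
    refine sum_congr rfl fun y _ => ?_
    rw [hrev, Complex.conj_conj]
  · have hEv : E ((r : ℤ) - s) = 1 := by
      unfold E
      rw [if_pos]
      rw [Int.even_iff]
      omega
    obtain ⟨j, rfl⟩ := hix r hr
    obtain ⟨l, rfl⟩ := hix s hs
    have hjl : j ≠ l := fun h' => hrs (by rw [h'])
    rw [hEv, mul_one, ← hE j l hjl]

end

end Pool.Agent.K7.H19.PM2
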