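import Pool.Agent.K7.H19.PM.Free

/-!
# The case that `n + 1` is a power of an odd prime: the law
-/

set_option autoImplicit false

open Finset Real Pool.Agent.R667.MM

noncomputable section

namespace Pool.Agent.K7.H19.PM

/-- the sign of an index -/
def sg {n : ℕ} (p : Fin n) : ℤ := if (p : ℕ) % 2 = 1 then 1 else -1

/-- half of the even one of the two indices -/
def hf {n : ℕ} (p : Fin n) : ℕ := if (p : ℕ) % 2 = 1 then ((p : ℕ) + 1) / 2 else (n - p) / 2

theorem th_hf {n : ℕ} (hn : Even n) (p : Fin n) :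
    ((th n p : ℝ) : ℂ) = (sg p : ℂ) *
      (Complex.exp (2 * π * Complex.I / ((n + 1 : ℕ) : ℂ)) ^ (hf p) +
        Complex.exp (2 * π * Complex.I / ((n + 1 : ℕ) : ℂ)) ^ (n + 1 - hf p)) := by
  have hp := p.2
  have hn1 : (n : ℝ) + 1 ≠ 0 := by positivity
  have hnc : (n : ℂ) + 1 ≠ 0 := by exact_mod_cast Nat.succ_ne_zero n
  obtain ⟨M, hM⟩ := hn
  have hle : hf p ≤ n + 1 := by unfold hf; split_ifs <;> omega
  set ξ := Complex.exp (2 * π * Complex.I / ((n + 1 : ℕ) : ℂ)) with hξ
  have e1 : ∀ k : ℕ, ξ ^ k = Complex.exp (((2 * π * k / (n + 1) : ℝ) : ℂ) * Complex.I) := by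
    intro k
    rw [hξ, ← Complex.exp_nat_mul]
    congr 1
    push_cast
    field_simp
  have e2 : ξ ^ (n + 1 - hf p) = Complex.exp (-(((2 * π * (hf p : ℕ) / (n + 1) : ℝ) : ℂ)) * Complex.I) := by
    rw [e1, Nat.cast_sub hle]
    have : (((2 * π * (((n + 1 : ℕ) : ℝ) - (hf p : ℕ)) / (n + 1) : ℝ) : ℂ)) * Complex.I =
        -(((2 * π * (hf p : ℕ) / (n + 1) : ℝ) : ℂ)) * Complex.I + 2 * π * Complex.I := by
      push_cast
      field_simp
      ring
    rw [this, Complex.exp_add, Complex.exp_two_pi_mul_I, mul_one]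
  rw [e1, e2, ← Complex.two_cos]
  have e3 : th n p = (sg p : ℝ) * (2 * cos (2 * π * (hf p : ℕ) / (n + 1))) := by
    unfold th sg hf
    split_ifs with h
    · have h1 : (2 : ℝ) * (((p : ℕ) + 1) / 2 : ℕ) = (p : ℝ) + 1 := by
        have : 2 * (((p : ℕ) + 1) / 2) = (p : ℕ) + 1 := by omega
        exact_mod_cast this
      rw [show 2 * π * ((((p : ℕ) + 1) / 2 : ℕ) : ℝ) = π * (2 * (((p : ℕ) + 1) / 2 : ℕ)) by ring, h1]
      push_cast
      ring
    · have h1 : (2 : ℝ) * ((n - p) / 2 : ℕ) = (n : ℝ) - p := by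
        have : 2 * ((n - (p : ℕ)) / 2) + p = n := by omega
        have h2 : (((2 * ((n - (p : ℕ)) / 2) + p : ℕ)) : ℝ) = n := by rw [this]
        push_cast at h2 ⊢
        linarith
      rw [show 2 * π * (((n - (p : ℕ)) / 2 : ℕ) : ℝ) = π * (2 * ((n - (p : ℕ)) / 2 : ℕ)) by ring, h1]
      have h3 : π * ((n : ℝ) - p) / (n + 1) = π - π * ((p : ℝ) + 1) / (n + 1) := by
        field_simp
        ring
      rw [h3, Real.cos_pi_sub]
      push_cast
      ring
  rw [e3]
  push_cast
  ring_nf

/-- The relations kill all functions with vanishing sums over the `p`-gons. -/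
theorem relation_kill {n p P q : ℕ} (hn : Even n) (hq : Odd q)
    (hcyc : Polynomial.cyclotomic (n + 1) ℤ = ∑ i ∈ Finset.range p, (Polynomial.X ^ P) ^ i)
    (V : ℕ → ℤ) (hV : ∀ j, (q : ℤ) ∣ ∑ i ∈ Finset.range p, V (j + P * i))
    (hsym : ∀ r : Fin n, (q : ℤ) ∣ V (n + 1 - hf r) - V (hf r))
    (m : Fin n → ℤ) (hm : ∑ i, (m i : ℝ) * th n i = 0) :
    (q : ℤ) ∣ ∑ r, m r * (sg r * V (hf r)) := by
  set F : Polynomial ℤ := ∑ r : Fin n, (Polynomial.monomial (hf r) (m r * sg r) +
    Polynomial.monomial (n + 1 - hf r) (m r * sg r)) with hF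
  have hprim : IsPrimitiveRoot (Complex.exp (2 * π * Complex.I / ((n + 1 : ℕ) : ℂ))) (n + 1) :=
    Complex.isPrimitiveRoot_exp _ (by omega)
  have hdvd : Polynomial.cyclotomic (n + 1) ℤ ∣ F := by
    rw [Polynomial.cyclotomic_eq_minpoly hprim (by omega)]
    refine minpoly.isIntegrallyClosed_dvd (hprim.isIntegral (by omega)) ?_
    have h1 := congrArg (fun x : ℝ => (x : ℂ)) hm
    push_cast at h1
    simp only [th_hf hn] at h1
    rw [hF]
    simp only [map_sum, map_add, Polynomial.aeval_monomial]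
    rw [← h1]
    refine Finset.sum_congr rfl fun r _ => ?_
    simp
    ring
  obtain ⟨G, hG⟩ := hdvd
  let L : Polynomial ℤ →ₗ[ℤ] ZMod q := Polynomial.lsum fun k =>
    LinearMap.toSpanSingleton ℤ (ZMod q) ((V k : ℤ) : ZMod q)
  have hL : ∀ k a, L (Polynomial.monomial k a) = (a : ZMod q) * ((V k : ℤ) : ZMod q) := by
    intro k a
    simp only [L, Polynomial.lsum_apply]
    rw [Polynomial.sum_monomial_index]
    · simp
    · simp
  have hkill : ∀ G : Polynomial ℤ, L (Polynomial.cyclotomic (n + 1) ℤ * G) = 0 := by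
    intro G
    induction G using Polynomial.induction_on' with
    | add a b ha hb => rw [mul_add, map_add, ha, hb, add_zero]
    | monomial k a =>
      rw [hcyc, Finset.sum_mul, map_sum]
      have e : ∀ i ∈ Finset.range p, L ((Polynomial.X ^ P) ^ i * Polynomial.monomial k a) =
          (a : ZMod q) * ((V (k + P * i) : ℤ) : ZMod q) := by
        intro i _
        rw [← pow_mul, Polynomial.X_pow_mul_monomial, hL]
      rw [Finset.sum_congr rfl e, ← Finset.mul_sum]
      have h2 := hV k
      rw [← ZMod.intCast_zmod_eq_zero_iff_dvd] at h2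
      push_cast at h2
      rw [h2, mul_zero]
  have h3 : L F = 0 := by rw [hG, hkill]
  rw [hF, map_sum] at h3
  simp only [map_add, hL] at h3
  have h4 : (((2 : ℤ) * ∑ r, m r * (sg r * V (hf r)) : ℤ) : ZMod q) = 0 := by
    rw [← h3, Finset.mul_sum]
    push_cast
    refine Finset.sum_congr rfl fun r _ => ?_
    have h5 := hsym r
    rw [← ZMod.intCast_zmod_eq_zero_iff_dvd] at h5
    push_cast at h5
    rw [sub_eq_zero] at h5
    rw [h5]
    ring
  rw [ZMod.intCast_zmod_eq_zero_iff_dvd] at h4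
  have hcop : IsCoprime (q : ℤ) 2 := by
    rw [Int.isCoprime_iff_gcd_eq_one]
    have := hq.coprime_two_right
    simpa [Int.gcd] using this
  exact hcop.dvd_of_dvd_mul_left h4

theorem zpow_prod_eq_one {n q : ℕ} (hn : q ≠ 0) {ω : ℂ} (hω : IsPrimitiveRoot ω q) (e m : Fin n → ℤ)
    (h : (q : ℤ) ∣ ∑ r, m r * e r) : ∏ r, (ω ^ e r) ^ m r = 1 := by
  have hω0 := hω.ne_zero hn
  have e1 : ∀ r, (ω ^ e r) ^ m r = ω ^ (m r * e r) := fun r => by
    rw [← zpow_mul, mul_comm]
  simp only [e1]
  have e2 : ∀ s : Finset (Fin n), ∏ r ∈ s, ω ^ (m r * e r) = ω ^ (∑ r ∈ s, m r * e r) := by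
    intro s
    induction s using Finset.induction_on with
    | empty => simp
    | insert a s ha ih => rw [Finset.prod_insert ha, Finset.sum_insert ha, ih, zpow_add₀ hω0]
  rw [e2]
  exact (hω.zpow_eq_one_iff_dvd _).2 h

/-- The law for odd `n + 1`. -/
theorem odd_law {n p P q : ℕ} (hn : 4 ≤ n) (heven : Even n) (hp : Odd p) (hp1 : 1 < p) (hq : Odd q)
    (hq1 : 1 < q) (hqn : q ≤ n)
    (hcyc : Polynomial.cyclotomic (n + 1) ℤ = ∑ i ∈ Finset.range p, (Polynomial.X ^ P) ^ i)
    (V : ℕ → ℤ) (hV : ∀ j, (q : ℤ) ∣ ∑ i ∈ Finset.range p, V (j + P * i))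
    (hsym : ∀ r : Fin n, (q : ℤ) ∣ V (n + 1 - hf r) - V (hf r))
    (hinj : ∀ r s : Fin n, hf r ≠ hf s → ¬ (q : ℤ) ∣ V (hf r) - V (hf s)) : HasRankOne n := by
  have hqne : q ≠ 0 := by omega
  have hpne : p ≠ 0 := by omega
  set ω : ℂ := Complex.exp (2 * π * Complex.I / (q : ℂ)) with hω
  have hprim : IsPrimitiveRoot ω q := Complex.isPrimitiveRoot_exp _ hqne
  have hω0 := hprim.ne_zero hqne
  set U : ℂ := Complex.exp (2 * π * Complex.I / (p : ℂ)) with hU
  have hUprim : IsPrimitiveRoot U p := Complex.isPrimitiveRoot_exp _ hpne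
  have hU0 := hUprim.ne_zero hpne
  let W : Fin n → ℤ := fun r => sg r * V (hf r)
  let z : Fin q × Fin p → Fin n → ℂ := fun b r => U ^ ((b.2 : ℤ) * sg r) * ω ^ ((b.1 : ℤ) * W r)
  let b0 : Fin q := ⟨0, by omega⟩
  have hcard : (0 : ℝ) < p * (q - 1) := by
    have h1 : (1 : ℝ) < q := by exact_mod_cast hq1
    have h2 : (0 : ℝ) < p := by exact_mod_cast (by omega : 0 < p)
    have : (0 : ℝ) < q - 1 := by linarith
    positivity
  have hp0 : (0 : ℝ) < p := by exact_mod_cast (by omega : 0 < p)
  have hq0 : (0 : ℝ) < q - 1 := by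
    have h1 : (1 : ℝ) < q := by exact_mod_cast hq1
    linarith
  let w : Fin q × Fin p → ℝ := fun b => (1 - (if b.1 = b0 then 1 else 0)) / (p * (q - 1))
  have hsum : ∀ g : Fin q × Fin p → ℝ, ∑ b, w b * g b =
      (∑ a, ∑ u, g (a, u) - ∑ u, g (b0, u)) / (p * (q - 1)) := by
    intro g
    simp only [Fintype.sum_prod_type, w, div_mul_eq_mul_div, ← Finset.sum_div, sub_mul, one_mul,
      ite_mul, zero_mul, Finset.sum_sub_distrib]
    congr 2
    rw [Finset.sum_comm]
    exact Finset.sum_congr rfl fun u _ => by simp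
  have hsgsum : ∀ m : Fin n → ℤ, ∑ i, (m i : ℝ) * th n i = 0 → (p : ℤ) ∣ ∑ r, m r * sg r := by
    intro m hm
    have := relation_kill heven hp hcyc (fun _ => 1) (fun j => by simp) (fun r => by simp) m hm
    simpa using this
  refine criterion (by omega) w (fun b => ?_) ?_ z (fun b r => ?_) (fun b m hm => ?_)
    (c := 1 / (q - 1)) ?_ (fun r s hrs => ?_)
  · simp only [w]
    refine div_nonneg ?_ hcard.le
    split_ifs <;> norm_num
  · have := hsum (fun _ => 1)
    simp only [mul_one] at this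
    rw [this]
    simp only [Finset.sum_const, Finset.card_univ, Fintype.card_fin, nsmul_eq_mul, mul_one]
    rw [div_eq_one_iff_eq hcard.ne']
    ring
  · simp only [z]
    rw [norm_mul, norm_root hpne hUprim, norm_root hqne hprim, one_mul]
  · have h1 := zpow_prod_eq_one hpne hUprim (fun r => (b.2 : ℤ) * sg r) m (by
      have e : ∑ r, m r * ((b.2 : ℤ) * sg r) = (b.2 : ℤ) * ∑ r, m r * sg r := by
        rw [Finset.mul_sum]
        exact Finset.sum_congr rfl fun r _ => by ring
      rw [e]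
      exact Dvd.dvd.mul_left (hsgsum m hm) _)
    have h2 := zpow_prod_eq_one hqne hprim (fun r => (b.1 : ℤ) * W r) m (by
      have e : ∑ r, m r * ((b.1 : ℤ) * W r) = (b.1 : ℤ) * ∑ r, m r * (sg r * V (hf r)) := by
        rw [Finset.mul_sum]
        exact Finset.sum_congr rfl fun r _ => by simp only [W]; ring
      rw [e]
      exact Dvd.dvd.mul_left (relation_kill heven hq hcyc V hV hsym m hm) _)
    simp only [z, mul_zpow, Finset.prod_mul_distrib]
    rw [h1, h2, one_mul]
  · have hn' : (q : ℝ) ≤ n := by exact_mod_cast hqn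
    rw [div_lt_div_iff₀ (by linarith) hq0]
    linarith
  · rw [hsum]
    have e1 : ∀ b : Fin q × Fin p, z b r * (starRingEnd ℂ) (z b s) =
        U ^ ((b.2 : ℤ) * (sg r - sg s)) * ω ^ ((b.1 : ℤ) * (W r - W s)) := by
      intro b
      simp only [z]
      rw [map_mul, conj_root hqne hprim, conj_root hpne hUprim, mul_mul_mul_comm,
        ← zpow_add₀ hU0, ← zpow_add₀ hω0]
      congr 2 <;> ring
    have hr := r.2
    have hs := s.2
    obtain ⟨M, hM⟩ := heven
    by_cases hpar : (r : ℕ) % 2 = (s : ℕ) % 2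
    · have hs' : sg r - sg s = 0 := by
        simp only [sg, hpar, sub_self]
      have hE : E ((r : ℤ) - s) = 1 := by
        unfold E
        rw [if_pos]
        rw [Int.even_iff]
        omega
      have hhf : hf r ≠ hf s := by
        intro h
        simp only [hf] at h
        apply hrs
        apply Fin.ext
        split_ifs at h <;> omega
      have hdvd : ¬ (q : ℤ) ∣ W r - W s := by
        intro hd
        refine hinj r s hhf ?_
        have e : sg r = sg s := by omega
        simp only [W, e] at hd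
        rw [← mul_sub] at hd
        have hsq : sg s = 1 ∨ sg s = -1 := by
          unfold sg
          split_ifs <;> simp
        rcases hsq with h | h
        · rwa [h, one_mul] at hd
        · rw [h, neg_one_mul] at hd
          exact (dvd_neg.1 hd)
      have e2 : ∑ a : Fin q, ∑ u : Fin p, (z (a, u) r * (starRingEnd ℂ) (z (a, u) s)).re = 0 := by
        simp only [e1, hs', mul_zero, zpow_zero, one_mul, Finset.sum_const, Finset.card_univ,
          Fintype.card_fin, nsmul_eq_mul]
        rw [← Finset.mul_sum, ← Complex.re_sum, sum_zpow_eq_zero hprim hdvd, Complex.zero_re,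
          mul_zero]
      rw [e2, hE]
      simp only [e1, hs', mul_zero, zpow_zero, one_mul, b0, Nat.cast_zero, zero_mul, Complex.one_re,
        Finset.sum_const, Finset.card_univ, Fintype.card_fin, nsmul_eq_mul]
      field_simp
      ring
    · have hE : E ((r : ℤ) - s) = 0 := by
        unfold E
        rw [if_neg]
        rw [Int.even_iff]
        omega
      have hs' : sg r - sg s = 2 ∨ sg r - sg s = -2 := by
        simp only [sg]
        split_ifs <;> omega
      have hd2 : ¬ (p : ℤ) ∣ sg r - sg s := by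
        intro hd
        have : (p : ℤ) ∣ 2 := by
          rcases hs' with h | h <;> rw [h] at hd
          · exact hd
          · exact (dvd_neg.1 hd)
        have h3 : p ∣ 2 := by exact_mod_cast this
        have := Nat.le_of_dvd (by norm_num) h3
        obtain ⟨k, hk⟩ := hp
        omega
      have e2 : ∀ a : Fin q, ∑ u : Fin p, (z (a, u) r * (starRingEnd ℂ) (z (a, u) s)).re = 0 := by
        intro a
        rw [← Complex.re_sum]
        simp only [e1]
        rw [← Finset.sum_mul, sum_zpow_eq_zero hUprim hd2, zero_mul, Complex.zero_re]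
      simp only [e2, Finset.sum_const_zero, sub_zero, zero_div, hE, mul_zero]

end Pool.Agent.K7.H19.PM
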