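import Pool.Agent.K7.H19.PM.PPow

/-!
# The case that `n + 1` is a power of an odd prime: the labels
-/

set_option autoImplicit false

open Finset Real Pool.Agent.R667.MM

noncomputable section

namespace Pool.Agent.K7.H19.PM

/-- a function with sum zero over each full residue system modulo `p` -/
def ff (p t : ℤ) : ℤ := if p ∣ t then 1 - p else 1

/-- squares, corrected at the multiples of `p` -/
def aa (p : ℕ) (t : ℤ) : ℤ := if (p : ℤ) ∣ t then -∑ i ∈ Finset.range p, (i : ℤ) ^ 2 else t ^ 2

/-- the label in terms of the coordinates -/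
def Vct (p P : ℕ) (c t : ℤ) : ℤ :=
  if c = 0 then ((P : ℤ) - 2) * aa p t else ((P : ℤ) - 2) * (c.sign * t) + p * (|c| * ff p t)

/-- the label -/
def Vl (p P : ℕ) (x : ℤ) : ℤ := Vct p P (Int.bmod x P) ((x - Int.bmod x P) / P)

theorem coords {P : ℕ} (hP : Odd P) (x : ℤ) : ∃ c t : ℤ, x = c + P * t ∧ 2 * |c| < P := by
  obtain ⟨k, hk⟩ := hP
  refine ⟨(x + k) % P - k, (x + k) / P, ?_, ?_⟩
  · have := Int.emod_add_mul_ediv (x + k) P
    linarith
  · have h1 := Int.emod_nonneg (x + k) (by omega : (P : ℤ) ≠ 0)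
    have h2 := Int.emod_lt_of_pos (x + k) (by omega : (0 : ℤ) < P)
    have h3 : |(x + k) % (P : ℤ) - k| ≤ k := by
      rw [abs_le]
      constructor <;> omega
    omega

theorem Vl_eq {p P : ℕ} {c t : ℤ} (hc : 2 * |c| < P) : Vl p P (c + P * t) = Vct p P c t := by
  have hc' := abs_le.1 (show |c| ≤ |c| from le_refl _)
  have h1 : Int.bmod (c + P * t) P = c := by
    rw [Int.add_mul_bmod_self_left]
    exact Int.bmod_eq_of_le (by omega) (by omega)
  unfold Vl
  rw [h1, add_sub_cancel_left, Int.mul_ediv_cancel_left]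
  omega

theorem shift {M : Type*} [AddCommGroup M] (p : ℕ) (h : ℤ → M) (hper : ∀ x, h (x + p) = h x) (t : ℤ) :
    ∑ i ∈ Finset.range p, h (t + i) = ∑ i ∈ Finset.range p, h i := by
  have step : ∀ t : ℤ, ∑ i ∈ Finset.range p, h (t + 1 + i) = ∑ i ∈ Finset.range p, h (t + i) := by
    intro t
    have h1 := Finset.sum_range_succ (fun i : ℕ => h (t + i)) p
    have h2 := Finset.sum_range_succ' (fun i : ℕ => h (t + i)) p
    rw [h1, hper] at h2
    simp only [Nat.cast_zero, add_zero] at h2
    have h3 := add_right_cancel h2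
    rw [h3]
    refine Finset.sum_congr rfl fun i _ => ?_
    congr 1
    push_cast
    ring
  induction t using Int.induction_on with
  | zero => simp
  | succ k ih => rw [step, ih]
  | pred k ih =>
    rw [← ih, ← step]
    refine Finset.sum_congr rfl fun i _ => ?_
    congr 1
    ring

theorem dvd_small {p i : ℕ} (hi : i < p) : ((p : ℤ) ∣ (i : ℤ)) ↔ i = 0 := by
  constructor
  · intro h
    have h1 : p ∣ i := by exact_mod_cast h
    exact Nat.eq_zero_of_dvd_of_lt h1 hi
  · rintro rfl
    simp

theorem sum_ff {p : ℕ} (hp : 0 < p) (t : ℤ) : ∑ i ∈ Finset.range p, ff p (t + i) = 0 := by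
  rw [shift p (ff p) (fun x => by unfold ff; simp) t]
  have h1 : ∀ i ∈ Finset.range p, ff p i = 1 + (if i = 0 then -(p : ℤ) else 0) := by
    intro i hi
    unfold ff
    rw [Finset.mem_range] at hi
    simp only [dvd_small hi]
    split_ifs <;> ring
  rw [Finset.sum_congr rfl h1, Finset.sum_add_distrib, Finset.sum_ite_eq', if_pos (by simpa using hp)]
  simp

theorem sum_aa {p : ℕ} (hp : 0 < p) (t : ℤ) : (p : ℤ) ∣ ∑ i ∈ Finset.range p, aa p (t + i) := by
  rw [← ZMod.intCast_zmod_eq_zero_iff_dvd]
  push_cast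
  rw [shift p (fun x => ((aa p x : ℤ) : ZMod p)) (fun x => by
    unfold aa
    simp only [dvd_add_self_right]
    split_ifs <;> simp) t]
  have h1 : ∀ i ∈ Finset.range p, ((aa p i : ℤ) : ZMod p) =
      ((i : ℤ) ^ 2 : ℤ) + (if i = 0 then ((-∑ i ∈ Finset.range p, (i : ℤ) ^ 2 : ℤ) : ZMod p) else 0) := by
    intro i hi
    unfold aa
    rw [Finset.mem_range] at hi
    simp only [dvd_small hi]
    split_ifs with h
    · subst h; simp
    · simp
  rw [Finset.sum_congr rfl h1, Finset.sum_add_distrib, Finset.sum_ite_eq', if_pos (by simpa using hp)]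
  push_cast
  ring

section

variable {p P : ℕ}

theorem Vct_sum (hp : Odd p) (c t : ℤ) :
    ((p * (P - 2) : ℤ)) ∣ ∑ i ∈ Finset.range p, Vct p P c (t + i) := by
  have hp0 : 0 < p := hp.pos
  unfold Vct
  by_cases hc : c = 0
  · simp only [hc, if_true]
    rw [← Finset.mul_sum, mul_comm (p : ℤ)]
    exact mul_dvd_mul_left _ (sum_aa hp0 t)
  · simp only [hc, if_false]
    rw [Finset.sum_add_distrib, ← Finset.mul_sum, ← Finset.mul_sum, ← Finset.mul_sum, ← Finset.mul_sum,
      sum_ff hp0, mul_zero, mul_zero, add_zero, Finset.sum_add_distrib]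
    have h1 : (p : ℤ) ∣ ∑ i ∈ Finset.range p, (i : ℤ) := by
      obtain ⟨k, hk⟩ := hp
      have h2 := Finset.sum_range_id_mul_two p
      have h3 : (∑ i ∈ Finset.range p, i) = p * k := by
        have h4 : p - 1 = 2 * k := by omega
        rw [h4] at h2
        nlinarith
      refine ⟨k, ?_⟩
      have h5 := congrArg (Nat.cast : ℕ → ℤ) h3
      push_cast at h5
      exact h5
    rw [mul_comm (p : ℤ)]
    refine mul_dvd_mul_left _ (Dvd.dvd.mul_left ?_ _)
    refine dvd_add ?_ h1
    simp

theorem Vct_neg (c t : ℤ) : ((p * (P - 2) : ℤ)) ∣ Vct p P (-c) (p - t) - Vct p P c t := by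
  unfold Vct
  by_cases hc : c = 0
  · simp only [hc, neg_zero, if_true]
    rw [← mul_sub, mul_comm (p : ℤ)]
    refine mul_dvd_mul_left _ ?_
    unfold aa
    have e : ((p : ℤ) ∣ p - t) ↔ ((p : ℤ) ∣ t) := by
      constructor
      · intro h
        have := dvd_sub (dvd_refl (p : ℤ)) h
        simpa using this
      · intro h
        exact dvd_sub (dvd_refl _) h
    simp only [e]
    split_ifs
    · simp
    · exact ⟨p - 2 * t, by ring⟩
  · simp only [hc, neg_eq_zero, if_false, Int.sign_neg, abs_neg]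
    have e : ff p (p - t) = ff p t := by
      unfold ff
      have : ((p : ℤ) ∣ p - t) ↔ ((p : ℤ) ∣ t) := by
        constructor
        · intro h
          have := dvd_sub (dvd_refl (p : ℤ)) h
          simpa using this
        · intro h
          exact dvd_sub (dvd_refl _) h
      simp only [this]
    rw [e]
    exact ⟨-c.sign, by ring⟩

theorem eq_of_dvd_sub {a b : ℤ} {m : ℤ} (ha : 0 ≤ a) (hb : 0 ≤ b) (ha' : a < m) (hb' : b < m)
    (h : m ∣ a - b) : a = b := by
  have := Int.eq_zero_of_abs_lt_dvd h (by rw [abs_lt]; constructor <;> linarith)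
  linarith

/-- injectivity of the labels -/
theorem Vct_inj (hp : p.Prime) (hP5 : 5 ≤ P)
    (hcop : IsCoprime (p : ℤ) ((P : ℤ) - 2)) (hcop' : IsCoprime (1 - p : ℤ) ((P : ℤ) - 2))
    {c t c' t' : ℤ} (hc : 2 * |c| < P) (hc' : 2 * |c'| < P)
    (h0 : 0 < c + P * t) (h0' : 0 < c' + P * t') (h1 : 2 * (c + P * t) < p * P)
    (h1' : 2 * (c' + P * t') < p * P)
    (hd : ((p * (P - 2) : ℤ)) ∣ Vct p P c t - Vct p P c' t') : c + P * t = c' + P * t' := by
  have hpp : Prime (p : ℤ) := Nat.prime_iff_prime_int.1 hp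
  have hp0 : (0 : ℤ) < p := by exact_mod_cast hp.pos
  have hP0 : (0 : ℤ) < P := by exact_mod_cast (by omega : 0 < P)
  have hP2 : (0 : ℤ) < (P : ℤ) - 2 := by
    have : (5 : ℤ) ≤ P := by exact_mod_cast hP5
    linarith
  have hP5' : (5 : ℤ) ≤ P := by exact_mod_cast hP5
  -- decomposition into the two components
  have key : ∀ A B A' B' : ℤ, ((p * (P - 2) : ℤ)) ∣ (((P : ℤ) - 2) * A + p * B) -
      (((P : ℤ) - 2) * A' + p * B') → (p : ℤ) ∣ A - A' ∧ ((P : ℤ) - 2) ∣ B - B' := by
    intro A B A' B' h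
    constructor
    · have h2 : (p : ℤ) ∣ ((P : ℤ) - 2) * (A - A') := by
        have h3 := (Dvd.intro _ rfl : (p : ℤ) ∣ p * (P - 2)).trans h
        have h4 : (p : ℤ) ∣ p * (B - B') := Dvd.intro _ rfl
        have e : ((P : ℤ) - 2) * (A - A') = (((P : ℤ) - 2) * A + p * B) -
            (((P : ℤ) - 2) * A' + p * B') - p * (B - B') := by ring
        rw [e]
        exact dvd_sub h3 h4
      exact hcop.dvd_of_dvd_mul_left h2
    · have h2 : ((P : ℤ) - 2) ∣ (p : ℤ) * (B - B') := by
        have h3 := (Dvd.intro_left _ rfl : ((P : ℤ) - 2) ∣ p * (P - 2)).trans h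
        have h4 : ((P : ℤ) - 2) ∣ ((P : ℤ) - 2) * (A - A') := Dvd.intro _ rfl
        have e : (p : ℤ) * (B - B') = (((P : ℤ) - 2) * A + p * B) -
            (((P : ℤ) - 2) * A' + p * B') - ((P : ℤ) - 2) * (A - A') := by ring
        rw [e]
        exact dvd_sub h3 h4
      exact hcop.symm.dvd_of_dvd_mul_left h2
  have hff : ∀ t : ℤ, IsCoprime (ff p t) ((P : ℤ) - 2) := by
    intro t
    unfold ff
    split_ifs
    · exact hcop'
    · exact isCoprime_one_left
  have hnz : ∀ c t : ℤ, c ≠ 0 → 2 * |c| < P → ¬ ((P : ℤ) - 2) ∣ |c| * ff p t := by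
    intro c t hc0 hc hdv
    have h2 : ((P : ℤ) - 2) ∣ |c| := (hff t).symm.dvd_of_dvd_mul_right hdv
    have h3 := Int.le_of_dvd (abs_pos.2 hc0) h2
    omega
  have hself : ∀ t : ℤ, 0 < P * t → 2 * (P * t) < p * P → 0 < t ∧ 2 * t < p := by
    intro t h2 h3
    constructor
    · by_contra h3
      nlinarith
    · nlinarith
  unfold Vct at hd
  by_cases hc0 : c = 0
  · by_cases hc0' : c' = 0
    · subst hc0 hc0'
      simp only [if_true, zero_add] at hd h0 h0' h1 h1' ⊢
      obtain ⟨ht1, ht2⟩ := hself t h0 h1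
      obtain ⟨ht1', ht2'⟩ := hself t' h0' h1'
      have h2 := (key (aa p t) 0 (aa p t') 0 (by simpa using hd)).1
      have e : ∀ t : ℤ, 0 < t → 2 * t < p → aa p t = t ^ 2 := by
        intro t h3 h4
        unfold aa
        rw [if_neg]
        intro h5
        have := Int.le_of_dvd h3 h5
        omega
      rw [e t ht1 ht2, e t' ht1' ht2', sq_sub_sq] at h2
      rcases hpp.dvd_or_dvd h2 with h3 | h3
      · have := Int.le_of_dvd (by omega) h3
        omega
      · rw [eq_of_dvd_sub ht1.le ht1'.le (by omega) (by omega) h3]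
    · exfalso
      simp only [hc0, hc0', if_true, if_false] at hd
      have h2 := (key (aa p t) 0 (c'.sign * t') (|c'| * ff p t') (by simpa using hd)).2
      rw [zero_sub, dvd_neg] at h2
      exact hnz c' t' hc0' hc' h2
  · by_cases hc0' : c' = 0
    · exfalso
      simp only [hc0, hc0', if_true, if_false] at hd
      have h2 := (key (c.sign * t) (|c| * ff p t) (aa p t') 0 (by simpa using hd)).2
      rw [sub_zero] at h2
      exact hnz c t hc0 hc h2
    · simp only [hc0, hc0', if_false] at hd
      obtain ⟨h2, h3⟩ := key _ _ _ _ hd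
      have hsg : ∀ c : ℤ, c ≠ 0 → c.sign = 1 ∨ c.sign = -1 := by
        intro c hc
        rcases lt_or_gt_of_ne hc with h | h
        · right; exact Int.sign_eq_neg_one_of_neg h
        · left; exact Int.sign_eq_one_of_pos h
      have hpt : (p : ℤ) ∣ t ↔ (p : ℤ) ∣ t' := by
        rcases hsg c hc0 with h4 | h4 <;> rcases hsg c' hc0' with h5 | h5 <;> rw [h4, h5] at h2
        · rw [one_mul, one_mul] at h2
          exact (dvd_iff_dvd_of_dvd_sub h2)
        · have : (p : ℤ) ∣ t - (-t') := by convert h2 using 1; ring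
          rw [dvd_iff_dvd_of_dvd_sub this, dvd_neg]
        · have : (p : ℤ) ∣ (-t) - t' := by convert h2 using 1; ring
          rw [← dvd_iff_dvd_of_dvd_sub this, dvd_neg]
        · have : (p : ℤ) ∣ (-t) - (-t') := by convert h2 using 1; ring
          rw [← dvd_neg, dvd_iff_dvd_of_dvd_sub this, dvd_neg]
      have hfe : ff p t = ff p t' := by
        unfold ff
        simp only [hpt]
      rw [hfe, ← sub_mul] at h3
      have h6 : ((P : ℤ) - 2) ∣ |c| - |c'| := (hff t').symm.dvd_of_dvd_mul_right h3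
      have h7 : |c| = |c'| := eq_of_dvd_sub (abs_nonneg _) (abs_nonneg _) (by omega) (by omega) h6
      rcases abs_eq_abs.1 h7 with h8 | h8
      · subst h8
        have h9 : (p : ℤ) ∣ t - t' := by
          rcases hsg c hc0 with h4 | h4 <;> rw [h4] at h2
          · simpa using h2
          · rw [← dvd_neg]
            have e : -(t - t') = -1 * t - -1 * t' := by ring
            rw [e]
            exact h2
        obtain ⟨k, hk⟩ := h9
        have h10 : (p * P : ℤ) ∣ (c + P * t) - (c + P * t') := ⟨k, by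
          have : (c + P * t) - (c + P * t') = P * (t - t') := by ring
          rw [this, hk]; ring⟩
        exact eq_of_dvd_sub h0.le h0'.le (by linarith) (by linarith) h10
      · exfalso
        have h9 : (p : ℤ) ∣ t + t' := by
          rw [h8, Int.sign_neg] at h2
          rcases hsg c' hc0' with h4 | h4 <;> rw [h4] at h2
          · rw [← dvd_neg]
            have e : -(t + t') = -1 * t - 1 * t' := by ring
            rw [e]
            exact h2
          · have e : t + t' = - -1 * t - -1 * t' := by ring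
            rw [e]
            exact h2
        obtain ⟨k, hk⟩ := h9
        have h10 : (p * P : ℤ) ∣ (c + P * t) + (c' + P * t') := ⟨k, by
          have : (c + P * t) + (c' + P * t') = P * (t + t') := by rw [h8]; ring
          rw [this, hk]; ring⟩
        have := Int.le_of_dvd (by linarith) h10
        linarith

end

end Pool.Agent.K7.H19.PM
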