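import Pool.Agent.K7.H19.PM.PPow2

/-!
# The case that `n + 1` is a power of an odd prime
-/

set_option autoImplicit false

open Finset Real Pool.Agent.R667.MM

noncomputable section

namespace Pool.Agent.K7.H19.PM

theorem hf_pos {n : ℕ} (hn : Even n) (r : Fin n) : 0 < hf r ∧ 2 * hf r ≤ n := by
  obtain ⟨M, hM⟩ := hn
  have := r.2
  unfold hf
  split_ifs <;> omega

theorem ppow_large {p e n : ℕ} (hp : p.Prime) (hp2 : Odd p) (he : 1 ≤ e) (h5 : 5 ≤ p ^ e)
    (hN : n + 1 = p ^ (e + 1)) : HasRankOne n := by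
  set P := p ^ e with hP
  have hPodd : Odd P := hp2.pow
  have hNP : n + 1 = p * P := by rw [hN, pow_succ, mul_comm]
  have hp3 : 3 ≤ p := by
    have := hp.two_le
    obtain ⟨k, hk⟩ := hp2
    omega
  have hNodd : Odd (n + 1) := by rw [hNP]; exact hp2.mul hPodd
  have heven : Even n := by
    rcases Nat.even_or_odd n with h | h
    · exact h
    · exfalso
      obtain ⟨a, ha⟩ := hNodd
      obtain ⟨b, hb⟩ := h
      omega
  have hn15 : 15 ≤ n + 1 := by rw [hNP]; nlinarith
  have hcast : ((p * (P - 2) : ℕ) : ℤ) = p * ((P : ℤ) - 2) := by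
    rw [Nat.cast_mul, Nat.cast_sub (by omega)]
    rfl
  obtain ⟨k, hk⟩ : (p : ℤ) ∣ P := by
    have : p ∣ P := dvd_pow_self p (by omega)
    exact_mod_cast this
  have hcop : IsCoprime (p : ℤ) ((P : ℤ) - 2) := by
    have h2 : IsCoprime (p : ℤ) (-2) := by
      rw [IsCoprime.neg_right_iff, Int.isCoprime_iff_gcd_eq_one]
      have := hp2.coprime_two_right
      simpa [Int.gcd] using this
    have h3 := IsCoprime.add_mul_left_right h2 k
    rw [← hk] at h3
    have e1 : (P : ℤ) - 2 = -2 + P := by ring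
    rw [e1]
    exact h3
  have hcop' : IsCoprime (1 - p : ℤ) ((P : ℤ) - 2) := by
    have h3 : ((p : ℤ) - 1) ∣ (P : ℤ) - 1 := by
      have := sub_dvd_pow_sub_pow (p : ℤ) 1 e
      rw [one_pow] at this
      rw [hP]
      exact_mod_cast this
    obtain ⟨l, hl⟩ := h3
    exact ⟨-l, -1, by
      have : (P : ℤ) = 1 + (p - 1) * l := by linarith
      rw [this]; ring⟩
  have hsub : P - 2 + 2 = P := by omega
  refine odd_law (n := n) (p := p) (P := P) (q := p * (P - 2)) (by omega) heven hp2 (by omega)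
    (hp2.mul (by
      obtain ⟨a, ha⟩ := hPodd
      exact ⟨a - 1, by omega⟩)) ?_ ?_ ?_ (fun j => Vl p P (j : ℤ)) (fun j => ?_) (fun r => ?_)
    (fun r s hrs hd => ?_)
  · have : 3 ≤ P - 2 := by omega
    nlinarith
  · have : p * (P - 2) + 2 * p = n + 1 := by
      rw [hNP]
      conv_rhs => rw [← hsub]
      ring
    omega
  · rw [hN, Polynomial.cyclotomic_prime_pow_eq_geom_sum hp]
  · obtain ⟨c, t, hx, hc⟩ := coords hPodd (j : ℤ)
    rw [hcast]
    have e1 : ∀ i ∈ Finset.range p, Vl p P ((j + P * i : ℕ) : ℤ) = Vct p P c (t + i) := by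
      intro i _
      rw [← Vl_eq hc]
      congr 1
      push_cast
      rw [hx]
      ring
    rw [Finset.sum_congr rfl e1]
    exact Vct_sum hp2 c t
  · obtain ⟨c, t, hx, hc⟩ := coords hPodd (hf r : ℤ)
    have hle := (hf_pos heven r).2
    rw [hcast]
    have e1 : Vl p P ((n + 1 - hf r : ℕ) : ℤ) = Vct p P (-c) (p - t) := by
      rw [← Vl_eq (by rwa [abs_neg])]
      congr 1
      rw [Nat.cast_sub (by omega), hx, hNP]
      push_cast
      ring
    rw [e1, hx, Vl_eq hc]
    exact Vct_neg c t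
  · obtain ⟨c, t, hx, hc⟩ := coords hPodd (hf r : ℤ)
    obtain ⟨c', t', hx', hc'⟩ := coords hPodd (hf s : ℤ)
    have h1 := hf_pos heven r
    have h2 := hf_pos heven s
    have hNP' : (n : ℤ) + 1 = p * P := by exact_mod_cast hNP
    rw [hcast, hx, hx', Vl_eq hc, Vl_eq hc'] at hd
    apply hrs
    have h3 := Vct_inj hp h5 hcop hcop' hc hc' (by rw [← hx]; exact_mod_cast h1.1)
      (by rw [← hx']; exact_mod_cast h2.1) (by rw [← hx, ← hNP']; omega)
      (by rw [← hx', ← hNP']; omega) hd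
    rw [← hx, ← hx'] at h3
    exact_mod_cast h3

/-- the labels for `n = 8` -/
def V9 (j : ℕ) : ℤ := ([1, 1, 4, 2, 0, 0, 2, 4, 1] : List ℤ).getD (j % 9) 0

theorem case_nine : HasRankOne 8 := by
  have h9 : (8 + 1 : ℕ) = 3 ^ (1 + 1) := by norm_num
  refine odd_law (n := 8) (p := 3) (P := 3) (q := 5) (by norm_num) (by decide) (by decide)
    (by norm_num) (by decide) (by norm_num) (by norm_num) ?_ V9 (fun j => ?_) (by decide) (by decide)
  · rw [h9, Polynomial.cyclotomic_prime_pow_eq_geom_sum Nat.prime_three, pow_one]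
  · have key : ∀ a : Fin 9, (5 : ℤ) ∣ ∑ i ∈ Finset.range 3,
        ([1, 1, 4, 2, 0, 0, 2, 4, 1] : List ℤ).getD (((a : ℕ) + 3 * i) % 9) 0 := by decide
    have h1 := key ⟨j % 9, Nat.mod_lt _ (by norm_num)⟩
    simpa [V9, Nat.add_mod] using h1

/-- Powers of odd primes. -/
theorem ppow_case {p e n : ℕ} (hp : p.Prime) (hp2 : Odd p) (he : 1 ≤ e) (hN : n + 1 = p ^ (e + 1)) :
    HasRankOne n := by
  by_cases h5 : 5 ≤ p ^ e
  · exact ppow_large hp hp2 he h5 hN
  · have hp3 : 3 ≤ p := by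
      have := hp.two_le
      obtain ⟨k, hk⟩ := hp2
      omega
    have h1 : p ^ 1 ≤ p ^ e := Nat.pow_le_pow_right (by omega) he
    rw [pow_one] at h1
    have h2 : p ≠ 4 := by rintro rfl; revert hp; decide
    have hp' : p = 3 := by omega
    subst hp'
    have he1 : e = 1 := by
      by_contra hne
      have : 3 ^ 2 ≤ 3 ^ e := Nat.pow_le_pow_right (by norm_num) (by omega)
      omega
    subst he1
    have hn : n = 8 := by omega
    subst hn
    exact case_nine

end Pool.Agent.K7.H19.PM
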