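import Mathlib

/-!
# Relations between roots of unity in a field are long
-/

set_option autoImplicit false

open Finset

namespace Pool.Agent.K7.H19.PM2

section

variable {F : Type*} [Field F]

theorem geom_zero {p : ℕ} {ω : F} (hω : IsPrimitiveRoot ω p) (k : ℕ) (hk : ¬ p ∣ k) :
    ∑ t ∈ range p, ω ^ (t * k) = 0 := by
  have h1 : ω ^ k ≠ 1 := fun h => hk ((hω.pow_eq_one_iff_dvd k).1 h)
  have h2 := geom_sum_eq h1 p
  rw [← pow_mul, mul_comm k p, pow_mul, hω.pow_eq_one, one_pow, sub_self, zero_div] at h2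
  rw [← h2]
  refine sum_congr rfl fun t _ => ?_
  rw [mul_comm, pow_mul]

theorem fourier_inv {p : ℕ} {ω : F} (hω : IsPrimitiveRoot ω p) (C : ℕ → F) {i1 : ℕ} (hi1 : i1 < p)
    {t0 : ℕ} (ht0 : t0 < p) (hC : ∀ t < p, t ≠ t0 → ∑ i ∈ range p, C i * ω ^ (t * i) = 0) :
    (p : F) * C i1 = ω ^ (t0 * (p - i1)) * ∑ i ∈ range p, C i * ω ^ (t0 * i) := by
  have h1 : ∑ t ∈ range p, ω ^ (t * (p - i1)) * ∑ i ∈ range p, C i * ω ^ (t * i) =
      ω ^ (t0 * (p - i1)) * ∑ i ∈ range p, C i * ω ^ (t0 * i) := by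
    rw [sum_eq_single t0]
    · intro t ht htne
      rw [hC t (mem_range.1 ht) htne, mul_zero]
    · intro h
      exact absurd (mem_range.2 ht0) h
  rw [← h1]
  simp only [mul_sum]
  rw [sum_comm, sum_eq_single i1]
  · have : ∀ t ∈ range p, ω ^ (t * (p - i1)) * (C i1 * ω ^ (t * i1)) = C i1 := by
      intro t _
      have e : t * (p - i1) + t * i1 = p * t := by
        rw [← mul_add, Nat.sub_add_cancel hi1.le, mul_comm]
      calc ω ^ (t * (p - i1)) * (C i1 * ω ^ (t * i1))
          = C i1 * ω ^ (t * (p - i1) + t * i1) := by rw [pow_add]; ring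
        _ = C i1 := by rw [e, pow_mul, hω.pow_eq_one, one_pow, mul_one]
    rw [sum_congr rfl this, sum_const, card_range, nsmul_eq_mul]
  · intro i hi hne
    have hi' := mem_range.1 hi
    have : ∀ t ∈ range p, ω ^ (t * (p - i1)) * (C i * ω ^ (t * i)) = C i * ω ^ (t * (p - i1 + i)) := by
      intro t _
      rw [mul_add, pow_add]
      ring
    rw [sum_congr rfl this, ← mul_sum, geom_zero hω, mul_zero]
    intro hd
    have h3 : p - i1 + i < 2 * p := by omega
    have h4 : p - i1 + i ≠ p := by omega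
    have h5 : 0 < p - i1 + i := by omega
    obtain ⟨c, hc⟩ := hd
    rcases c with _ | _ | c
    · omega
    · omega
    · have : p * (c + 1 + 1) = p * c + 2 * p := by ring
      omega
  · intro h
    exact absurd (mem_range.2 hi1) h

theorem sum_range_mul' {M : Type*} [AddCommMonoid M] {p N' : ℕ} (hp : 0 < p) (f : ℕ → M) :
    ∑ j ∈ range (p * N'), f j = ∑ i ∈ range p, ∑ l ∈ range N', f (i + p * l) := by
  rw [← sum_product']
  refine sum_nbij' (fun j => (j % p, j / p)) (fun x => x.1 + p * x.2) ?_ ?_ ?_ ?_ ?_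
  · intro j hj
    rw [mem_product, mem_range, mem_range]
    exact ⟨Nat.mod_lt _ hp, Nat.div_lt_of_lt_mul (mem_range.1 hj)⟩
  · rintro ⟨i, l⟩ h
    rw [mem_product, mem_range, mem_range] at h
    rw [mem_range]
    obtain ⟨h1, h2⟩ := h
    simp only at h1 h2 ⊢
    calc i + p * l < p + p * l := by omega
      _ = p * (l + 1) := by ring
      _ ≤ p * N' := Nat.mul_le_mul_left _ h2
  · intro j _
    exact Nat.mod_add_div j p
  · rintro ⟨i, l⟩ h
    rw [mem_product, mem_range, mem_range] at h
    simp only at h ⊢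
    rw [Nat.add_mul_mod_self_left, Nat.mod_eq_of_lt h.1, Nat.add_mul_div_left _ _ hp,
      Nat.div_eq_of_lt h.1, zero_add]
  · intro j _
    rw [Nat.mod_add_div]

theorem short (P : ℕ) : ∀ N : ℕ, 0 < N → (∀ p, p.Prime → p ∣ N → P ≤ p) → ((N : F) ≠ 0) →
    ∀ g : F, IsPrimitiveRoot g N → ∀ m : ℕ → F,
    (∀ a : ℕ, a.Coprime N → ∑ j ∈ range N, m j * g ^ (a * j) = 0) →
    (∃ A : Finset ℕ, A.card < P ∧ ∀ j < N, m j ≠ 0 → j ∈ A) → ∀ j < N, m j = 0 := by
  intro N
  induction N using Nat.strong_induction_on with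
  | _ N IH =>
  intro hN hP hNF g hg m hm hA j hj
  obtain ⟨A, hA1, hA2⟩ := hA
  by_cases h1 : N = 1
  · subst h1
    have := hm 1 (by simp)
    rw [sum_range_one, mul_zero, pow_zero, mul_one] at this
    have hj0 : j = 0 := by omega
    rw [hj0]
    exact this
  set p := N.minFac with hpdef
  have hp : p.Prime := Nat.minFac_prime h1
  obtain ⟨N', hN'⟩ : p ∣ N := Nat.minFac_dvd N
  have hp0 : 0 < p := hp.pos
  have hN'0 : 0 < N' := by
    rcases Nat.eq_zero_or_pos N' with h | h
    · rw [h, mul_zero] at hN'; omega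
    · exact h
  have hlt : N' < N := by
    rw [hN']
    have := hp.two_le
    nlinarith
  have hpF : (p : F) ≠ 0 := by
    intro h
    apply hNF
    rw [hN', Nat.cast_mul, h, zero_mul]
  have hN'F : (N' : F) ≠ 0 := by
    intro h
    apply hNF
    rw [hN', Nat.cast_mul, h, mul_zero]
  have hg0 : g ≠ 0 := hg.ne_zero (by omega)
  have hPp : P ≤ p := hP p hp ⟨N', hN'⟩
  -- an empty class
  obtain ⟨i0, hi0, hi0'⟩ : ∃ i0 < p, ∀ l < N', m (i0 + p * l) = 0 := by
    by_contra hcon
    push Not at hcon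
    choose! L hL1 hL2 using hcon
    have : p ≤ A.card := by
      rw [← card_range p]
      refine card_le_card_of_injOn (fun i => i + p * L i) ?_ ?_
      · intro i hi
        have hi' := mem_range.1 (mem_coe.1 hi)
        refine hA2 _ ?_ (hL2 i hi')
        calc i + p * L i < p + p * L i := by omega
          _ = p * (L i + 1) := by ring
          _ ≤ p * N' := Nat.mul_le_mul_left _ (hL1 i hi')
          _ = N := hN'.symm
      · intro i hi i' hi' h
        have h2 := mem_range.1 (mem_coe.1 hi)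
        have h3 := mem_range.1 (mem_coe.1 hi')
        have := congrArg (· % p) h
        simpa [Nat.add_mul_mod_self_left, Nat.mod_eq_of_lt h2, Nat.mod_eq_of_lt h3] using this
    omega
  -- the exceptional shift
  obtain ⟨t0, ht0, ht0'⟩ : ∃ t0 < p, ∀ t < p, t ≠ t0 → ¬ p ∣ 1 + t * N' := by
    by_cases hex : ∃ t < p, p ∣ 1 + t * N'
    · obtain ⟨t0, ht0, hd⟩ := hex
      refine ⟨t0, ht0, fun t ht hne hd' => ?_⟩
      have h2 : (p : ℤ) ∣ ((t : ℤ) - t0) * N' := by
        have e1 : (p : ℤ) ∣ 1 + t * N' := by exact_mod_cast hd'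
        have e2 : (p : ℤ) ∣ 1 + t0 * N' := by exact_mod_cast hd
        have := dvd_sub e1 e2
        have e3 : ((t : ℤ) - t0) * N' = 1 + t * N' - (1 + t0 * N') := by ring
        rwa [e3]
      rcases (Nat.prime_iff_prime_int.1 hp).dvd_or_dvd h2 with h3 | h3
      · have h4 := Int.eq_zero_of_abs_lt_dvd h3 (by rw [abs_lt]; constructor <;> omega)
        omega
      · have h4 : p ∣ N' := by exact_mod_cast h3
        have h5 : p ∣ 1 := (Nat.dvd_add_left (Dvd.dvd.mul_left h4 t)).1 hd'
        exact hp.one_lt.ne' (Nat.dvd_one.1 h5)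
    · push Not at hex
      exact ⟨0, hp0, fun t ht _ => hex t ht⟩
  -- all slices vanish
  have hslice : ∀ a : ℕ, a.Coprime N → ∀ i < p, ∑ l ∈ range N', m (i + p * l) * (g ^ p) ^ (a * l) = 0 := by
    intro a ha i hi
    have haN : a.Coprime (p * N') := by rwa [← hN']
    set ω := g ^ (a * N') with hω
    have hωp : IsPrimitiveRoot ω p := by
      have e1 : IsPrimitiveRoot (g ^ N') p := hg.pow hN (by rw [hN', mul_comm])
      have e2 := e1.pow_of_coprime a (Nat.Coprime.coprime_mul_right_right haN)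
      rwa [← pow_mul, mul_comm] at e2
    let C : ℕ → F := fun i => ∑ l ∈ range N', m (i + p * l) * g ^ (a * (i + p * l))
    have hC : ∀ t < p, t ≠ t0 → ∑ i ∈ range p, C i * ω ^ (t * i) = 0 := by
      intro t ht htne
      have hc : (a * (1 + t * N')).Coprime N := by
        refine Nat.Coprime.mul_left ha ?_
        rw [hN']
        refine Nat.Coprime.mul_right ?_ ?_
        · exact ((Nat.Prime.coprime_iff_not_dvd hp).2 (ht0' t ht htne)).symm
        · exact (Nat.coprime_add_mul_right_left 1 N' t).2 (Nat.coprime_one_left N')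
      have h2 := hm _ hc
      rw [hN', sum_range_mul' hp0] at h2
      rw [← h2]
      refine sum_congr rfl fun i _ => ?_
      simp only [C]
      rw [sum_mul]
      refine sum_congr rfl fun l _ => ?_
      have e1 : ω ^ (t * i) = g ^ (a * (t * N') * (i + p * l)) := by
        have e2 : a * (t * N') * (i + p * l) = a * N' * (t * i) + (p * N') * (a * t * l) := by ring
        rw [e2, pow_add, pow_mul g (p * N'), ← hN', hg.pow_eq_one, one_pow, mul_one, hω, ← pow_mul]
      rw [e1, mul_assoc, ← pow_add]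
      congr 2
      ring
    have hf : ∑ i ∈ range p, C i * ω ^ (t0 * i) = 0 := by
      have h2 := fourier_inv hωp C hi0 ht0 hC
      have h3 : C i0 = 0 := by
        simp only [C]
        refine sum_eq_zero fun l hl => ?_
        rw [hi0' l (mem_range.1 hl), zero_mul]
      rw [h3, mul_zero] at h2
      rcases mul_eq_zero.1 h2.symm with h4 | h4
      · exact absurd h4 (pow_ne_zero _ (pow_ne_zero _ hg0))
      · exact h4
    have h2 := fourier_inv hωp C hi ht0 hC
    rw [hf, mul_zero] at h2
    have h3 : C i = 0 := (mul_eq_zero.1 h2).resolve_left hpF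
    have h4 : C i = g ^ (a * i) * ∑ l ∈ range N', m (i + p * l) * (g ^ p) ^ (a * l) := by
      simp only [C]
      rw [mul_sum]
      refine sum_congr rfl fun l _ => ?_
      rw [← pow_mul, mul_left_comm, ← pow_add]
      congr 2
      ring
    rw [h4] at h3
    exact (mul_eq_zero.1 h3).resolve_left (pow_ne_zero _ hg0)
  have hgp : IsPrimitiveRoot (g ^ p) N' := hg.pow hN hN'
  have key := IH N' hlt hN'0 (fun p' hp' hd => hP p' hp' (by rw [hN']; exact Dvd.dvd.mul_left hd p))
    hN'F (g ^ p) hgp (fun l => m (j % p + p * l)) (fun a' ha' => by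
      obtain ⟨a, ha, haa⟩ : ∃ a : ℕ, a.Coprime N ∧ (g ^ p) ^ a = (g ^ p) ^ a' := by
        by_cases hd : p ∣ a'
        · have hnd : ¬ p ∣ N' := by
            intro h
            have := Nat.dvd_gcd hd h
            rw [ha'] at this
            exact hp.one_lt.ne' (Nat.dvd_one.1 this)
          refine ⟨a' + N', ?_, ?_⟩
          · rw [hN']
            refine Nat.Coprime.mul_right ?_ ?_
            · refine ((Nat.Prime.coprime_iff_not_dvd hp).2 fun h => hnd ?_).symm
              exact (Nat.dvd_add_right hd).1 h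
            · simpa using ha'
          · rw [pow_add, hgp.pow_eq_one, mul_one]
        · refine ⟨a', ?_, rfl⟩
          rw [hN']
          exact Nat.Coprime.mul_right ((Nat.Prime.coprime_iff_not_dvd hp).2 hd).symm ha'
      rw [← hslice a ha (j % p) (Nat.mod_lt _ hp0)]
      refine sum_congr rfl fun l _ => ?_
      rw [pow_mul, pow_mul, haa]) ?_ (j / p) (Nat.div_lt_of_lt_mul (by rwa [← hN']))
  · rwa [Nat.mod_add_div] at key
  · refine ⟨A.image (fun x => x / p), lt_of_le_of_lt card_image_le hA1, fun l hl hne => ?_⟩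
    refine mem_image.2 ⟨j % p + p * l, hA2 _ ?_ hne, ?_⟩
    · have := Nat.mod_lt j hp0
      calc j % p + p * l < p + p * l := by omega
        _ = p * (l + 1) := by ring
        _ ≤ p * N' := Nat.mul_le_mul_left _ hl
        _ = N := hN'.symm
    · rw [Nat.add_mul_div_left _ _ hp0, Nat.div_eq_of_lt (Nat.mod_lt _ hp0), zero_add]

end

end Pool.Agent.K7.H19.PM2
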