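import Pool.Agent.K7.H19.PM.Short

/-!
# Relations between roots of unity of even order are long
-/

set_option autoImplicit false

open Finset

namespace Pool.Agent.K7.H19.PM2

section

variable {F : Type*} [Field F]

theorem short_even (P e m' : ℕ) (hm' : Odd m') (hP : ∀ p, p.Prime → p ∣ m' → P ≤ p)
    (hF : ((2 ^ e * m' : ℕ) : F) ≠ 0) {h : F} (hh : IsPrimitiveRoot h (2 * (2 ^ e * m'))) (μ : ℕ → F)
    (hμ : ∀ a : ℕ, a.Coprime (2 * (2 ^ e * m')) → ∑ x ∈ range (2 ^ e * m'), μ x * h ^ (a * x) = 0)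
    (hA : ∃ A : Finset ℕ, A.card < P ∧ ∀ j < 2 ^ e * m', μ j ≠ 0 → j ∈ A) :
    ∀ j < 2 ^ e * m', μ j = 0 := by
  intro j hj
  obtain ⟨A, hA1, hA2⟩ := hA
  set K := 2 ^ e with hK
  have hK0 : 0 < K := by positivity
  have hm0 : 0 < m' := hm'.pos
  have hN : 0 < 2 * (K * m') := by positivity
  have hKF : (K : F) ≠ 0 := by
    intro h0
    apply hF
    rw [Nat.cast_mul, h0, zero_mul]
  have hmF : (m' : F) ≠ 0 := by
    intro h0
    apply hF
    rw [Nat.cast_mul, h0, mul_zero]
  have hh0 : h ≠ 0 := hh.ne_zero (by omega)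
  -- slices
  have hslice : ∀ a : ℕ, a.Coprime (2 * (K * m')) → ∀ i < K,
      ∑ l ∈ range m', μ (i + K * l) * (h ^ K) ^ (a * l) = 0 := by
    intro a ha i hi
    set ω := h ^ (a * (2 * m')) with hω
    have haK : a.Coprime K := by
      have h1 : a.Coprime (K * m') := Nat.Coprime.coprime_mul_left_right ha
      exact Nat.Coprime.coprime_mul_right_right h1
    have hωp : IsPrimitiveRoot ω K := by
      have e1 : IsPrimitiveRoot (h ^ (2 * m')) K := hh.pow hN (by ring)
      have e2 := e1.pow_of_coprime a haK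
      rwa [← pow_mul, mul_comm] at e2
    let C : ℕ → F := fun i => ∑ l ∈ range m', μ (i + K * l) * h ^ (a * (i + K * l))
    have hC : ∀ t : ℕ, ∑ i ∈ range K, C i * ω ^ (t * i) = 0 := by
      intro t
      have hc : (a * (1 + t * (2 * m'))).Coprime (2 * (K * m')) := by
        refine Nat.Coprime.mul_left ha ?_
        have h2 : (1 + t * (2 * m')).Coprime 2 := by
          have : 1 + t * (2 * m') = 1 + (t * m') * 2 := by ring
          rw [this]
          exact (Nat.coprime_add_mul_right_left 1 2 (t * m')).2 (Nat.coprime_one_left 2)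
        have h3 : (1 + t * (2 * m')).Coprime m' := by
          have : 1 + t * (2 * m') = 1 + (t * 2) * m' := by ring
          rw [this]
          exact (Nat.coprime_add_mul_right_left 1 m' (t * 2)).2 (Nat.coprime_one_left m')
        refine Nat.Coprime.mul_right h2 (Nat.Coprime.mul_right ?_ h3)
        rw [hK]
        exact Nat.Coprime.pow_right e h2
      have h2 := hμ _ hc
      rw [sum_range_mul' hK0] at h2
      rw [← h2]
      refine sum_congr rfl fun i _ => ?_
      simp only [C]
      rw [sum_mul]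
      refine sum_congr rfl fun l _ => ?_
      have e1 : ω ^ (t * i) = h ^ (a * (t * (2 * m')) * (i + K * l)) := by
        have e2 : a * (t * (2 * m')) * (i + K * l) =
            a * (2 * m') * (t * i) + (2 * (K * m')) * (a * t * l) := by ring
        rw [e2, pow_add, pow_mul h (2 * (K * m')), hh.pow_eq_one, one_pow, mul_one, hω, ← pow_mul]
      rw [e1, mul_assoc, ← pow_add]
      congr 2
      ring
    have h2 := fourier_inv hωp C hi hK0 (fun t _ _ => hC t)
    rw [hC 0, mul_zero] at h2
    have h3 : C i = 0 := (mul_eq_zero.1 h2).resolve_left hKF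
    have h4 : C i = h ^ (a * i) * ∑ l ∈ range m', μ (i + K * l) * (h ^ K) ^ (a * l) := by
      simp only [C]
      rw [mul_sum]
      refine sum_congr rfl fun l _ => ?_
      rw [← pow_mul, mul_left_comm, ← pow_add]
      congr 2
      ring
    rw [h4] at h3
    exact (mul_eq_zero.1 h3).resolve_left (pow_ne_zero _ hh0)
  set u := h ^ K with hu
  have hup : IsPrimitiveRoot u (2 * m') := hh.pow hN (by ring)
  have humid : u ^ m' = -1 := by
    have e1 : (u ^ m' - 1) * (u ^ m' + 1) = 0 := by
      have : (u ^ m' - 1) * (u ^ m' + 1) = u ^ (2 * m') - 1 := by rw [two_mul, pow_add]; ring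
      rw [this, hup.pow_eq_one, sub_self]
    rcases mul_eq_zero.1 e1 with e2 | e2
    · exfalso
      have e3 := (hup.pow_eq_one_iff_dvd m').1 (sub_eq_zero.1 e2)
      have := Nat.le_of_dvd hm0 e3
      omega
    · exact eq_neg_of_add_eq_zero_left e2
  have hg : IsPrimitiveRoot (-u) m' := by
    refine ⟨by rw [hm'.neg_pow, humid, neg_neg], fun k hk => ?_⟩
    have e1 : u ^ (2 * k) = 1 := by
      have : (-u) ^ (2 * k) = 1 := by rw [mul_comm, pow_mul, hk, one_pow]
      rwa [(even_two_mul k).neg_pow] at this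
    have e2 := (hup.pow_eq_one_iff_dvd (2 * k)).1 e1
    exact Nat.dvd_of_mul_dvd_mul_left (by norm_num) e2
  have key := short P m' hm0 hP hmF (-u) hg (fun l => (-1) ^ l * μ (j % K + K * l)) (fun a' ha' => by
      obtain ⟨a, ha, hodd, haa⟩ : ∃ a : ℕ, a.Coprime (2 * (K * m')) ∧ Odd a ∧ (-u) ^ a = (-u) ^ a' := by
        obtain ⟨a, ham, hodd, haa⟩ : ∃ a : ℕ, a.Coprime m' ∧ Odd a ∧ (-u) ^ a = (-u) ^ a' := by
          rcases Nat.even_or_odd a' with he | ho
          · refine ⟨a' + m', by simpa using ha', he.add_odd hm', ?_⟩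
            rw [pow_add, hg.pow_eq_one, mul_one]
          · exact ⟨a', ha', ho, rfl⟩
        refine ⟨a, ?_, hodd, haa⟩
        have h2 : a.Coprime 2 := hodd.coprime_two_right
        refine Nat.Coprime.mul_right h2 (Nat.Coprime.mul_right ?_ ham)
        rw [hK]
        exact Nat.Coprime.pow_right e h2
      rw [← hslice a ha (j % K) (Nat.mod_lt _ hK0)]
      refine sum_congr rfl fun l _ => ?_
      have e1 : (-u) ^ (a' * l) = (-1) ^ l * u ^ (a * l) := by
        rw [pow_mul, ← haa, hodd.neg_pow, neg_pow, ← pow_mul]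
      rw [e1]
      have e2 : ((-1 : F) ^ l) * (-1) ^ l = 1 := by rw [← mul_pow]; simp
      calc (-1) ^ l * μ (j % K + K * l) * ((-1) ^ l * u ^ (a * l))
          = ((-1) ^ l * (-1) ^ l) * (μ (j % K + K * l) * u ^ (a * l)) := by ring
        _ = _ := by rw [e2, one_mul]) ?_ (j / K) (Nat.div_lt_of_lt_mul hj)
  · rw [Nat.mod_add_div] at key
    rcases mul_eq_zero.1 key with h1 | h1
    · exact absurd h1 (pow_ne_zero _ (by norm_num))
    · exact h1
  · refine ⟨A.image (fun x => x / K), lt_of_le_of_lt card_image_le hA1, fun l hl hne => ?_⟩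
    refine mem_image.2 ⟨j % K + K * l, hA2 _ ?_ (right_ne_zero_of_mul hne), ?_⟩
    · have := Nat.mod_lt j hK0
      calc j % K + K * l < K + K * l := by omega
        _ = K * (l + 1) := by ring
        _ ≤ K * m' := Nat.mul_le_mul_left _ hl
    · rw [Nat.add_mul_div_left _ _ hK0, Nat.div_eq_of_lt (Nat.mod_lt _ hK0), zero_add]

end

end Pool.Agent.K7.H19.PM2
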