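import Pool.Agent.K7.H19.PM.FreeMom

/-!
# A law with negative correlations
-/

set_option autoImplicit false

open Finset

noncomputable section

namespace Pool.Agent.K7.H19.PM2

section

variable {q : ℕ} [Fact q.Prime] {M : ℕ}

theorem av_perm (σ : Equiv.Perm (Fin M)) (f : (Fin M → ZMod q) → ℂ) :
    av (Fin M) (fun y => f (fun j => y (σ j))) = av (Fin M) f := by
  unfold av
  congr 1
  exact Equiv.sum_comp (Equiv.arrowCongr σ.symm (Equiv.refl (ZMod q))) f

/-- two-point function -/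
def E2 (q : ℕ) [Fact q.Prime] (M k : ℕ) (j l : Fin M) : ℂ :=
  av (q := q) (Fin M) (fun y => (∑ i, ch (y i)) ^ k * (starRingEnd ℂ) (∑ i, ch (y i)) ^ k *
    (ch (y j) * (starRingEnd ℂ) (ch (y l))))

theorem E2_perm (σ : Equiv.Perm (Fin M)) (k : ℕ) (j l : Fin M) :
    E2 q M k (σ j) (σ l) = E2 q M k j l := by
  unfold E2
  refine Eq.trans ?_ (av_perm σ (fun y => (∑ i, ch (y i)) ^ k * (starRingEnd ℂ) (∑ i, ch (y i)) ^ k *
    (ch (y j) * (starRingEnd ℂ) (ch (y l)))))
  refine av_congr fun y => ?_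
  have : ∑ i, ch (y (σ i)) = ∑ i, ch (y i) := Equiv.sum_comp σ (fun i => ch (y i))
  rw [this]

theorem E2_const (k : ℕ) {j l j' l' : Fin M} (h : j ≠ l) (h' : j' ≠ l') :
    E2 q M k j l = E2 q M k j' l' := by
  set x := Equiv.swap j j' l with hx
  have hxj : x ≠ j' := by
    intro h1
    apply h
    have : Equiv.swap j j' l = Equiv.swap j j' j := by rw [← hx, h1, Equiv.swap_apply_left]
    exact ((Equiv.swap j j').injective this).symm
  have e1 : (Equiv.swap j j' * 1) j = j' := by simp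
  have := E2_perm (q := q) (Equiv.swap x l' * Equiv.swap j j') k j l
  rw [Equiv.Perm.mul_apply, Equiv.Perm.mul_apply, Equiv.swap_apply_left, ← hx,
    Equiv.swap_apply_left, Equiv.swap_apply_of_ne_of_ne hxj.symm h'] at this
  exact this.symm

theorem E2_diag (k : ℕ) (j : Fin M) : E2 q M k j j = FM q k M := by
  unfold E2 FM
  refine av_congr fun y => ?_
  rw [Complex.mul_conj, Complex.normSq_eq_norm_sq, ch_norm]
  simp

theorem E2_sum (k : ℕ) : ∑ j : Fin M, ∑ l : Fin M, E2 q M k j l = FM q (k + 1) M := by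
  unfold E2 FM
  simp only [← av_sum]
  refine av_congr fun y => ?_
  simp only [← mul_sum]
  rw [pow_succ, pow_succ, map_sum, ← sum_mul]
  ring

theorem E2_val (k : ℕ) {j l : Fin M} (h : j ≠ l) :
    (M : ℂ) * ((M : ℂ) - 1) * E2 q M k j l = FM q (k + 1) M - M * FM q k M := by
  rw [← E2_sum]
  have h1 : ∀ j' : Fin M, ∑ l' : Fin M, E2 q M k j' l' = FM q k M + ((M : ℂ) - 1) * E2 q M k j l := by
    intro j'
    rw [← add_sum_erase univ _ (mem_univ j'), E2_diag]
    congr 1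
    have : ∀ l' ∈ univ.erase j', E2 q M k j' l' = E2 q M k j l := by
      intro l' hl'
      exact E2_const k (ne_of_mem_erase hl').symm h
    rw [sum_congr rfl this, sum_const, card_erase_of_mem (mem_univ _), card_univ, Fintype.card_fin,
      nsmul_eq_mul, Nat.cast_sub]
    · simp
    · have := j.2
      omega
  rw [sum_congr rfl fun j' _ => h1 j', sum_const, card_univ, Fintype.card_fin, nsmul_eq_mul]
  ring

theorem phase_av (hq : 2 < q) (k : ℕ) (j l : Fin M) :
    av (q := q) (Fin M) (fun y => (∑ i, ch (y i)) ^ k * (starRingEnd ℂ) (∑ i, ch (y i)) ^ k *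
      (ch (y j) * ch (y l))) = 0 := by
  set S := av (q := q) (Fin M) (fun y => (∑ i, ch (y i)) ^ k *
    (starRingEnd ℂ) (∑ i, ch (y i)) ^ k * (ch (y j) * ch (y l))) with hS
  have h1 : S = ch (2 : ZMod q) * S := by
    conv_lhs => rw [hS]
    conv_rhs => rw [hS, ← av_mul]
    unfold av
    congr 1
    rw [← Equiv.sum_comp (Equiv.addRight (fun _ : Fin M => (1 : ZMod q)))]
    refine sum_congr rfl fun y _ => ?_
    simp only [Equiv.coe_addRight, Pi.add_apply, ch_add]
    rw [← sum_mul, map_mul]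
    have h2 : ch (1 : ZMod q) * (starRingEnd ℂ) (ch (1 : ZMod q)) = 1 := by
      rw [Complex.mul_conj, Complex.normSq_eq_norm_sq, ch_norm]
      simp
    have h3 : ch (2 : ZMod q) = ch (1 : ZMod q) * ch (1 : ZMod q) := by
      rw [← ch_add]
      norm_num
    rw [h3]
    calc ((∑ i, ch (y i)) * ch 1) ^ k * ((starRingEnd ℂ) (∑ i, ch (y i)) * (starRingEnd ℂ) (ch 1)) ^ k *
          (ch (y j) * ch 1 * (ch (y l) * ch 1))
        = (ch (1 : ZMod q) * (starRingEnd ℂ) (ch (1 : ZMod q))) ^ k * (ch 1 * ch 1 *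
          ((∑ i, ch (y i)) ^ k * (starRingEnd ℂ) (∑ i, ch (y i)) ^ k * (ch (y j) * ch (y l)))) := by
          rw [mul_pow, mul_pow, mul_pow]; ring
      _ = _ := by rw [h2, one_pow, one_mul]
  have h2 : (1 - ch (2 : ZMod q)) * S = 0 := by rw [sub_mul, one_mul, ← h1, sub_self]
  rcases mul_eq_zero.1 h2 with h3 | h3
  · exfalso
    refine ch_ne_one (q := q) (x := 2) ?_ (sub_eq_zero.1 h3).symm
    intro h4
    have h5 : ((2 : ℕ) : ZMod q) = 0 := by exact_mod_cast h4
    rw [ZMod.natCast_eq_zero_iff] at h5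
    have := Nat.le_of_dvd (by norm_num) h5
    omega
  · exact h3

variable {A : Type} [Fintype A] [DecidableEq A]

/-- the density -/
def Gw (M : ℕ) (t : ℝ) : ℝ := (2 * t ^ 2 - 17 * M * t + 28 * M ^ 2) ^ 2

/-- its mass -/
def EG (M : ℕ) : ℝ := 322 * M ^ 4 - 77 * M ^ 3 + 56 * M ^ 2 - 132 * M

def EGt (M : ℕ) : ℝ := 134 * M ^ 5 - 161 * M ^ 4 + 1028 * M ^ 3 - 2656 * M ^ 2 + 1824 * M

theorem G_av (v : A → Fin M → ZMod q) (X : (A → ZMod q) → ℂ) :
    av A (fun y => (Gw M (Complex.normSq (∑ j, pt v y j)) : ℂ) * X y) =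
      4 * av A (fun y => (∑ j, pt v y j) ^ 4 * (starRingEnd ℂ) (∑ j, pt v y j) ^ 4 * X y)
      + (-68 * M) * av A (fun y => (∑ j, pt v y j) ^ 3 * (starRingEnd ℂ) (∑ j, pt v y j) ^ 3 * X y)
      + 401 * M ^ 2 * av A (fun y => (∑ j, pt v y j) ^ 2 * (starRingEnd ℂ) (∑ j, pt v y j) ^ 2 * X y)
      + (-952 * M ^ 3) * av A (fun y => (∑ j, pt v y j) ^ 1 * (starRingEnd ℂ) (∑ j, pt v y j) ^ 1 * X y)
      + 784 * M ^ 4 * av A (fun y => (∑ j, pt v y j) ^ 0 * (starRingEnd ℂ) (∑ j, pt v y j) ^ 0 * X y) := by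
  simp only [← av_mul, ← av_add]
  refine av_congr fun y => ?_
  unfold Gw
  push_cast
  rw [Complex.normSq_eq_conj_mul_self]
  ring

theorem law (v : A → Fin M → ZMod q) (hv : Ind v 10) (hq : 10 < q) (hM : 3 ≤ M) :
    ∃ (w : (A → ZMod q) → ℝ) (c : ℝ), (∀ y, 0 ≤ w y) ∧ ∑ y, w y = 1 ∧ 1 / (2 * (M : ℝ)) < c ∧
      (∀ j l, j ≠ l → ∑ y, w y * (pt v y j * (starRingEnd ℂ) (pt v y l)).re = -c) ∧
      (∀ j l, ∑ y, w y * (pt v y j * pt v y l).re = 0) := by
  have hM' : (3 : ℝ) ≤ M := by exact_mod_cast hM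
  have hEG : 0 < EG M := by
    unfold EG
    have h1 : (0 : ℝ) < M := by linarith
    have : 0 < (M : ℝ) * (322 * M ^ 3 - 77 * M ^ 2 + 56 * M - 132) := by
      apply mul_pos h1
      nlinarith [mul_nonneg (sub_nonneg.2 hM') (sq_nonneg (M : ℝ)), mul_self_nonneg ((M : ℝ) - 3)]
    linarith [this, (by ring : (M : ℝ) * (322 * M ^ 3 - 77 * M ^ 2 + 56 * M - 132) =
      322 * M ^ 4 - 77 * M ^ 3 + 56 * M ^ 2 - 132 * M)]
  have hcard : (0 : ℝ) < (Fintype.card (A → ZMod q) : ℝ) := by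
    have : 0 < Fintype.card (A → ZMod q) := Fintype.card_pos
    exact_mod_cast this
  let w : (A → ZMod q) → ℝ := fun y =>
    Gw M (Complex.normSq (∑ j, pt v y j)) / ((Fintype.card (A → ZMod q) : ℝ) * EG M)
  have hw : ∀ X : (A → ZMod q) → ℂ, ∑ y, w y * (X y).re =
      (av A (fun y => (Gw M (Complex.normSq (∑ j, pt v y j)) : ℂ) * X y)).re / EG M := by
    intro X
    unfold av
    rw [show ((Fintype.card (A → ZMod q) : ℂ)) = (((Fintype.card (A → ZMod q) : ℝ)) : ℂ) by simp,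
      Complex.div_ofReal_re, Complex.re_sum, div_div, sum_div]
    refine sum_congr rfl fun y _ => ?_
    rw [Complex.re_ofReal_mul]
    simp only [w]
    ring
  have hM0 : (M : ℂ) ≠ 0 := by
    have : M ≠ 0 := by omega
    exact_mod_cast this
  have hM1 : (M : ℂ) - 1 ≠ 0 := by
    intro h
    have h1 : (M : ℂ) = ((1 : ℕ) : ℂ) := by rw [Nat.cast_one]; exact sub_eq_zero.1 h
    have : M = 1 := by exact_mod_cast h1
    omega
  refine ⟨w, (1 - EGt M / (M * EG M)) / (M - 1), ?_, ?_, ?_, ?_, ?_⟩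
  · intro y
    simp only [w]
    unfold Gw
    positivity
  · have h1 := hw (fun _ => 1)
    have h2 : ∀ k, k ≤ 4 → av A (fun y => (∑ j, pt v y j) ^ k * (starRingEnd ℂ) (∑ j, pt v y j) ^ k * 1) =
        FM q k M := by
      intro k hk
      have := transfer hv k k [] [] (by simp; omega)
      simp only [List.map_nil, List.prod_nil, map_one, mul_one, pt_idv] at this
      simp only [mul_one]
      exact this
    rw [G_av, h2 4 (by norm_num), h2 3 (by norm_num), h2 2 (by norm_num), h2 1 (by norm_num),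
      h2 0 (by norm_num), FM0 (by omega), FM1 (by omega), FM2 (by omega), FM3 (by omega),
      FM4 (by omega)] at h1
    simp only [Complex.one_re, mul_one] at h1
    rw [h1]
    have h3 : (4 * (24 * (M : ℂ) ^ 4 - 72 * M ^ 3 + 82 * M ^ 2 - 33 * M) +
        -68 * M * (6 * M ^ 3 - 9 * M ^ 2 + 4 * M) + 401 * M ^ 2 * (2 * M ^ 2 - M) +
        -952 * M ^ 3 * M + 784 * M ^ 4) = ((EG M : ℝ) : ℂ) := by
      unfold EG
      push_cast
      ring
    rw [h3, Complex.ofReal_re]
    exact div_self hEG.ne'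
  · rw [div_lt_div_iff₀ (by linarith) (by linarith)]
    have h1 : (0 : ℝ) < M := by linarith
    have h2 : EGt M / (M * EG M) * (M * EG M) = EGt M := div_mul_cancel₀ _ (by positivity)
    set r := EGt M / (M * EG M) with hr
    have h3 : 2 * EGt M < (M + 1) * EG M := by
      unfold EG EGt
      have h4 : 0 < (M : ℝ) * (54 * M ^ 4 + 567 * M ^ 3 - 2077 * M ^ 2 + 5236 * M - 3780) := by
        apply mul_pos h1
        have h5 : 0 ≤ ((M : ℝ) - 3) := by linarith
        have h6 : 54 * (M : ℝ) ^ 4 + 567 * M ^ 3 - 2077 * M ^ 2 + 5236 * M - 3780 =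
          54 * ((M : ℝ) - 3) ^ 4 + 1215 * (M - 3) ^ 3 + 5942 * (M - 3) ^ 2 + 13915 * (M - 3) + 12918 - 0 + (
          54 * (M : ℝ) ^ 4 + 567 * M ^ 3 - 2077 * M ^ 2 + 5236 * M - 3780 - (54 * ((M : ℝ) - 3) ^ 4 + 1215 * (M - 3) ^ 3 + 5942 * (M - 3) ^ 2 + 13915 * (M - 3) + 12918)) := by ring
        nlinarith [pow_nonneg h5 2, pow_nonneg h5 3, pow_nonneg h5 4]
      nlinarith [h4]
    have h4 : r * (2 * M) < M + 1 := by
      have h5 : r * (2 * M) * EG M < (M + 1) * EG M := by nlinarith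
      exact lt_of_mul_lt_mul_right h5 hEG.le
    nlinarith
  · intro j l hjl
    rw [hw (fun y => pt v y j * (starRingEnd ℂ) (pt v y l))]
    have h2 : ∀ k, k ≤ 4 → av A (fun y => (∑ j, pt v y j) ^ k * (starRingEnd ℂ) (∑ j, pt v y j) ^ k *
        (pt v y j * (starRingEnd ℂ) (pt v y l))) = E2 q M k j l := by
      intro k hk
      have := transfer hv k k [j] [l] (by simp; omega)
      simp only [List.map_cons, List.map_nil, List.prod_cons, List.prod_nil, mul_one, pt_idv] at this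
      exact this
    rw [G_av, h2 4 (by norm_num), h2 3 (by norm_num), h2 2 (by norm_num), h2 1 (by norm_num),
      h2 0 (by norm_num)]
    have hq5 : 5 < q := by omega
    have hv4 := E2_val (q := q) 4 hjl
    have hv3 := E2_val (q := q) 3 hjl
    have hv2 := E2_val (q := q) 2 hjl
    have hv1 := E2_val (q := q) 1 hjl
    have hv0 := E2_val (q := q) 0 hjl
    rw [FM5 hq5, FM4 hq5] at hv4
    rw [FM4 hq5, FM3 hq5] at hv3
    rw [FM3 hq5, FM2 hq5] at hv2
    rw [FM2 hq5, FM1 hq5] at hv1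
    rw [zero_add, FM1 hq5, FM0 hq5] at hv0
    have h3 : (4 * E2 q M 4 j l + -68 * M * E2 q M 3 j l + 401 * M ^ 2 * E2 q M 2 j l +
        -952 * M ^ 3 * E2 q M 1 j l + 784 * M ^ 4 * E2 q M 0 j l) =
        (((EGt M - M * EG M) / (M * (M - 1)) : ℝ) : ℂ) := by
      push_cast
      rw [eq_div_iff (mul_ne_zero hM0 hM1)]
      unfold EG EGt
      push_cast
      linear_combination 4 * hv4 - 68 * M * hv3 + 401 * M ^ 2 * hv2 - 952 * M ^ 3 * hv1 +
        784 * M ^ 4 * hv0
    rw [h3, Complex.ofReal_re]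
    have h4 : (M : ℝ) ≠ 0 := by linarith
    have h5 : (M : ℝ) - 1 ≠ 0 := by linarith
    have h6 := hEG.ne'
    field_simp
    ring
  · intro j l
    rw [hw (fun y => pt v y j * pt v y l)]
    have h2 : ∀ k, k ≤ 4 → av A (fun y => (∑ j, pt v y j) ^ k * (starRingEnd ℂ) (∑ j, pt v y j) ^ k *
        (pt v y j * pt v y l)) = 0 := by
      intro k hk
      have := transfer hv k k [j, l] [] (by simp; omega)
      simp only [List.map_cons, List.map_nil, List.prod_cons, List.prod_nil, mul_one, pt_idv,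
        map_one] at this
      rw [this]
      exact phase_av (by omega) k j l
    rw [G_av, h2 4 (by norm_num), h2 3 (by norm_num), h2 2 (by norm_num), h2 1 (by norm_num),
      h2 0 (by norm_num)]
    simp

end

end Pool.Agent.K7.H19.PM2
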